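import Mathlib

section
/-!
The self-interaction energy of a charged path.
-/
set_option autoImplicit false
set_option linter.unusedSectionVars false

namespace Pool.Agent.Lib.MP_5acba2_pr

open Finset Function

variable {V ι : Type*} [DecidableEq V] [DecidableEq ι]

/-- The interaction between two sets of letters. -/
noncomputable def Cr (J K : Finset ι) (ω : ι → ℝ) (x : ι → V) : ℝ :=
  ∑ i ∈ J, ∑ j ∈ K, if x i = x j then ω i * ω j else 0

/-- The energy (sum of squared site charges) of a set of letters. -/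
noncomputable def En (J : Finset ι) (ω : ι → ℝ) (x : ι → V) : ℝ := Cr J J ω x

/-- The charge at a site. -/
noncomputable def Qs (J : Finset ι) (ω : ι → ℝ) (x : ι → V) (z : V) : ℝ :=
  ∑ i ∈ J, if x i = z then ω i else 0

theorem Cr_eq_sum (J K : Finset ι) (ω : ι → ℝ) (x : ι → V) {Z : Finset V}
    (hZ : ∀ i ∈ J, x i ∈ Z) : Cr J K ω x = ∑ z ∈ Z, Qs J ω x z * Qs K ω x z := by
  unfold Cr Qs
  simp_rw [Finset.sum_mul_sum]
  symm
  rw [Finset.sum_comm]
  apply Finset.sum_congr rfl
  intro i hi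
  rw [Finset.sum_comm]
  apply Finset.sum_congr rfl
  intro j _
  rw [Finset.sum_eq_single (x i)]
  · by_cases h : x i = x j
    · simp [h]
    · have h' : ¬ x j = x i := fun hh => h hh.symm
      simp [h, h']
  · intro z _ hz
    rw [if_neg (fun h => hz h.symm), zero_mul]
  · intro h
    exact absurd (hZ i hi) h

theorem En_eq_sum (J : Finset ι) (ω : ι → ℝ) (x : ι → V) :
    En J ω x = ∑ z ∈ J.image x, Qs J ω x z ^ 2 := by
  unfold En
  rw [Cr_eq_sum J J ω x (Z := J.image x) (fun i hi => Finset.mem_image_of_mem x hi)]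
  apply Finset.sum_congr rfl
  intro z _
  ring

theorem En_nonneg (J : Finset ι) (ω : ι → ℝ) (x : ι → V) : 0 ≤ En J ω x := by
  rw [En_eq_sum]
  exact Finset.sum_nonneg fun z _ => sq_nonneg _

theorem Cr_comm (J K : Finset ι) (ω : ι → ℝ) (x : ι → V) : Cr J K ω x = Cr K J ω x := by
  unfold Cr
  rw [Finset.sum_comm]
  apply Finset.sum_congr rfl
  intro i _
  apply Finset.sum_congr rfl
  intro j _
  by_cases h : x j = x i
  · rw [if_pos h, if_pos h.symm, mul_comm]
  · rw [if_neg h, if_neg (fun h' => h h'.symm)]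

theorem Cr_sq_le (J K : Finset ι) (ω : ι → ℝ) (x : ι → V) :
    Cr J K ω x ^ 2 ≤ En J ω x * En K ω x := by
  set Z := (J ∪ K).image x with hZ
  have h1 : Cr J K ω x = ∑ z ∈ Z, Qs J ω x z * Qs K ω x z :=
    Cr_eq_sum J K ω x fun i hi => Finset.mem_image_of_mem x (Finset.mem_union_left _ hi)
  have h2 : En J ω x = ∑ z ∈ Z, Qs J ω x z * Qs J ω x z :=
    Cr_eq_sum J J ω x fun i hi => Finset.mem_image_of_mem x (Finset.mem_union_left _ hi)
  have h3 : En K ω x = ∑ z ∈ Z, Qs K ω x z * Qs K ω x z :=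
    Cr_eq_sum K K ω x fun i hi => Finset.mem_image_of_mem x (Finset.mem_union_right _ hi)
  rw [h1, h2, h3]
  have h4 := Finset.sum_mul_sq_le_sq_mul_sq Z (fun z => Qs J ω x z) (fun z => Qs K ω x z)
  simpa [sq] using h4

theorem Cr_le_sqrt (J K : Finset ι) (ω : ι → ℝ) (x : ι → V) :
    |Cr J K ω x| ≤ √(En J ω x * En K ω x) := by
  apply Real.abs_le_sqrt
  exact Cr_sq_le J K ω x

theorem Cr_union_left {J K : Finset ι} (h : Disjoint J K) (L : Finset ι) (ω : ι → ℝ)
    (x : ι → V) : Cr (J ∪ K) L ω x = Cr J L ω x + Cr K L ω x :=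
  Finset.sum_union h

theorem Cr_union_right {J K : Finset ι} (h : Disjoint J K) (L : Finset ι) (ω : ι → ℝ)
    (x : ι → V) : Cr L (J ∪ K) ω x = Cr L J ω x + Cr L K ω x := by
  rw [Cr_comm, Cr_union_left h, Cr_comm J, Cr_comm K]

theorem En_union {J K : Finset ι} (h : Disjoint J K) (ω : ι → ℝ) (x : ι → V) :
    En (J ∪ K) ω x = En J ω x + 2 * Cr J K ω x + En K ω x := by
  unfold En
  rw [Cr_union_left h, Cr_union_right h, Cr_union_right h, Cr_comm K J]
  ring

theorem Cr_eq_zero {J K : Finset ι} {ω : ι → ℝ} {x : ι → V}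
    (h : ∀ i ∈ J, ∀ j ∈ K, x i ≠ x j) : Cr J K ω x = 0 := by
  unfold Cr
  apply Finset.sum_eq_zero
  intro i hi
  apply Finset.sum_eq_zero
  intro j hj
  rw [if_neg (h i hi j hj)]

theorem Cr_abs_le_card {J K : Finset ι} {ω : ι → ℝ} (hω : ∀ i, |ω i| ≤ 1) (x : ι → V) :
    |Cr J K ω x| ≤ (((J ×ˢ K).filter (fun p => x p.1 = x p.2)).card : ℝ) := by
  have h1 : Cr J K ω x = ∑ p ∈ J ×ˢ K, if x p.1 = x p.2 then ω p.1 * ω p.2 else 0 := by
    unfold Cr
    rw [Finset.sum_product]
  rw [h1, ← Finset.sum_filter]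
  refine (Finset.abs_sum_le_sum_abs _ _).trans ?_
  calc ∑ p ∈ (J ×ˢ K).filter (fun p => x p.1 = x p.2), |ω p.1 * ω p.2|
      ≤ ∑ _p ∈ (J ×ˢ K).filter (fun p => x p.1 = x p.2), (1 : ℝ) := by
        apply Finset.sum_le_sum
        intro p _
        rw [abs_mul]
        exact mul_le_one₀ (hω _) (abs_nonneg _) (hω _)
    _ = _ := by simp

/-- Bound by multiplicities. -/
theorem En_le_mult {J : Finset ι} {ω : ι → ℝ} (hω : ∀ i, |ω i| ≤ 1) {x : ι → V} {D : ℕ}
    (hD : ∀ z, (J.filter (fun i => x i = z)).card ≤ D) : En J ω x ≤ D * J.card := by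
  have h1 : En J ω x ≤ (((J ×ˢ J).filter (fun p => x p.1 = x p.2)).card : ℝ) :=
    (le_abs_self _).trans (Cr_abs_le_card hω x)
  refine h1.trans ?_
  have h2 : ((J ×ˢ J).filter (fun p => x p.1 = x p.2)).card ≤ D * J.card := by
    have h3 : ((J ×ˢ J).filter (fun p => x p.1 = x p.2)).card =
        ∑ i ∈ J, (J.filter (fun j => x j = x i)).card := by
      rw [Finset.card_filter, Finset.sum_product]
      apply Finset.sum_congr rfl
      intro i _
      rw [Finset.card_filter]
      apply Finset.sum_congr rfl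
      intro j _
      by_cases h : x i = x j
      · simp [h]
      · have h' : ¬ x j = x i := fun hh => h hh.symm
        simp [h, h']
    rw [h3]
    calc ∑ i ∈ J, (J.filter (fun j => x j = x i)).card ≤ ∑ _i ∈ J, D :=
          Finset.sum_le_sum fun i _ => hD (x i)
      _ = D * J.card := by rw [Finset.sum_const, smul_eq_mul, mul_comm]
  exact_mod_cast h2

theorem Cr_congr {J K : Finset ι} {ω ω' : ι → ℝ} {x x' : ι → V}
    (h1 : ∀ i ∈ J, ω i = ω' i) (h2 : ∀ i ∈ K, ω i = ω' i)
    (h3 : ∀ i ∈ J, x i = x' i) (h4 : ∀ i ∈ K, x i = x' i) : Cr J K ω x = Cr J K ω' x' := by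
  unfold Cr
  apply Finset.sum_congr rfl
  intro i hi
  apply Finset.sum_congr rfl
  intro j hj
  rw [h1 i hi, h2 j hj, h3 i hi, h4 j hj]

theorem En_congr {J : Finset ι} {ω ω' : ι → ℝ} {x x' : ι → V}
    (h1 : ∀ i ∈ J, ω i = ω' i) (h3 : ∀ i ∈ J, x i = x' i) : En J ω x = En J ω' x' :=
  Cr_congr h1 h1 h3 h3

theorem En_congr_iff {W : Type*} [DecidableEq W] {J : Finset ι} {ω ω' : ι → ℝ} {x : ι → V}
    {x' : ι → W} (h1 : ∀ i ∈ J, ω i = ω' i)
    (h2 : ∀ i ∈ J, ∀ j ∈ J, (x i = x j ↔ x' i = x' j)) : En J ω x = En J ω' x' := by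
  unfold En Cr
  apply Finset.sum_congr rfl
  intro i hi
  apply Finset.sum_congr rfl
  intro j hj
  rw [h1 i hi, h1 j hj]
  by_cases h : x i = x j
  · rw [if_pos h, if_pos ((h2 i hi j hj).1 h)]
  · rw [if_neg h, if_neg (fun h' => h ((h2 i hi j hj).2 h'))]

/-- Injective relabelling of the sites. -/
theorem En_comp {W : Type*} [DecidableEq W] (J : Finset ι) (ω : ι → ℝ) (x : ι → V)
    {φ : V → W} (hφ : Injective φ) : En J ω (fun i => φ (x i)) = En J ω x := by
  unfold En Cr
  simp only [hφ.eq_iff]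

/-- Reindexing the letters. -/
theorem En_image {κ : Type*} [DecidableEq κ] {J : Finset κ} {e : κ → ι} (he : Set.InjOn e J) (ω : ι → ℝ) (x : ι → V) :
    En (J.image e) ω x = En J (fun i => ω (e i)) (fun i => x (e i)) := by
  unfold En Cr
  rw [Finset.sum_image he]
  apply Finset.sum_congr rfl
  intro i _
  rw [Finset.sum_image he]

/-- The energy after adding letters. -/
theorem En_union_le {J K : Finset ι} (h : Disjoint J K) (ω : ι → ℝ) (x : ι → V) :
    En (J ∪ K) ω x ≤ En J ω x + 2 * √(En J ω x * En K ω x) + En K ω x := by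
  rw [En_union h]
  have := (le_abs_self _).trans (Cr_le_sqrt J K ω x)
  linarith

end Pool.Agent.Lib.MP_5acba2_pr
end

section
/-!
Nearest neighbour paths and the partition function.
-/
set_option autoImplicit false
set_option linter.unusedSectionVars false

namespace Pool.Agent.Lib.MP_5acba2_pr

open Finset Function

variable {V σ : Type*} [AddCommGroup V] [DecidableEq V] [Fintype σ] (st : σ → V)

/-- The position after `i` steps. -/
def pos {k : ℕ} (s : Fin k → σ) (i : ℕ) : V := ∑ j : Fin k, if j.val < i then st (s j) else 0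

theorem pos_zero {k : ℕ} (s : Fin k → σ) : pos st s 0 = 0 := by
  simp [pos]

theorem pos_succ {k : ℕ} (s : Fin k → σ) {i : ℕ} (hi : i < k) :
    pos st s (i + 1) = pos st s i + st (s ⟨i, hi⟩) := by
  unfold pos
  rw [← Finset.sum_erase_add _ _ (Finset.mem_univ (⟨i, hi⟩ : Fin k))]
  rw [← Finset.sum_erase_add (s := Finset.univ) (a := (⟨i, hi⟩ : Fin k))
    (f := fun j : Fin k => if j.val < i then st (s j) else 0) (Finset.mem_univ _)]
  simp only [lt_add_iff_pos_right, Nat.lt_one_iff, pos_of_gt, if_true, lt_irrefl, if_false,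
    add_zero]
  congr 1
  apply Finset.sum_congr rfl
  intro j hj
  have hne : j.val ≠ i := fun h => (Finset.ne_of_mem_erase hj) (Fin.ext h)
  by_cases h : j.val < i
  · rw [if_pos h, if_pos (by omega)]
  · rw [if_neg h, if_neg (by omega)]

theorem pos_succ_of_ge {k : ℕ} (s : Fin k → σ) {i : ℕ} (hi : k ≤ i) :
    pos st s (i + 1) = pos st s i := by
  unfold pos
  apply Finset.sum_congr rfl
  intro j _
  have := j.isLt
  rw [if_pos (by omega), if_pos (by omega)]

theorem pos_injective (hst : Injective st) (k : ℕ) :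
    Injective (fun s : Fin k → σ => pos st s) := by
  intro s s' h
  ext j
  have h1 := congrFun h (j.val + 1)
  have h2 := congrFun h j.val
  dsimp only at h1 h2
  rw [pos_succ st s j.isLt, pos_succ st s' j.isLt, h2] at h1
  exact hst (add_left_cancel h1)

open Classical in
/-- The set of nearest neighbour paths with `N` letters, started at the origin. -/
noncomputable def paths (N : ℕ) : Finset (ℕ → V) :=
  Finset.univ.image (fun s : Fin (N - 1) → σ => pos st s)

theorem mem_paths_iff {N : ℕ} {x : ℕ → V} :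
    x ∈ paths st N ↔ x 0 = 0 ∧ (∀ i, i + 1 < N → ∃ a, x (i + 1) = x i + st a) ∧
      ∀ i, N ≤ i + 1 → x (i + 1) = x i := by
  classical
  unfold paths
  rw [Finset.mem_image]
  constructor
  · rintro ⟨s, _, rfl⟩
    refine ⟨pos_zero st s, ?_, ?_⟩
    · intro i hi
      exact ⟨s ⟨i, by omega⟩, pos_succ st s (by omega)⟩
    · intro i hi
      exact pos_succ_of_ge st s (by omega)
  · rintro ⟨h0, h1, h2⟩
    choose a ha using h1
    refine ⟨fun j => a j.val (by have := j.isLt; omega), Finset.mem_univ _, ?_⟩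
    ext i
    induction i with
    | zero => rw [pos_zero, h0]
    | succ i ih =>
      by_cases hi : i + 1 < N
      · rw [pos_succ st _ (show i < N - 1 by omega), ih, ha i hi]
      · rw [pos_succ_of_ge st _ (by omega), ih, h2 i (by omega)]

theorem card_paths (hst : Injective st) (N : ℕ) :
    (paths st N).card = Fintype.card σ ^ (N - 1) := by
  classical
  unfold paths
  rw [Finset.card_image_of_injective _ (pos_injective st hst _)]
  simp

theorem sum_paths (hst : Injective st) (N : ℕ) (g : (ℕ → V) → ℝ) :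
    ∑ x ∈ paths st N, g x = ∑ s : Fin (N - 1) → σ, g (pos st s) := by
  classical
  unfold paths
  rw [Finset.sum_image]
  intro s _ s' _ h
  exact pos_injective st hst _ h

/-- The normalised partition function of `N` letters. -/
noncomputable def Zf (b : ℝ) (N : ℕ) (ω : ℕ → ℝ) : ℝ :=
  ((Fintype.card σ : ℝ) ^ (N - 1))⁻¹ *
    ∑ x ∈ paths st N, Real.exp (-(b * En (range N) ω x))

/-- The truncated partition function. -/
noncomputable def Zt (b : ℝ) (N : ℕ) (ω : ℕ → ℝ) (T : ℝ) : ℝ :=
  ((Fintype.card σ : ℝ) ^ (N - 1))⁻¹ *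
    ∑ x ∈ (paths st N).filter (fun x => b * En (range N) ω x ≤ T),
      Real.exp (-(b * En (range N) ω x))

variable [Nonempty σ]

theorem card_pos' : (0 : ℝ) < Fintype.card σ := by
  exact_mod_cast Fintype.card_pos

theorem Zf_le_one (hst : Injective st) {b : ℝ} (hb : 0 ≤ b) (N : ℕ) (ω : ℕ → ℝ) :
    Zf st b N ω ≤ 1 := by
  have hc : (0 : ℝ) < (Fintype.card σ : ℝ) ^ (N - 1) := pow_pos card_pos' _
  unfold Zf
  rw [inv_mul_le_iff₀ hc, mul_one]
  calc ∑ x ∈ paths st N, Real.exp (-(b * En (range N) ω x)) ≤ ∑ _x ∈ paths st N, (1 : ℝ) := by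
        apply Finset.sum_le_sum
        intro x _
        rw [Real.exp_le_one_iff]
        have := mul_nonneg hb (En_nonneg (range N) ω x)
        linarith
    _ = (Fintype.card σ : ℝ) ^ (N - 1) := by
        rw [Finset.sum_const, card_paths st hst]
        simp

theorem Zf_pos (b : ℝ) (N : ℕ) (ω : ℕ → ℝ) : 0 < Zf st b N ω := by
  have hc : (0 : ℝ) < (Fintype.card σ : ℝ) ^ (N - 1) := pow_pos card_pos' _
  unfold Zf
  apply mul_pos (inv_pos.2 hc)
  apply Finset.sum_pos (fun x _ => Real.exp_pos _)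
  unfold paths
  classical
  exact Finset.image_nonempty.2 Finset.univ_nonempty

theorem Zf_le_Zt (hst : Injective st) (b : ℝ) (N : ℕ) (ω : ℕ → ℝ) (T : ℝ) :
    Zf st b N ω ≤ Zt st b N ω T + Real.exp (-T) := by
  have hc : (0 : ℝ) < (Fintype.card σ : ℝ) ^ (N - 1) := pow_pos card_pos' _
  unfold Zf Zt
  rw [← Finset.sum_filter_add_sum_filter_not (paths st N)
    (fun x => b * En (range N) ω x ≤ T), mul_add]
  refine add_le_add le_rfl ?_
  rw [inv_mul_le_iff₀ hc]
  calc ∑ x ∈ (paths st N).filter (fun x => ¬ b * En (range N) ω x ≤ T),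
        Real.exp (-(b * En (range N) ω x))
      ≤ ∑ _x ∈ (paths st N).filter (fun x => ¬ b * En (range N) ω x ≤ T), Real.exp (-T) := by
        apply Finset.sum_le_sum
        intro x hx
        have := (Finset.mem_filter.1 hx).2
        push Not at this
        apply Real.exp_le_exp.2
        linarith
    _ ≤ ∑ _x ∈ paths st N, Real.exp (-T) :=
        Finset.sum_le_sum_of_subset_of_nonneg (Finset.filter_subset _ _)
          (fun _ _ _ => Real.exp_nonneg _)
    _ = (Fintype.card σ : ℝ) ^ (N - 1) * Real.exp (-T) := by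
        rw [Finset.sum_const, card_paths st hst]
        simp

/-- Straight paths. -/
def straight (v : V) (N : ℕ) (i : ℕ) : V := (min i (N - 1)) • v

theorem straight_mem (e : σ) (N : ℕ) : straight (st e) N ∈ paths st N := by
  rw [mem_paths_iff]
  refine ⟨by simp [straight], ?_, ?_⟩
  · intro i hi
    refine ⟨e, ?_⟩
    unfold straight
    rw [min_eq_left (by omega), min_eq_left (by omega), succ_nsmul]
  · intro i hi
    unfold straight
    rw [min_eq_right (by omega), min_eq_right (by omega)]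

theorem En_straight {ω : ℕ → ℝ} (hω : ∀ i, |ω i| ≤ 1) {v : V}
    (hv : Injective (fun k : ℕ => k • v)) (N : ℕ) : En (range N) ω (straight v N) ≤ N := by
  have := En_le_mult (J := range N) hω (x := straight v N) (D := 1) (by
    intro z
    rw [Finset.card_le_one]
    intro i hi j hj
    simp only [Finset.mem_filter, Finset.mem_range] at hi hj
    have h1 : straight v N i = straight v N j := hi.2.trans hj.2.symm
    unfold straight at h1
    have h2 := hv h1
    rw [min_eq_left (by omega), min_eq_left (by omega)] at h2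
    exact h2)
  simpa using this

theorem Zf_ge (e : σ) (hv : Injective (fun k : ℕ => k • st e)) {b : ℝ} (hb : 0 ≤ b) {N : ℕ}
    {ω : ℕ → ℝ} (hω : ∀ i, |ω i| ≤ 1) :
    Real.exp (-((Real.log (Fintype.card σ) + b) * N)) ≤ Zf st b N ω := by
  have hc : (0 : ℝ) < (Fintype.card σ : ℝ) ^ (N - 1) := pow_pos card_pos' _
  have h1 : Real.exp (-(b * N)) ≤ ∑ x ∈ paths st N, Real.exp (-(b * En (range N) ω x)) := by
    calc Real.exp (-(b * N)) ≤ Real.exp (-(b * En (range N) ω (straight (st e) N))) := by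
          apply Real.exp_le_exp.2
          have := mul_le_mul_of_nonneg_left (En_straight hω hv N) hb
          linarith
      _ ≤ _ := Finset.single_le_sum (f := fun x => Real.exp (-(b * En (range N) ω x)))
          (fun _ _ => Real.exp_nonneg _) (straight_mem st e N)
  unfold Zf
  have h2 : Real.exp (-(Real.log (Fintype.card σ) * N)) ≤ ((Fintype.card σ : ℝ) ^ (N - 1))⁻¹ := by
    rw [Real.exp_neg]
    apply inv_anti₀ hc
    rw [mul_comm, Real.exp_nat_mul, Real.exp_log card_pos']
    apply pow_le_pow_right₀ _ (Nat.sub_le _ _)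
    exact_mod_cast Fintype.card_pos
  calc Real.exp (-((Real.log (Fintype.card σ) + b) * N))
      = Real.exp (-(Real.log (Fintype.card σ) * N)) * Real.exp (-(b * N)) := by
        rw [← Real.exp_add]; congr 1; ring
    _ ≤ _ := mul_le_mul h2 h1 (Real.exp_nonneg _) (inv_nonneg.2 hc.le)

/-- Truncation at a suitable level loses at most a factor `2`. -/
theorem half_Zf_le_Zt (hst : Injective st) (e : σ) (hv : Injective (fun k : ℕ => k • st e))
    {b : ℝ} (hb : 0 ≤ b) {N : ℕ} {ω : ℕ → ℝ} (hω : ∀ i, |ω i| ≤ 1) {T : ℝ}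
    (hT : Real.log 2 + (Real.log (Fintype.card σ) + b) * N ≤ T) :
    Zf st b N ω / 2 ≤ Zt st b N ω T := by
  have h1 := Zf_le_Zt st hst b N ω T
  have h2 := Zf_ge st e hv hb hω (N := N)
  have h3 : Real.exp (-T) ≤ Zf st b N ω / 2 := by
    calc Real.exp (-T) ≤ Real.exp (-(Real.log 2 + (Real.log (Fintype.card σ) + b) * N)) :=
          Real.exp_le_exp.2 (by linarith)
      _ = Real.exp (-((Real.log (Fintype.card σ) + b) * N)) / 2 := by
          rw [neg_add, Real.exp_add, Real.exp_neg (Real.log 2), Real.exp_log (by norm_num)]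
          ring
      _ ≤ _ := by linarith
  linarith

end Pool.Agent.Lib.MP_5acba2_pr
end

section
/-!
Appending letters to a path.
-/
set_option autoImplicit false
set_option linter.unusedSectionVars false

namespace Pool.Agent.Lib.MP_5acba2_pr

open Finset Function

variable {V σ : Type*} [AddCommGroup V] [DecidableEq V] [Fintype σ] (st : σ → V)

/-- Append a straight piece of `r` letters. -/
def appPath (v : V) (m r : ℕ) (x : ℕ → V) (i : ℕ) : V :=
  if i < m then x i else x (m - 1) + (min (i - m + 1) r) • v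

theorem appPath_mem (e : σ) {m r : ℕ} (hm : 1 ≤ m) {x : ℕ → V} (hx : x ∈ paths st m) :
    appPath (st e) m r x ∈ paths st (m + r) := by
  rw [mem_paths_iff] at hx ⊢
  obtain ⟨h0, h1, h2⟩ := hx
  refine ⟨?_, ?_, ?_⟩
  · unfold appPath
    rw [if_pos (by omega), h0]
  · intro i hi
    by_cases him : i + 1 < m
    · obtain ⟨a, ha⟩ := h1 i him
      refine ⟨a, ?_⟩
      unfold appPath
      rw [if_pos him, if_pos (by omega), ha]
    · refine ⟨e, ?_⟩
      by_cases him' : i < m
      · have him2 : i = m - 1 := by omega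
        unfold appPath
        rw [if_neg him, if_pos him', him2]
        have : min (m - 1 + 1 - m + 1) r = 1 := by omega
        rw [this, one_nsmul]
      · unfold appPath
        rw [if_neg him, if_neg him']
        have h3 : min (i + 1 - m + 1) r = min (i - m + 1) r + 1 := by omega
        rw [h3, succ_nsmul, add_assoc]
  · intro i hi
    by_cases him : i < m
    · -- `r = 0`, `i = m - 1`
      have hr : r = 0 := by omega
      subst hr
      unfold appPath
      rw [if_neg (by omega), if_pos him]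
      have : i = m - 1 := by omega
      simp [this]
    · unfold appPath
      rw [if_neg (by omega), if_neg him]
      have h3 : min (i + 1 - m + 1) r = min (i - m + 1) r := by omega
      rw [h3]

theorem appPath_injOn (v : V) {m r : ℕ} :
    Set.InjOn (appPath v m r) (paths st m : Set (ℕ → V)) := by
  intro x hx y hy h
  rw [Finset.mem_coe, mem_paths_iff] at hx hy
  have h1 : ∀ i, i < m → x i = y i := by
    intro i hi
    have := congrFun h i
    unfold appPath at this
    rwa [if_pos hi, if_pos hi] at this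
  ext i
  induction i with
  | zero => rw [hx.1, hy.1]
  | succ i ih =>
    by_cases hi : i + 1 < m
    · exact h1 _ hi
    · rw [hx.2.2 i (by omega), hy.2.2 i (by omega), ih]

theorem En_appPath {ω : ℕ → ℝ} (hω : ∀ i, |ω i| ≤ 1) {v : V}
    (hv : Injective (fun k : ℕ => k • v)) (m r : ℕ) (x : ℕ → V) :
    En (range (m + r)) ω (appPath v m r x) ≤
      En (range m) ω x + 2 * √(En (range m) ω x * r) + r := by
  have hsplit : range (m + r) = range m ∪ Ico m (m + r) := by
    ext i; simp only [mem_range, mem_union, mem_Ico]; omega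
  have hdis : Disjoint (range m) (Ico m (m + r)) := by
    rw [Finset.disjoint_left]
    intro i hi hi'
    rw [mem_range] at hi
    rw [mem_Ico] at hi'
    omega
  have h1 : En (range m) ω (appPath v m r x) = En (range m) ω x := by
    apply En_congr (fun _ _ => rfl)
    intro i hi
    unfold appPath
    rw [if_pos (mem_range.1 hi)]
  have h2 : En (Ico m (m + r)) ω (appPath v m r x) ≤ r := by
    have := En_le_mult (J := Ico m (m + r)) hω (x := appPath v m r x) (D := 1) (by
      intro z
      rw [Finset.card_le_one]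
      intro i hi j hj
      simp only [Finset.mem_filter, Finset.mem_Ico] at hi hj
      have h3 := hi.2.trans hj.2.symm
      unfold appPath at h3
      rw [if_neg (by omega), if_neg (by omega)] at h3
      have h4 := hv (add_left_cancel h3)
      omega)
    simpa using this
  rw [hsplit]
  refine (En_union_le hdis ω _).trans ?_
  rw [h1]
  have h3 : √(En (range m) ω x * En (Ico m (m + r)) ω (appPath v m r x)) ≤
      √(En (range m) ω x * r) :=
    Real.sqrt_le_sqrt (mul_le_mul_of_nonneg_left h2 (En_nonneg _ _ _))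
  linarith

variable [Nonempty σ]

/-- Sums over injections between path sets. -/
theorem sum_le_sum_of_inj {A B : Type*} {s : Finset A} {t : Finset B} {φ : A → B}
    (hφ : ∀ a ∈ s, φ a ∈ t) (hinj : Set.InjOn φ s) {g : A → ℝ} {h : B → ℝ}
    (hh : ∀ b ∈ t, 0 ≤ h b) (hle : ∀ a ∈ s, g a ≤ h (φ a)) : ∑ a ∈ s, g a ≤ ∑ b ∈ t, h b := by
  classical
  calc ∑ a ∈ s, g a ≤ ∑ a ∈ s, h (φ a) := Finset.sum_le_sum hle
    _ = ∑ b ∈ s.image φ, h b := (Finset.sum_image hinj).symm
    _ ≤ ∑ b ∈ t, h b := by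
        apply Finset.sum_le_sum_of_subset_of_nonneg
        · intro b hb
          obtain ⟨a, ha, rfl⟩ := Finset.mem_image.1 hb
          exact hφ a ha
        · intro b hb _
          exact hh b hb

theorem Zt_append (hst : Injective st) (e : σ) (hv : Injective (fun k : ℕ => k • st e))
    {b : ℝ} (hb : 0 ≤ b) {m r : ℕ} (hm : 1 ≤ m) {ω : ℕ → ℝ} (hω : ∀ i, |ω i| ≤ 1) {T : ℝ}
    (hT : 0 ≤ T) :
    ((Fintype.card σ : ℝ) ^ r)⁻¹ * Real.exp (-(2 * √(T * (b * r)) + b * r)) * Zt st b m ω T ≤
      Zf st b (m + r) ω := by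
  have hc : ∀ k : ℕ, (0 : ℝ) < (Fintype.card σ : ℝ) ^ k := fun k => pow_pos card_pos' _
  unfold Zt Zf
  have hexp : m + r - 1 = (m - 1) + r := by omega
  rw [hexp, pow_add, mul_inv]
  have hmain : Real.exp (-(2 * √(T * (b * r)) + b * r)) *
      ∑ x ∈ (paths st m).filter (fun x => b * En (range m) ω x ≤ T),
        Real.exp (-(b * En (range m) ω x)) ≤
      ∑ x ∈ paths st (m + r), Real.exp (-(b * En (range (m + r)) ω x)) := by
    rw [Finset.mul_sum]
    apply sum_le_sum_of_inj (φ := appPath (st e) m r)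
    · intro x hx
      exact appPath_mem st e hm (Finset.mem_filter.1 hx).1
    · intro x hx y hy h
      exact appPath_injOn st (st e) (Finset.mem_filter.1 hx).1 (Finset.mem_filter.1 hy).1 h
    · intro x _
      exact Real.exp_nonneg _
    · intro x hx
      have hxT := (Finset.mem_filter.1 hx).2
      rw [← Real.exp_add]
      apply Real.exp_le_exp.2
      have h1 := mul_le_mul_of_nonneg_left (En_appPath hω hv m r x) hb
      have h2 : b * √(En (range m) ω x * r) ≤ √(T * (b * r)) := by
        apply Real.le_sqrt_of_sq_le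
        rw [mul_pow, Real.sq_sqrt (mul_nonneg (En_nonneg _ _ _) (Nat.cast_nonneg _))]
        calc b ^ 2 * (En (range m) ω x * r) = (b * En (range m) ω x) * (b * r) := by ring
          _ ≤ T * (b * r) := mul_le_mul_of_nonneg_right hxT (by positivity)
      linarith
  calc ((Fintype.card σ : ℝ) ^ r)⁻¹ * Real.exp (-(2 * √(T * (b * r)) + b * r)) *
        (((Fintype.card σ : ℝ) ^ (m - 1))⁻¹ *
          ∑ x ∈ (paths st m).filter (fun x => b * En (range m) ω x ≤ T),
            Real.exp (-(b * En (range m) ω x)))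
      = (((Fintype.card σ : ℝ) ^ (m - 1))⁻¹ * ((Fintype.card σ : ℝ) ^ r)⁻¹) *
        (Real.exp (-(2 * √(T * (b * r)) + b * r)) *
          ∑ x ∈ (paths st m).filter (fun x => b * En (range m) ω x ≤ T),
            Real.exp (-(b * En (range m) ω x))) := by ring
    _ ≤ _ := mul_le_mul_of_nonneg_left hmain
        (mul_nonneg (inv_nonneg.2 (hc _).le) (inv_nonneg.2 (hc _).le))

/-- The append inequality. -/
theorem log_Zf_append (hst : Injective st) (e : σ) (hv : Injective (fun k : ℕ => k • st e))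
    {b : ℝ} (hb : 0 ≤ b) (m r : ℕ) {ω : ℕ → ℝ} (hω : ∀ i, |ω i| ≤ 1) {L K : ℝ}
    (hL : L = Real.log (Fintype.card σ)) (hK : K = 1 + L + b) :
    Real.log (Zf st b m ω) - (L + 1 + b + 2 * √(K * b)) * (r + √(r * m)) ≤
      Real.log (Zf st b (m + r) ω) := by
  have hL0 : 0 ≤ L := by
    rw [hL]
    apply Real.log_nonneg
    exact_mod_cast Fintype.card_pos
  have hK1 : 1 ≤ K := by rw [hK]; linarith
  rcases Nat.eq_zero_or_pos r with hr | hr
  · subst hr
    simp
  rcases Nat.eq_zero_or_pos m with hm | hm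
  · subst hm
    have h1 := Zf_ge st e hv hb hω (N := r)
    have h2 : Real.log (Zf st b 0 ω) ≤ 0 := Real.log_nonpos (Zf_pos st b 0 ω).le
      (Zf_le_one st hst hb 0 ω)
    have h3 := (Real.le_log_iff_exp_le (Zf_pos st b r ω)).2 h1
    rw [zero_add, ← hL] at *
    have h4 : (0 : ℝ) ≤ r := Nat.cast_nonneg _
    have h5 : (0 : ℝ) ≤ √(K * b) := Real.sqrt_nonneg _
    simp only [Nat.cast_zero, mul_zero, Real.sqrt_zero, add_zero]
    nlinarith [mul_nonneg h5 h4]
  · have hr1 : (1 : ℝ) ≤ r := by exact_mod_cast hr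
    have hm1 : (1 : ℝ) ≤ m := by exact_mod_cast hm
    set T : ℝ := K * m with hT
    have hT0 : 0 ≤ T := by positivity
    have hlog2 : Real.log 2 ≤ 1 := by
      have := Real.log_two_lt_d9
      linarith
    have h1 := Zt_append st hst e hv hb (r := r) hm hω hT0
    have h2 := half_Zf_le_Zt st hst e hv hb (N := m) hω (T := T) (by
      rw [hT, hK, ← hL]
      nlinarith)
    have hc : (0 : ℝ) < (Fintype.card σ : ℝ) ^ r := pow_pos card_pos' _
    have h3 : ((Fintype.card σ : ℝ) ^ r)⁻¹ * Real.exp (-(2 * √(T * (b * r)) + b * r)) *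
        (Zf st b m ω / 2) ≤ Zf st b (m + r) ω :=
      (mul_le_mul_of_nonneg_left h2 (mul_nonneg (inv_nonneg.2 hc.le) (Real.exp_nonneg _))).trans h1
    have hZpos := Zf_pos st b m ω
    have h4 := Real.log_le_log (by positivity) h3
    rw [Real.log_mul (by positivity) (by positivity), Real.log_mul (by positivity) (by positivity),
      Real.log_inv, Real.log_pow, Real.log_exp, Real.log_div hZpos.ne' (by norm_num), ← hL] at h4
    have h5 : √(T * (b * r)) = √(K * b) * √(r * m) := by
      rw [← Real.sqrt_mul (by positivity), hT]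
      congr 1
      ring
    rw [h5] at h4
    have h6 : (0 : ℝ) ≤ √(K * b) := Real.sqrt_nonneg _
    have h7 : (0 : ℝ) ≤ √((r : ℝ) * m) := Real.sqrt_nonneg _
    have h8 : 0 ≤ √(K * b) * r := by positivity
    have h9 : 0 ≤ (L + 1 + b) * √((r : ℝ) * m) := by positivity
    nlinarith

end Pool.Agent.Lib.MP_5acba2_pr
end

section
/-!
Families of bridges with a common span, in dimension one.
-/
set_option autoImplicit false
set_option linter.unusedSectionVars false

namespace Pool.Agent.Lib.MP_5acba2_pr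

open Finset Function

/-- The unit steps on the integers. -/
def st1 (a : Bool) : ℤ := if a then 1 else -1

theorem st1_injective : Injective st1 := by
  intro a b h
  cases a <;> cases b <;> simp_all [st1]

theorem exists_st1 {u v : ℤ} : (∃ a, v = u + st1 a) ↔ v = u + 1 ∨ v = u - 1 := by
  constructor
  · rintro ⟨a, ha⟩
    cases a
    · right; simp [st1] at ha; linarith
    · left; simpa [st1] using ha
  · rintro (h | h)
    · exact ⟨true, by simpa [st1] using h⟩
    · exact ⟨false, by simp [st1]; linarith⟩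

theorem mem_paths1 {N : ℕ} {x : ℕ → ℤ} :
    x ∈ paths st1 N ↔ x 0 = 0 ∧ (∀ i, i + 1 < N → x (i + 1) = x i + 1 ∨ x (i + 1) = x i - 1) ∧
      ∀ i, N ≤ i + 1 → x (i + 1) = x i := by
  rw [mem_paths_iff]
  simp only [exists_st1]

theorem paths_ext {N : ℕ} {x y : ℕ → ℤ} (hx : x ∈ paths st1 N) (hy : y ∈ paths st1 N)
    (h : ∀ i < N, x i = y i) : x = y := by
  rw [mem_paths1] at hx hy
  ext i
  induction i with
  | zero => rw [hx.1, hy.1]
  | succ i ih =>
    by_cases hi : i + 1 < N
    · exact h _ hi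
    · rw [hx.2.2 i (by omega), hy.2.2 i (by omega), ih]

theorem card_paths1 (N : ℕ) : (paths st1 N).card = 2 ^ (N - 1) := by
  rw [card_paths st1 st1_injective]
  simp

variable {S : Type*} [Fintype S] [DecidableEq S]

/-- The letters of a family of strands. -/
def lets (ℓ : S → ℕ) : Finset ((_ : S) × ℕ) := Finset.univ.sigma fun s => range (ℓ s)

theorem mem_lets {ℓ : S → ℕ} {p : (_ : S) × ℕ} : p ∈ lets ℓ ↔ p.2 < ℓ p.1 := by
  simp [lets]

theorem card_lets (ℓ : S → ℕ) : (lets ℓ).card = ∑ s, ℓ s := by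
  simp [lets, Finset.card_sigma]

/-- All strands are bridges with the same span. -/
def IsBr (ℓ : S → ℕ) (x : S → ℕ → ℤ) : Prop :=
  ∀ s s', ∀ i < ℓ s, 0 ≤ x s i ∧ x s i ≤ x s' (ℓ s' - 1)

open Classical in
/-- The families of bridges with a common span. -/
noncomputable def brs (ℓ : S → ℕ) : Finset (S → ℕ → ℤ) :=
  (Fintype.piFinset fun s => paths st1 (ℓ s)).filter (fun x => IsBr ℓ x)

theorem mem_brs {ℓ : S → ℕ} {x : S → ℕ → ℤ} :
    x ∈ brs ℓ ↔ (∀ s, x s ∈ paths st1 (ℓ s)) ∧ IsBr ℓ x := by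
  classical
  unfold brs
  rw [Finset.mem_filter, Fintype.mem_piFinset]

/-- The normalised partition function of families of bridges with a common span. -/
noncomputable def ZS (b : ℝ) (ℓ : S → ℕ) (ω : ((_ : S) × ℕ) → ℝ) : ℝ :=
  (∏ s, ((2 : ℝ) ^ (ℓ s - 1))⁻¹) *
    ∑ x ∈ brs ℓ, Real.exp (-(b * En (lets ℓ) ω (fun p => x p.1 p.2)))

theorem norm_pos (ℓ : S → ℕ) : 0 < ∏ s, ((2 : ℝ) ^ (ℓ s - 1))⁻¹ :=
  Finset.prod_pos fun _ _ => by positivity

theorem ZS_nonneg (b : ℝ) (ℓ : S → ℕ) (ω : ((_ : S) × ℕ) → ℝ) : 0 ≤ ZS b ℓ ω :=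
  mul_nonneg (norm_pos ℓ).le (Finset.sum_nonneg fun _ _ => Real.exp_nonneg _)

theorem ZS_pos {b : ℝ} {ℓ : S → ℕ} (h : (brs ℓ).Nonempty) (ω : ((_ : S) × ℕ) → ℝ) :
    0 < ZS b ℓ ω :=
  mul_pos (norm_pos ℓ) (Finset.sum_pos (fun _ _ => Real.exp_pos _) h)

theorem ZS_le_one {b : ℝ} (hb : 0 ≤ b) (ℓ : S → ℕ) (ω : ((_ : S) × ℕ) → ℝ) :
    ZS b ℓ ω ≤ 1 := by
  classical
  have h1 : ∑ x ∈ brs ℓ, Real.exp (-(b * En (lets ℓ) ω (fun p => x p.1 p.2))) ≤
      ∏ s, (2 : ℝ) ^ (ℓ s - 1) := by
    calc ∑ x ∈ brs ℓ, Real.exp (-(b * En (lets ℓ) ω (fun p => x p.1 p.2)))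
        ≤ ∑ _x ∈ brs ℓ, (1 : ℝ) := by
          apply Finset.sum_le_sum
          intro x _
          rw [Real.exp_le_one_iff]
          have := mul_nonneg hb (En_nonneg (lets ℓ) ω (fun p => x p.1 p.2))
          linarith
      _ = ((brs ℓ).card : ℝ) := by simp
      _ ≤ ((Fintype.piFinset fun s => paths st1 (ℓ s)).card : ℝ) := by
          exact_mod_cast Finset.card_le_card (Finset.filter_subset _ _)
      _ = ∏ s, (2 : ℝ) ^ (ℓ s - 1) := by
          rw [Fintype.card_piFinset]
          push_cast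
          apply Finset.prod_congr rfl
          intro s _
          rw [card_paths1]
          push_cast
          rfl
  unfold ZS
  calc (∏ s, ((2 : ℝ) ^ (ℓ s - 1))⁻¹) *
        ∑ x ∈ brs ℓ, Real.exp (-(b * En (lets ℓ) ω (fun p => x p.1 p.2)))
      ≤ (∏ s, ((2 : ℝ) ^ (ℓ s - 1))⁻¹) * ∏ s, (2 : ℝ) ^ (ℓ s - 1) :=
        mul_le_mul_of_nonneg_left h1 (norm_pos ℓ).le
    _ = 1 := by
        rw [← Finset.prod_mul_distrib]
        apply Finset.prod_eq_one
        intro s _
        exact inv_mul_cancel₀ (by positivity)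

/-- Stacking two families. -/
def stack (ℓ : S → ℕ) (x x' : S → ℕ → ℤ) (s : S) (i : ℕ) : ℤ :=
  if i < ℓ s then x s i else x s (ℓ s - 1) + 1 + x' s (i - ℓ s)

theorem stack_mem {ℓ ℓ' : S → ℕ} (hℓ : ∀ s, 1 ≤ ℓ s) (hℓ' : ∀ s, 1 ≤ ℓ' s)
    {x x' : S → ℕ → ℤ} (hx : x ∈ brs ℓ) (hx' : x' ∈ brs ℓ') :
    stack ℓ x x' ∈ brs (ℓ + ℓ') := by
  rw [mem_brs] at hx hx' ⊢
  obtain ⟨hxp, hxb⟩ := hx
  obtain ⟨hxp', hxb'⟩ := hx'
  constructor
  · intro s
    have h1 := mem_paths1.1 (hxp s)
    have h2 := mem_paths1.1 (hxp' s)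
    have h3 := hℓ s
    have h4 := hℓ' s
    rw [mem_paths1]
    simp only [Pi.add_apply]
    refine ⟨?_, ?_, ?_⟩
    · unfold stack
      rw [if_pos (by omega), h1.1]
    · intro i hi
      unfold stack
      rcases Nat.lt_or_ge (i + 1) (ℓ s) with h | h
      · rw [if_pos h, if_pos (by omega)]
        exact h1.2.1 i h
      · rcases Nat.lt_or_ge i (ℓ s) with h' | h'
        · rw [if_neg (by omega), if_pos h']
          have e1 : i + 1 - ℓ s = 0 := by omega
          have e2 : i = ℓ s - 1 := by omega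
          rw [e1, h2.1, e2]
          left; ring
        · rw [if_neg (by omega), if_neg (by omega)]
          have e1 : i + 1 - ℓ s = (i - ℓ s) + 1 := by omega
          rw [e1]
          rcases h2.2.1 (i - ℓ s) (by omega) with h5 | h5
          · left; rw [h5]; ring
          · right; rw [h5]; ring
    · intro i hi
      unfold stack
      rw [if_neg (by omega), if_neg (by omega)]
      have e1 : i + 1 - ℓ s = (i - ℓ s) + 1 := by omega
      rw [e1, h2.2.2 (i - ℓ s) (by omega)]
  · intro s s' i hi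
    simp only [Pi.add_apply] at hi ⊢
    have h3 := hℓ s
    have h4 := hℓ' s
    have h5 := hℓ s'
    have h6 := hℓ' s'
    have hR : stack ℓ x x' s' (ℓ s' + ℓ' s' - 1) =
        x s' (ℓ s' - 1) + 1 + x' s' (ℓ' s' - 1) := by
      unfold stack
      rw [if_neg (by omega)]
      congr 2
      omega
    rw [hR]
    have h7 := hxb' s' s' (ℓ' s' - 1) (by omega)
    have h8 := hxb s s' (ℓ s - 1) (by omega)
    unfold stack
    rcases Nat.lt_or_ge i (ℓ s) with h | h
    · rw [if_pos h]
      have := hxb s s' i h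
      constructor
      · exact this.1
      · linarith [this.2, h7.1]
    · rw [if_neg (by omega)]
      have := hxb' s s' (i - ℓ s) (by omega)
      constructor
      · linarith [this.1, h8.1]
      · linarith [this.2, h8.2]

theorem stack_inj {ℓ : S → ℕ}
    {x x' y y' : S → ℕ → ℤ} (hx : x ∈ brs ℓ) (hy : y ∈ brs ℓ)
    (h : stack ℓ x x' = stack ℓ y y') : x = y ∧ x' = y' := by
  rw [mem_brs] at hx hy
  have h1 : x = y := by
    funext s
    apply paths_ext (hx.1 s) (hy.1 s)
    intro i hi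
    have := congrFun (congrFun h s) i
    unfold stack at this
    rwa [if_pos hi, if_pos hi] at this
  refine ⟨h1, ?_⟩
  subst h1
  funext s
  funext i
  have := congrFun (congrFun h s) (i + ℓ s)
  unfold stack at this
  rw [if_neg (by omega), if_neg (by omega)] at this
  have e : i + ℓ s - ℓ s = i := by omega
  rw [e] at this
  linarith

theorem En_stack {ℓ ℓ' : S → ℕ} (hℓ : ∀ s, 1 ≤ ℓ s)
    {x x' : S → ℕ → ℤ} (hx : x ∈ brs ℓ) (hx' : x' ∈ brs ℓ') (ω : ((_ : S) × ℕ) → ℝ) :
    En (lets (ℓ + ℓ')) ω (fun p => stack ℓ x x' p.1 p.2) =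
      En (lets ℓ) ω (fun p => x p.1 p.2) +
        En (lets ℓ') (fun p => ω ⟨p.1, p.2 + ℓ p.1⟩) (fun p => x' p.1 p.2) := by
  rw [mem_brs] at hx hx'
  have hinj : Set.InjOn (fun p : (_ : S) × ℕ => (⟨p.1, p.2 + ℓ p.1⟩ : (_ : S) × ℕ))
      (lets ℓ' : Set ((_ : S) × ℕ)) := by
    rintro ⟨s, i⟩ _ ⟨s', i'⟩ _ h
    simp only [Sigma.mk.injEq] at h
    obtain ⟨h1, h2⟩ := h
    subst h1
    simp at h2
    simp [h2]
  have hsplit : lets (ℓ + ℓ') = lets ℓ ∪
      (lets ℓ').image (fun p : (_ : S) × ℕ => (⟨p.1, p.2 + ℓ p.1⟩ : (_ : S) × ℕ)) := by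
    ext ⟨s, i⟩
    simp only [mem_lets, Finset.mem_union, Finset.mem_image, Pi.add_apply]
    constructor
    · intro h
      rcases Nat.lt_or_ge i (ℓ s) with h' | h'
      · exact Or.inl h'
      · right
        exact ⟨⟨s, i - ℓ s⟩, by simp; omega, by simp; omega⟩
    · rintro (h | ⟨⟨s', i'⟩, h1, h2⟩)
      · omega
      · simp only [Sigma.mk.injEq] at h2
        obtain ⟨h3, h4⟩ := h2
        subst h3
        simp at h4 h1
        omega
  have hdis : Disjoint (lets ℓ)
      ((lets ℓ').image (fun p : (_ : S) × ℕ => (⟨p.1, p.2 + ℓ p.1⟩ : (_ : S) × ℕ))) := by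
    rw [Finset.disjoint_left]
    rintro ⟨s, i⟩ h1 h2
    rw [mem_lets] at h1
    rw [Finset.mem_image] at h2
    obtain ⟨⟨s', i'⟩, h3, h4⟩ := h2
    simp only [Sigma.mk.injEq] at h4
    obtain ⟨h5, h6⟩ := h4
    subst h5
    simp at h6 h1
    omega
  rw [hsplit, En_union hdis, Cr_eq_zero, En_image hinj]
  · have e1 : En (lets ℓ) ω (fun p => stack ℓ x x' p.1 p.2) =
        En (lets ℓ) ω (fun p => x p.1 p.2) := by
      apply En_congr (fun _ _ => rfl)
      intro p hp
      rw [mem_lets] at hp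
      unfold stack
      rw [if_pos hp]
    have e2 : En (lets ℓ') (fun p => ω ⟨p.1, p.2 + ℓ p.1⟩)
        (fun p : (_ : S) × ℕ => stack ℓ x x' p.1 (p.2 + ℓ p.1)) =
        En (lets ℓ') (fun p => ω ⟨p.1, p.2 + ℓ p.1⟩) (fun p => x' p.1 p.2) := by
      apply En_congr_iff (fun _ _ => rfl)
      intro p hp q hq
      have hR : x p.1 (ℓ p.1 - 1) = x q.1 (ℓ q.1 - 1) := by
        have h3 := hℓ p.1
        have h4 := hℓ q.1
        exact le_antisymm (hx.2 p.1 q.1 _ (by omega)).2 (hx.2 q.1 p.1 _ (by omega)).2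
      have hs : ∀ r : (_ : S) × ℕ, stack ℓ x x' r.1 (r.2 + ℓ r.1) =
          x r.1 (ℓ r.1 - 1) + 1 + x' r.1 r.2 := by
        intro r
        unfold stack
        rw [if_neg (by omega), Nat.add_sub_cancel]
      rw [hs, hs, hR]
      exact add_right_inj _
    rw [e1, e2]
    ring
  · rintro ⟨s, i⟩ h1 q h2
    rw [mem_lets] at h1
    rw [Finset.mem_image] at h2
    obtain ⟨⟨s', i'⟩, h3, rfl⟩ := h2
    rw [mem_lets] at h3
    dsimp only at h1 h3 ⊢
    unfold stack
    rw [if_pos h1, if_neg (by omega), Nat.add_sub_cancel]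
    have h4 := hx.2 s s' i h1
    have h5 := hx'.2 s' s' i' h3
    intro h6
    linarith [h4.2, h5.1]

/-- Exact superadditivity by stacking. -/
theorem ZS_stack {b : ℝ} {ℓ ℓ' : S → ℕ} (hℓ : ∀ s, 1 ≤ ℓ s) (hℓ' : ∀ s, 1 ≤ ℓ' s)
    (ω : ((_ : S) × ℕ) → ℝ) :
    ((2 : ℝ) ^ Fintype.card S)⁻¹ * (ZS b ℓ ω * ZS b ℓ' (fun p => ω ⟨p.1, p.2 + ℓ p.1⟩)) ≤
      ZS b (ℓ + ℓ') ω := by
  classical
  have hmain : (∑ x ∈ brs ℓ, Real.exp (-(b * En (lets ℓ) ω (fun p => x p.1 p.2)))) *
      (∑ x ∈ brs ℓ', Real.exp (-(b * En (lets ℓ') (fun p => ω ⟨p.1, p.2 + ℓ p.1⟩)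
        (fun p => x p.1 p.2)))) ≤
      ∑ x ∈ brs (ℓ + ℓ'), Real.exp (-(b * En (lets (ℓ + ℓ')) ω (fun p => x p.1 p.2))) := by
    rw [Finset.sum_mul_sum, ← Finset.sum_product']
    apply sum_le_sum_of_inj (φ := fun p : (S → ℕ → ℤ) × (S → ℕ → ℤ) => stack ℓ p.1 p.2)
    · rintro ⟨x, y⟩ hp
      rw [Finset.mem_product] at hp
      exact stack_mem hℓ hℓ' hp.1 hp.2
    · rintro ⟨x, y⟩ hp ⟨x', y'⟩ hp' h
      rw [Finset.mem_coe, Finset.mem_product] at hp hp'
      have := stack_inj hp.1 hp'.1 h
      exact Prod.ext this.1 this.2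
    · intro x _
      exact Real.exp_nonneg _
    · rintro ⟨x, y⟩ hp
      rw [Finset.mem_product] at hp
      rw [← Real.exp_add]
      apply Real.exp_le_exp.2
      rw [En_stack hℓ hp.1 hp.2]
      dsimp only
      linarith
  have hnorm : ∏ s, ((2 : ℝ) ^ ((ℓ + ℓ') s - 1))⁻¹ =
      ((2 : ℝ) ^ Fintype.card S)⁻¹ * ((∏ s, ((2 : ℝ) ^ (ℓ s - 1))⁻¹) *
        ∏ s, ((2 : ℝ) ^ (ℓ' s - 1))⁻¹) := by
    have h2 : ((2 : ℝ) ^ Fintype.card S)⁻¹ = ∏ _s : S, (2 : ℝ)⁻¹ := by
      rw [Finset.prod_const, Finset.card_univ, inv_pow]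
    rw [h2, ← Finset.prod_mul_distrib, ← Finset.prod_mul_distrib]
    apply Finset.prod_congr rfl
    intro s _
    have h3 := hℓ s
    have h4 := hℓ' s
    have h5 : (ℓ + ℓ') s - 1 = 1 + ((ℓ s - 1) + (ℓ' s - 1)) := by
      simp only [Pi.add_apply]; omega
    rw [h5, pow_add, pow_add, mul_inv, mul_inv, pow_one]
  unfold ZS
  rw [hnorm]
  calc _ = ((2 : ℝ) ^ Fintype.card S)⁻¹ * ((∏ s, ((2 : ℝ) ^ (ℓ s - 1))⁻¹) *
        ∏ s, ((2 : ℝ) ^ (ℓ' s - 1))⁻¹) *
      ((∑ x ∈ brs ℓ, Real.exp (-(b * En (lets ℓ) ω (fun p => x p.1 p.2)))) *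
      (∑ x ∈ brs ℓ', Real.exp (-(b * En (lets ℓ') (fun p => ω ⟨p.1, p.2 + ℓ p.1⟩)
        (fun p => x p.1 p.2))))) := by ring
    _ ≤ _ := by
      apply mul_le_mul_of_nonneg_left hmain
      exact mul_nonneg (by positivity) (mul_nonneg (norm_pos _).le (norm_pos _).le)

/-- The zigzag. -/
def zig (N : ℕ) (i : ℕ) : ℤ := ((min i (N - 1)) % 2 : ℕ)

theorem zig_mem {A : S → ℕ} (hA : ∀ s, 1 ≤ A s) :
    (fun s => zig (2 * A s)) ∈ brs (fun s => 2 * A s) := by
  rw [mem_brs]
  constructor
  · intro s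
    rw [mem_paths1]
    unfold zig
    refine ⟨?_, ?_, ?_⟩
    · simp
    · intro i hi
      rw [min_eq_left (by omega), min_eq_left (by omega)]
      omega
    · intro i hi
      have := hA s
      rw [min_eq_right (by omega), min_eq_right (by omega)]
  · intro s s' i hi
    unfold zig
    have h1 := hA s
    have h2 := hA s'
    dsimp only at hi ⊢
    rw [min_self, min_eq_left (by omega)]
    omega

theorem brs_nonempty {A : S → ℕ} (hA : ∀ s, 1 ≤ A s) {n : ℕ} (hn : 1 ≤ n) :
    (brs (fun s => 2 * A s * n)).Nonempty := by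
  refine ⟨fun s => zig (2 * (A s * n)), ?_⟩
  have h := zig_mem (S := S) (A := fun s => A s * n) (fun s => Nat.mul_pos (hA s) hn)
  have e : (fun s => 2 * (A s * n)) = fun s => 2 * A s * n := by
    funext s; ring
  rw [e] at h
  exact h

end Pool.Agent.Lib.MP_5acba2_pr
end

section
/-!
Distance to marked times, and the enumeration of cells.
-/
set_option autoImplicit false
set_option linter.unusedSectionVars false

namespace Pool.Agent.Lib.MP_5acba2_pr

open Finset Function

/-- Distance to the nearest marked time. -/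
noncomputable def dm (W : ℕ → Prop) (i : ℕ) : ℕ := sInf {k | W (i + k) ∨ (k ≤ i ∧ W (i - k))}

section dm

variable {W : ℕ → Prop}

theorem dm_spec (hW : ∀ i, ∃ k, W (i + k)) (i : ℕ) :
    W (i + dm W i) ∨ (dm W i ≤ i ∧ W (i - dm W i)) := by
  obtain ⟨k, hk⟩ := hW i
  exact Nat.sInf_mem (s := {k | W (i + k) ∨ (k ≤ i ∧ W (i - k))}) ⟨k, Or.inl hk⟩

theorem dm_le {i k : ℕ} (h : W (i + k) ∨ (k ≤ i ∧ W (i - k))) : dm W i ≤ k :=
  Nat.sInf_le h

theorem dm_eq_zero {i : ℕ} (h : W i) : dm W i = 0 := by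
  have := dm_le (W := W) (i := i) (k := 0) (Or.inl h)
  omega

theorem dm_succ_le (hW : ∀ i, ∃ k, W (i + k)) (i : ℕ) : dm W (i + 1) ≤ dm W i + 1 := by
  rcases dm_spec hW i with h | ⟨h1, h2⟩
  · rcases Nat.eq_zero_or_pos (dm W i) with h0 | h0
    · rw [h0] at h ⊢
      apply dm_le
      right
      exact ⟨by omega, by simpa using h⟩
    · refine (dm_le (k := dm W i - 1) ?_).trans (by omega)
      left
      have : i + 1 + (dm W i - 1) = i + dm W i := by omega
      rw [this]; exact h
  · apply dm_le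
    right
    refine ⟨by omega, ?_⟩
    have : i + 1 - (dm W i + 1) = i - dm W i := by omega
    rw [this]; exact h2

theorem dm_le_succ (hW : ∀ i, ∃ k, W (i + k)) (i : ℕ) : dm W i ≤ dm W (i + 1) + 1 := by
  rcases dm_spec hW (i + 1) with h | ⟨h1, h2⟩
  · apply dm_le
    left
    have : i + (dm W (i + 1) + 1) = i + 1 + dm W (i + 1) := by omega
    rw [this]; exact h
  · rcases Nat.eq_zero_or_pos (dm W (i + 1)) with h0 | h0
    · rw [h0] at h2 ⊢
      apply dm_le
      left
      simpa using h2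
    · refine (dm_le (k := dm W (i + 1) - 1) ?_).trans (by omega)
      right
      refine ⟨by omega, ?_⟩
      have : i - (dm W (i + 1) - 1) = i + 1 - dm W (i + 1) := by omega
      rw [this]; exact h2

theorem dm_parity (hW : ∀ i, ∃ k, W (i + k)) {π : ℕ} (hp : ∀ w, W w → w % 2 = π) (i : ℕ) :
    (i + dm W i) % 2 = π := by
  rcases dm_spec hW i with h | ⟨h1, h2⟩
  · exact hp _ h
  · have := hp _ h2
    omega

theorem dm_step (hW : ∀ i, ∃ k, W (i + k)) {π : ℕ} (hp : ∀ w, W w → w % 2 = π) (i : ℕ) :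
    dm W (i + 1) = dm W i + 1 ∨ dm W i = dm W (i + 1) + 1 := by
  have h1 := dm_succ_le hW i
  have h2 := dm_le_succ hW i
  have h3 := dm_parity hW hp i
  have h4 := dm_parity hW hp (i + 1)
  omega

end dm

section cells

/-- The enumeration of the cells in `A`, followed by the cells from `N` on. -/
noncomputable def en (N : ℕ) (A : Finset ℕ) : ℕ → ℕ := Nat.nth (fun k => k ∈ A ∨ N ≤ k)

variable {N : ℕ} {A : Finset ℕ}

theorem en_inf (N : ℕ) (A : Finset ℕ) : {k | k ∈ A ∨ N ≤ k}.Infinite := by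
  apply Set.infinite_of_not_bddAbove
  rintro ⟨B, hB⟩
  have := hB (show B + N + 1 ∈ {k | k ∈ A ∨ N ≤ k} from Or.inr (by omega))
  omega

theorem en_strictMono (N : ℕ) (A : Finset ℕ) : StrictMono (en N A) :=
  Nat.nth_strictMono (en_inf N A)

theorem en_mem (j : ℕ) : en N A j ∈ A ∨ N ≤ en N A j :=
  Nat.nth_mem_of_infinite (en_inf N A) j

theorem exists_en {k : ℕ} (h : k ∈ A ∨ N ≤ k) : ∃ j, en N A j = k := by
  classical
  exact ⟨Nat.count (fun k => k ∈ A ∨ N ≤ k) k, Nat.nth_count h⟩

theorem en_card (hA : A ⊆ range N) : en N A A.card = N := by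
  classical
  have h1 : Nat.count (fun k => k ∈ A ∨ N ≤ k) N = A.card := by
    rw [Nat.count_eq_card_filter_range]
    congr 1
    ext k
    simp only [Finset.mem_filter, Finset.mem_range]
    constructor
    · rintro ⟨h1, h2 | h2⟩
      · exact h2
      · omega
    · intro h
      exact ⟨Finset.mem_range.1 (hA h), Or.inl h⟩
  unfold en
  rw [← h1]
  exact Nat.nth_count (p := fun k => k ∈ A ∨ N ≤ k) (Or.inr le_rfl)

theorem en_lt (hA : A ⊆ range N) {j : ℕ} (hj : j < A.card) : en N A j ∈ A := by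
  have h1 := en_strictMono N A hj
  rw [en_card hA] at h1
  rcases en_mem (N := N) (A := A) j with h | h
  · exact h
  · omega

theorem exists_en_lt (hA : A ⊆ range N) {k : ℕ} (h : k ∈ A) : ∃ j < A.card, en N A j = k := by
  obtain ⟨j, hj⟩ := exists_en (N := N) (Or.inl h)
  refine ⟨j, ?_, hj⟩
  have h1 : en N A j < en N A A.card := by
    rw [en_card hA, hj]
    exact Finset.mem_range.1 (hA h)
  exact (en_strictMono N A).lt_iff_lt.1 h1

theorem en_between {j k : ℕ} (h1 : en N A j < k) (h2 : k < en N A (j + 1)) :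
    k ∉ A ∧ k < N := by
  by_contra hcon
  have h3 : k ∈ A ∨ N ≤ k := by
    by_cases hk : k ∈ A
    · exact Or.inl hk
    · right
      by_contra h4
      exact hcon ⟨hk, by omega⟩
  obtain ⟨i, hi⟩ := exists_en h3
  rw [← hi] at h1 h2
  have h4 := (en_strictMono N A).lt_iff_lt.1 h1
  have h5 := (en_strictMono N A).lt_iff_lt.1 h2
  omega

theorem lt_en_zero {k : ℕ} (h2 : k < en N A 0) : k ∉ A ∧ k < N := by
  by_contra hcon
  have h3 : k ∈ A ∨ N ≤ k := by
    by_cases hk : k ∈ A
    · exact Or.inl hk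
    · right
      by_contra h4
      exact hcon ⟨hk, by omega⟩
  obtain ⟨i, hi⟩ := exists_en h3
  rw [← hi] at h2
  have h5 := (en_strictMono N A).lt_iff_lt.1 h2
  omega

theorem en_zero_of_mem (h : 0 ∈ A) : en N A 0 = 0 := by
  by_contra h1
  exact (lt_en_zero (N := N) (A := A) (k := 0) (Nat.pos_of_ne_zero h1)).1 h

theorem en_last (hA : A ⊆ range N) (hN : 1 ≤ N) (h : N - 1 ∈ A) :
    en N A (A.card - 1) = N - 1 := by
  obtain ⟨j, hj, hjk⟩ := exists_en_lt hA h
  have h1 : A.card - 1 < A.card := by omega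
  have h2 := Finset.mem_range.1 (hA (en_lt hA h1))
  have h3 : en N A j ≤ en N A (A.card - 1) := (en_strictMono N A).monotone (by omega)
  omega

/-- The embedding of letters given by an enumeration of cells of size `η`. -/
def emb (η : ℕ) (g : ℕ → ℕ) (t : ℕ) : ℕ := η * g (t / η) + t % η

variable {η : ℕ} {g : ℕ → ℕ}

theorem emb_div (hη : 0 < η) (t : ℕ) : emb η g t / η = g (t / η) := by
  unfold emb
  rw [Nat.mul_add_div hη, Nat.div_eq_of_lt (Nat.mod_lt _ hη), add_zero]

theorem emb_mod (t : ℕ) : emb η g t % η = t % η := by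
  unfold emb
  rw [Nat.mul_add_mod, Nat.mod_mod]

theorem emb_injective (hη : 0 < η) (hg : Injective g) : Injective (emb η g) := by
  intro s t h
  have h1 := emb_div (g := g) hη s
  have h2 := emb_div (g := g) hη t
  have h3 := emb_mod (η := η) (g := g) s
  have h4 := emb_mod (η := η) (g := g) t
  rw [h] at h1 h3
  have h5 : s / η = t / η := hg (h1.symm.trans h2)
  have h6 : s % η = t % η := h3.symm.trans h4
  rw [← Nat.div_add_mod s η, ← Nat.div_add_mod t η, h5, h6]

theorem exists_emb (hη : 0 < η) {i j : ℕ} (h : g j = i / η) :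
    emb η g (η * j + i % η) = i ∧ (η * j + i % η) / η = j := by
  have h1 : (η * j + i % η) / η = j := by
    rw [Nat.mul_add_div hη, Nat.div_eq_of_lt (Nat.mod_lt _ hη), add_zero]
  refine ⟨?_, h1⟩
  unfold emb
  rw [h1, h, Nat.mul_add_mod, Nat.mod_mod, Nat.div_add_mod]

theorem emb_succ (hη : 0 < η) (t : ℕ) :
    ((t + 1) / η = t / η ∧ emb η g (t + 1) = emb η g t + 1) ∨
      ((t + 1) / η = t / η + 1 ∧ emb η g t = η * g (t / η) + (η - 1) ∧
        emb η g (t + 1) = η * g (t / η + 1)) := by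
  have h0 := Nat.div_add_mod t η
  have h1 := Nat.mod_lt t hη
  rcases Nat.lt_or_ge (t % η + 1) η with h | h
  · left
    have e1 : t + 1 = η * (t / η) + (t % η + 1) := by omega
    have e2 : (t + 1) / η = t / η := by
      rw [e1, Nat.mul_add_div hη, Nat.div_eq_of_lt h, add_zero]
    have e3 : (t + 1) % η = t % η + 1 := by
      rw [e1, Nat.mul_add_mod, Nat.mod_eq_of_lt h]
    refine ⟨e2, ?_⟩
    unfold emb
    rw [e2, e3]
    ring
  · right
    have e1 : t + 1 = η * (t / η + 1) + 0 := by rw [mul_add]; omega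
    have e2 : (t + 1) / η = t / η + 1 := by
      rw [e1, Nat.mul_add_div hη, Nat.zero_div, add_zero]
    have e3 : (t + 1) % η = 0 := by
      rw [e1, Nat.mul_add_mod, Nat.zero_mod]
    refine ⟨e2, ?_, ?_⟩
    · unfold emb
      congr 1
      omega
    · unfold emb
      rw [e2, e3, add_zero]

end cells

end Pool.Agent.Lib.MP_5acba2_pr
end

section
/-!
Cutting a one dimensional path at a level: the two glued paths.
-/
set_option autoImplicit false
set_option linter.unusedSectionVars false

namespace Pool.Agent.Lib.MP_5acba2_pr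

open Finset Function

/-- The setting of the cut at level `c` of a path `S` with `N η` letters. -/
structure CutCtx (η N : ℕ) (S : ℕ → ℤ) (c : ℤ) : Prop where
  heven : η % 2 = 0
  hη : 2 ≤ η
  hN : 1 ≤ N
  path : S ∈ paths st1 (N * η)
  ceven : c % 2 = 0
  cneg : c < 0
  cend : c < S (N * η - 1)

/-- Marked times for the lower part. -/
def WL (η n : ℕ) (S : ℕ → ℤ) (c : ℤ) (j : ℕ) : Prop := (j < n ∧ S j = c) ∨ η ∣ j

/-- Marked times for the upper part. -/
def WM (η n : ℕ) (S : ℕ → ℤ) (c : ℤ) (j : ℕ) : Prop := (j < n ∧ S j = c + 1) ∨ η ∣ j + 1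

/-- The lower part, filled. -/
noncomputable def xL (η n : ℕ) (S : ℕ → ℤ) (c : ℤ) (i : ℕ) : ℤ :=
  if S i ≤ c then S i else c - dm (WL η n S c) i

/-- The upper part, filled. -/
noncomputable def xM (η n : ℕ) (S : ℕ → ℤ) (c : ℤ) (i : ℕ) : ℤ :=
  if c < S i then S i else c + 1 - dm (WM η n S c) i

namespace CutCtx

variable {η N : ℕ} {S : ℕ → ℤ} {c : ℤ} (h : CutCtx η N S c)

include h

theorem zero : S 0 = 0 := (mem_paths1.1 h.path).1

theorem step {i : ℕ} (hi : i + 1 < N * η) : S (i + 1) = S i + 1 ∨ S (i + 1) = S i - 1 :=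
  (mem_paths1.1 h.path).2.1 i hi

theorem const {i : ℕ} (hi : N * η ≤ i + 1) : S (i + 1) = S i :=
  (mem_paths1.1 h.path).2.2 i hi

theorem npos : 2 ≤ N * η := by
  calc 2 = 1 * 2 := rfl
    _ ≤ N * η := Nat.mul_le_mul h.hN h.hη

theorem neven : (N * η) % 2 = 0 := by
  rw [Nat.mul_mod, h.heven]; simp

theorem eq_last {i : ℕ} (hi : N * η ≤ i + 1) : S i = S (N * η - 1) := by
  have h0 := h.npos
  obtain ⟨k, rfl⟩ : ∃ k, i = N * η - 1 + k := ⟨i - (N * η - 1), by omega⟩
  induction k with
  | zero => rfl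
  | succ k ih =>
    rw [← add_assoc, h.const (by omega)]
    exact ih (by omega)

theorem lt_of_le {i : ℕ} (hi : S i ≤ c) : i + 1 < N * η := by
  by_contra hcon
  have := h.eq_last (i := i) (by omega)
  have := h.cend
  omega

theorem parity {i : ℕ} (hi : i < N * η) : (S i - i) % 2 = 0 := by
  induction i with
  | zero => rw [h.zero]; rfl
  | succ i ih =>
    have h1 := ih (by omega)
    rcases h.step hi with h2 | h2 <;> rw [h2] <;> push_cast <;> omega

theorem hWL (i : ℕ) : ∃ k, WL η (N * η) S c (i + k) := by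
  refine ⟨i * (η - 1), Or.inr ⟨i, ?_⟩⟩
  have h1 := h.hη
  obtain ⟨m, rfl⟩ : ∃ m, η = m + 1 := ⟨η - 1, by omega⟩
  simp
  ring

theorem hWM (i : ℕ) : ∃ k, WM η (N * η) S c (i + k) := by
  refine ⟨(i + 1) * η - 1 - i, Or.inr ⟨i + 1, ?_⟩⟩
  have h1 := h.hη
  have h2 : i + 1 ≤ (i + 1) * η := Nat.le_mul_of_pos_right _ (by omega)
  have h3 : i + ((i + 1) * η - 1 - i) + 1 = (i + 1) * η := by omega
  rw [h3, mul_comm]

theorem WL_even {j : ℕ} (hj : WL η (N * η) S c j) : j % 2 = 0 := by
  have h1 := h.heven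
  rcases hj with ⟨hj1, hj2⟩ | ⟨k, rfl⟩
  · have h2 := h.parity hj1
    have h3 := h.ceven
    omega
  · rw [Nat.mul_mod, h1]; simp

theorem WM_odd {j : ℕ} (hj : WM η (N * η) S c j) : j % 2 = 1 := by
  have h1 := h.heven
  rcases hj with ⟨hj1, hj2⟩ | ⟨k, hk⟩
  · have h2 := h.parity hj1
    have h3 := h.ceven
    omega
  · have : (η * k) % 2 = 0 := by rw [Nat.mul_mod, h1]; simp
    omega

theorem xL_step (i : ℕ) : xL η (N * η) S c (i + 1) = xL η (N * η) S c i + 1 ∨
    xL η (N * η) S c (i + 1) = xL η (N * η) S c i - 1 := by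
  have hd := dm_step h.hWL (fun w => h.WL_even) i
  unfold xL
  by_cases h1 : S i ≤ c <;> by_cases h2 : S (i + 1) ≤ c
  · rw [if_pos h1, if_pos h2]
    exact h.step (h.lt_of_le h1)
  · rw [if_pos h1, if_neg h2]
    have h3 := h.lt_of_le h1
    have h4 : S i = c := by
      rcases h.step h3 with h5 | h5 <;> omega
    have h6 : dm (WL η (N * η) S c) i = 0 := dm_eq_zero (Or.inl ⟨by omega, h4⟩)
    omega
  · rw [if_neg h1, if_pos h2]
    have h3 : i + 1 < N * η := by
      by_contra hcon
      have := h.const (i := i) (by omega)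
      omega
    have h4 : S (i + 1) = c := by
      rcases h.step h3 with h5 | h5 <;> omega
    have h6 : dm (WL η (N * η) S c) (i + 1) = 0 := dm_eq_zero (Or.inl ⟨h3, h4⟩)
    omega
  · rw [if_neg h1, if_neg h2]
    omega

theorem xM_step {i : ℕ} (hi : i + 1 < N * η) :
    xM η (N * η) S c (i + 1) = xM η (N * η) S c i + 1 ∨
    xM η (N * η) S c (i + 1) = xM η (N * η) S c i - 1 := by
  have hd := dm_step h.hWM (fun w => h.WM_odd) i
  have hs := h.step hi
  unfold xM
  by_cases h1 : c < S i <;> by_cases h2 : c < S (i + 1)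
  · rw [if_pos h1, if_pos h2]
    exact hs
  · rw [if_pos h1, if_neg h2]
    have h4 : S i = c + 1 := by omega
    have h6 : dm (WM η (N * η) S c) i = 0 := dm_eq_zero (Or.inl ⟨by omega, h4⟩)
    omega
  · rw [if_neg h1, if_pos h2]
    have h4 : S (i + 1) = c + 1 := by omega
    have h6 : dm (WM η (N * η) S c) (i + 1) = 0 := dm_eq_zero (Or.inl ⟨hi, h4⟩)
    omega
  · rw [if_neg h1, if_neg h2]
    omega

theorem xL_le (i : ℕ) : xL η (N * η) S c i ≤ c := by
  unfold xL
  split_ifs with h1
  · exact h1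
  · omega

theorem xM_ge {i : ℕ} : c + 2 - η ≤ xM η (N * η) S c i := by
  have h0 := h.hη
  unfold xM
  split_ifs with h1
  · omega
  · have h2 : dm (WM η (N * η) S c) i ≤ η - 1 - i % η := by
      apply dm_le
      left
      right
      have h3 := Nat.mod_lt i (show 0 < η by omega)
      have h4 := Nat.div_add_mod i η
      refine ⟨i / η + 1, ?_⟩
      rw [mul_add]
      omega
    omega

theorem xL_right_edge {k : ℕ} (hk : c < S ((k + 1) * η)) :
    xL η (N * η) S c ((k + 1) * η - 1) = c - 1 := by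
  have h0 := h.hη
  have h1 : η ≤ (k + 1) * η := Nat.le_mul_of_pos_left _ (by omega)
  obtain ⟨i, hi⟩ : ∃ i, (k + 1) * η = i + 1 := ⟨(k + 1) * η - 1, by omega⟩
  have hieven : ((k + 1) * η) % 2 = 0 := by rw [Nat.mul_mod, h.heven]; simp
  rw [hi] at hk hieven ⊢
  rw [Nat.add_sub_cancel]
  have h2 : dm (WL η (N * η) S c) (i + 1) = 0 :=
    dm_eq_zero (Or.inr ⟨k + 1, by rw [← hi, mul_comm]⟩)
  have h3 := dm_step h.hWL (fun w => h.WL_even) i
  have h4 : c < S i := by
    by_contra hcon
    have h5 := h.lt_of_le (i := i) (by omega)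
    have h6 := h.parity (i := i) (by omega)
    have h7 := h.ceven
    rcases h.step h5 with h8 | h8 <;> omega
  unfold xL
  rw [if_neg (by omega)]
  omega

theorem xL_left_edge {k : ℕ} (hk : k = 0 ∨ c < S (k * η - 1)) :
    xL η (N * η) S c (k * η) = c := by
  have h0 := h.hη
  have h2 : dm (WL η (N * η) S c) (k * η) = 0 :=
    dm_eq_zero (Or.inr ⟨k, by rw [mul_comm]⟩)
  unfold xL
  split_ifs with h1
  · rcases Nat.eq_zero_or_pos k with hk0 | hk0
    · subst hk0
      rw [zero_mul] at h1
      have := h.zero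
      have := h.cneg
      omega
    · have hk1 : c < S (k * η - 1) := by
        rcases hk with hk | hk
        · omega
        · exact hk
      have h3 : η ≤ k * η := Nat.le_mul_of_pos_left _ hk0
      have h4 := h.lt_of_le h1
      obtain ⟨i, hi⟩ : ∃ i, k * η = i + 1 := ⟨k * η - 1, by omega⟩
      rw [hi] at h1 hk1 h4 ⊢
      rw [Nat.add_sub_cancel] at hk1
      rcases h.step (i := i) (by omega) with h8 | h8 <;> omega
  · rw [h2]; simp

theorem xM_right_edge {k : ℕ} (hk : S ((k + 1) * η) ≤ c) :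
    xM η (N * η) S c ((k + 1) * η - 1) = c + 1 := by
  have h0 := h.hη
  have h1 : η ≤ (k + 1) * η := Nat.le_mul_of_pos_left _ (by omega)
  obtain ⟨i, hi⟩ : ∃ i, (k + 1) * η = i + 1 := ⟨(k + 1) * η - 1, by omega⟩
  rw [hi] at hk ⊢
  rw [Nat.add_sub_cancel]
  have h2 : dm (WM η (N * η) S c) i = 0 :=
    dm_eq_zero (Or.inr ⟨k + 1, by rw [← hi, mul_comm]⟩)
  have h5 := h.lt_of_le hk
  unfold xM
  split_ifs with h1
  · rcases h.step (i := i) (by omega) with h8 | h8 <;> omega
  · omega

theorem xM_left_edge {k : ℕ} (hk0 : 1 ≤ k) (hk : S (k * η - 1) ≤ c) :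
    xM η (N * η) S c (k * η) = c := by
  have h0 := h.hη
  have h3 : η ≤ k * η := Nat.le_mul_of_pos_left _ hk0
  have h4 := h.lt_of_le hk
  have hieven : (k * η) % 2 = 0 := by rw [Nat.mul_mod, h.heven]; simp
  obtain ⟨i, hi⟩ : ∃ i, k * η = i + 1 := ⟨k * η - 1, by omega⟩
  have h5 : WM η (N * η) S c i := Or.inr ⟨k, by rw [← hi, mul_comm]⟩
  rw [hi] at hk h4 hieven ⊢
  rw [Nat.add_sub_cancel] at hk h4
  have h6 := dm_eq_zero h5
  have h7 := dm_step h.hWM (fun w => h.WM_odd) i
  have h8 := h.parity h4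
  have h9 := h.ceven
  unfold xM
  rcases h.step h4 with h10 | h10
  · have h11 : S (i + 1) ≤ c := by
      push_cast at h8
      omega
    rw [if_neg (by omega)]
    omega
  · rw [if_neg (by omega)]
    omega

end CutCtx

end Pool.Agent.Lib.MP_5acba2_pr
end

section
/-!
Cutting a one dimensional path at a level: gluing the cells.
-/
set_option autoImplicit false
set_option linter.unusedSectionVars false

namespace Pool.Agent.Lib.MP_5acba2_pr

open Finset Function

/-- The times below the level. -/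
noncomputable def low (n : ℕ) (S : ℕ → ℤ) (c : ℤ) : Finset ℕ := (range n).filter (fun i => S i ≤ c)

/-- The cells met by a set of times. -/
def cellsOf (η : ℕ) (L : Finset ℕ) : Finset ℕ := L.image (· / η)

/-- The cells met by the times below the level. -/
noncomputable def cL (η : ℕ) (L : Finset ℕ) : Finset ℕ := cellsOf η L

/-- The cells met by the times above the level. -/
noncomputable def cM (η n : ℕ) (L : Finset ℕ) : Finset ℕ := cellsOf η (range n \ L)

/-- The glued lower path. -/
noncomputable def uL (η N : ℕ) (S : ℕ → ℤ) (c : ℤ) (t : ℕ) : ℤ :=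
  c - xL η (N * η) S c (emb η (en N (cL η (low (N * η) S c)))
    (min t (((cL η (low (N * η) S c)).card + 1) * η - 1)))

/-- The glued upper path. -/
noncomputable def vM (η N : ℕ) (S : ℕ → ℤ) (c : ℤ) (t : ℕ) : ℤ :=
  xM η (N * η) S c (emb η (en N (cM η (N * η) (low (N * η) S c)))
    (min t ((cM η (N * η) (low (N * η) S c)).card * η - 1)))

theorem cellsOf_subset {η N : ℕ} {L : Finset ℕ} (h : L ⊆ range (N * η)) :
    cellsOf η L ⊆ range N := by
  intro k hk
  obtain ⟨i, hi, rfl⟩ := Finset.mem_image.1 hk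
  have h1 := Finset.mem_range.1 (h hi)
  rw [Finset.mem_range]
  exact Nat.div_lt_of_lt_mul (by rwa [mul_comm] at h1)

theorem low_subset (n : ℕ) (S : ℕ → ℤ) (c : ℤ) : low n S c ⊆ range n := Finset.filter_subset _ _

theorem cL_subset {η N : ℕ} {S : ℕ → ℤ} {c : ℤ} : cL η (low (N * η) S c) ⊆ range N :=
  cellsOf_subset (low_subset _ _ _)

theorem cM_subset {η N : ℕ} {L : Finset ℕ} : cM η (N * η) L ⊆ range N :=
  cellsOf_subset Finset.sdiff_subset

namespace CutCtx

variable {η N : ℕ} {S : ℕ → ℤ} {c : ℤ} (h : CutCtx η N S c)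

include h

theorem not_cL {i : ℕ} (hi : i / η ∉ cL η (low (N * η) S c)) : c < S i := by
  by_contra hcon
  apply hi
  apply Finset.mem_image_of_mem
  have := h.lt_of_le (i := i) (by omega)
  exact Finset.mem_filter.2 ⟨Finset.mem_range.2 (by omega), by omega⟩

theorem not_cM {i : ℕ} (hi : i / η ∉ cM η (N * η) (low (N * η) S c)) (hin : i < N * η) :
    S i ≤ c := by
  by_contra hcon
  apply hi
  apply Finset.mem_image_of_mem
  rw [Finset.mem_sdiff, Finset.mem_range]
  refine ⟨hin, fun h1 => hcon (Finset.mem_filter.1 h1).2⟩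

theorem div1 (k : ℕ) : k * η / η = k := Nat.mul_div_cancel _ (by have := h.hη; omega)

theorem div2 {k : ℕ} (hk : 1 ≤ k) : (k * η - 1) / η = k - 1 := by
  have h0 := h.hη
  obtain ⟨m, rfl⟩ : ∃ m, k = m + 1 := ⟨k - 1, by omega⟩
  have e : (m + 1) * η - 1 = η * m + (η - 1) := by
    rw [add_mul, one_mul, mul_comm m η]; omega
  rw [e, Nat.mul_add_div (by omega), Nat.div_eq_of_lt (by omega)]
  simp

theorem glueL_step (t : ℕ) :
    xL η (N * η) S c (emb η (en N (cL η (low (N * η) S c))) (t + 1)) =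
      xL η (N * η) S c (emb η (en N (cL η (low (N * η) S c))) t) + 1 ∨
    xL η (N * η) S c (emb η (en N (cL η (low (N * η) S c))) (t + 1)) =
      xL η (N * η) S c (emb η (en N (cL η (low (N * η) S c))) t) - 1 := by
  have h0 := h.hη
  set g := en N (cL η (low (N * η) S c)) with hg
  rcases emb_succ (g := g) (show 0 < η by omega) t with ⟨_, h1⟩ | ⟨_, h1, h2⟩
  · rw [h1]; exact h.xL_step _
  · set j := t / η with hj
    have hmono := en_strictMono N (cL η (low (N * η) S c)) (Nat.lt_succ_self j)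
    rw [← hg, Nat.succ_eq_add_one] at hmono
    rcases Nat.lt_or_ge (g j + 1) (g (j + 1)) with h3 | h3
    · left
      have h4 := en_between (N := N) (A := cL η (low (N * η) S c)) (j := j) (k := g j + 1)
        (by rw [← hg]; omega) (by rw [← hg]; omega)
      have h5 := en_between (N := N) (A := cL η (low (N * η) S c)) (j := j) (k := g (j + 1) - 1)
        (by rw [← hg]; omega) (by rw [← hg]; omega)
      have h6 : c < S ((g j + 1) * η) := h.not_cL (by rw [h.div1]; exact h4.1)
      have h7 : c < S (g (j + 1) * η - 1) := h.not_cL (by rw [h.div2 (by omega)]; exact h5.1)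
      have h8 := h.xL_right_edge h6
      have h9 := h.xL_left_edge (k := g (j + 1)) (Or.inr h7)
      have e1 : η * g j + (η - 1) = (g j + 1) * η - 1 := by
        rw [add_mul, one_mul, mul_comm η]; omega
      rw [h1, h2, e1, h8, mul_comm η, h9]
      ring
    · have h4 : g (j + 1) = g j + 1 := by omega
      have e1 : emb η g (t + 1) = emb η g t + 1 := by
        rw [h1, h2, h4, mul_add]; omega
      rw [e1]; exact h.xL_step _

theorem uL_mem : uL η N S c ∈ paths st1 (((cL η (low (N * η) S c)).card + 1) * η) := by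
  have h0 := h.hη
  set A := cL η (low (N * η) S c) with hA
  set m := (A.card + 1) * η with hm
  have hm1 : η ≤ m := Nat.le_mul_of_pos_left _ (by omega)
  rw [mem_paths1]
  unfold uL
  rw [← hA, ← hm]
  refine ⟨?_, ?_, ?_⟩
  · have e1 : min 0 (m - 1) = 0 := by omega
    have e2 : emb η (en N A) 0 = en N A 0 * η := by
      unfold emb
      rw [Nat.zero_div, Nat.zero_mod, add_zero, mul_comm]
    rw [e1, e2, h.xL_left_edge]
    · ring
    · rcases Nat.eq_zero_or_pos (en N A 0) with h1 | h1
      · exact Or.inl h1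
      · right
        apply h.not_cL
        rw [h.div2 (by omega)]
        exact (lt_en_zero (N := N) (A := A) (by omega)).1
  · intro t ht
    have e1 : min (t + 1) (m - 1) = t + 1 := by omega
    have e2 : min t (m - 1) = t := by omega
    rw [e1, e2]
    rcases h.glueL_step t with h1 | h1
    · right; rw [h1]; ring
    · left; rw [h1]; ring
  · intro t ht
    have e1 : min (t + 1) (m - 1) = m - 1 := by omega
    have e2 : min t (m - 1) = m - 1 := by omega
    rw [e1, e2]

theorem uL_nonneg (t : ℕ) : 0 ≤ uL η N S c t := by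
  unfold uL
  have := h.xL_le (emb η (en N (cL η (low (N * η) S c)))
    (min t (((cL η (low (N * η) S c)).card + 1) * η - 1)))
  omega

theorem uL_last : uL η N S c (((cL η (low (N * η) S c)).card + 1) * η - 1) = 1 := by
  have h0 := h.hη
  have hsub : cL η (low (N * η) S c) ⊆ range N := cL_subset
  unfold uL
  rw [min_self]
  set A := cL η (low (N * η) S c) with hA
  have e1 : (A.card + 1) * η - 1 = η * A.card + (η - 1) := by
    rw [add_mul, one_mul, mul_comm η]; omega
  have e2 : emb η (en N A) ((A.card + 1) * η - 1) = (N + 1) * η - 1 := by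
    rw [e1]
    unfold emb
    rw [Nat.mul_add_div (by omega), Nat.div_eq_of_lt (by omega), add_zero, en_card hsub,
      Nat.mul_add_mod, Nat.mod_eq_of_lt (by omega), add_mul, one_mul, mul_comm η]
    omega
  rw [e2, h.xL_right_edge]
  · ring
  · have h1 : N * η ≤ (N + 1) * η := Nat.mul_le_mul_right _ (by omega)
    rw [h.eq_last (i := (N + 1) * η) (by omega)]
    exact h.cend

theorem zero_mem_cM : 0 ∈ cM η (N * η) (low (N * η) S c) := by
  have h1 := h.npos
  have h2 : (0 : ℕ) ∈ range (N * η) \ low (N * η) S c := by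
    rw [Finset.mem_sdiff, Finset.mem_range]
    refine ⟨by omega, fun h3 => ?_⟩
    have h4 := (Finset.mem_filter.1 h3).2
    rw [h.zero] at h4
    have := h.cneg
    omega
  have := Finset.mem_image_of_mem (· / η) h2
  rw [Nat.zero_div] at this
  exact this

theorem last_mem_cM : N - 1 ∈ cM η (N * η) (low (N * η) S c) := by
  have h1 := h.npos
  have h2 : N * η - 1 ∈ range (N * η) \ low (N * η) S c := by
    rw [Finset.mem_sdiff, Finset.mem_range]
    refine ⟨by omega, fun h3 => ?_⟩
    have h4 := (Finset.mem_filter.1 h3).2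
    have := h.cend
    omega
  have := Finset.mem_image_of_mem (· / η) h2
  rwa [h.div2 h.hN] at this

theorem emb_lt {A : Finset ℕ} (hA : A ⊆ range N) {t : ℕ} (ht : t < A.card * η) :
    emb η (en N A) t < N * η := by
  have h0 := h.hη
  have h1 : t / η < A.card := Nat.div_lt_of_lt_mul (by rwa [mul_comm] at ht)
  have h2 := Finset.mem_range.1 (hA (en_lt hA h1))
  unfold emb
  have h3 := Nat.mod_lt t (show 0 < η by omega)
  calc η * en N A (t / η) + t % η < η * en N A (t / η) + η := by omega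
    _ = (en N A (t / η) + 1) * η := by ring
    _ ≤ N * η := Nat.mul_le_mul_right _ h2

theorem glueM_step {t : ℕ} (ht : t + 1 < (cM η (N * η) (low (N * η) S c)).card * η) :
    xM η (N * η) S c (emb η (en N (cM η (N * η) (low (N * η) S c))) (t + 1)) =
      xM η (N * η) S c (emb η (en N (cM η (N * η) (low (N * η) S c))) t) + 1 ∨
    xM η (N * η) S c (emb η (en N (cM η (N * η) (low (N * η) S c))) (t + 1)) =
      xM η (N * η) S c (emb η (en N (cM η (N * η) (low (N * η) S c))) t) - 1 := by
  have h0 := h.hη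
  have hsub : cM η (N * η) (low (N * η) S c) ⊆ range N := cM_subset
  have hlt := h.emb_lt hsub ht
  set A := cM η (N * η) (low (N * η) S c) with hA
  set g := en N A with hg
  rcases emb_succ (g := g) (show 0 < η by omega) t with ⟨_, h1⟩ | ⟨h1', h1, h2⟩
  · rw [h1] at hlt ⊢; exact h.xM_step hlt
  · set j := t / η with hj
    have hj1 : j + 1 < A.card := by
      rw [← h1']
      exact Nat.div_lt_of_lt_mul (by rwa [mul_comm] at ht)
    have hmono := en_strictMono N A (Nat.lt_succ_self j)
    rw [← hg, Nat.succ_eq_add_one] at hmono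
    rcases Nat.lt_or_ge (g j + 1) (g (j + 1)) with h3 | h3
    · right
      have h4 := en_between (N := N) (A := A) (j := j) (k := g j + 1)
        (by rw [← hg]; omega) (by rw [← hg]; omega)
      have h5 := en_between (N := N) (A := A) (j := j) (k := g (j + 1) - 1)
        (by rw [← hg]; omega) (by rw [← hg]; omega)
      have hη0 : 0 < η := by omega
      have h6 : S ((g j + 1) * η) ≤ c := h.not_cM (by rw [h.div1]; exact h4.1)
        (Nat.mul_lt_mul_of_pos_right h4.2 hη0)
      have h7 : S (g (j + 1) * η - 1) ≤ c := h.not_cM (by rw [h.div2 (by omega)]; exact h5.1) (by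
        have h10 : g (j + 1) ≤ N := by omega
        have h11 : g (j + 1) * η ≤ N * η := Nat.mul_le_mul_right _ h10
        have h12 := h.npos
        omega)
      have h8 := h.xM_right_edge h6
      have h9 := h.xM_left_edge (k := g (j + 1)) (by omega) h7
      have e1 : η * g j + (η - 1) = (g j + 1) * η - 1 := by
        rw [add_mul, one_mul, mul_comm η]; omega
      rw [h1, h2, e1, h8, mul_comm η, h9]
      ring
    · have h4 : g (j + 1) = g j + 1 := by omega
      have e1 : emb η g (t + 1) = emb η g t + 1 := by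
        rw [h1, h2, h4, mul_add]; omega
      rw [e1] at hlt ⊢; exact h.xM_step hlt

theorem vM_mem : vM η N S c ∈ paths st1 ((cM η (N * η) (low (N * η) S c)).card * η) := by
  have h0 := h.hη
  have hz := h.zero_mem_cM
  set A := cM η (N * η) (low (N * η) S c) with hA
  have hAc : 1 ≤ A.card := Finset.card_pos.2 ⟨0, hz⟩
  set m := A.card * η with hm
  have hm1 : η ≤ m := Nat.le_mul_of_pos_left _ (by omega)
  rw [mem_paths1]
  unfold vM
  rw [← hA, ← hm]
  refine ⟨?_, ?_, ?_⟩
  · have e1 : min 0 (m - 1) = 0 := by omega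
    have e2 : emb η (en N A) 0 = 0 := by
      unfold emb
      rw [Nat.zero_div, Nat.zero_mod, add_zero, en_zero_of_mem hz, mul_zero]
    rw [e1, e2]
    unfold xM
    rw [h.zero, if_pos h.cneg]
  · intro t ht
    have e1 : min (t + 1) (m - 1) = t + 1 := by omega
    have e2 : min t (m - 1) = t := by omega
    rw [e1, e2]
    exact h.glueM_step ht
  · intro t ht
    have e1 : min (t + 1) (m - 1) = m - 1 := by omega
    have e2 : min t (m - 1) = m - 1 := by omega
    rw [e1, e2]

theorem vM_last : vM η N S c ((cM η (N * η) (low (N * η) S c)).card * η - 1) =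
    S (N * η - 1) := by
  have h0 := h.hη
  have hsub : cM η (N * η) (low (N * η) S c) ⊆ range N := cM_subset
  have hz := h.zero_mem_cM
  have hl := h.last_mem_cM
  unfold vM
  rw [min_self]
  set A := cM η (N * η) (low (N * η) S c) with hA
  have hAc : 1 ≤ A.card := Finset.card_pos.2 ⟨0, hz⟩
  obtain ⟨a, ha⟩ : ∃ a, A.card = a + 1 := ⟨A.card - 1, by omega⟩
  have e1 : A.card * η - 1 = η * (A.card - 1) + (η - 1) := by
    rw [ha, add_mul, one_mul, mul_comm η, Nat.add_sub_cancel]; omega
  have e2 : emb η (en N A) (A.card * η - 1) = N * η - 1 := by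
    rw [e1]
    unfold emb
    rw [Nat.mul_add_div (by omega), Nat.div_eq_of_lt (by omega), add_zero,
      en_last hsub h.hN hl, Nat.mul_add_mod, Nat.mod_eq_of_lt (by omega)]
    have hN := h.hN
    obtain ⟨M, rfl⟩ : ∃ M, N = M + 1 := ⟨N - 1, by omega⟩
    rw [Nat.add_sub_cancel, add_mul, one_mul, mul_comm η]
    omega
  rw [e2]
  unfold xM
  rw [if_pos h.cend]

theorem vM_ge (t : ℕ) : c + 2 - η ≤ vM η N S c t := h.xM_ge

theorem vM_prop {Q : ℤ → Prop} (hQ : ∀ i, Q (S i)) (hQ0 : ∀ z, z ≤ 0 → Q z) (t : ℕ) :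
    Q (vM η N S c t) := by
  unfold vM xM
  split_ifs with h1
  · exact hQ _
  · apply hQ0
    have := h.cneg
    omega

/-- Reconstruction of the path. -/
theorem glue_inj {S' : ℕ → ℤ} (h' : CutCtx η N S' c)
    (hlow : low (N * η) S c = low (N * η) S' c) (hu : uL η N S c = uL η N S' c)
    (hv : vM η N S c = vM η N S' c) : S = S' := by
  have h0 := h.hη
  apply paths_ext h.path h'.path
  intro i hi
  have hη0 : 0 < η := by omega
  by_cases h1 : S i ≤ c
  · have h2 : i ∈ low (N * η) S c := Finset.mem_filter.2 ⟨Finset.mem_range.2 hi, h1⟩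
    have h3 : S' i ≤ c := by
      rw [hlow] at h2
      exact (Finset.mem_filter.1 h2).2
    have h4 : i / η ∈ cL η (low (N * η) S c) := Finset.mem_image_of_mem _ h2
    obtain ⟨j, hj, hjk⟩ := exists_en_lt (N := N) cL_subset h4
    obtain ⟨h5, h6⟩ := exists_emb hη0 hjk
    have h7 := congrFun hu (η * j + i % η)
    have h8 : η * j + i % η < ((cL η (low (N * η) S c)).card + 1) * η := by
      have := Nat.mod_lt i hη0
      calc η * j + i % η < η * j + η := by omega
        _ = (j + 1) * η := by ring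
        _ ≤ _ := Nat.mul_le_mul_right _ (by omega)
    unfold uL at h7
    rw [← hlow, min_eq_left (by omega), h5] at h7
    unfold xL at h7
    rw [if_pos h1, if_pos h3] at h7
    omega
  · have h2 : i ∈ range (N * η) \ low (N * η) S c := by
      rw [Finset.mem_sdiff, Finset.mem_range]
      exact ⟨hi, fun h2 => h1 (Finset.mem_filter.1 h2).2⟩
    have h3 : c < S' i := by
      by_contra hcon
      rw [hlow] at h2
      exact (Finset.mem_sdiff.1 h2).2 (Finset.mem_filter.2 ⟨Finset.mem_range.2 hi, by omega⟩)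
    have h4 : i / η ∈ cM η (N * η) (low (N * η) S c) := Finset.mem_image_of_mem _ h2
    obtain ⟨j, hj, hjk⟩ := exists_en_lt (N := N) cM_subset h4
    obtain ⟨h5, h6⟩ := exists_emb hη0 hjk
    have h7 := congrFun hv (η * j + i % η)
    have h8 : η * j + i % η < (cM η (N * η) (low (N * η) S c)).card * η := by
      have := Nat.mod_lt i hη0
      calc η * j + i % η < η * j + η := by omega
        _ = (j + 1) * η := by ring
        _ ≤ _ := Nat.mul_le_mul_right _ (by omega)
    unfold vM at h7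
    rw [← hlow, min_eq_left (by omega), h5] at h7
    unfold xM at h7
    rw [if_pos (by omega), if_pos h3] at h7
    exact h7

end CutCtx

end Pool.Agent.Lib.MP_5acba2_pr
end

section
/-!
Cutting a one dimensional path at a level: energies.
-/
set_option autoImplicit false
set_option linter.unusedSectionVars false

namespace Pool.Agent.Lib.MP_5acba2_pr

open Finset Function

/-- The visits to the level and the next one. -/
noncomputable def vis (n : ℕ) (S : ℕ → ℤ) (c : ℤ) : Finset ℕ :=
  (range n).filter (fun i => S i = c ∨ S i = c + 1)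

theorem card_le_cells {η : ℕ} (hη : 0 < η) (I Y : Finset ℕ) (h : ∀ i ∈ I, i / η ∈ Y) :
    I.card ≤ η * Y.card := by
  have h1 : I.card ≤ η * (I.image (· / η)).card := by
    apply Finset.card_le_mul_card_image
    intro k _
    have h2 : I.filter (fun i => i / η = k) ⊆ Ico (k * η) (k * η + η) := by
      intro i hi
      have h3 := (Finset.mem_filter.1 hi).2
      rw [Finset.mem_Ico]
      have h4 := Nat.div_add_mod i η
      have h5 := Nat.mod_lt i hη
      rw [h3, mul_comm] at h4
      omega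
    calc (I.filter (fun i => i / η = k)).card ≤ (Ico (k * η) (k * η + η)).card :=
          Finset.card_le_card h2
      _ = η := by simp
  refine h1.trans (Nat.mul_le_mul_left _ (Finset.card_le_card ?_))
  intro k hk
  obtain ⟨i, hi, rfl⟩ := Finset.mem_image.1 hk
  exact h i hi

theorem card_four {V Y : Finset ℕ} {F : Finset ℕ} {f1 f2 f3 f4 : ℕ → ℕ} {K : ℕ}
    (hV : V.card ≤ K) (hY : Y.card ≤ K + 1)
    (h : F ⊆ (V.image f1 ∪ V.image f2) ∪ (Y.image f3 ∪ Y.image f4)) : F.card ≤ 4 * K + 2 := by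
  have h1 := Finset.card_le_card h
  have h2 := Finset.card_union_le (V.image f1 ∪ V.image f2) (Y.image f3 ∪ Y.image f4)
  have h3 := Finset.card_union_le (V.image f1) (V.image f2)
  have h4 := Finset.card_union_le (Y.image f3) (Y.image f4)
  have h5 := Finset.card_image_le (s := V) (f := f1)
  have h6 := Finset.card_image_le (s := V) (f := f2)
  have h7 := Finset.card_image_le (s := Y) (f := f3)
  have h8 := Finset.card_image_le (s := Y) (f := f4)
  omega

namespace CutCtx

variable {η N : ℕ} {S : ℕ → ℤ} {c : ℤ} (h : CutCtx η N S c)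

include h

theorem ivt_up {i j : ℕ} (hij : i ≤ j) (hj : j < N * η) (h1 : S i ≤ c) (h2 : c < S j) :
    ∃ t, i ≤ t ∧ t ≤ j ∧ S t = c := by
  induction j with
  | zero =>
    have : i = 0 := by omega
    subst this
    omega
  | succ j ih =>
    have hij' : i ≤ j := by
      by_contra hcon
      have : i = j + 1 := by omega
      subst this
      omega
    have hs := h.step hj
    by_cases h3 : c < S j
    · obtain ⟨t, ht1, ht2, ht3⟩ := ih hij' (by omega) h3
      exact ⟨t, ht1, by omega, ht3⟩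
    · exact ⟨j, hij', by omega, by omega⟩

theorem ivt_down {i j : ℕ} (hij : i ≤ j) (hj : j < N * η) (h1 : c < S i) (h2 : S j ≤ c) :
    ∃ t, i ≤ t ∧ t ≤ j ∧ S t = c := by
  induction j with
  | zero =>
    have : i = 0 := by omega
    subst this
    omega
  | succ j ih =>
    have hij' : i ≤ j := by
      by_contra hcon
      have : i = j + 1 := by omega
      subst this
      omega
    have hs := h.step hj
    by_cases h3 : S j ≤ c
    · obtain ⟨t, ht1, ht2, ht3⟩ := ih hij' (by omega) h3
      exact ⟨t, ht1, by omega, ht3⟩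
    · exact ⟨j + 1, hij, le_rfl, by omega⟩

/-- The mixed cells. -/
theorem mixed_subset :
    cL η (low (N * η) S c) ∩ cM η (N * η) (low (N * η) S c) ⊆
      (vis (N * η) S c).image (· / η) := by
  have h0 := h.hη
  intro k hk
  rw [Finset.mem_inter] at hk
  obtain ⟨i, hi, hik⟩ := Finset.mem_image.1 hk.1
  obtain ⟨j, hj, hjk⟩ := Finset.mem_image.1 hk.2
  have hi1 := Finset.mem_filter.1 hi
  have hj1 := Finset.mem_sdiff.1 hj
  have hi2 := Finset.mem_range.1 hi1.1
  have hj2 := Finset.mem_range.1 hj1.1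
  have hj3 : c < S j := by
    by_contra hcon
    exact hj1.2 (Finset.mem_filter.2 ⟨hj1.1, by omega⟩)
  have key : ∃ t, (min i j) ≤ t ∧ t ≤ max i j ∧ S t = c := by
    rcases le_total i j with hij | hij
    · obtain ⟨t, h1, h2, h3⟩ := h.ivt_up hij hj2 hi1.2 hj3
      exact ⟨t, by omega, by omega, h3⟩
    · obtain ⟨t, h1, h2, h3⟩ := h.ivt_down hij hi2 hj3 hi1.2
      exact ⟨t, by omega, by omega, h3⟩
  obtain ⟨t, h1, h2, h3⟩ := key
  refine Finset.mem_image.2 ⟨t, Finset.mem_filter.2 ⟨Finset.mem_range.2 (by omega), Or.inl h3⟩, ?_⟩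
  have h4 : min i j / η ≤ t / η := Nat.div_le_div_right h1
  have h5 : t / η ≤ max i j / η := Nat.div_le_div_right h2
  rcases le_total i j with hij | hij
  · rw [min_eq_left hij] at h4
    rw [max_eq_right hij] at h5
    omega
  · rw [min_eq_right hij] at h4
    rw [max_eq_left hij] at h5
    omega

theorem card_mixed {K : ℕ} (hK : (vis (N * η) S c).card ≤ K) :
    (cL η (low (N * η) S c) ∩ cM η (N * η) (low (N * η) S c)).card ≤ K :=
  (Finset.card_le_card h.mixed_subset).trans (Finset.card_image_le.trans hK)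

theorem cells_union : cL η (low (N * η) S c) ∪ cM η (N * η) (low (N * η) S c) = range N := by
  have h0 := h.hη
  apply Finset.Subset.antisymm
  · exact Finset.union_subset cL_subset cM_subset
  · intro k hk
    rw [Finset.mem_range] at hk
    have h1 : k * η ∈ range (N * η) := Finset.mem_range.2
      (Nat.mul_lt_mul_of_pos_right hk (by omega))
    rw [Finset.mem_union]
    by_cases h2 : k * η ∈ low (N * η) S c
    · left
      exact Finset.mem_image.2 ⟨k * η, h2, h.div1 k⟩
    · right
      exact Finset.mem_image.2 ⟨k * η, Finset.mem_sdiff.2 ⟨h1, h2⟩, h.div1 k⟩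

theorem card_cells {K : ℕ} (hK : (vis (N * η) S c).card ≤ K) :
    N ≤ (cL η (low (N * η) S c)).card + (cM η (N * η) (low (N * η) S c)).card ∧
    (cL η (low (N * η) S c)).card + (cM η (N * η) (low (N * η) S c)).card ≤ N + K := by
  have h1 := Finset.card_union_add_card_inter (cL η (low (N * η) S c))
    (cM η (N * η) (low (N * η) S c))
  rw [h.cells_union, Finset.card_range] at h1
  have h2 := h.card_mixed hK
  omega

theorem En_split (ω : ℕ → ℝ) :
    En (range (N * η)) ω S = En (low (N * η) S c) ω S +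
      En (range (N * η) \ low (N * η) S c) ω S := by
  have h1 : range (N * η) = low (N * η) S c ∪ (range (N * η) \ low (N * η) S c) :=
    (Finset.union_sdiff_of_subset (low_subset _ _ _)).symm
  have h2 : Disjoint (low (N * η) S c) (range (N * η) \ low (N * η) S c) :=
    Finset.disjoint_sdiff
  conv_lhs => rw [h1]
  rw [En_union h2, Cr_eq_zero]
  · ring
  · intro i hi j hj hij
    have h3 := (Finset.mem_filter.1 hi).2
    have h4 := Finset.mem_sdiff.1 hj
    apply h4.2
    exact Finset.mem_filter.2 ⟨h4.1, by rw [← hij]; exact h3⟩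

/-- Multiplicities of the inserted letters, lower part. -/
theorem multL {K : ℕ} (hK : (vis (N * η) S c).card ≤ K) {I : Finset ℕ}
    (hI1 : ∀ i ∈ I, c < S i)
    (hI2 : ∀ i ∈ I, i / η ∈ (cL η (low (N * η) S c) ∩ cM η (N * η) (low (N * η) S c)) ∪ {N})
    (z : ℤ) : (I.filter (fun i => xL η (N * η) S c i = z)).card ≤ 4 * K + 2 := by
  have h0 := h.hη
  have hη0 : 0 < η := by omega
  set Y := (cL η (low (N * η) S c) ∩ cM η (N * η) (low (N * η) S c)) ∪ {N} with hY
  have hYc : Y.card ≤ K + 1 := by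
    have h1 := Finset.card_union_le
      (cL η (low (N * η) S c) ∩ cM η (N * η) (low (N * η) S c)) {N}
    have h2 := h.card_mixed hK
    rw [Finset.card_singleton] at h1
    rw [← hY] at h1
    omega
  set v := (c - z).toNat with hv
  apply card_four hK hYc (f1 := fun i => i - v) (f2 := fun i => i + v)
    (f3 := fun k => k * η + v) (f4 := fun k => (k + 1) * η - v)
  intro i hi
  rw [Finset.mem_filter] at hi
  obtain ⟨hi1, hi2⟩ := hi
  have hci := hI1 i hi1
  have hki := hI2 i hi1
  unfold xL at hi2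
  rw [if_neg (by omega)] at hi2
  have hdv : dm (WL η (N * η) S c) i = v := by omega
  have hspec := dm_spec h.hWL i
  rw [hdv] at hspec
  have hk1 := Nat.div_add_mod i η
  have hk2 := Nat.mod_lt i hη0
  rw [mul_comm] at hk1
  set k := i / η with hk
  have hright : v ≤ (k + 1) * η - i := by
    rw [← hdv]
    apply dm_le
    left; right
    refine ⟨k + 1, ?_⟩
    rw [mul_comm η]
    have : (k + 1) * η = k * η + η := by ring
    omega
  have hleft : v ≤ i - k * η := by
    rw [← hdv]
    apply dm_le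
    right
    refine ⟨by omega, Or.inr ⟨k, ?_⟩⟩
    rw [mul_comm η]
    omega
  have hke : (k + 1) * η = k * η + η := by ring
  simp only [Finset.mem_union, Finset.mem_image]
  rcases hspec with (⟨h1, h2⟩ | ⟨q, hq⟩) | ⟨h1, (⟨h2, h3⟩ | ⟨q, hq⟩)⟩
  · left; left
    exact ⟨i + v, Finset.mem_filter.2 ⟨Finset.mem_range.2 h1, Or.inl h2⟩, by omega⟩
  · right
    have hq1 : k * η ≤ q * η := by rw [mul_comm q, ← hq]; omega
    have hq2 : q * η ≤ (k + 1) * η := by rw [mul_comm q, ← hq]; omega
    have hq3 : k ≤ q := Nat.le_of_mul_le_mul_right hq1 hη0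
    have hq4 : q ≤ k + 1 := Nat.le_of_mul_le_mul_right hq2 hη0
    rcases Nat.lt_or_ge k q with hq5 | hq5
    · right
      refine ⟨k, hki, ?_⟩
      have : q = k + 1 := by omega
      rw [this, mul_comm] at hq
      omega
    · left
      refine ⟨k, hki, ?_⟩
      have : q = k := by omega
      rw [this, mul_comm] at hq
      omega
  · left; right
    exact ⟨i - v, Finset.mem_filter.2 ⟨Finset.mem_range.2 h2, Or.inl h3⟩, by omega⟩
  · right; left
    refine ⟨k, hki, ?_⟩
    have hq1 : k * η ≤ q * η := by rw [mul_comm q, ← hq]; omega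
    have hq2 : q * η < (k + 1) * η := by rw [mul_comm q, ← hq]; omega
    have hq3 : k ≤ q := Nat.le_of_mul_le_mul_right hq1 hη0
    have hq4 : q < k + 1 := Nat.lt_of_mul_lt_mul_right hq2
    have : q = k := by omega
    rw [this, mul_comm] at hq
    omega

/-- Multiplicities of the inserted letters, upper part. -/
theorem multM {K : ℕ} (hK : (vis (N * η) S c).card ≤ K) {I : Finset ℕ}
    (hI1 : ∀ i ∈ I, S i ≤ c)
    (hI2 : ∀ i ∈ I, i / η ∈ cL η (low (N * η) S c) ∩ cM η (N * η) (low (N * η) S c))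
    (z : ℤ) : (I.filter (fun i => xM η (N * η) S c i = z)).card ≤ 4 * K + 2 := by
  have h0 := h.hη
  have hη0 : 0 < η := by omega
  set Y := cL η (low (N * η) S c) ∩ cM η (N * η) (low (N * η) S c) with hY
  have hYc : Y.card ≤ K + 1 := (h.card_mixed hK).trans (by omega)
  set v := (c + 1 - z).toNat with hv
  apply card_four hK hYc (f1 := fun i => i - v) (f2 := fun i => i + v)
    (f3 := fun k => k * η + v - 1) (f4 := fun k => (k + 1) * η - 1 - v)
  intro i hi
  rw [Finset.mem_filter] at hi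
  obtain ⟨hi1, hi2⟩ := hi
  have hci := hI1 i hi1
  have hki := hI2 i hi1
  unfold xM at hi2
  rw [if_neg (by omega)] at hi2
  have hdv : dm (WM η (N * η) S c) i = v := by omega
  have hspec := dm_spec h.hWM i
  rw [hdv] at hspec
  have hk1 := Nat.div_add_mod i η
  have hk2 := Nat.mod_lt i hη0
  rw [mul_comm] at hk1
  set k := i / η with hk
  have hke : (k + 1) * η = k * η + η := by ring
  have hright : v ≤ (k + 1) * η - 1 - i := by
    rw [← hdv]
    apply dm_le
    left; right
    refine ⟨k + 1, ?_⟩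
    rw [mul_comm η]
    omega
  simp only [Finset.mem_union, Finset.mem_image]
  rcases hspec with (⟨h1, h2⟩ | ⟨q, hq⟩) | ⟨h1, (⟨h2, h3⟩ | ⟨q, hq⟩)⟩
  · left; left
    exact ⟨i + v, Finset.mem_filter.2 ⟨Finset.mem_range.2 h1, Or.inr h2⟩, by omega⟩
  · right; right
    refine ⟨k, hki, ?_⟩
    have hq1 : k * η < q * η := by rw [mul_comm q, ← hq]; omega
    have hq2 : q * η ≤ (k + 1) * η := by rw [mul_comm q, ← hq]; omega
    have hq3 : k < q := Nat.lt_of_mul_lt_mul_right hq1
    have hq4 : q ≤ k + 1 := Nat.le_of_mul_le_mul_right hq2 hη0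
    have : q = k + 1 := by omega
    rw [this, mul_comm] at hq
    omega
  · left; right
    exact ⟨i - v, Finset.mem_filter.2 ⟨Finset.mem_range.2 h2, Or.inr h3⟩, by omega⟩
  · right
    have hq2 : q * η ≤ (k + 1) * η := by rw [mul_comm q, ← hq]; omega
    have hq4 : q ≤ k + 1 := Nat.le_of_mul_le_mul_right hq2 hη0
    rcases Nat.lt_or_ge q (k + 1) with hq5 | hq5
    · left
      refine ⟨k, hki, ?_⟩
      have hqk : q ≤ k := by omega
      have hq6 : 1 ≤ q := by
        by_contra hcon
        have : q = 0 := by omega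
        rw [this, mul_zero] at hq
        omega
      have hkη : η ≤ k * η := Nat.le_mul_of_pos_left _ (by omega)
      have hleft : v ≤ i - (k * η - 1) := by
        rw [← hdv]
        apply dm_le
        right
        refine ⟨by omega, Or.inr ⟨k, ?_⟩⟩
        rw [mul_comm η]
        omega
      have hq1 : k * η ≤ q * η := by rw [mul_comm q, ← hq]; omega
      have hq3 : k ≤ q := Nat.le_of_mul_le_mul_right hq1 hη0
      have : q = k := by omega
      rw [this, mul_comm] at hq
      omega
    · right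
      refine ⟨k, hki, ?_⟩
      have : q = k + 1 := by omega
      rw [this, mul_comm] at hq
      omega

theorem En_insert {ω : ℕ → ℝ} (hω : ∀ i, |ω i| ≤ 1) {J I : Finset ℕ} (hd : Disjoint J I)
    {x : ℕ → ℤ} (hJ : ∀ i ∈ J, x i = S i) {D Y : ℕ}
    (hD : ∀ z, (I.filter (fun i => x i = z)).card ≤ D) (hI : I.card ≤ Y) :
    En (J ∪ I) ω x ≤ En J ω S + 2 * √(En J ω S * (D * Y)) + D * Y := by
  have h1 : En J ω x = En J ω S := En_congr (fun _ _ => rfl) hJ
  have h2 : En I ω x ≤ D * Y := by
    refine (En_le_mult hω hD).trans ?_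
    exact_mod_cast Nat.mul_le_mul_left D hI
  have h3 := En_union_le hd ω x
  rw [h1] at h3
  have h4 : √(En J ω S * En I ω x) ≤ √(En J ω S * (D * Y)) :=
    Real.sqrt_le_sqrt (mul_le_mul_of_nonneg_left h2 (En_nonneg _ _ _))
  linarith

theorem En_uL {ω : ℕ → ℝ} (hω : ∀ i, |ω i| ≤ 1) {K : ℕ} (hK : (vis (N * η) S c).card ≤ K) :
    En (range (((cL η (low (N * η) S c)).card + 1) * η))
      (fun t => ω (emb η (en N (cL η (low (N * η) S c))) t)) (uL η N S c) ≤
    En (low (N * η) S c) ω S +
      2 * √(En (low (N * η) S c) ω S * ((4 * K + 2 : ℕ) * ((K + 1) * η : ℕ))) +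
      (4 * K + 2 : ℕ) * ((K + 1) * η : ℕ) := by
  have h0 := h.hη
  have hη0 : 0 < η := by omega
  have hmix := h.card_mixed hK
  have hmult := fun I h1 h2 => h.multL (I := I) hK h1 h2
  have hlow : ∀ i ∈ low (N * η) S c, i / η ∈ cL η (low (N * η) S c) :=
    fun i hi => Finset.mem_image_of_mem _ hi
  have hsub : cL η (low (N * η) S c) ⊆ range N := cL_subset
  have hlast : ∀ i, N * η ≤ i → c < S i := by
    intro i hi
    rw [h.eq_last (by omega)]
    exact h.cend
  have hlow' : ∀ i, S i ≤ c → i ∈ low (N * η) S c := by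
    intro i hi
    refine Finset.mem_filter.2 ⟨Finset.mem_range.2 ?_, hi⟩
    by_contra hcon
    have := hlast i (by omega)
    omega
  have hcM : ∀ i, c < S i → i < N * η → i / η ∈ cM η (N * η) (low (N * η) S c) := by
    intro i hi hin
    refine Finset.mem_image_of_mem _ (Finset.mem_sdiff.2 ⟨Finset.mem_range.2 hin, fun h1 => ?_⟩)
    have := (Finset.mem_filter.1 h1).2
    omega
  unfold uL
  set A := cL η (low (N * η) S c) with hA
  set m := (A.card + 1) * η with hm
  have e1 : En (range m) (fun t => ω (emb η (en N A) t))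
      (fun t => c - xL η (N * η) S c (emb η (en N A) (min t (m - 1)))) =
      En (range m) (fun t => ω (emb η (en N A) t))
        (fun t => xL η (N * η) S c (emb η (en N A) t)) := by
    apply En_congr_iff (fun _ _ => rfl)
    intro i hi j hj
    rw [Finset.mem_range] at hi hj
    rw [min_eq_left (by omega), min_eq_left (by omega)]
    constructor
    · intro h1; omega
    · intro h1; omega
  rw [e1, ← En_image ((emb_injective hη0 (en_strictMono N A).injective).injOn)]
  set Im := (range m).image (emb η (en N A)) with hIm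
  have hImcell : ∀ i ∈ Im, i / η ∈ A ∪ {N} := by
    intro i hi
    obtain ⟨t, ht, rfl⟩ := Finset.mem_image.1 hi
    rw [emb_div hη0]
    have h1 : t / η < A.card + 1 := Nat.div_lt_of_lt_mul (by
      rw [Finset.mem_range, hm, mul_comm] at ht; exact ht)
    rw [Finset.mem_union, Finset.mem_singleton]
    rcases Nat.lt_or_ge (t / η) A.card with h2 | h2
    · exact Or.inl (en_lt hsub h2)
    · right
      have : t / η = A.card := by omega
      rw [this, en_card hsub]
  have hLsub : low (N * η) S c ⊆ Im := by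
    intro i hi
    obtain ⟨j, hj, hjk⟩ := exists_en_lt (N := N) hsub (hlow i hi)
    obtain ⟨h5, h6⟩ := exists_emb hη0 hjk
    refine Finset.mem_image.2 ⟨η * j + i % η, ?_, h5⟩
    rw [Finset.mem_range, hm]
    have := Nat.mod_lt i hη0
    calc η * j + i % η < η * j + η := by omega
      _ = (j + 1) * η := by ring
      _ ≤ _ := Nat.mul_le_mul_right _ (by omega)
  have e2 : Im = low (N * η) S c ∪ (Im \ low (N * η) S c) :=
    (Finset.union_sdiff_of_subset hLsub).symm
  rw [e2]
  have hI1 : ∀ i ∈ Im \ low (N * η) S c, c < S i := by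
    intro i hi
    by_contra hcon
    exact (Finset.mem_sdiff.1 hi).2 (hlow' i (by omega))
  have hI2 : ∀ i ∈ Im \ low (N * η) S c,
      i / η ∈ (A ∩ cM η (N * η) (low (N * η) S c)) ∪ {N} := by
    intro i hi
    have h1 := hImcell i (Finset.mem_sdiff.1 hi).1
    rw [Finset.mem_union] at h1 ⊢
    rcases h1 with h1 | h1
    · left
      rw [Finset.mem_inter]
      refine ⟨h1, hcM i (hI1 i hi) ?_⟩
      by_contra hcon
      have h2 : N ≤ i / η := (Nat.le_div_iff_mul_le hη0).2 (by omega)
      have h3 := Finset.mem_range.1 (hsub h1)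
      omega
    · exact Or.inr h1
  apply h.En_insert hω Finset.disjoint_sdiff
  · intro i hi
    unfold xL
    rw [if_pos (Finset.mem_filter.1 hi).2]
  · exact hmult _ hI1 hI2
  · have h1 := card_le_cells hη0 _ _ hI2
    have h2 := Finset.card_union_le (A ∩ cM η (N * η) (low (N * η) S c)) {N}
    rw [Finset.card_singleton] at h2
    calc _ ≤ η * _ := h1
      _ ≤ η * (K + 1) := Nat.mul_le_mul_left _ (by omega)
      _ = (K + 1) * η := by ring

theorem En_vM {ω : ℕ → ℝ} (hω : ∀ i, |ω i| ≤ 1) {K : ℕ} (hK : (vis (N * η) S c).card ≤ K) :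
    En (range ((cM η (N * η) (low (N * η) S c)).card * η))
      (fun t => ω (emb η (en N (cM η (N * η) (low (N * η) S c))) t)) (vM η N S c) ≤
    En (range (N * η) \ low (N * η) S c) ω S +
      2 * √(En (range (N * η) \ low (N * η) S c) ω S * ((4 * K + 2 : ℕ) * ((K + 1) * η : ℕ))) +
      (4 * K + 2 : ℕ) * ((K + 1) * η : ℕ) := by
  have h0 := h.hη
  have hη0 : 0 < η := by omega
  have hmix := h.card_mixed hK
  have hmult := fun I h1 h2 => h.multM (I := I) hK h1 h2
  have hsub : cM η (N * η) (low (N * η) S c) ⊆ range N := cM_subset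
  have hlowc : ∀ i ∈ low (N * η) S c, i / η ∈ cL η (low (N * η) S c) :=
    fun i hi => Finset.mem_image_of_mem _ hi
  have hembl : ∀ t, t < (cM η (N * η) (low (N * η) S c)).card * η →
      emb η (en N (cM η (N * η) (low (N * η) S c))) t < N * η := fun t ht => h.emb_lt hsub ht
  have hup : ∀ i ∈ range (N * η) \ low (N * η) S c,
      i / η ∈ cM η (N * η) (low (N * η) S c) := fun i hi => Finset.mem_image_of_mem _ hi
  unfold vM
  set A := cM η (N * η) (low (N * η) S c) with hA
  set m := A.card * η with hm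
  have e1 : En (range m) (fun t => ω (emb η (en N A) t))
      (fun t => xM η (N * η) S c (emb η (en N A) (min t (m - 1)))) =
      En (range m) (fun t => ω (emb η (en N A) t))
        (fun t => xM η (N * η) S c (emb η (en N A) t)) := by
    apply En_congr (fun _ _ => rfl)
    intro i hi
    rw [Finset.mem_range] at hi
    rw [min_eq_left (by omega)]
  rw [e1, ← En_image ((emb_injective hη0 (en_strictMono N A).injective).injOn)]
  set Im := (range m).image (emb η (en N A)) with hIm
  have hImcell : ∀ i ∈ Im, i / η ∈ A ∧ i < N * η := by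
    intro i hi
    obtain ⟨t, ht, rfl⟩ := Finset.mem_image.1 hi
    rw [emb_div hη0]
    have h1 : t / η < A.card := Nat.div_lt_of_lt_mul (by
      rw [Finset.mem_range, hm, mul_comm] at ht; exact ht)
    exact ⟨en_lt hsub h1, hembl t (Finset.mem_range.1 ht)⟩
  have hMsub : range (N * η) \ low (N * η) S c ⊆ Im := by
    intro i hi
    obtain ⟨j, hj, hjk⟩ := exists_en_lt (N := N) hsub (hup i hi)
    obtain ⟨h5, h6⟩ := exists_emb hη0 hjk
    refine Finset.mem_image.2 ⟨η * j + i % η, ?_, h5⟩
    rw [Finset.mem_range, hm]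
    have := Nat.mod_lt i hη0
    calc η * j + i % η < η * j + η := by omega
      _ = (j + 1) * η := by ring
      _ ≤ _ := Nat.mul_le_mul_right _ (by omega)
  have e2 : Im = (range (N * η) \ low (N * η) S c) ∪ (Im \ (range (N * η) \ low (N * η) S c)) :=
    (Finset.union_sdiff_of_subset hMsub).symm
  rw [e2]
  have hI0 : ∀ i ∈ Im \ (range (N * η) \ low (N * η) S c), i ∈ low (N * η) S c := by
    intro i hi
    by_contra hcon
    have h1 := Finset.mem_sdiff.1 hi
    exact h1.2 (Finset.mem_sdiff.2 ⟨Finset.mem_range.2 (hImcell i h1.1).2, hcon⟩)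
  have hI1 : ∀ i ∈ Im \ (range (N * η) \ low (N * η) S c), S i ≤ c :=
    fun i hi => (Finset.mem_filter.1 (hI0 i hi)).2
  have hI2 : ∀ i ∈ Im \ (range (N * η) \ low (N * η) S c),
      i / η ∈ cL η (low (N * η) S c) ∩ A := by
    intro i hi
    rw [Finset.mem_inter]
    exact ⟨hlowc i (hI0 i hi), (hImcell i (Finset.mem_sdiff.1 hi).1).1⟩
  apply h.En_insert hω Finset.disjoint_sdiff
  · intro i hi
    have h1 : c < S i := by
      by_contra hcon
      have h2 := Finset.mem_sdiff.1 hi
      exact h2.2 (Finset.mem_filter.2 ⟨h2.1, by omega⟩)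
    unfold xM
    rw [if_pos h1]
  · exact hmult _ hI1 hI2
  · have h1 := card_le_cells hη0 _ _ hI2
    calc _ ≤ η * _ := h1
      _ ≤ η * (K + 1) := Nat.mul_le_mul_left _ (by omega)
      _ = (K + 1) * η := by ring

end CutCtx

end Pool.Agent.Lib.MP_5acba2_pr
end

section
/-!
Cutting a one dimensional path at a level: choice of the level and counting.
-/
set_option autoImplicit false
set_option linter.unusedSectionVars false

namespace Pool.Agent.Lib.MP_5acba2_pr

open Finset Function

/-- Summation over paths through a code. -/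
theorem sum_le_of_code {A X Q : Type*} [DecidableEq X] {P : Finset A} {w : A → ℝ} {φ : A → X}
    {C : ℝ} (hC : ((P.image φ).card : ℝ) ≤ C) {Qs : X → Finset Q} {v : X → Q → ℝ} {ψ : A → Q}
    {κ B : ℝ} (hκ : 0 ≤ κ) (hB0 : 0 ≤ B) (hv : ∀ a, ∀ q ∈ Qs a, 0 ≤ v a q)
    (hψ : ∀ x ∈ P, ψ x ∈ Qs (φ x))
    (hinj : ∀ x ∈ P, ∀ y ∈ P, φ x = φ y → ψ x = ψ y → x = y)
    (hw : ∀ x ∈ P, w x ≤ κ * v (φ x) (ψ x))
    (hB : ∀ x ∈ P, ∑ q ∈ Qs (φ x), v (φ x) q ≤ B) :
    ∑ x ∈ P, w x ≤ C * (κ * B) := by
  have h1 : ∑ x ∈ P, w x = ∑ a ∈ P.image φ, ∑ x ∈ P.filter (fun x => φ x = a), w x :=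
    (Finset.sum_fiberwise_of_maps_to (fun x hx => Finset.mem_image_of_mem φ hx) w).symm
  rw [h1]
  have h2 : ∀ a ∈ P.image φ, ∑ x ∈ P.filter (fun x => φ x = a), w x ≤ κ * B := by
    intro a ha
    obtain ⟨x0, hx0, rfl⟩ := Finset.mem_image.1 ha
    calc ∑ x ∈ P.filter (fun x => φ x = φ x0), w x
        ≤ ∑ x ∈ P.filter (fun x => φ x = φ x0), κ * v (φ x0) (ψ x) := by
          apply Finset.sum_le_sum
          intro x hx
          rw [Finset.mem_filter] at hx
          have := hw x hx.1
          rwa [hx.2] at this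
      _ = κ * ∑ x ∈ P.filter (fun x => φ x = φ x0), v (φ x0) (ψ x) := by
          rw [Finset.mul_sum]
      _ ≤ κ * ∑ q ∈ Qs (φ x0), v (φ x0) q := by
          apply mul_le_mul_of_nonneg_left _ hκ
          apply sum_le_sum_of_inj (φ := ψ)
          · intro x hx
            rw [Finset.mem_filter] at hx
            have := hψ x hx.1
            rwa [hx.2] at this
          · intro x hx y hy hxy
            rw [Finset.mem_coe, Finset.mem_filter] at hx hy
            exact hinj x hx.1 y hy.1 (hx.2.trans hy.2.symm) hxy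
          · exact hv _
          · intro x _; exact le_rfl
      _ ≤ κ * B := mul_le_mul_of_nonneg_left (hB x0 hx0) hκ
  calc ∑ a ∈ P.image φ, ∑ x ∈ P.filter (fun x => φ x = a), w x
      ≤ ∑ _a ∈ P.image φ, κ * B := Finset.sum_le_sum h2
    _ = (P.image φ).card * (κ * B) := by rw [Finset.sum_const, nsmul_eq_mul]
    _ ≤ C * (κ * B) := mul_le_mul_of_nonneg_right hC (mul_nonneg hκ hB0)

/-- The number of small subsets. -/
theorem card_small (n K : ℕ) :
    ((range n).powerset.filter (fun B => B.card ≤ K)).card ≤ (n + 1) ^ K := by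
  induction K with
  | zero =>
    rw [pow_zero, Finset.card_le_one]
    intro a ha b hb
    rw [Finset.mem_filter] at ha hb
    have h1 := Finset.card_eq_zero.1 (Nat.le_zero.1 ha.2)
    have h2 := Finset.card_eq_zero.1 (Nat.le_zero.1 hb.2)
    rw [h1, h2]
  | succ K ih =>
    have hsub : (range n).powerset.filter (fun B => B.card ≤ K + 1) ⊆
        (range n).powerset.filter (fun B => B.card ≤ K) ∪
        (range n ×ˢ ((range n).powerset.filter (fun B => B.card ≤ K))).image
          (fun p => insert p.1 p.2) := by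
      intro B hB
      rw [Finset.mem_filter, Finset.mem_powerset] at hB
      rw [Finset.mem_union]
      rcases Nat.lt_or_ge K B.card with h | h
      · right
        have hne : B.Nonempty := Finset.card_pos.1 (by omega)
        obtain ⟨a, ha⟩ := hne
        refine Finset.mem_image.2 ⟨(a, B.erase a), ?_, Finset.insert_erase ha⟩
        rw [Finset.mem_product, Finset.mem_filter, Finset.mem_powerset]
        refine ⟨hB.1 ha, (Finset.erase_subset _ _).trans hB.1, ?_⟩
        dsimp only
        rw [Finset.card_erase_of_mem ha]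
        omega
      · left
        rw [Finset.mem_filter, Finset.mem_powerset]
        exact ⟨hB.1, h⟩
    calc _ ≤ _ := Finset.card_le_card hsub
      _ ≤ _ := Finset.card_union_le _ _
      _ ≤ (n + 1) ^ K + n * (n + 1) ^ K := by
          apply Nat.add_le_add ih
          refine Finset.card_image_le.trans ?_
          rw [Finset.card_product, Finset.card_range]
          exact Nat.mul_le_mul_left _ ih
      _ = (n + 1) ^ (K + 1) := by ring

/-- The boundary of a set of times. -/
def bdry (n : ℕ) (L : Finset ℕ) : Finset ℕ := (range n).filter (fun i => ¬ (i ∈ L ↔ i + 1 ∈ L))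

theorem bdry_inj {n : ℕ} {L L' : Finset ℕ} (hL : L ⊆ range n) (hL' : L' ⊆ range n)
    (h0 : 0 ∉ L) (h0' : 0 ∉ L') (h : bdry n L = bdry n L') : L = L' := by
  have key : ∀ i, i ≤ n → (i ∈ L ↔ i ∈ L') := by
    intro i
    induction i with
    | zero => intro _; exact ⟨fun h1 => absurd h1 h0, fun h1 => absurd h1 h0'⟩
    | succ i ih =>
      intro hi
      have h1 := ih (by omega)
      have h2 : i ∈ bdry n L ↔ i ∈ bdry n L' := by rw [h]
      unfold bdry at h2
      simp only [Finset.mem_filter, Finset.mem_range] at h2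
      have h3 : i < n := by omega
      tauto
  ext i
  rcases Nat.lt_or_ge i n with h1 | h1
  · exact key i h1.le
  · constructor
    · intro h2
      have := Finset.mem_range.1 (hL h2)
      omega
    · intro h2
      have := Finset.mem_range.1 (hL' h2)
      omega

theorem CutCtx.bdry_subset {η N : ℕ} {S : ℕ → ℤ} {c : ℤ} (h : CutCtx η N S c) :
    bdry (N * η) (low (N * η) S c) ⊆ vis (N * η) S c := by
  have h0 := h.npos
  intro i hi
  rw [bdry, Finset.mem_filter, Finset.mem_range] at hi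
  obtain ⟨hi1, hi2⟩ := hi
  rw [vis, Finset.mem_filter, Finset.mem_range]
  refine ⟨hi1, ?_⟩
  simp only [low, Finset.mem_filter, Finset.mem_range] at hi2
  by_cases h1 : S i ≤ c
  · have h2 := h.lt_of_le h1
    have h3 := h.step h2
    by_cases h4 : S (i + 1) ≤ c
    · exact absurd (⟨fun _ => ⟨h2, h4⟩, fun _ => ⟨hi1, h1⟩⟩) hi2
    · omega
  · by_cases h4 : S (i + 1) ≤ c
    · have h5 : i + 1 < N * η := by
        have := h.lt_of_le h4
        omega
      have h3 := h.step h5
      omega
    · exact absurd (⟨fun h5 => absurd h5.2 h1, fun h5 => absurd h5.2 h4⟩) hi2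

/-- The choice of the level. -/
theorem exists_level {η N J K : ℕ} (heven : η % 2 = 0) (hη : 2 ≤ η) (hN : 1 ≤ N) (hJ : 1 ≤ J)
    (hJK : N * η ≤ K * J) {S : ℕ → ℤ} (hS : S ∈ paths st1 (N * η)) :
    ∃ c : ℤ, CutCtx η N S c ∧ (vis (N * η) S c).card ≤ K ∧
      min 0 (S (N * η - 1)) - (2 * J + 1) ≤ c := by
  set m0 : ℤ := min 0 (S (N * η - 1)) with hm0
  obtain ⟨cc, hcc⟩ : ∃ cc : ℕ → ℤ, ∀ j, cc j = 2 * (m0 / 2 - 1 - j) := ⟨_, fun _ => rfl⟩
  have hdisj : ∀ i ∈ range J, ∀ j ∈ range J, i ≠ j →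
      Disjoint (vis (N * η) S (cc i)) (vis (N * η) S (cc j)) := by
    intro i _ j _ hij
    rw [Finset.disjoint_left]
    intro t ht1 ht2
    have h1 := (Finset.mem_filter.1 ht1).2
    have h2 := (Finset.mem_filter.1 ht2).2
    have e1 := hcc i
    have e2 := hcc j
    omega
  have hsum : ∑ j ∈ range J, (vis (N * η) S (cc j)).card ≤ N * η := by
    rw [← Finset.card_biUnion hdisj]
    calc _ ≤ (range (N * η)).card := Finset.card_le_card (by
          intro t ht
          obtain ⟨j, _, hj⟩ := Finset.mem_biUnion.1 ht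
          exact (Finset.mem_filter.1 hj).1)
      _ = N * η := Finset.card_range _
  obtain ⟨j, hj, hjK⟩ : ∃ j ∈ range J, (vis (N * η) S (cc j)).card ≤ K := by
    by_contra hcon
    push Not at hcon
    have h1 : ∑ _j ∈ range J, (K + 1) ≤ ∑ j ∈ range J, (vis (N * η) S (cc j)).card :=
      Finset.sum_le_sum fun j hj => hcon j hj
    rw [Finset.sum_const, Finset.card_range, smul_eq_mul] at h1
    have h2 : J * (K + 1) = K * J + J := by ring
    omega
  rw [Finset.mem_range] at hj
  have e1 := hcc j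
  refine ⟨cc j, ⟨heven, hη, hN, hS, ?_, ?_, ?_⟩, hjK, ?_⟩
  · omega
  · omega
  · omega
  · omega

end Pool.Agent.Lib.MP_5acba2_pr
end

section
/-!
Cutting a one dimensional path at a level: the inequality between partition functions.
-/
set_option autoImplicit false
set_option linter.unusedSectionVars false

namespace Pool.Agent.Lib.MP_5acba2_pr

open Finset Function

open Classical in
/-- Nonnegative paths from `0` to `1`, with truncated energy. -/
noncomputable def loopSet (b : ℝ) (m : ℕ) (ω : ℕ → ℝ) (T : ℝ) : Finset (ℕ → ℤ) :=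
  (paths st1 m).filter (fun u => b * En (range m) ω u ≤ T ∧ (∀ t, 0 ≤ u t) ∧ u (m - 1) = 1)

open Classical in
/-- Paths with a constraint, with truncated energy. -/
noncomputable def midSet (b : ℝ) (Q : ℤ → ℤ → Prop) (m : ℕ) (ω : ℕ → ℝ) (T : ℝ) :
    Finset (ℕ → ℤ) :=
  (paths st1 m).filter (fun v => b * En (range m) ω v ≤ T ∧ ∀ t, Q (v (m - 1)) (v t))

/-- Weight of a path. -/
noncomputable def wt (b : ℝ) (m : ℕ) (ω : ℕ → ℝ) (x : ℕ → ℤ) : ℝ :=
  ((2 : ℝ) ^ (m - 1))⁻¹ * Real.exp (-(b * En (range m) ω x))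

theorem wt_pos (b : ℝ) (m : ℕ) (ω : ℕ → ℝ) (x : ℕ → ℤ) : 0 < wt b m ω x := by
  unfold wt
  positivity

/-- Partition function of nonnegative paths from `0` to `1`. -/
noncomputable def Zl (b : ℝ) (m : ℕ) (ω : ℕ → ℝ) (T : ℝ) : ℝ :=
  ∑ u ∈ loopSet b m ω T, wt b m ω u

/-- Partition function of constrained paths. -/
noncomputable def Zm (b : ℝ) (Q : ℤ → ℤ → Prop) (m : ℕ) (ω : ℕ → ℝ) (T : ℝ) : ℝ :=
  ∑ v ∈ midSet b Q m ω T, wt b m ω v

theorem paths_abs_le {N : ℕ} {x : ℕ → ℤ} (hx : x ∈ paths st1 N) (i : ℕ) (hi : i < N) :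
    |x i| ≤ i := by
  rw [mem_paths1] at hx
  induction i with
  | zero => rw [hx.1]; simp
  | succ i ih =>
    have h1 := ih (by omega)
    rw [abs_le] at h1 ⊢
    push_cast
    rcases hx.2.1 i hi with h2 | h2 <;> omega

/-- The error in the energy. -/
noncomputable def cutErr (b T : ℝ) (K η : ℕ) : ℝ :=
  2 * √(T * (b * ((4 * K + 2 : ℕ) * ((K + 1) * η : ℕ)))) + b * ((4 * K + 2 : ℕ) * ((K + 1) * η : ℕ))

theorem cutErr_nonneg {b T : ℝ} (hb : 0 ≤ b) (K η : ℕ) : 0 ≤ cutErr b T K η := by
  unfold cutErr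
  positivity

theorem b_mul_bound {b T E I E' : ℝ} (hb : 0 ≤ b) (hE : 0 ≤ E) (hI : 0 ≤ I) (hT : b * E ≤ T)
    (h : E' ≤ E + 2 * √(E * I) + I) :
    b * E' ≤ b * E + (2 * √(T * (b * I)) + b * I) := by
  have h1 := mul_le_mul_of_nonneg_left h hb
  have h2 : b * √(E * I) ≤ √(T * (b * I)) := by
    apply Real.le_sqrt_of_sq_le
    rw [mul_pow, Real.sq_sqrt (mul_nonneg hE hI)]
    calc b ^ 2 * (E * I) = (b * E) * (b * I) := by ring
      _ ≤ T * (b * I) := mul_le_mul_of_nonneg_right hT (by positivity)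
  linarith

theorem cut_bound {η N J K : ℕ} (heven : η % 2 = 0) (hη : 2 ≤ η) (hN : 1 ≤ N) (hJ : 1 ≤ J)
    (hJK : N * η ≤ K * J) {b : ℝ} (hb : 0 ≤ b) {ω : ℕ → ℝ} (hω : ∀ i, |ω i| ≤ 1) {T : ℝ}
    {Q : ℤ → ℤ → Prop} (hQ : ∀ y z, z ≤ 0 → Q y z) {B : ℝ} (hB0 : 0 ≤ B)
    (hB : ∀ A A' : Finset ℕ, A ⊆ range N → A' ⊆ range N → 1 ≤ A'.card → N ≤ A.card + A'.card →
      Zl b ((A.card + 1) * η) (fun t => ω (emb η (en N A) t)) (T + cutErr b T K η) *
        Zm b (fun y z => Q y z ∧ min 0 y - (2 * J + η) ≤ z) (A'.card * η)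
          (fun t => ω (emb η (en N A') t)) (T + cutErr b T K η) ≤ B) :
    Zm b Q (N * η) ω T ≤ (((N * η + 2 * J) * (N * η + 1) ^ K : ℕ) : ℝ) *
      ((2 ^ ((K + 1) * η) * Real.exp (2 * cutErr b T K η)) * B) := by
  classical
  set n := N * η with hn
  set P := midSet b Q n ω T with hP
  have hPmem : ∀ S ∈ P, S ∈ paths st1 n ∧ b * En (range n) ω S ≤ T ∧
      ∀ t, Q (S (n - 1)) (S t) := by
    intro S hS
    rw [hP, midSet, Finset.mem_filter] at hS
    exact hS
  have hex : ∀ S : ℕ → ℤ, ∃ c : ℤ, S ∈ paths st1 n → (CutCtx η N S c ∧ (vis n S c).card ≤ K ∧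
      min 0 (S (n - 1)) - (2 * J + 1) ≤ c) := by
    intro S
    by_cases hS : S ∈ paths st1 n
    · obtain ⟨c, hc⟩ := exists_level heven hη hN hJ hJK hS
      exact ⟨c, fun _ => hc⟩
    · exact ⟨0, fun h => absurd h hS⟩
  choose c hc using hex
  have hctx : ∀ S ∈ P, CutCtx η N S (c S) := fun S hS => (hc S (hPmem S hS).1).1
  have hvis : ∀ S ∈ P, (vis n S (c S)).card ≤ K := fun S hS => (hc S (hPmem S hS).1).2.1
  have hcge : ∀ S ∈ P, min 0 (S (n - 1)) - (2 * J + 1) ≤ c S :=
    fun S hS => (hc S (hPmem S hS).1).2.2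
  set E := cutErr b T K η with hE
  have hE0 : 0 ≤ E := cutErr_nonneg hb K η
  set φ : (ℕ → ℤ) → ℤ × Finset ℕ := fun S => (c S, low n S (c S)) with hφ
  set ψ : (ℕ → ℤ) → (ℕ → ℤ) × (ℕ → ℤ) := fun S => (uL η N S (c S), vM η N S (c S)) with hψ
  -- the count
  have hcount : (P.image φ).card ≤ (n + 2 * J) * (n + 1) ^ K := by
    have h1 : (P.image φ).card ≤ (Finset.Ico (-((n : ℤ) + 2 * J)) 0 ×ˢ
        ((range n).powerset.filter (fun B => B.card ≤ K))).card := by
      apply Finset.card_le_card_of_injOn (fun p : ℤ × Finset ℕ => (p.1, bdry n p.2))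
      · rintro p hp
        obtain ⟨S, hS, rfl⟩ := Finset.mem_image.1 (Finset.mem_coe.1 hp)
        have h2 := hctx S hS
        have h3 := hcge S hS
        have h4 := h2.npos
        have h5 := abs_le.1 (paths_abs_le (hPmem S hS).1 (n - 1) (by omega))
        have h6 := h2.cneg
        rw [Finset.mem_coe, Finset.mem_product, Finset.mem_Ico, Finset.mem_filter,
          Finset.mem_powerset]
        refine ⟨⟨?_, h6⟩, Finset.filter_subset _ _, ?_⟩
        · change -((n : ℤ) + 2 * J) ≤ c S
          omega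
        · exact (Finset.card_le_card h2.bdry_subset).trans (hvis S hS)
      · rintro p hp q hq hpq
        obtain ⟨S, hS, rfl⟩ := Finset.mem_image.1 (Finset.mem_coe.1 hp)
        obtain ⟨S', hS', rfl⟩ := Finset.mem_image.1 (Finset.mem_coe.1 hq)
        rw [Prod.mk.injEq] at hpq
        apply Prod.ext hpq.1
        apply bdry_inj (low_subset _ _ _) (low_subset _ _ _) _ _ hpq.2
        · intro h1
          have h2 := (Finset.mem_filter.1 h1).2
          rw [(hctx S hS).zero] at h2
          have := (hctx S hS).cneg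
          omega
        · intro h1
          have h2 := (Finset.mem_filter.1 h1).2
          rw [(hctx S' hS').zero] at h2
          have := (hctx S' hS').cneg
          omega
    refine h1.trans ?_
    rw [Finset.card_product, Int.card_Ico]
    have h2 : (0 - -((n : ℤ) + 2 * J)).toNat = n + 2 * J := by omega
    rw [h2]
    exact Nat.mul_le_mul_left _ (card_small n K)
  -- the energies
  have hen : ∀ S ∈ P,
      b * En (range (((cL η (low n S (c S))).card + 1) * η))
        (fun t => ω (emb η (en N (cL η (low n S (c S)))) t)) (uL η N S (c S)) ≤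
        b * En (low n S (c S)) ω S + E ∧
      b * En (range ((cM η n (low n S (c S))).card * η))
        (fun t => ω (emb η (en N (cM η n (low n S (c S)))) t)) (vM η N S (c S)) ≤
        b * En (range n \ low n S (c S)) ω S + E ∧
      b * En (range n) ω S = b * En (low n S (c S)) ω S +
        b * En (range n \ low n S (c S)) ω S := by
    intro S hS
    have h1 := hctx S hS
    have h2 := (hPmem S hS).2.1
    have h3 := h1.En_split ω
    have h4 : 0 ≤ b * En (low n S (c S)) ω S := mul_nonneg hb (En_nonneg _ _ _)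
    have h5 : 0 ≤ b * En (range n \ low n S (c S)) ω S := mul_nonneg hb (En_nonneg _ _ _)
    have h6 : b * En (range n) ω S = b * En (low n S (c S)) ω S +
        b * En (range n \ low n S (c S)) ω S := by rw [h3]; ring
    refine ⟨?_, ?_, h6⟩
    · exact b_mul_bound hb (En_nonneg _ _ _) (by positivity) (by linarith)
        (h1.En_uL hω (hvis S hS))
    · exact b_mul_bound hb (En_nonneg _ _ _) (by positivity) (by linarith)
        (h1.En_vM hω (hvis S hS))
  have hmain := sum_le_of_code (P := P) (w := wt b n ω) (φ := φ) (ψ := ψ)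
    (C := (((n + 2 * J) * (n + 1) ^ K : ℕ) : ℝ)) (by exact_mod_cast hcount)
    (Qs := fun a => loopSet b (((cL η a.2).card + 1) * η)
        (fun t => ω (emb η (en N (cL η a.2)) t)) (T + E) ×ˢ
      midSet b (fun y z => Q y z ∧ min 0 y - (2 * J + η) ≤ z) ((cM η n a.2).card * η)
        (fun t => ω (emb η (en N (cM η n a.2)) t)) (T + E))
    (v := fun a q => wt b (((cL η a.2).card + 1) * η)
        (fun t => ω (emb η (en N (cL η a.2)) t)) q.1 *
      wt b ((cM η n a.2).card * η) (fun t => ω (emb η (en N (cM η n a.2)) t)) q.2)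
    (κ := 2 ^ ((K + 1) * η) * Real.exp (2 * E)) (B := B) (by positivity) hB0
    (fun a q _ => (mul_pos (wt_pos _ _ _ _) (wt_pos _ _ _ _)).le) ?_ ?_ ?_ ?_
  · exact hmain
  · intro S hS
    have h1 := hctx S hS
    obtain ⟨h2, h3, h4⟩ := hen S hS
    have h5 := (hPmem S hS).2.1
    have h6 : 0 ≤ b * En (low n S (c S)) ω S := mul_nonneg hb (En_nonneg _ _ _)
    have h7 : 0 ≤ b * En (range n \ low n S (c S)) ω S := mul_nonneg hb (En_nonneg _ _ _)
    rw [Finset.mem_product]
    constructor
    · rw [loopSet, Finset.mem_filter]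
      exact ⟨h1.uL_mem, by linarith, h1.uL_nonneg, h1.uL_last⟩
    · rw [midSet, Finset.mem_filter]
      refine ⟨h1.vM_mem, by linarith, ?_⟩
      intro t
      have h8 : vM η N S (c S) ((cM η n (low n S (c S))).card * η - 1) = S (n - 1) := h1.vM_last
      change Q (vM η N S (c S) ((cM η n (low n S (c S))).card * η - 1)) (vM η N S (c S) t) ∧
        min 0 (vM η N S (c S) ((cM η n (low n S (c S))).card * η - 1)) - (2 * J + η) ≤
          vM η N S (c S) t
      rw [h8]
      refine ⟨h1.vM_prop (Q := Q (S (n - 1))) (hPmem S hS).2.2 (hQ _) t, ?_⟩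
      have h9 := h1.vM_ge t
      have h10 := hcge S hS
      omega
  · intro S hS S' hS' h1 h2
    rw [Prod.mk.injEq] at h1 h2
    have h3 := hctx S' hS'
    rw [← h1.1] at h3
    apply (hctx S hS).glue_inj h3
    · rw [h1.2, h1.1]
    · rw [h2.1, h1.1]
    · rw [h2.2, h1.1]
  · intro S hS
    have h1 := hctx S hS
    obtain ⟨h2, h3, h4⟩ := hen S hS
    have h5 := (h1.card_cells (hvis S hS)).2
    have hM1 : 1 ≤ (cM η n (low n S (c S))).card := Finset.card_pos.2 ⟨0, h1.zero_mem_cM⟩
    set m1 := ((cL η (low n S (c S))).card + 1) * η with hm1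
    set m2 := (cM η n (low n S (c S))).card * η with hm2
    have hm1' : 1 ≤ m1 := Nat.mul_pos (by omega) (by omega)
    have hm2' : 1 ≤ m2 := Nat.mul_pos (by omega) (by omega)
    have hn1 := h1.npos
    have hlen : (m1 - 1) + (m2 - 1) ≤ (K + 1) * η + (n - 1) := by
      have h6 : m1 + m2 ≤ (K + 1) * η + n := by
        rw [hm1, hm2, hn, ← add_mul, ← add_mul]
        exact Nat.mul_le_mul_right _ (by omega)
      omega
    have hpow : ((2 : ℝ) ^ (n - 1))⁻¹ ≤
        2 ^ ((K + 1) * η) * (((2 : ℝ) ^ (m1 - 1))⁻¹ * ((2 : ℝ) ^ (m2 - 1))⁻¹) := by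
      rw [← mul_inv, ← pow_add, inv_le_iff_one_le_mul₀ (by positivity)]
      have h7 : (2 : ℝ) ^ ((m1 - 1) + (m2 - 1)) ≤ 2 ^ ((K + 1) * η + (n - 1)) :=
        pow_le_pow_right₀ (by norm_num) hlen
      rw [pow_add _ ((K + 1) * η)] at h7
      have h8 : 2 ^ ((K + 1) * η) * ((2 : ℝ) ^ ((m1 - 1) + (m2 - 1)))⁻¹ * 2 ^ (n - 1) =
        (2 ^ ((K + 1) * η) * 2 ^ (n - 1)) / (2 : ℝ) ^ ((m1 - 1) + (m2 - 1)) := by
        rw [div_eq_mul_inv]; ring
      rw [h8, le_div_iff₀ (by positivity), one_mul]
      exact h7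
    have hexp : Real.exp (-(b * En (range n) ω S)) ≤ Real.exp (2 * E) *
        (Real.exp (-(b * En (range m1)
          (fun t => ω (emb η (en N (cL η (low n S (c S)))) t)) (uL η N S (c S)))) *
        Real.exp (-(b * En (range m2)
          (fun t => ω (emb η (en N (cM η n (low n S (c S)))) t)) (vM η N S (c S))))) := by
      rw [← Real.exp_add, ← Real.exp_add]
      apply Real.exp_le_exp.2
      linarith
    change wt b n ω S ≤ 2 ^ ((K + 1) * η) * Real.exp (2 * E) *
      (wt b m1 (fun t => ω (emb η (en N (cL η (low n S (c S)))) t)) (uL η N S (c S)) *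
        wt b m2 (fun t => ω (emb η (en N (cM η n (low n S (c S)))) t)) (vM η N S (c S)))
    unfold wt
    calc ((2 : ℝ) ^ (n - 1))⁻¹ * Real.exp (-(b * En (range n) ω S)) ≤
        (2 ^ ((K + 1) * η) * (((2 : ℝ) ^ (m1 - 1))⁻¹ * ((2 : ℝ) ^ (m2 - 1))⁻¹)) *
        (Real.exp (2 * E) *
        (Real.exp (-(b * En (range m1)
          (fun t => ω (emb η (en N (cL η (low n S (c S)))) t)) (uL η N S (c S)))) *
        Real.exp (-(b * En (range m2)
          (fun t => ω (emb η (en N (cM η n (low n S (c S)))) t)) (vM η N S (c S)))))) :=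
          mul_le_mul hpow hexp (Real.exp_nonneg _) (by positivity)
      _ = _ := by ring
  · intro S hS
    have h1 := hctx S hS
    have h5 := (h1.card_cells (hvis S hS)).1
    have hM1 : 1 ≤ (cM η n (low n S (c S))).card := Finset.card_pos.2 ⟨0, h1.zero_mem_cM⟩
    have h6 := hB (cL η (low n S (c S))) (cM η n (low n S (c S))) cL_subset cM_subset hM1 h5
    unfold Zl Zm at h6
    rw [Finset.sum_mul_sum, ← Finset.sum_product'] at h6
    exact h6

end Pool.Agent.Lib.MP_5acba2_pr
end

section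
/-!
A one sided loop is a pair of bridges with a common span.
-/
set_option autoImplicit false
set_option linter.unusedSectionVars false

namespace Pool.Agent.Lib.MP_5acba2_pr

open Finset Function

theorem paths_lip {N : ℕ} {x : ℕ → ℤ} (hx : x ∈ paths st1 N) {i j : ℕ} (hij : i ≤ j)
    (hj : j < N) : |x j - x i| ≤ (j : ℤ) - i := by
  rw [mem_paths1] at hx
  induction j with
  | zero =>
    have : i = 0 := by omega
    subst this
    simp
  | succ j ih =>
    rcases Nat.lt_or_ge i (j + 1) with h | h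
    · have h1 := ih (by omega) (by omega)
      rw [abs_le] at h1 ⊢
      push_cast
      rcases hx.2.1 j hj with h2 | h2 <;> omega
    · have : i = j + 1 := by omega
      subst this
      simp

theorem paths_parity {N : ℕ} {x : ℕ → ℤ} (hx : x ∈ paths st1 N) {i : ℕ} (hi : i < N) :
    (x i - i) % 2 = 0 := by
  rw [mem_paths1] at hx
  induction i with
  | zero => rw [hx.1]; rfl
  | succ i ih =>
    have h1 := ih (by omega)
    push_cast
    rcases hx.2.1 i hi with h2 | h2 <;> omega

/-- Lengths of the two strands. -/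
def lenPair (η p q : ℕ) (s : Bool) : ℕ := if s then p + 2 * η else q + 2 * η

/-- The two strands. -/
def pairPath (η p q : ℕ) (u : ℕ → ℤ) (s : Bool) (t : ℕ) : ℤ :=
  if s then (if t = 0 then 0 else if t ≤ p then u (t - 1) + 1 else
    u (p - 1) + ((min t (p + 2 * η - 1) : ℕ) : ℤ) - p - 1)
  else (if t = 0 then 0 else if t = 1 then 1 else if t < 2 + q then u (p + q + 1 - t) + 1 else
    u (p - 1) + ((min t (q + 2 * η - 1) : ℕ) : ℤ) - (q + 1))

/-- The letters read by the two strands. -/
def pairEmb (η p q : ℕ) (x : (_ : Bool) × ℕ) : ℕ :=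
  if x.1 then (if x.2 = 0 then p + q else if x.2 ≤ p then x.2 - 1 else q + x.2)
  else (if x.2 = 0 then p + q + 2 * η else if x.2 = 1 then p + q + 2 * η + 1 else
    if x.2 < 2 + q then p + q + 1 - x.2 else p + 2 * η + x.2)

/-- The positions of the letters. -/
def pairX (η p q : ℕ) (u : ℕ → ℤ) (k : ℕ) : ℤ :=
  if k < p + q then u k + 1 else if k = p + q then 0 else
    if k < p + q + 2 * η then u (p - 1) + ((k : ℤ) - (p + q)) - 1 else
      if k = p + q + 2 * η then 0 else if k = p + q + 2 * η + 1 then 1 else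
        u (p - 1) + ((k : ℤ) - (p + q + 2 * η)) - 1

/-- The setting. -/
structure LoopCtx (η p q : ℕ) (u : ℕ → ℤ) : Prop where
  hη : 2 ≤ η
  hp : 2 ≤ p
  peven : p % 2 = 0
  path : u ∈ paths st1 (p + q)
  nonneg : ∀ t, 0 ≤ u t
  last : u (p + q - 1) = 1
  hmax : ∀ i < p + q, u i ≤ u (p - 1) + (η - 1)

section char

variable {η p q : ℕ} {u : ℕ → ℤ}

theorem ppt0 : pairPath η p q u true 0 = 0 := by simp [pairPath]

theorem ppt1 {t : ℕ} (h1 : 1 ≤ t) (h2 : t ≤ p) : pairPath η p q u true t = u (t - 1) + 1 := by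
  have e1 : t ≠ 0 := by omega
  simp [pairPath, e1, h2]

theorem ppt2 {t : ℕ} (h1 : p < t) (h2 : t ≤ p + 2 * η - 1) :
    pairPath η p q u true t = u (p - 1) + t - p - 1 := by
  have e1 : t ≠ 0 := by omega
  have e2 : ¬ t ≤ p := by omega
  simp only [pairPath, if_true, e1, e2, if_false, min_eq_left h2]

theorem ppt3 {t : ℕ} (h0 : 2 ≤ η) (h1 : p + 2 * η - 1 ≤ t) :
    pairPath η p q u true t = u (p - 1) + 2 * η - 2 := by
  have e1 : t ≠ 0 := by omega
  have e2 : ¬ t ≤ p := by omega
  simp only [pairPath, if_true, e1, e2, if_false, min_eq_right h1]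
  omega

theorem ppf0 : pairPath η p q u false 0 = 0 := by simp [pairPath]

theorem ppf1 : pairPath η p q u false 1 = 1 := by simp [pairPath]

theorem ppf2 {t : ℕ} (h1 : 2 ≤ t) (h2 : t < 2 + q) :
    pairPath η p q u false t = u (p + q + 1 - t) + 1 := by
  have e1 : t ≠ 0 := by omega
  have e2 : t ≠ 1 := by omega
  simp only [pairPath, if_false, Bool.false_eq_true, e1, e2, h2, if_true]

theorem ppf3 {t : ℕ} (h1 : 2 + q ≤ t) (h2 : t ≤ q + 2 * η - 1) :
    pairPath η p q u false t = u (p - 1) + t - (q + 1) := by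
  have e1 : t ≠ 0 := by omega
  have e2 : t ≠ 1 := by omega
  have e3 : ¬ t < 2 + q := by omega
  simp only [pairPath, if_false, Bool.false_eq_true, e1, e2, e3, min_eq_left h2]

theorem ppf4 {t : ℕ} (h0 : 2 ≤ η) (h1 : q + 2 * η - 1 ≤ t) :
    pairPath η p q u false t = u (p - 1) + 2 * η - 2 := by
  have e1 : t ≠ 0 := by omega
  have e2 : t ≠ 1 := by omega
  have e3 : ¬ t < 2 + q := by omega
  simp only [pairPath, if_false, Bool.false_eq_true, e1, e2, e3, min_eq_right h1]
  omega

theorem pet0 : pairEmb η p q ⟨true, 0⟩ = p + q := by simp [pairEmb]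

theorem pet1 {t : ℕ} (h1 : 1 ≤ t) (h2 : t ≤ p) : pairEmb η p q ⟨true, t⟩ = t - 1 := by
  have e1 : t ≠ 0 := by omega
  simp only [pairEmb, if_true, e1, if_false, h2]

theorem pet2 {t : ℕ} (h1 : p < t) : pairEmb η p q ⟨true, t⟩ = q + t := by
  have e1 : t ≠ 0 := by omega
  have e2 : ¬ t ≤ p := by omega
  simp only [pairEmb, if_true, e1, if_false, e2]

theorem pef0 : pairEmb η p q ⟨false, 0⟩ = p + q + 2 * η := by simp [pairEmb]

theorem pef1 : pairEmb η p q ⟨false, 1⟩ = p + q + 2 * η + 1 := by simp [pairEmb]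

theorem pef2 {t : ℕ} (h1 : 2 ≤ t) (h2 : t < 2 + q) :
    pairEmb η p q ⟨false, t⟩ = p + q + 1 - t := by
  have e1 : t ≠ 0 := by omega
  have e2 : t ≠ 1 := by omega
  simp only [pairEmb, if_false, Bool.false_eq_true, e1, e2, h2, if_true]

theorem pef3 {t : ℕ} (h1 : 2 + q ≤ t) : pairEmb η p q ⟨false, t⟩ = p + 2 * η + t := by
  have e1 : t ≠ 0 := by omega
  have e2 : t ≠ 1 := by omega
  have e3 : ¬ t < 2 + q := by omega
  simp only [pairEmb, if_false, Bool.false_eq_true, e1, e2, e3]

theorem px0 {k : ℕ} (h : k < p + q) : pairX η p q u k = u k + 1 := by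
  simp only [pairX, h, if_true]

theorem px1 : pairX η p q u (p + q) = 0 := by
  simp [pairX]

theorem px2 {k : ℕ} (h1 : p + q < k) (h2 : k < p + q + 2 * η) :
    pairX η p q u k = u (p - 1) + ((k : ℤ) - (p + q)) - 1 := by
  have e1 : ¬ k < p + q := by omega
  have e2 : k ≠ p + q := by omega
  simp only [pairX, e1, e2, h2, if_true, if_false]

theorem px3 (h0 : 2 ≤ η) : pairX η p q u (p + q + 2 * η) = 0 := by
  have e1 : ¬ p + q + 2 * η < p + q := by omega
  have e2 : p + q + 2 * η ≠ p + q := by omega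
  simp only [pairX, e1, e2, if_true, if_false, lt_irrefl]

theorem px4 (h0 : 2 ≤ η) : pairX η p q u (p + q + 2 * η + 1) = 1 := by
  have e1 : ¬ p + q + 2 * η + 1 < p + q := by omega
  have e2 : p + q + 2 * η + 1 ≠ p + q := by omega
  have e3 : ¬ p + q + 2 * η + 1 < p + q + 2 * η := by omega
  have e4 : p + q + 2 * η + 1 ≠ p + q + 2 * η := by omega
  simp only [pairX, e1, e2, e3, e4, if_true, if_false]

theorem px5 {k : ℕ} (h0 : 2 ≤ η) (h1 : p + q + 2 * η + 2 ≤ k) :
    pairX η p q u k = u (p - 1) + ((k : ℤ) - (p + q + 2 * η)) - 1 := by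
  have e1 : ¬ k < p + q := by omega
  have e2 : k ≠ p + q := by omega
  have e3 : ¬ k < p + q + 2 * η := by omega
  have e4 : k ≠ p + q + 2 * η := by omega
  have e5 : k ≠ p + q + 2 * η + 1 := by omega
  simp only [pairX, e1, e2, e3, e4, e5, if_false]

theorem pet_cases (t : ℕ) : (t = 0 ∧ pairEmb η p q ⟨true, t⟩ = p + q) ∨
    (1 ≤ t ∧ t ≤ p ∧ pairEmb η p q ⟨true, t⟩ = t - 1) ∨
    (p < t ∧ 1 ≤ t ∧ pairEmb η p q ⟨true, t⟩ = q + t) := by
  rcases Nat.eq_zero_or_pos t with h | h
  · left; subst h; exact ⟨rfl, pet0⟩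
  · rcases Nat.lt_or_ge p t with h1 | h1
    · right; right; exact ⟨h1, h, pet2 h1⟩
    · right; left; exact ⟨h, h1, pet1 h h1⟩

theorem pef_cases (t : ℕ) : (t = 0 ∧ pairEmb η p q ⟨false, t⟩ = p + q + 2 * η) ∨
    (t = 1 ∧ pairEmb η p q ⟨false, t⟩ = p + q + 2 * η + 1) ∨
    (2 ≤ t ∧ t < 2 + q ∧ pairEmb η p q ⟨false, t⟩ = p + q + 1 - t) ∨
    (2 + q ≤ t ∧ pairEmb η p q ⟨false, t⟩ = p + 2 * η + t) := by
  rcases Nat.eq_zero_or_pos t with h | h
  · left; subst h; exact ⟨rfl, pef0⟩
  · rcases Nat.eq_or_lt_of_le h with h1 | h1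
    · right; left
      have : t = 1 := by omega
      subst this
      exact ⟨rfl, pef1⟩
    · rcases Nat.lt_or_ge t (2 + q) with h2 | h2
      · right; right; left; exact ⟨h1, h2, pef2 h1 h2⟩
      · right; right; right; exact ⟨h2, pef3 h2⟩

end char

theorem pairEmb_injOn {η p q : ℕ} (hη : 2 ≤ η) :
    Set.InjOn (pairEmb η p q) (lets (lenPair η p q) : Set ((_ : Bool) × ℕ)) := by
  rintro ⟨s, t⟩ h1 ⟨s', t'⟩ h2 h
  rw [Finset.mem_coe, mem_lets] at h1 h2
  unfold lenPair at h1 h2
  cases s <;> cases s' <;> simp only [if_true, if_false, Bool.false_eq_true] at h1 h2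
  · have h3 := pef_cases (η := η) (p := p) (q := q) t
    have h4 := pef_cases (η := η) (p := p) (q := q) t'
    rw [h] at h3
    have : t = t' := by omega
    rw [this]
  · exfalso
    have h3 := pef_cases (η := η) (p := p) (q := q) t
    have h4 := pet_cases (η := η) (p := p) (q := q) t'
    rw [h] at h3
    omega
  · exfalso
    have h3 := pet_cases (η := η) (p := p) (q := q) t
    have h4 := pef_cases (η := η) (p := p) (q := q) t'
    rw [h] at h3
    omega
  · have h3 := pet_cases (η := η) (p := p) (q := q) t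
    have h4 := pet_cases (η := η) (p := p) (q := q) t'
    rw [h] at h3
    have : t = t' := by omega
    rw [this]

theorem pairEmb_image {η p q : ℕ} (hη : 2 ≤ η) :
    (lets (lenPair η p q)).image (pairEmb η p q) = range (p + q + 4 * η) := by
  apply Finset.eq_of_subset_of_card_le
  · intro k hk
    obtain ⟨⟨s, t⟩, h1, rfl⟩ := Finset.mem_image.1 hk
    rw [mem_lets] at h1
    unfold lenPair at h1
    rw [Finset.mem_range]
    cases s <;> simp only [if_true, if_false, Bool.false_eq_true] at h1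
    · have h3 := pef_cases (η := η) (p := p) (q := q) t
      omega
    · have h3 := pet_cases (η := η) (p := p) (q := q) t
      omega
  · rw [Finset.card_image_of_injOn (pairEmb_injOn hη), card_lets, Finset.card_range]
    simp only [Fintype.univ_bool, Finset.mem_singleton, Bool.true_eq_false, not_false_eq_true,
      Finset.sum_insert, Finset.sum_singleton, lenPair, if_true, Bool.false_eq_true, if_false]
    omega

namespace LoopCtx

variable {η p q : ℕ} {u : ℕ → ℤ} (h : LoopCtx η p q u)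

include h

theorem one_le : 1 ≤ u (p - 1) := by
  have h1 := h.hp
  have h2 := paths_parity h.path (i := p - 1) (by omega)
  have h3 := h.nonneg (p - 1)
  have h4 := h.peven
  have h5 : ((p - 1 : ℕ) : ℤ) = (p : ℤ) - 1 := by omega
  rw [h5] at h2
  omega

theorem mem : pairPath η p q u ∈ brs (lenPair η p q) := by
  have hη := h.hη
  have hp := h.hp
  have h1 := mem_paths1.1 h.path
  have h3 := h.last
  rw [mem_brs]
  constructor
  · intro s
    rw [mem_paths1]
    cases s
    · simp only [lenPair, if_false, Bool.false_eq_true]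
      refine ⟨ppf0, ?_, ?_⟩
      · intro t ht
        rcases Nat.eq_zero_or_pos t with ht0 | ht0
        · subst ht0
          rw [ppf0, zero_add, ppf1]
          left; rfl
        · rcases Nat.eq_or_lt_of_le ht0 with ht1 | ht1
          · have ht1' : t = 1 := by omega
            subst ht1'
            rw [ppf1]
            left
            rcases Nat.eq_zero_or_pos q with hq | hq
            · subst hq
              rw [ppf3 (by omega) (by omega)]
              rw [add_zero] at h3
              rw [h3]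
              norm_num
            · rw [ppf2 (by omega) (by omega)]
              have e1 : p + q + 1 - (1 + 1) = p + q - 1 := by omega
              rw [e1, h3]
          · rcases Nat.lt_or_ge (t + 1) (2 + q) with h4 | h4
            · rw [ppf2 (by omega) h4, ppf2 (by omega) (by omega)]
              have e1 : p + q + 1 - t = (p + q + 1 - (t + 1)) + 1 := by omega
              rw [e1]
              rcases h1.2.1 (p + q + 1 - (t + 1)) (by omega) with h5 | h5
              · right; rw [h5]; ring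
              · left; rw [h5]; ring
            · rcases Nat.lt_or_ge t (2 + q) with h6 | h6
              · rw [ppf3 h4 (by omega), ppf2 (by omega) h6]
                have e1 : p + q + 1 - t = (p - 1) + 1 := by omega
                have e2 : t = q + 1 := by omega
                rw [e1, e2]
                push_cast
                rcases h1.2.1 (p - 1) (by omega) with h5 | h5
                · right; rw [h5]; ring
                · left; rw [h5]; ring
              · rw [ppf3 h4 (by omega), ppf3 h6 (by omega)]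
                left
                push_cast
                ring
      · intro t ht
        rw [ppf4 hη (by omega), ppf4 hη (by omega)]
    · simp only [lenPair, if_true]
      refine ⟨ppt0, ?_, ?_⟩
      · intro t ht
        rcases Nat.eq_zero_or_pos t with ht0 | ht0
        · subst ht0
          rw [ppt0, ppt1 (by omega) (by omega)]
          left
          simp [h1.1]
        · rcases Nat.lt_or_ge t p with h4 | h4
          · rw [ppt1 (by omega) (by omega), ppt1 (by omega) (by omega)]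
            have e1 : t + 1 - 1 = (t - 1) + 1 := by omega
            rw [e1]
            rcases h1.2.1 (t - 1) (by omega) with h5 | h5
            · left; rw [h5]
            · right; rw [h5]; ring
          · rcases Nat.eq_or_lt_of_le h4 with h5 | h5
            · rw [← h5, ppt2 (by omega) (by omega), ppt1 (by omega) (by omega)]
              right
              push_cast
              ring
            · rw [ppt2 (by omega) (by omega), ppt2 (by omega) (by omega)]
              left
              push_cast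
              ring
      · intro t ht
        rw [ppt3 hη (by omega), ppt3 hη (by omega)]
  · have hR : ∀ s', pairPath η p q u s' (lenPair η p q s' - 1) = u (p - 1) + 2 * η - 2 := by
      intro s'
      cases s'
      · simp only [lenPair, if_false, Bool.false_eq_true]
        exact ppf4 hη le_rfl
      · simp only [lenPair, if_true]
        exact ppt3 hη le_rfl
    intro s s' i hi
    rw [hR s']
    have h4 := h.one_le
    cases s
    · simp only [lenPair, if_false, Bool.false_eq_true] at hi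
      rcases Nat.eq_zero_or_pos i with h5 | h5
      · subst h5
        rw [ppf0]
        omega
      · rcases Nat.eq_or_lt_of_le h5 with h6 | h6
        · have h6' : i = 1 := by omega
          rw [h6', ppf1]
          omega
        · rcases Nat.lt_or_ge i (2 + q) with h7 | h7
          · rw [ppf2 h6 h7]
            have h8 := h.nonneg (p + q + 1 - i)
            have h9 := h.hmax (p + q + 1 - i) (by omega)
            omega
          · rw [ppf3 h7 (by omega)]
            omega
    · simp only [lenPair, if_true] at hi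
      rcases Nat.eq_zero_or_pos i with h5 | h5
      · subst h5
        rw [ppt0]
        omega
      · rcases Nat.lt_or_ge p i with h6 | h6
        · rw [ppt2 h6 (by omega)]
          omega
        · rw [ppt1 h5 h6]
          have h8 := h.nonneg (i - 1)
          have h9 := h.hmax (i - 1) (by omega)
          omega

omit h in
theorem inj {u' : ℕ → ℤ} (hu : u ∈ paths st1 (p + q)) (hu' : u' ∈ paths st1 (p + q))
    (heq : pairPath η p q u = pairPath η p q u') : u = u' := by
  apply paths_ext hu hu'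
  intro i hi
  rcases Nat.lt_or_ge i p with h1 | h1
  · have h2 := congrFun (congrFun heq true) (i + 1)
    rw [ppt1 (by omega) (by omega), ppt1 (by omega) (by omega), Nat.add_sub_cancel] at h2
    omega
  · have h2 := congrFun (congrFun heq false) (p + q + 1 - i)
    rw [ppf2 (by omega) (by omega), ppf2 (by omega) (by omega)] at h2
    have e1 : p + q + 1 - (p + q + 1 - i) = i := by omega
    rw [e1] at h2
    omega

theorem energy {ω : ℕ → ℝ} (hω : ∀ i, |ω i| ≤ 1) :
    En (lets (lenPair η p q)) (fun x => ω (pairEmb η p q x))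
      (fun x => pairPath η p q u x.1 x.2) ≤
    En (range (p + q)) ω u + 2 * √(En (range (p + q)) ω u * (20 * η)) + 20 * η := by
  have hη := h.hη
  have hp := h.hp
  have h3 := h.last
  have e1 : En (lets (lenPair η p q)) (fun x => ω (pairEmb η p q x))
      (fun x => pairPath η p q u x.1 x.2) =
      En (lets (lenPair η p q)) (fun x => ω (pairEmb η p q x))
      (fun x => pairX η p q u (pairEmb η p q x)) := by
    apply En_congr (fun _ _ => rfl)
    rintro ⟨s, t⟩ ht
    rw [mem_lets] at ht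
    unfold lenPair at ht
    cases s
    · simp only [if_false, Bool.false_eq_true] at ht ⊢
      rcases Nat.eq_zero_or_pos t with h4 | h4
      · subst h4
        rw [ppf0, pef0, px3 hη]
      · rcases Nat.eq_or_lt_of_le h4 with h5 | h5
        · have h5' : t = 1 := by omega
          rw [h5', ppf1, pef1, px4 hη]
        · rcases Nat.lt_or_ge t (2 + q) with h6 | h6
          · rw [ppf2 h5 h6, pef2 h5 h6, px0 (by omega)]
          · rw [ppf3 h6 (by omega), pef3 h6, px5 hη (by omega)]
            push_cast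
            ring
    · simp only [if_true] at ht ⊢
      rcases Nat.eq_zero_or_pos t with h4 | h4
      · subst h4
        rw [ppt0, pet0, px1]
      · rcases Nat.lt_or_ge p t with h6 | h6
        · rw [ppt2 h6 (by omega), pet2 h6, px2 (by omega) (by omega)]
          push_cast
          ring
        · rw [ppt1 h4 h6, pet1 h4 h6, px0 (by omega)]
  rw [e1, ← En_image (pairEmb_injOn hη), pairEmb_image hη]
  have hsplit : range (p + q + 4 * η) = range (p + q) ∪ Ico (p + q) (p + q + 4 * η) := by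
    ext i; simp only [mem_range, mem_union, mem_Ico]; omega
  have hdis : Disjoint (range (p + q)) (Ico (p + q) (p + q + 4 * η)) := by
    rw [Finset.disjoint_left]
    intro i hi hi'
    rw [mem_range] at hi
    rw [mem_Ico] at hi'
    omega
  have e2 : En (range (p + q)) ω (pairX η p q u) = En (range (p + q)) ω u := by
    apply En_congr_iff (fun _ _ => rfl)
    intro i hi j hj
    rw [Finset.mem_range] at hi hj
    rw [px0 hi, px0 hj]
    constructor
    · intro h1; omega
    · intro h1; omega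
  have hmult : ∀ z, ((Ico (p + q) (p + q + 4 * η)).filter
      (fun i => pairX η p q u i = z)).card ≤ 5 := by
    intro z
    have hsub : (Ico (p + q) (p + q + 4 * η)).filter (fun i => pairX η p q u i = z) ⊆
        {p + q, p + q + 2 * η, p + q + 2 * η + 1, (z + 1 - u (p - 1) + (p + q)).toNat,
          (z + 1 - u (p - 1) + (p + q + 2 * η)).toNat} := by
      intro i hi
      rw [Finset.mem_filter, Finset.mem_Ico] at hi
      obtain ⟨hi1, hi2⟩ := hi
      simp only [Finset.mem_insert, Finset.mem_singleton]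
      by_cases h4 : i = p + q
      · left; exact h4
      by_cases h5 : i < p + q + 2 * η
      · rw [px2 (by omega) h5] at hi2
        right; right; right; left; omega
      by_cases h6 : i = p + q + 2 * η
      · right; left; exact h6
      by_cases h7 : i = p + q + 2 * η + 1
      · right; right; left; exact h7
      · rw [px5 hη (by omega)] at hi2
        right; right; right; right; omega
    exact (Finset.card_le_card hsub).trans Finset.card_le_five
  have e3 : En (Ico (p + q) (p + q + 4 * η)) ω (pairX η p q u) ≤ 20 * η := by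
    refine (En_le_mult hω hmult).trans ?_
    rw [Nat.card_Ico]
    have : p + q + 4 * η - (p + q) = 4 * η := by omega
    rw [this]
    push_cast
    linarith
  rw [hsplit]
  refine (En_union_le hdis ω _).trans ?_
  rw [e2]
  have h4 : √(En (range (p + q)) ω u * En (Ico (p + q) (p + q + 4 * η)) ω (pairX η p q u)) ≤
      √(En (range (p + q)) ω u * (20 * η)) :=
    Real.sqrt_le_sqrt (mul_le_mul_of_nonneg_left e3 (En_nonneg _ _ _))
  linarith

end LoopCtx

end Pool.Agent.Lib.MP_5acba2_pr
end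

section
/-!
Bound for the partition function of one sided loops.
-/
set_option autoImplicit false
set_option linter.unusedSectionVars false

namespace Pool.Agent.Lib.MP_5acba2_pr

open Finset Function

theorem exists_loopCtx {η ℓ : ℕ} (heven : η % 2 = 0) (hη : 2 ≤ η) (hℓ : 1 ≤ ℓ) {u : ℕ → ℤ}
    (hu : u ∈ paths st1 (ℓ * η)) (hnn : ∀ t, 0 ≤ u t) (hlast : u (ℓ * η - 1) = 1) :
    ∃ a, 1 ≤ a ∧ a ≤ ℓ ∧ LoopCtx η (a * η) ((ℓ - a) * η) u := by
  have hη0 : 0 < η := by omega
  have hm : η ≤ ℓ * η := Nat.le_mul_of_pos_left _ hℓ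
  obtain ⟨τ, hτ, hmax⟩ := Finset.exists_max_image (range (ℓ * η)) u
    ⟨0, Finset.mem_range.2 (by omega)⟩
  rw [Finset.mem_range] at hτ
  have h1 : τ / η < ℓ := Nat.div_lt_of_lt_mul (by rwa [mul_comm] at hτ)
  have h2 := Nat.div_add_mod τ η
  have h3 := Nat.mod_lt τ hη0
  obtain ⟨k, hk⟩ : ∃ k, k = τ / η := ⟨_, rfl⟩
  rw [← hk] at h1 h2
  have h4 : (k + 1) * η + (ℓ - (k + 1)) * η = ℓ * η := by
    rw [← add_mul]; congr 1; omega
  have h5 : η ≤ (k + 1) * η := Nat.le_mul_of_pos_left _ (by omega)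
  have h6 : (k + 1) * η = η * k + η := by ring
  refine ⟨k + 1, by omega, by omega, hη, by omega, ?_, ?_, hnn, ?_, ?_⟩
  · rw [Nat.mul_mod, heven]; simp
  · rw [h4]; exact hu
  · rw [h4]; exact hlast
  · intro i hi
    rw [h4] at hi
    have h7 := hmax i (Finset.mem_range.2 hi)
    have h8 := abs_le.1 (paths_lip hu (i := τ) (j := (k + 1) * η - 1) (by omega) (by
      have h9 : (k + 1) * η ≤ ℓ * η := Nat.mul_le_mul_right _ h1
      omega))
    omega

theorem loop_bound {η ℓ : ℕ} (heven : η % 2 = 0) (hη : 2 ≤ η) (hℓ : 1 ≤ ℓ) {b : ℝ} (hb : 0 ≤ b)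
    {ω : ℕ → ℝ} (hω : ∀ i, |ω i| ≤ 1) {T B : ℝ} (hB0 : 0 ≤ B)
    (hB : ∀ a, 1 ≤ a → a ≤ ℓ → ZS b (lenPair η (a * η) ((ℓ - a) * η))
      (fun x => ω (pairEmb η (a * η) ((ℓ - a) * η) x)) ≤ B) :
    Zl b (ℓ * η) ω T ≤ ℓ * ((2 ^ (4 * η) *
      Real.exp (2 * √(T * (b * (20 * η))) + b * (20 * η))) * B) := by
  classical
  set m := ℓ * η with hm
  have hmem : ∀ u ∈ loopSet b m ω T, u ∈ paths st1 m ∧ b * En (range m) ω u ≤ T ∧
      (∀ t, 0 ≤ u t) ∧ u (m - 1) = 1 := by
    intro u hu
    rw [loopSet, Finset.mem_filter] at hu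
    exact hu
  have hex : ∀ u : ℕ → ℤ, ∃ a, u ∈ loopSet b m ω T → 1 ≤ a ∧ a ≤ ℓ ∧
      LoopCtx η (a * η) ((ℓ - a) * η) u := by
    intro u
    by_cases hu : u ∈ loopSet b m ω T
    · obtain ⟨h1, _, h2, h3⟩ := hmem u hu
      obtain ⟨a, ha⟩ := exists_loopCtx heven hη hℓ h1 h2 h3
      exact ⟨a, fun _ => ha⟩
    · exact ⟨0, fun h => absurd h hu⟩
  choose a ha using hex
  have hsum : ∀ u ∈ loopSet b m ω T, a u * η + (ℓ - a u) * η = m := by
    intro u hu
    have := (ha u hu).2.1
    rw [← add_mul, hm]; congr 1; omega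
  have hmain := sum_le_of_code (P := loopSet b m ω T) (w := wt b m ω) (φ := a)
    (ψ := fun u => pairPath η (a u * η) ((ℓ - a u) * η) u) (C := (ℓ : ℝ)) ?_
    (Qs := fun k => brs (lenPair η (k * η) ((ℓ - k) * η)))
    (v := fun k x => (∏ s, ((2 : ℝ) ^ (lenPair η (k * η) ((ℓ - k) * η) s - 1))⁻¹) *
      Real.exp (-(b * En (lets (lenPair η (k * η) ((ℓ - k) * η)))
        (fun y => ω (pairEmb η (k * η) ((ℓ - k) * η) y)) (fun y => x y.1 y.2))))
    (κ := 2 ^ (4 * η) * Real.exp (2 * √(T * (b * (20 * η))) + b * (20 * η))) (B := B)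
    (by positivity) hB0
    (fun k x _ => mul_nonneg (norm_pos _).le (Real.exp_nonneg _)) ?_ ?_ ?_ ?_
  · exact hmain
  · have h1 : (loopSet b m ω T).image a ⊆ Icc 1 ℓ := by
      intro k hk
      obtain ⟨u, hu, rfl⟩ := Finset.mem_image.1 hk
      rw [Finset.mem_Icc]
      exact ⟨(ha u hu).1, (ha u hu).2.1⟩
    have h2 := Finset.card_le_card h1
    rw [Nat.card_Icc, Nat.add_sub_cancel] at h2
    exact_mod_cast h2
  · intro u hu
    exact (ha u hu).2.2.mem
  · intro u hu u' hu' h1 h2
    rw [← h1] at h2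
    have h3 := hsum u hu
    exact LoopCtx.inj (by rw [h3]; exact (hmem u hu).1) (by rw [h3]; exact (hmem u' hu').1) h2
  · intro u hu
    obtain ⟨_, _, hctx⟩ := ha u hu
    have h1 := hsum u hu
    have hη0 : 0 < η := by omega
    have h2 := (hmem u hu).2.1
    have h3 := hctx.energy hω
    have hp := hctx.hp
    rw [h1] at h3
    set p := a u * η with hp'
    set q := (ℓ - a u) * η with hq'
    have h4 := b_mul_bound hb (En_nonneg (range m) ω u) (by positivity) h2 h3
    have hpow : ((2 : ℝ) ^ (m - 1))⁻¹ ≤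
        2 ^ (4 * η) * ∏ s, ((2 : ℝ) ^ (lenPair η p q s - 1))⁻¹ := by
      rw [Fintype.prod_bool]
      simp only [lenPair, if_true, Bool.false_eq_true, if_false]
      rw [← mul_inv, ← pow_add, inv_le_iff_one_le_mul₀ (by positivity)]
      have h7 : (2 : ℝ) ^ ((p + 2 * η - 1) + (q + 2 * η - 1)) ≤ 2 ^ (4 * η + (m - 1)) :=
        pow_le_pow_right₀ (by norm_num) (by omega)
      rw [pow_add _ (4 * η)] at h7
      have h8 : 2 ^ (4 * η) * ((2 : ℝ) ^ ((p + 2 * η - 1) + (q + 2 * η - 1)))⁻¹ * 2 ^ (m - 1) =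
        (2 ^ (4 * η) * 2 ^ (m - 1)) / (2 : ℝ) ^ ((p + 2 * η - 1) + (q + 2 * η - 1)) := by
        rw [div_eq_mul_inv]; ring
      rw [h8, le_div_iff₀ (by positivity), one_mul]
      exact h7
    have hexp : Real.exp (-(b * En (range m) ω u)) ≤
        Real.exp (2 * √(T * (b * (20 * η))) + b * (20 * η)) *
        Real.exp (-(b * En (lets (lenPair η p q))
          (fun y => ω (pairEmb η p q y)) (fun y => pairPath η p q u y.1 y.2))) := by
      rw [← Real.exp_add]
      apply Real.exp_le_exp.2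
      linarith
    unfold wt
    calc ((2 : ℝ) ^ (m - 1))⁻¹ * Real.exp (-(b * En (range m) ω u)) ≤
        (2 ^ (4 * η) * ∏ s, ((2 : ℝ) ^ (lenPair η p q s - 1))⁻¹) *
        (Real.exp (2 * √(T * (b * (20 * η))) + b * (20 * η)) *
        Real.exp (-(b * En (lets (lenPair η p q))
          (fun y => ω (pairEmb η p q y)) (fun y => pairPath η p q u y.1 y.2)))) :=
          mul_le_mul hpow hexp (Real.exp_nonneg _)
            (mul_nonneg (by positivity) (norm_pos _).le)
      _ = _ := by ring
  · intro u hu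
    have h1 := hB (a u) (ha u hu).1 (ha u hu).2.1
    unfold ZS at h1
    rw [Finset.mul_sum] at h1
    exact h1

end Pool.Agent.Lib.MP_5acba2_pr
end

section
/-!
The chain of lengths used in the dyadic argument.
-/
set_option autoImplicit false

namespace Pool.Agent.Lib.MP_5acba2_pr

open Filter

/-- The gap at level `k`. -/
noncomputable def gapLen (k : ℕ) : ℕ := ⌈((3 : ℝ) / 2) ^ k⌉₊

/-- The length at level `k`. -/
noncomputable def chainLen : ℕ → ℕ
  | 0 => 1
  | k + 1 => 2 * chainLen k + gapLen k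

theorem gapLen_ge (k : ℕ) : ((3 : ℝ) / 2) ^ k ≤ gapLen k := Nat.le_ceil _

theorem gapLen_le (k : ℕ) : (gapLen k : ℝ) ≤ 2 * ((3 : ℝ) / 2) ^ k := by
  have h1 : (gapLen k : ℝ) < ((3 : ℝ) / 2) ^ k + 1 := Nat.ceil_lt_add_one (by positivity)
  have h2 : (1 : ℝ) ≤ ((3 : ℝ) / 2) ^ k := one_le_pow₀ (by norm_num)
  linarith

theorem gapLen_pos (k : ℕ) : 1 ≤ gapLen k := by
  have h2 : (1 : ℝ) ≤ ((3 : ℝ) / 2) ^ k := one_le_pow₀ (by norm_num)
  have := h2.trans (gapLen_ge k)
  exact_mod_cast this

theorem chainLen_ge (k : ℕ) : 2 ^ k ≤ chainLen k := by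
  induction k with
  | zero => simp [chainLen]
  | succ k ih =>
    simp only [chainLen]
    rw [pow_succ]
    omega

theorem chainLen_ge_real (k : ℕ) : (2 : ℝ) ^ k ≤ chainLen k := by
  exact_mod_cast chainLen_ge k

theorem chainLen_pos (k : ℕ) : 1 ≤ chainLen k := (Nat.one_le_two_pow).trans (chainLen_ge k)

theorem chainLen_le' (k : ℕ) : (chainLen k : ℝ) + 4 * ((3 : ℝ) / 2) ^ k ≤ 5 * 2 ^ k := by
  induction k with
  | zero => norm_num [chainLen]
  | succ k ih =>
    simp only [chainLen]
    push_cast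
    have h := gapLen_le k
    rw [pow_succ, pow_succ]
    linarith

theorem chainLen_le (k : ℕ) : (chainLen k : ℝ) ≤ 5 * 2 ^ k := by
  have h := chainLen_le' k
  have h2 : (0 : ℝ) ≤ ((3 : ℝ) / 2) ^ k := by positivity
  linarith

theorem err_bound (l : ℕ) {A S P : ℝ} (hA : 1 ≤ A) (hS0 : 0 ≤ S) (hS : S ≤ A * 2 ^ l)
    (hP : P ≤ A ^ 2 * 4 ^ l) :
    (gapLen l : ℝ) + √(gapLen l * S) + P / (gapLen l : ℝ) ^ 2 ≤ 5 * A ^ 2 * (9 / 5) ^ l := by
  have hg1 := gapLen_ge l
  have hg2 := gapLen_le l
  have hpos : (0 : ℝ) < ((3 : ℝ) / 2) ^ l := by positivity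
  have hgpos : (0 : ℝ) < gapLen l := lt_of_lt_of_le hpos hg1
  have h1 : (gapLen l : ℝ) ≤ 2 * (9 / 5) ^ l := by
    refine hg2.trans ?_
    have : ((3 : ℝ) / 2) ^ l ≤ (9 / 5) ^ l := pow_le_pow_left₀ (by norm_num) (by norm_num) l
    linarith
  have h2 : √(gapLen l * S) ≤ 2 * A * (9 / 5) ^ l := by
    apply Real.sqrt_le_iff.2
    refine ⟨by positivity, ?_⟩
    have h3 : (gapLen l : ℝ) * S ≤ (2 * (3 / 2) ^ l) * (A * 2 ^ l) :=
      mul_le_mul hg2 hS hS0 (by positivity)
    have h4 : (2 * (3 / 2 : ℝ) ^ l) * (A * 2 ^ l) = 2 * A * 3 ^ l := by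
      have : (3 / 2 : ℝ) ^ l * 2 ^ l = 3 ^ l := by
        rw [← mul_pow]; norm_num
      calc (2 * (3 / 2 : ℝ) ^ l) * (A * 2 ^ l) = 2 * A * ((3 / 2 : ℝ) ^ l * 2 ^ l) := by ring
        _ = _ := by rw [this]
    have h5 : (3 : ℝ) ^ l ≤ ((9 / 5) ^ l) ^ 2 := by
      rw [← pow_mul, mul_comm l 2, pow_mul]
      exact pow_le_pow_left₀ (by norm_num) (by norm_num) l
    have h6 : (2 * A * (9 / 5 : ℝ) ^ l) ^ 2 = 4 * A ^ 2 * ((9 / 5) ^ l) ^ 2 := by ring
    rw [h6]
    have h7 : (0 : ℝ) ≤ ((9 / 5 : ℝ) ^ l) ^ 2 := by positivity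
    have h8 : 2 * A * (3 : ℝ) ^ l ≤ 2 * A * ((9 / 5) ^ l) ^ 2 :=
      mul_le_mul_of_nonneg_left h5 (by positivity)
    have h9 : 2 * A * ((9 / 5 : ℝ) ^ l) ^ 2 ≤ 4 * A ^ 2 * ((9 / 5) ^ l) ^ 2 :=
      mul_le_mul_of_nonneg_right (by nlinarith) h7
    linarith
  have h3 : P / (gapLen l : ℝ) ^ 2 ≤ A ^ 2 * (9 / 5) ^ l := by
    rw [div_le_iff₀ (by positivity)]
    have h4 : (((3 : ℝ) / 2) ^ l) ^ 2 ≤ (gapLen l : ℝ) ^ 2 := pow_le_pow_left₀ hpos.le hg1 2
    have h5 : (4 : ℝ) ^ l ≤ (9 / 5) ^ l * (((3 : ℝ) / 2) ^ l) ^ 2 := by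
      rw [← pow_mul, mul_comm l 2, pow_mul, ← mul_pow]
      exact pow_le_pow_left₀ (by norm_num) (by norm_num) l
    calc P ≤ A ^ 2 * 4 ^ l := hP
      _ ≤ A ^ 2 * ((9 / 5) ^ l * (((3 : ℝ) / 2) ^ l) ^ 2) :=
        mul_le_mul_of_nonneg_left h5 (by positivity)
      _ ≤ A ^ 2 * ((9 / 5) ^ l * (gapLen l : ℝ) ^ 2) := by
        apply mul_le_mul_of_nonneg_left _ (by positivity)
        exact mul_le_mul_of_nonneg_left h4 (by positivity)
      _ = _ := by ring
  have h10 : (0 : ℝ) < (9 / 5) ^ l := by positivity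
  nlinarith [mul_nonneg (sub_nonneg.2 hA) h10.le, mul_nonneg (mul_nonneg (sub_nonneg.2 hA)
    (by linarith : (0 : ℝ) ≤ A)) h10.le]

/-- The normalised lengths converge. -/
theorem chainLen_tendsto : ∃ N : ℝ, 1 ≤ N ∧ N ≤ 5 ∧ (∀ k, (chainLen k : ℝ) / 2 ^ k ≤ N) ∧
    Tendsto (fun k => (chainLen k : ℝ) / 2 ^ k) atTop (nhds N) := by
  have hmono : Monotone (fun k => (chainLen k : ℝ) / 2 ^ k) := by
    apply monotone_nat_of_le_succ
    intro k
    simp only [chainLen]
    push_cast
    rw [pow_succ, div_le_div_iff₀ (by positivity) (by positivity)]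
    have h1 : (0 : ℝ) ≤ gapLen k := Nat.cast_nonneg _
    have h2 : (0 : ℝ) < 2 ^ k := by positivity
    nlinarith [mul_nonneg h1 h2.le]
  have hbd : ∀ k, (chainLen k : ℝ) / 2 ^ k ≤ 5 := fun k => by
    rw [div_le_iff₀ (by positivity)]
    exact chainLen_le k
  have hbdd : BddAbove (Set.range fun k => (chainLen k : ℝ) / 2 ^ k) := by
    refine ⟨5, ?_⟩
    rintro _ ⟨k, rfl⟩
    exact hbd k
  have h := tendsto_atTop_ciSup hmono hbdd
  refine ⟨_, ?_, ciSup_le hbd, fun k => le_ciSup hbdd k, h⟩
  have := le_ciSup hbdd 0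
  simpa [chainLen] using this

end Pool.Agent.Lib.MP_5acba2_pr
end
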