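import Mathlib

/-!
Definitions for MP_5acba2_pr: the charged polymer.
-/

set_option autoImplicit false

namespace Pool.Agent.Lib.MP_5acba2_pr

open MeasureTheory

/-- The `2 d` unit steps of simple random walk on `ℤ^d`. -/
def unitStep {d : ℕ} (a : Fin d × Bool) : Fin d → ℤ :=
  Pi.single a.1 (if a.2 then 1 else -1)

/-- The position `S_i` of the walk with steps `s_0, ..., s_{n-1}`. -/
def walk {d n : ℕ} (s : Fin n → Fin d × Bool) (i : ℕ) : Fin d → ℤ :=
  ∑ k : Fin n, if k.val < i then unitStep (s k) else 0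

/-- The interaction `I_n^ω(S) = ∑_{0 ≤ i < j ≤ n} ω_i ω_j 1{S_i = S_j}`. -/
noncomputable def interaction {d n : ℕ} (ω : ℕ → ℝ) (s : Fin n → Fin d × Bool) : ℝ :=
  ∑ j ∈ Finset.range (n + 1), ∑ i ∈ Finset.range j,
    if walk s i = walk s j then ω i * ω j else 0

/-- The quenched partition function `Z_n^{β,ω} = E (exp (-β I_n^ω(S)))`, the average over all
`(2 d)^n` nearest neighbour paths with `n` steps started at `0`. -/
noncomputable def partitionFunction (d : ℕ) (β : ℝ) (ω : ℕ → ℝ) (n : ℕ) : ℝ :=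
  (((2 * d : ℕ) : ℝ) ^ n)⁻¹ *
    ∑ s : Fin n → Fin d × Bool, Real.exp (-(β * interaction ω s))

end Pool.Agent.Lib.MP_5acba2_pr
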