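import Mathlib
import Pool.Agent.Lib.MP_5acba2_pr.Chain

section
/-!
Tail summability for dyadic near-superadditive averages.
-/
set_option autoImplicit false
set_option linter.unusedSectionVars false

namespace Pool.Agent.Lib.MP_5acba2_pr

open MeasureTheory Set Function Filter

section

variable {X : Type*} [MeasurableSpace X] (μ : Measure X) [IsProbabilityMeasure μ]
  (p q : ℕ → X → X)

/-- Iterated centred averages. -/
noncomputable def avgIter (f : X → ℝ) (j : ℕ) : ℕ → X → ℝ
  | 0 => f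
  | i + 1 => fun ω => (avgIter f j i (p (j + i) ω) + avgIter f j i (q (j + i) ω)) / 2

variable {p q}

theorem avgIter_props (hpq : ∀ k, MeasurePreserving (fun ω => (p k ω, q k ω)) μ (μ.prod μ))
    {f : X → ℝ} (hf : Measurable f) {M : ℝ} (hM : ∀ ω, |f ω| ≤ M) (hint : ∫ ω, f ω ∂μ = 0)
    (j i : ℕ) :
    Measurable (avgIter p q f j i) ∧ (∀ ω, |avgIter p q f j i ω| ≤ M) ∧
      ∫ ω, avgIter p q f j i ω ∂μ = 0 ∧
      ∫ ω, (avgIter p q f j i ω) ^ 2 ∂μ ≤ M ^ 2 * (1 / 2) ^ i := by
  have hM0 : 0 ≤ M := by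
    by_contra hcon
    push Not at hcon
    have hne : Nonempty X := nonempty_of_isProbabilityMeasure μ
    obtain ⟨ω⟩ := hne
    have := (abs_nonneg (f ω)).trans (hM ω)
    linarith
  induction i with
  | zero =>
    refine ⟨hf, hM, hint, ?_⟩
    simp only [avgIter, pow_zero, mul_one]
    calc ∫ ω, (f ω) ^ 2 ∂μ ≤ ∫ _ω, M ^ 2 ∂μ := by
          apply integral_mono_of_nonneg
          · exact Eventually.of_forall fun ω => sq_nonneg _
          · exact integrable_const _
          · exact Eventually.of_forall fun ω => by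
              dsimp only
              rw [← sq_abs]
              exact pow_le_pow_left₀ (abs_nonneg _) (hM ω) 2
      _ = M ^ 2 := by simp
  | succ i ih =>
    obtain ⟨hm, hb, h0, h2⟩ := ih
    set g := avgIter p q f j i with hg
    have hpm : Measurable (p (j + i)) := measurable_fst.comp (hpq (j + i)).measurable
    have hqm : Measurable (q (j + i)) := measurable_snd.comp (hpq (j + i)).measurable
    have hgint : Integrable g μ :=
      Integrable.of_bound hm.aestronglyMeasurable M (Eventually.of_forall fun ω => by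
        rw [Real.norm_eq_abs]; exact hb ω)
    have hg2int : Integrable (fun ω => g ω ^ 2) μ :=
      Integrable.of_bound (hm.pow_const 2).aestronglyMeasurable (M ^ 2)
        (Eventually.of_forall fun ω => by
          rw [Real.norm_eq_abs, abs_pow]
          exact pow_le_pow_left₀ (abs_nonneg _) (hb ω) 2)
    have hG : Measurable (fun z : X × X => (g z.1 + g z.2) / 2) :=
      ((hm.comp measurable_fst).add (hm.comp measurable_snd)).div_const 2
    have hrec : avgIter p q f j (i + 1) =
        fun ω => (g (p (j + i) ω) + g (q (j + i) ω)) / 2 := rfl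
    refine ⟨?_, ?_, ?_, ?_⟩
    · rw [hrec]
      exact ((hm.comp hpm).add (hm.comp hqm)).div_const 2
    · intro ω
      rw [hrec]
      dsimp only
      rw [abs_div, abs_of_pos (by norm_num : (0 : ℝ) < 2)]
      have h3 := abs_add_le (g (p (j + i) ω)) (g (q (j + i) ω))
      have h4 := hb (p (j + i) ω)
      have h5 := hb (q (j + i) ω)
      linarith
    · rw [hrec]
      have h3 : ∫ ω, (g (p (j + i) ω) + g (q (j + i) ω)) / 2 ∂μ =
          ∫ z, (g z.1 + g z.2) / 2 ∂(μ.prod μ) := by
        rw [← (hpq (j + i)).map_eq, integral_map (hpq (j + i)).measurable.aemeasurable]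
        rw [(hpq (j + i)).map_eq]
        exact hG.aestronglyMeasurable
      rw [h3]
      have h4 : ∫ z, (g z.1 + g z.2) / 2 ∂(μ.prod μ) =
          (∫ z, g z.1 ∂(μ.prod μ) + ∫ z, g z.2 ∂(μ.prod μ)) / 2 := by
        rw [integral_div, integral_add]
        · exact hgint.comp_fst μ
        · exact hgint.comp_snd μ
      rw [h4, integral_fun_fst, integral_fun_snd, h0]
      simp
    · rw [hrec]
      have hG2 : Measurable (fun z : X × X => ((g z.1 + g z.2) / 2) ^ 2) := hG.pow_const 2
      have h3 : ∫ ω, ((g (p (j + i) ω) + g (q (j + i) ω)) / 2) ^ 2 ∂μ =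
          ∫ z, ((g z.1 + g z.2) / 2) ^ 2 ∂(μ.prod μ) := by
        rw [← (hpq (j + i)).map_eq, integral_map (hpq (j + i)).measurable.aemeasurable]
        rw [(hpq (j + i)).map_eq]
        exact hG2.aestronglyMeasurable
      rw [h3]
      have h4 : ∫ z, ((g z.1 + g z.2) / 2) ^ 2 ∂(μ.prod μ) =
          (∫ ω, g ω ^ 2 ∂μ) / 2 := by
        have h5 : ∀ z : X × X, ((g z.1 + g z.2) / 2) ^ 2 =
            (1 / 4) * (g z.1 ^ 2) + (1 / 2) * (g z.1 * g z.2) + (1 / 4) * (g z.2 ^ 2) := by
          intro z; ring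
        simp_rw [h5]
        rw [integral_add, integral_add, integral_const_mul, integral_const_mul,
          integral_const_mul, integral_prod_mul (μ := μ) (ν := μ) g g, h0]
        · rw [integral_fun_fst (f := fun x => g x ^ 2), integral_fun_snd (f := fun x => g x ^ 2)]
          simp
          ring
        · exact (hg2int.comp_fst μ).const_mul _
        · exact (hgint.mul_prod hgint).const_mul _
        · exact ((hg2int.comp_fst μ).const_mul _).add ((hgint.mul_prod hgint).const_mul _)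
        · exact (hg2int.comp_snd μ).const_mul _
      have h6 : (1 / 2 : ℝ) ^ (i + 1) = (1 / 2) ^ i * (1 / 2) := pow_succ _ _
      rw [h4, h6]
      linarith

/-- Integrals of functions of one of the two halves. -/
theorem integral_comp_fst (hpq : ∀ k, MeasurePreserving (fun ω => (p k ω, q k ω)) μ (μ.prod μ))
    (k : ℕ) {g : X → ℝ} (hg : Measurable g) : ∫ ω, g (p k ω) ∂μ = ∫ ω, g ω ∂μ := by
  have h1 : MeasurePreserving (p k) μ μ := by
    have := (measurePreserving_fst (μ := μ) (ν := μ)).comp (hpq k)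
    exact this
  have h2 := integral_map (μ := μ) h1.measurable.aemeasurable (f := g)
    hg.aestronglyMeasurable
  rw [h1.map_eq] at h2
  exact h2.symm

theorem integral_comp_snd (hpq : ∀ k, MeasurePreserving (fun ω => (p k ω, q k ω)) μ (μ.prod μ))
    (k : ℕ) {g : X → ℝ} (hg : Measurable g) : ∫ ω, g (q k ω) ∂μ = ∫ ω, g ω ∂μ := by
  have h1 : MeasurePreserving (q k) μ μ := by
    have := (measurePreserving_snd (μ := μ) (ν := μ)).comp (hpq k)
    exact this
  have h2 := integral_map (μ := μ) h1.measurable.aemeasurable (f := g)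
    hg.aestronglyMeasurable
  rw [h1.map_eq] at h2
  exact h2.symm

theorem integral_comp_pair (hpq : ∀ k, MeasurePreserving (fun ω => (p k ω, q k ω)) μ (μ.prod μ))
    (k : ℕ) {g h : X → ℝ} (hg : Measurable g) (hh : Measurable h) :
    ∫ ω, g (p k ω) * h (q k ω) ∂μ = (∫ ω, g ω ∂μ) * ∫ ω, h ω ∂μ := by
  have h1 : ∫ ω, g (p k ω) * h (q k ω) ∂μ = ∫ z, g z.1 * h z.2 ∂(μ.prod μ) := by
    rw [← (hpq k).map_eq, integral_map (hpq k).measurable.aemeasurable]
    rw [(hpq k).map_eq]
    exact ((hg.comp measurable_fst).mul (hh.comp measurable_snd)).aestronglyMeasurable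
  rw [h1, integral_prod_mul]

variable (hpq : ∀ k, MeasurePreserving (fun ω => (p k ω, q k ω)) μ (μ.prod μ))
  {x : ℕ → X → ℝ} (hx : ∀ k, Measurable (x k)) {M : ℝ}
  (h0 : ∀ k ω, 0 ≤ x k ω) (hM : ∀ k ω, x k ω ≤ M) {ε : ℕ → ℝ} (hε : Summable ε)
  (hε0 : ∀ k, 0 ≤ ε k)
  (hsup : ∀ k ω, (x k (p k ω) + x k (q k ω)) / 2 - ε k ≤ x (k + 1) ω)

include hx h0 hM in
theorem x_integrable (k : ℕ) : Integrable (x k) μ :=
  Integrable.of_bound (hx k).aestronglyMeasurable M (Eventually.of_forall fun ω => by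
    rw [Real.norm_eq_abs, abs_of_nonneg (h0 k ω)]; exact hM k ω)

include hpq hx h0 hM hsup in
theorem mean_step (k : ℕ) : ∫ ω, x k ω ∂μ - ε k ≤ ∫ ω, x (k + 1) ω ∂μ := by
  have hint := x_integrable μ hx h0 hM k
  have hp : Integrable (fun ω => x k (p k ω)) μ := by
    have h1 : MeasurePreserving (p k) μ μ := (measurePreserving_fst (μ := μ) (ν := μ)).comp (hpq k)
    exact h1.integrable_comp_of_integrable hint
  have hq : Integrable (fun ω => x k (q k ω)) μ := by
    have h1 : MeasurePreserving (q k) μ μ := (measurePreserving_snd (μ := μ) (ν := μ)).comp (hpq k)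
    exact h1.integrable_comp_of_integrable hint
  have hs : Integrable (fun ω => (x k (p k ω) + x k (q k ω)) / 2) μ := (hp.add hq).div_const 2
  have h1 : ∫ ω, ((x k (p k ω) + x k (q k ω)) / 2 - ε k) ∂μ = ∫ ω, x k ω ∂μ - ε k := by
    rw [integral_sub hs (integrable_const _), integral_div,
      integral_add hp hq, integral_comp_fst μ hpq k (hx k), integral_comp_snd μ hpq k (hx k)]
    simp
  rw [← h1]
  exact integral_mono (hs.sub (integrable_const _))
    (x_integrable μ hx h0 hM (k + 1)) (hsup k)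

include hpq hx h0 hM hε hε0 hsup in
theorem mean_tendsto : ∃ b : ℝ, 0 ≤ b ∧ b ≤ M ∧
    Tendsto (fun k => ∫ ω, x k ω ∂μ) atTop (nhds b) := by
  set a : ℕ → ℝ := fun k => ∫ ω, x k ω ∂μ with ha
  have ha0 : ∀ k, 0 ≤ a k := fun k => integral_nonneg (h0 k)
  have haM : ∀ k, a k ≤ M := fun k => by
    calc a k ≤ ∫ _ω, M ∂μ := integral_mono (x_integrable μ hx h0 hM k) (integrable_const _) (hM k)
      _ = M := by simp
  have hmono : Monotone (fun k => a k + ∑ i ∈ Finset.range k, ε i) := by
    apply monotone_nat_of_le_succ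
    intro k
    have := mean_step μ hpq hx h0 hM hsup k
    rw [Finset.sum_range_succ]
    linarith
  have hbdd : BddAbove (Set.range fun k => a k + ∑ i ∈ Finset.range k, ε i) := by
    refine ⟨M + ∑' i, ε i, ?_⟩
    rintro _ ⟨k, rfl⟩
    exact add_le_add (haM k) (hε.sum_le_tsum _ fun i _ => hε0 i)
  have h1 := tendsto_atTop_ciSup hmono hbdd
  have h2 := h1.sub hε.hasSum.tendsto_sum_nat
  simp only [add_sub_cancel_right] at h2
  exact ⟨_, ge_of_tendsto' h2 ha0, le_of_tendsto' h2 haM, h2⟩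

include hpq hx h0 hM hε hε0 hsup in
theorem lower_tail {b : ℝ} (hb : Tendsto (fun k => ∫ ω, x k ω ∂μ) atTop (nhds b)) {δ : ℝ}
    (hδ : 0 < δ) : Summable (fun k => μ.real {ω | x k ω ≤ b - δ}) := by
  have h1 : ∀ᶠ j in atTop, b - δ / 4 < ∫ ω, x j ω ∂μ := hb.eventually (lt_mem_nhds (by linarith))
  have h2 : ∀ᶠ j in atTop, ∑' k, ε (k + j) < δ / 4 :=
    (tendsto_sum_nat_add ε).eventually (gt_mem_nhds (by positivity))
  obtain ⟨j, hj1, hj2⟩ := (h1.and h2).exists
  set a := ∫ ω, x j ω ∂μ with ha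
  have ha0 : 0 ≤ a := integral_nonneg (h0 j)
  have haM : a ≤ M := by
    calc a ≤ ∫ _ω, M ∂μ := integral_mono (x_integrable μ hx h0 hM j) (integrable_const _) (hM j)
      _ = M := by simp
  set f : X → ℝ := fun ω => x j ω - a with hf
  have hfm : Measurable f := (hx j).sub_const a
  have hfM : ∀ ω, |f ω| ≤ M := by
    intro ω
    rw [abs_le]
    have h3 := h0 j ω
    have h4 := hM j ω
    constructor
    · simp only [hf]; linarith
    · simp only [hf]; linarith
  have hfint : ∫ ω, f ω ∂μ = 0 := by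
    simp only [hf]
    rw [integral_sub (x_integrable μ hx h0 hM j) (integrable_const _)]
    simp [ha]
  have hcmp : ∀ i ω, avgIter p q f j i ω + a - ∑ l ∈ Finset.range i, ε (j + l) ≤ x (j + i) ω := by
    intro i
    induction i with
    | zero =>
      intro ω
      simp [avgIter, hf]
    | succ i ih =>
      intro ω
      have h3 := ih (p (j + i) ω)
      have h4 := ih (q (j + i) ω)
      have h5 := hsup (j + i) ω
      rw [Finset.sum_range_succ]
      simp only [avgIter]
      rw [← add_assoc]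
      linarith
  have htail : ∀ i, ∑ l ∈ Finset.range i, ε (j + l) ≤ δ / 4 := by
    intro i
    have h3 : Summable (fun l => ε (l + j)) := (summable_nat_add_iff j).2 hε
    have h4 := h3.sum_le_tsum (Finset.range i) (fun l _ => hε0 _)
    calc ∑ l ∈ Finset.range i, ε (j + l) = ∑ l ∈ Finset.range i, ε (l + j) := by
          apply Finset.sum_congr rfl; intro l _; rw [add_comm]
      _ ≤ _ := h4
      _ ≤ δ / 4 := hj2.le
  rw [← summable_nat_add_iff j]
  refine Summable.of_nonneg_of_le (fun i => measureReal_nonneg) (fun i => ?_)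
    ((summable_geometric_of_lt_one (by norm_num : (0 : ℝ) ≤ 1 / 2) (by norm_num)).mul_left
      (4 * M ^ 2 / δ ^ 2))
  obtain ⟨hm, hbd, hz, h2m⟩ := avgIter_props μ hpq hfm hfM hfint j i
  have hsub : {ω | x (i + j) ω ≤ b - δ} ⊆ {ω | δ ^ 2 / 4 ≤ (avgIter p q f j i ω) ^ 2} := by
    intro ω hω
    have h3 : x (i + j) ω ≤ b - δ := hω
    have h4 := hcmp i ω
    have h5 := htail i
    rw [add_comm j i] at h4
    have h6 : avgIter p q f j i ω ≤ -(δ / 2) := by linarith
    show δ ^ 2 / 4 ≤ (avgIter p q f j i ω) ^ 2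
    nlinarith
  have hint2 : Integrable (fun ω => (avgIter p q f j i ω) ^ 2) μ :=
    Integrable.of_bound (hm.pow_const 2).aestronglyMeasurable (M ^ 2)
      (Eventually.of_forall fun ω => by
        rw [Real.norm_eq_abs, abs_pow]
        exact pow_le_pow_left₀ (abs_nonneg _) (hbd ω) 2)
  have hmarkov := mul_meas_ge_le_integral_of_nonneg (μ := μ)
    (Eventually.of_forall fun ω => sq_nonneg (avgIter p q f j i ω)) hint2 (δ ^ 2 / 4)
  calc μ.real {ω | x (i + j) ω ≤ b - δ}
      ≤ μ.real {ω | δ ^ 2 / 4 ≤ (avgIter p q f j i ω) ^ 2} := measureReal_mono hsub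
    _ ≤ (M ^ 2 * (1 / 2) ^ i) / (δ ^ 2 / 4) := by
        rw [le_div_iff₀ (by positivity), mul_comm]
        exact hmarkov.trans h2m
    _ = 4 * M ^ 2 / δ ^ 2 * (1 / 2) ^ i := by
        field_simp

open Classical in
/-- The proportion of uncovered leaves. -/
noncomputable def unc (p q : ℕ → X → X) (x : ℕ → X → ℝ) (t : ℝ) (k0 : ℕ) : ℕ → X → ℝ
  | 0 => fun _ => 1
  | i + 1 => fun ω => if t ≤ x (k0 + i + 1) ω then 0
      else (unc p q x t k0 i (p (k0 + i) ω) + unc p q x t k0 i (q (k0 + i) ω)) / 2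

include hpq hx in
theorem unc_props (t : ℝ) (k0 i : ℕ) :
    Measurable (unc p q x t k0 i) ∧ (∀ ω, 0 ≤ unc p q x t k0 i ω) ∧
      ∀ ω, unc p q x t k0 i ω ≤ 1 := by
  induction i with
  | zero => exact ⟨measurable_const, fun _ => zero_le_one, fun _ => le_rfl⟩
  | succ i ih =>
    obtain ⟨hm, hn, hl⟩ := ih
    have hpm : Measurable (p (k0 + i)) := measurable_fst.comp (hpq (k0 + i)).measurable
    have hqm : Measurable (q (k0 + i)) := measurable_snd.comp (hpq (k0 + i)).measurable
    refine ⟨?_, ?_, ?_⟩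
    · exact Measurable.ite (measurableSet_le measurable_const (hx _)) measurable_const
        (((hm.comp hpm).add (hm.comp hqm)).div_const 2)
    · intro ω
      simp only [unc]
      split_ifs
      · exact le_rfl
      · have h1 := hn (p (k0 + i) ω)
        have h2 := hn (q (k0 + i) ω)
        linarith
    · intro ω
      simp only [unc]
      split_ifs
      · exact zero_le_one
      · have h1 := hl (p (k0 + i) ω)
        have h2 := hl (q (k0 + i) ω)
        linarith

include hsup h0 hε0 in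
theorem unc_lower {t : ℝ} (ht : 0 ≤ t) (k0 i : ℕ) (ω : X) :
    t * (1 - unc p q x t k0 i ω) - ∑ l ∈ Finset.range i, ε (k0 + l) ≤ x (k0 + i) ω := by
  induction i generalizing ω with
  | zero => simpa [unc] using h0 k0 ω
  | succ i ih =>
    have h1 := ih (p (k0 + i) ω)
    have h2 := ih (q (k0 + i) ω)
    have h3 := hsup (k0 + i) ω
    rw [Finset.sum_range_succ]
    simp only [unc]
    rw [← add_assoc]
    by_cases h : t ≤ x (k0 + i + 1) ω
    · rw [if_pos h]
      have h4 : 0 ≤ ∑ l ∈ Finset.range i, ε (k0 + l) := Finset.sum_nonneg fun l _ => hε0 _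
      have h5 := hε0 (k0 + i)
      linarith
    · rw [if_neg h]
      linarith

include hpq hx hsup in
theorem unc_mean_step {b δ : ℝ} (hδ : 0 < δ) (k0 i : ℕ) (hek : ε (k0 + i) ≤ δ / 8) :
    ∫ ω, unc p q x (b + δ / 4) k0 (i + 1) ω ∂μ ≤
      (∫ ω, unc p q x (b + δ / 4) k0 i ω ∂μ) * (1 - μ.real {ω | b + δ ≤ x (k0 + i) ω}) +
        μ.real {ω | x (k0 + i) ω ≤ b - δ / 4} := by
  classical
  obtain ⟨hm, hn, hl⟩ := unc_props μ hpq hx (b + δ / 4) k0 i
  obtain ⟨hm', hn', hl'⟩ := unc_props μ hpq hx (b + δ / 4) k0 (i + 1)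
  set U := unc p q x (b + δ / 4) k0 i with hU
  set U' := unc p q x (b + δ / 4) k0 (i + 1) with hU'
  set k := k0 + i with hk
  set B : Set X := {ω | b + δ ≤ x k ω} with hB
  set T : Set X := {ω | x k ω ≤ b - δ / 4} with hT
  have hBm : MeasurableSet B := measurableSet_le measurable_const (hx k)
  have hTm : MeasurableSet T := measurableSet_le (hx k) measurable_const
  have hpm : Measurable (p k) := measurable_fst.comp (hpq k).measurable
  have hqm : Measurable (q k) := measurable_snd.comp (hpq k).measurable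
  have hBi : Measurable (fun ω => 1 - B.indicator (fun _ => (1 : ℝ)) ω) :=
    measurable_const.sub (measurable_const.indicator hBm)
  have hTi : Measurable (T.indicator (fun _ => (1 : ℝ))) := measurable_const.indicator hTm
  have hind : ∀ (S : Set X) ω, 0 ≤ S.indicator (fun _ => (1 : ℝ)) ω ∧
      S.indicator (fun _ => (1 : ℝ)) ω ≤ 1 := by
    intro S ω
    by_cases h : ω ∈ S
    · simp [h]
    · simp [h]
  have hpt : ∀ ω, U' ω ≤
      (U (p k ω) * (1 - B.indicator (fun _ => (1 : ℝ)) (q k ω)) +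
        T.indicator (fun _ => (1 : ℝ)) (p k ω)) / 2 +
      ((1 - B.indicator (fun _ => (1 : ℝ)) (p k ω)) * U (q k ω) +
        T.indicator (fun _ => (1 : ℝ)) (q k ω)) / 2 := by
    intro ω
    have hkey : ∀ y z : X, ¬ (b + δ / 4 ≤ (x k y + x k z) / 2 - ε k) →
        U y ≤ U y * (1 - B.indicator (fun _ => (1 : ℝ)) z) + T.indicator (fun _ => (1 : ℝ)) y := by
      intro y z hyz
      by_cases hz : z ∈ B
      · have hy : y ∈ T := by
          by_contra hy
          apply hyz
          have h1 : b + δ ≤ x k z := hz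
          have h2 : b - δ / 4 < x k y := not_le.1 hy
          linarith
        rw [Set.indicator_of_mem hz, Set.indicator_of_mem hy]
        have := hl y
        linarith
      · rw [Set.indicator_of_notMem hz]
        have := (hind T y).1
        linarith
    have hrec : U' ω = if b + δ / 4 ≤ x (k + 1) ω then 0 else (U (p k ω) + U (q k ω)) / 2 := rfl
    rw [hrec]
    by_cases h : b + δ / 4 ≤ x (k + 1) ω
    · rw [if_pos h]
      have h1 := mul_nonneg (hn (p k ω)) (by linarith [(hind B (q k ω)).2] :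
        0 ≤ 1 - B.indicator (fun _ => (1 : ℝ)) (q k ω))
      have h2 := mul_nonneg (by linarith [(hind B (p k ω)).2] :
        0 ≤ 1 - B.indicator (fun _ => (1 : ℝ)) (p k ω)) (hn (q k ω))
      have h3 := (hind T (p k ω)).1
      have h4 := (hind T (q k ω)).1
      linarith
    · rw [if_neg h]
      have h5 := hsup k ω
      have h6 := hkey (p k ω) (q k ω) (fun hh => h (by linarith))
      have h7 := hkey (q k ω) (p k ω) (fun hh => h (by linarith))
      linarith
  -- integrability
  have hbint : ∀ g : X → ℝ, Measurable g → (∀ ω, 0 ≤ g ω ∧ g ω ≤ 1) → Integrable g μ := by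
    intro g hg hg01
    exact Integrable.of_bound hg.aestronglyMeasurable 1 (Eventually.of_forall fun ω => by
      rw [Real.norm_eq_abs, abs_of_nonneg (hg01 ω).1]; exact (hg01 ω).2)
  have hi1 : Integrable (fun ω => U (p k ω) * (1 - B.indicator (fun _ => (1 : ℝ)) (q k ω))) μ := by
    apply hbint
    · exact (hm.comp hpm).mul (hBi.comp hqm)
    · intro ω
      have h1 := hn (p k ω)
      have h2 := hl (p k ω)
      have h3 := hind B (q k ω)
      constructor
      · exact mul_nonneg h1 (by linarith [h3.2])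
      · exact mul_le_one₀ h2 (by linarith [h3.2]) (by linarith [h3.1])
  have hi2 : Integrable (fun ω => T.indicator (fun _ => (1 : ℝ)) (p k ω)) μ := by
    apply hbint
    · exact hTi.comp hpm
    · intro ω; exact hind T (p k ω)
  have hi3 : Integrable (fun ω => (1 - B.indicator (fun _ => (1 : ℝ)) (p k ω)) * U (q k ω)) μ := by
    apply hbint
    · exact (hBi.comp hpm).mul (hm.comp hqm)
    · intro ω
      have h1 := hn (q k ω)
      have h2 := hl (q k ω)
      have h3 := hind B (p k ω)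
      constructor
      · exact mul_nonneg (by linarith [h3.2]) h1
      · exact mul_le_one₀ (by linarith [h3.1]) h1 h2
  have hi4 : Integrable (fun ω => T.indicator (fun _ => (1 : ℝ)) (q k ω)) μ := by
    apply hbint
    · exact hTi.comp hqm
    · intro ω; exact hind T (q k ω)
  have hIB : ∫ ω, (1 - B.indicator (fun _ => (1 : ℝ)) ω) ∂μ = 1 - μ.real B := by
    rw [integral_sub (integrable_const _) (hbint _ (measurable_const.indicator hBm) (hind B)),
      integral_indicator_const _ hBm]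
    simp
  have hIT : ∫ ω, T.indicator (fun _ => (1 : ℝ)) ω ∂μ = μ.real T := by
    rw [integral_indicator_const _ hTm]
    simp
  have hs1 : Integrable (fun ω => (U (p k ω) * (1 - B.indicator (fun _ => (1 : ℝ)) (q k ω)) +
        T.indicator (fun _ => (1 : ℝ)) (p k ω)) / 2) μ := (hi1.add hi2).div_const 2
  have hs2 : Integrable (fun ω => ((1 - B.indicator (fun _ => (1 : ℝ)) (p k ω)) * U (q k ω) +
        T.indicator (fun _ => (1 : ℝ)) (q k ω)) / 2) μ := (hi3.add hi4).div_const 2
  calc ∫ ω, U' ω ∂μ ≤ ∫ ω, ((U (p k ω) * (1 - B.indicator (fun _ => (1 : ℝ)) (q k ω)) +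
        T.indicator (fun _ => (1 : ℝ)) (p k ω)) / 2 +
      ((1 - B.indicator (fun _ => (1 : ℝ)) (p k ω)) * U (q k ω) +
        T.indicator (fun _ => (1 : ℝ)) (q k ω)) / 2) ∂μ :=
        integral_mono (hbint _ hm' fun ω => ⟨hn' ω, hl' ω⟩) (hs1.add hs2) hpt
    _ = (∫ ω, U ω ∂μ) * (1 - μ.real B) + μ.real T := by
        rw [integral_add hs1 hs2, integral_div, integral_div, integral_add hi1 hi2,
          integral_add hi3 hi4,
          integral_comp_pair μ hpq k hm hBi, integral_comp_pair μ hpq k hBi hm,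
          integral_comp_fst μ hpq k hTi, integral_comp_snd μ hpq k hTi, hIB, hIT]
        ring

include hpq hx h0 hM hε hε0 hsup in
theorem upper_tail {b : ℝ} (hb0 : 0 ≤ b) (hb : Tendsto (fun k => ∫ ω, x k ω ∂μ) atTop (nhds b))
    {δ : ℝ} (hδ : 0 < δ) : Summable (fun k => μ.real {ω | b + δ ≤ x k ω}) := by
  by_contra hns
  set Q : ℕ → ℝ := fun k => μ.real {ω | b + δ ≤ x k ω} with hQ
  set τ : ℕ → ℝ := fun k => μ.real {ω | x k ω ≤ b - δ / 4} with hτ
  have hτs : Summable τ := lower_tail μ hpq hx h0 hM hε hε0 hsup hb (by positivity)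
  have hτ0 : ∀ k, 0 ≤ τ k := fun k => measureReal_nonneg
  have hQ0 : ∀ k, 0 ≤ Q k := fun k => measureReal_nonneg
  set η : ℝ := δ / (8 * (b + δ / 4 + 1)) with hη
  have hηpos : 0 < η := by positivity
  have h1 : ∀ᶠ j in atTop, ∑' k, ε (k + j) < η :=
    (tendsto_sum_nat_add ε).eventually (gt_mem_nhds hηpos)
  have h2 : ∀ᶠ j in atTop, ∑' k, τ (k + j) < η :=
    (tendsto_sum_nat_add τ).eventually (gt_mem_nhds hηpos)
  have h3 : ∀ᶠ j in atTop, ∀ k ≥ j, ε k ≤ δ / 8 := by
    have := (hε.tendsto_atTop_zero).eventually (gt_mem_nhds (show (0 : ℝ) < δ / 8 by positivity))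
    obtain ⟨N, hN⟩ := eventually_atTop.1 this
    exact eventually_atTop.2 ⟨N, fun j hj k hk => (hN k (hj.trans hk)).le⟩
  obtain ⟨k0, ⟨hk1, hk2⟩, hk3⟩ := ((h1.and h2).and h3).exists
  have hsumε : ∀ i, ∑ l ∈ Finset.range i, ε (k0 + l) ≤ η := by
    intro i
    have h3 : Summable (fun l => ε (l + k0)) := (summable_nat_add_iff k0).2 hε
    have h4 := h3.sum_le_tsum (Finset.range i) (fun l _ => hε0 _)
    calc ∑ l ∈ Finset.range i, ε (k0 + l) = ∑ l ∈ Finset.range i, ε (l + k0) := by
          apply Finset.sum_congr rfl; intro l _; rw [add_comm]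
      _ ≤ _ := h4
      _ ≤ η := hk1.le
  have hsumτ : ∀ i, ∑ l ∈ Finset.range i, τ (k0 + l) ≤ η := by
    intro i
    have h3 : Summable (fun l => τ (l + k0)) := (summable_nat_add_iff k0).2 hτs
    have h4 := h3.sum_le_tsum (Finset.range i) (fun l _ => hτ0 _)
    calc ∑ l ∈ Finset.range i, τ (k0 + l) = ∑ l ∈ Finset.range i, τ (l + k0) := by
          apply Finset.sum_congr rfl; intro l _; rw [add_comm]
      _ ≤ _ := h4
      _ ≤ η := hk2.le
  set t : ℝ := b + δ / 4 with ht
  have ht0 : 0 ≤ t := by positivity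
  set u : ℕ → ℝ := fun i => ∫ ω, unc p q x t k0 i ω ∂μ with hu
  have hu1 : ∀ i, u i ≤ Real.exp (-∑ l ∈ Finset.range i, Q (k0 + l)) +
      ∑ l ∈ Finset.range i, τ (k0 + l) := by
    intro i
    induction i with
    | zero => simp [hu, unc]
    | succ i ih =>
      have hstep := unc_mean_step μ hpq hx hsup (b := b) hδ k0 i (hk3 _ (by omega))
      have hu0 : 0 ≤ u i := integral_nonneg (unc_props μ hpq hx t k0 i).2.1
      have hexp : 1 - Q (k0 + i) ≤ Real.exp (-Q (k0 + i)) := by
        have := Real.add_one_le_exp (-Q (k0 + i))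
        linarith
      have hexp1 : Real.exp (-Q (k0 + i)) ≤ 1 := by
        rw [Real.exp_le_one_iff]
        linarith [hQ0 (k0 + i)]
      have hsn : 0 ≤ ∑ l ∈ Finset.range i, τ (k0 + l) := Finset.sum_nonneg fun l _ => hτ0 _
      rw [Finset.sum_range_succ, Finset.sum_range_succ, neg_add, Real.exp_add]
      calc u (i + 1) ≤ u i * (1 - Q (k0 + i)) + τ (k0 + i) := hstep
        _ ≤ u i * Real.exp (-Q (k0 + i)) + τ (k0 + i) := by
            have := mul_le_mul_of_nonneg_left hexp hu0
            linarith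
        _ ≤ (Real.exp (-∑ l ∈ Finset.range i, Q (k0 + l)) +
              ∑ l ∈ Finset.range i, τ (k0 + l)) * Real.exp (-Q (k0 + i)) + τ (k0 + i) := by
            have := mul_le_mul_of_nonneg_right ih (Real.exp_nonneg (-Q (k0 + i)))
            linarith
        _ ≤ _ := by
            have := mul_le_mul_of_nonneg_left hexp1 hsn
            linarith
  have hlow : ∀ i, t * (1 - u i) - η ≤ ∫ ω, x (k0 + i) ω ∂μ := by
    intro i
    obtain ⟨hm, hn, hl⟩ := unc_props μ hpq hx t k0 i
    have hi : Integrable (unc p q x t k0 i) μ :=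
      Integrable.of_bound hm.aestronglyMeasurable 1 (Eventually.of_forall fun ω => by
        rw [Real.norm_eq_abs, abs_of_nonneg (hn ω)]; exact hl ω)
    have h5 : ∫ ω, (t * (1 - unc p q x t k0 i ω) - η) ∂μ = t * (1 - u i) - η := by
      have hi2 : Integrable (fun ω => t * (1 - unc p q x t k0 i ω)) μ :=
        ((integrable_const (1 : ℝ)).sub hi).const_mul t
      rw [integral_sub hi2 (integrable_const _), integral_const_mul,
        integral_sub (integrable_const _) hi]
      simp [hu]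
    rw [← h5]
    apply integral_mono
    · exact (((integrable_const (1 : ℝ)).sub hi).const_mul t).sub (integrable_const _)
    · exact x_integrable μ hx h0 hM (k0 + i)
    · intro ω
      have h6 := unc_lower (p := p) (q := q) h0 hε0 hsup ht0 k0 i ω
      have h7 := hsumε i
      dsimp only
      linarith
  -- pass to the limit
  have hQdiv : Tendsto (fun i => ∑ l ∈ Finset.range i, Q (k0 + l)) atTop atTop := by
    have hns' : ¬ Summable (fun l => Q (k0 + l)) := by
      intro hs
      apply hns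
      rw [← summable_nat_add_iff k0]
      simpa [add_comm] using hs
    exact (not_summable_iff_tendsto_nat_atTop_of_nonneg fun l => hQ0 _).1 hns'
  have hexp0 : Tendsto (fun i => Real.exp (-∑ l ∈ Finset.range i, Q (k0 + l))) atTop (nhds 0) :=
    Real.tendsto_exp_neg_atTop_nhds_zero.comp hQdiv
  have hfin : t * (1 - (0 + η)) - η ≤ b := by
    have hb' : Tendsto (fun i => ∫ ω, x (k0 + i) ω ∂μ) atTop (nhds b) := by
      have := hb.comp (tendsto_add_atTop_nat k0)
      refine this.congr fun i => ?_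
      simp [add_comm]
    have hlim : Tendsto (fun i => t * (1 - (Real.exp (-∑ l ∈ Finset.range i, Q (k0 + l)) + η)) - η)
        atTop (nhds (t * (1 - (0 + η)) - η)) :=
      (((hexp0.add_const η).const_sub 1).const_mul t).sub_const η
    refine le_of_tendsto_of_tendsto' hlim hb' fun i => ?_
    refine le_trans ?_ (hlow i)
    have h8 := hu1 i
    have h9 := hsumτ i
    have h10 : t * (1 - (Real.exp (-∑ l ∈ Finset.range i, Q (k0 + l)) + η)) ≤ t * (1 - u i) :=
      mul_le_mul_of_nonneg_left (by linarith) ht0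
    linarith
  have hη2 : η * (8 * (t + 1)) = δ := by
    rw [hη, ht]
    field_simp
  nlinarith

include hpq hx h0 hM hε hε0 hsup in
theorem dyadic_tail : ∃ b : ℝ, 0 ≤ b ∧ b ≤ M ∧
    ∀ δ : ℝ, 0 < δ → Summable (fun k => μ.real {ω | δ ≤ |x k ω - b|}) := by
  obtain ⟨b, hb0, hbM, hb⟩ := mean_tendsto μ hpq hx h0 hM hε hε0 hsup
  refine ⟨b, hb0, hbM, fun δ hδ => ?_⟩
  have h1 := lower_tail μ hpq hx h0 hM hε hε0 hsup hb hδ
  have h2 := upper_tail μ hpq hx h0 hM hε hε0 hsup hb0 hb hδ
  refine Summable.of_nonneg_of_le (fun k => measureReal_nonneg) (fun k => ?_) (h1.add h2)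
  refine (measureReal_mono (?_ : _ ⊆ {ω | x k ω ≤ b - δ} ∪ {ω | b + δ ≤ x k ω})).trans
    (measureReal_union_le _ _)
  intro ω hω
  have h3 : δ ≤ |x k ω - b| := hω
  rcases le_abs.1 h3 with h | h
  · right
    show b + δ ≤ x k ω
    linarith
  · left
    show x k ω ≤ b - δ
    linarith

end

end Pool.Agent.Lib.MP_5acba2_pr
end

section
/-!
Independent sequences: reindexing and splitting.
-/
set_option autoImplicit false

namespace Pool.Agent.Lib.MP_5acba2_pr

open MeasureTheory Set Function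

variable {α : Type*} [MeasurableSpace α]

/-- Reindexing a product measure along an injective map. -/
theorem infinitePi_map_comp {ι κ : Type*} (ν : Measure α) [IsProbabilityMeasure ν]
    (e : κ → ι) (he : Injective e) :
    (Measure.infinitePi (fun _ : ι => ν)).map (fun ω k => ω (e k)) =
      Measure.infinitePi (fun _ : κ => ν) := by
  classical
  refine Measure.eq_infinitePi _ fun s t ht => ?_
  have hmeas : Measurable (fun (ω : ι → α) (k : κ) => ω (e k)) :=
    measurable_pi_lambda _ fun k => measurable_pi_apply (e k)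
  rw [Measure.map_apply hmeas (MeasurableSet.pi s.countable_toSet fun i _ => ht i)]
  have hpre : (fun (ω : ι → α) (k : κ) => ω (e k)) ⁻¹' ((s : Set κ).pi t) =
      Set.pi (s.map ⟨e, he⟩ : Finset ι)
        (fun i => ⋂ k ∈ (s.filter (fun k => e k = i) : Finset κ), t k) := by
    ext ω
    simp only [Set.mem_preimage, Set.mem_pi, Finset.mem_coe, Finset.mem_map,
      Function.Embedding.coeFn_mk, Set.mem_iInter, Finset.mem_filter]
    constructor
    · rintro h i ⟨k, hk, rfl⟩ k' ⟨hk', hek⟩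
      rw [← hek]
      exact h k' hk'
    · intro h k hk
      exact h (e k) ⟨k, hk, rfl⟩ k ⟨hk, rfl⟩
  rw [hpre, Measure.infinitePi_pi, Finset.prod_map]
  · apply Finset.prod_congr rfl
    intro k hk
    congr 1
    ext a
    simp only [Function.Embedding.coeFn_mk, Set.mem_iInter, Finset.mem_filter]
    constructor
    · intro h
      exact h k ⟨hk, rfl⟩
    · rintro h k' ⟨_, hk'⟩
      rwa [he hk']
  · intro i _
    exact Finset.measurableSet_biInter _ fun k _ => ht k

theorem measurePreserving_comp {ι κ : Type*} (ν : Measure α) [IsProbabilityMeasure ν]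
    (e : κ → ι) (he : Injective e) :
    MeasurePreserving (fun (ω : ι → α) (k : κ) => ω (e k))
      (Measure.infinitePi (fun _ : ι => ν)) (Measure.infinitePi (fun _ : κ => ν)) :=
  ⟨measurable_pi_lambda _ fun k => measurable_pi_apply (e k), infinitePi_map_comp ν e he⟩

/-- Two disjoint families of coordinates are independent. -/
theorem measurePreserving_pair {ι κ : Type*} (ν : Measure α) [IsProbabilityMeasure ν]
    (e : Bool × κ → ι) (he : Injective e) :
    MeasurePreserving
      (fun ω : ι → α => ((fun k => ω (e (true, k))), (fun k => ω (e (false, k)))))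
      (Measure.infinitePi (fun _ : ι => ν))
      ((Measure.infinitePi (fun _ : κ => ν)).prod (Measure.infinitePi (fun _ : κ => ν))) := by
  have h1 := measurePreserving_comp ν e he
  have h2 : MeasurePreserving (MeasurableEquiv.curry Bool κ α)
      (Measure.infinitePi (fun _ : Bool × κ => ν))
      (Measure.infinitePi (fun _ : Bool => Measure.infinitePi (fun _ : κ => ν))) :=
    ⟨(MeasurableEquiv.curry Bool κ α).measurable,
      Measure.infinitePi_map_curry (fun (_ : Bool) (_ : κ) => ν)⟩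
  have h3 : MeasurePreserving (fun ω : Bool → (κ → α) => (ω true, ω false))
      (Measure.infinitePi (fun _ : Bool => Measure.infinitePi (fun _ : κ => ν)))
      ((Measure.infinitePi (fun _ : κ => ν)).prod (Measure.infinitePi (fun _ : κ => ν))) :=
    ⟨(measurable_pi_apply true).prodMk (measurable_pi_apply false),
      Measure.infinitePi_map_eval_prod (P := fun _ : Bool => Measure.infinitePi (fun _ : κ => ν))
        (by decide : true ≠ false)⟩
  exact h3.comp (h2.comp h1)

end Pool.Agent.Lib.MP_5acba2_pr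
end

section
/-!
Nearly superadditive functionals of independent sequences: tail bounds.
-/
set_option autoImplicit false
set_option linter.unusedSectionVars false

namespace Pool.Agent.Lib.MP_5acba2_pr

open MeasureTheory Set Function Filter

section pair

variable {α : Type*} [MeasurableSpace α] (ν : Measure α) [IsProbabilityMeasure ν]

/-- Two disjoint windows of an independent sequence, as a pair of independent sequences. -/
theorem exists_window_pair (m s n : ℕ) (hms : m ≤ s) :
    ∃ p q : (ℕ → α) → (ℕ → α),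
      MeasurePreserving (fun ω => (p ω, q ω)) (Measure.infinitePi (fun _ : ℕ => ν))
        ((Measure.infinitePi (fun _ : ℕ => ν)).prod (Measure.infinitePi (fun _ : ℕ => ν))) ∧
      (∀ ω i, i < m → p ω i = ω i) ∧ (∀ ω i, i < n → q ω i = ω (i + s)) := by
  set B := s + n with hB
  let e : Bool × ℕ → ℕ := fun z =>
    if z.1 = true then (if z.2 < m then z.2 else 2 * z.2 + 2 * B)
    else (if z.2 < n then z.2 + s else 2 * z.2 + 2 * B + 1)
  have he : Injective e := by
    rintro ⟨a, i⟩ ⟨b, j⟩ h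
    simp only [e] at h
    cases a <;> cases b <;> simp only [Bool.false_eq_true, if_true, if_false] at h ⊢ <;>
      split_ifs at h <;> simp only [Prod.mk.injEq, true_and, Bool.false_eq_true, false_and,
        reduceCtorEq] <;> omega
  refine ⟨fun ω i => ω (e (true, i)), fun ω i => ω (e (false, i)),
    measurePreserving_pair ν e he, ?_, ?_⟩
  · intro ω i hi
    simp only [e, if_true, hi]
  · intro ω i hi
    simp only [e, Bool.false_eq_true, if_false, hi, if_true]

end pair

end Pool.Agent.Lib.MP_5acba2_pr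
end

section
/-!
Nearly superadditive functionals of independent sequences: tail bounds.
-/
set_option autoImplicit false
set_option linter.unusedSectionVars false

namespace Pool.Agent.Lib.MP_5acba2_pr

open MeasureTheory Set Function Filter

variable {α : Type*} [MeasurableSpace α]

/-- Nearly superadditive functionals. -/
structure NearSuper (F : ℕ → (ℕ → α) → ℝ) (C : ℝ) : Prop where
  nonneg : 0 ≤ C
  dep : ∀ n (ω ω' : ℕ → α), (∀ i < n, ω i = ω' i) → F n ω = F n ω'
  meas : ∀ n, Measurable (F n)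
  le_zero : ∀ n ω, F n ω ≤ 0
  ge : ∀ n ω, -(C * n) ≤ F n ω
  app : ∀ (m r : ℕ) (ω : ℕ → α), F m ω - C * (r + √(r * m)) ≤ F (m + r) ω
  sup : ∀ (m r n : ℕ) (ω : ℕ → α), 1 ≤ m → 1 ≤ r → 1 ≤ n →
    F m ω + F n (fun i => ω (i + (m + r))) - C * (r + √(r * (m + n)) + m * n / (r : ℝ) ^ 2) ≤
      F (m + r + n) ω

variable (ν : Measure α) [IsProbabilityMeasure ν] {F : ℕ → (ℕ → α) → ℝ} {C : ℝ}

/-- The chain variables. -/
noncomputable def chainVar (F : ℕ → (ℕ → α) → ℝ) (C : ℝ) (k : ℕ) (ω : ℕ → α) : ℝ :=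
  (F (chainLen k) ω + C * chainLen k) / 2 ^ k

theorem chain_step (hF : NearSuper F C) (k : ℕ) (ω : ℕ → α) :
    (chainVar F C k ω + chainVar F C k (fun i => ω (i + (chainLen k + gapLen k)))) / 2 -
      250 * C * (9 / 10) ^ k ≤ chainVar F C (k + 1) ω := by
  have h1 := hF.sup (chainLen k) (gapLen k) (chainLen k) ω (chainLen_pos k) (gapLen_pos k)
    (chainLen_pos k)
  have hlen : chainLen (k + 1) = chainLen k + gapLen k + chainLen k := by
    simp only [chainLen]; ring
  have hl := chainLen_le k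
  have h2 := err_bound k (A := 10) (S := (chainLen k : ℝ) + chainLen k)
    (P := (chainLen k : ℝ) * chainLen k) (by norm_num) (by positivity) (by linarith) (by
      have h3 : (4 : ℝ) ^ k = 2 ^ k * 2 ^ k := by rw [← mul_pow]; norm_num
      rw [h3]
      have h4 : (0 : ℝ) ≤ chainLen k := Nat.cast_nonneg _
      have h5 : (0 : ℝ) < 2 ^ k := by positivity
      nlinarith [mul_le_mul hl hl h4 (by positivity)])
  have h3 := mul_le_mul_of_nonneg_left h2 hF.nonneg
  unfold chainVar
  rw [hlen]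
  push_cast
  have h5 : (0 : ℝ) < 2 ^ k := by positivity
  have h6 : (9 / 10 : ℝ) ^ k = (9 / 5) ^ k / 2 ^ k := by
    rw [← div_pow]; norm_num
  rw [h6, pow_succ]
  have h7 : ((F (chainLen k) ω + C * chainLen k) / 2 ^ k +
      (F (chainLen k) (fun i => ω (i + (chainLen k + gapLen k))) + C * chainLen k) / 2 ^ k) / 2 -
      250 * C * ((9 / 5) ^ k / 2 ^ k) =
      (F (chainLen k) ω + F (chainLen k) (fun i => ω (i + (chainLen k + gapLen k))) +
        2 * C * chainLen k - 500 * C * (9 / 5) ^ k) / (2 ^ k * 2) := by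
    field_simp
    ring
  rw [h7]
  apply div_le_div_of_nonneg_right _ (by positivity)
  have h8 : (0 : ℝ) ≤ C * gapLen k := mul_nonneg hF.nonneg (Nat.cast_nonneg _)
  nlinarith [h1, h3, h8]

theorem chain_tail (hF : NearSuper F C) : ∃ f : ℝ, f ≤ 0 ∧ -C ≤ f ∧ ∀ ε : ℝ, 0 < ε →
    Summable (fun k => (Measure.infinitePi (fun _ : ℕ => ν)).real
      {ω | ε * chainLen k ≤ |F (chainLen k) ω - f * chainLen k|}) := by
  set μ := Measure.infinitePi (fun _ : ℕ => ν) with hμ
  have hC := hF.nonneg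
  choose p q hpq hp hq using fun k => exists_window_pair ν (chainLen k)
    (chainLen k + gapLen k) (chainLen k) (Nat.le_add_right _ _)
  have hx : ∀ k, Measurable (chainVar F C k) := fun k =>
    ((hF.meas _).add_const _).div_const _
  have h0 : ∀ k ω, 0 ≤ chainVar F C k ω := by
    intro k ω
    unfold chainVar
    have := hF.ge (chainLen k) ω
    apply div_nonneg _ (by positivity)
    linarith
  have hle : ∀ k ω, chainVar F C k ω ≤ C * (chainLen k / 2 ^ k) := by
    intro k ω
    unfold chainVar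
    have := hF.le_zero (chainLen k) ω
    rw [← mul_div_assoc]
    apply div_le_div_of_nonneg_right _ (by positivity)
    linarith
  obtain ⟨N, hN1, hN5, hNle, hN⟩ := chainLen_tendsto
  have hM : ∀ k ω, chainVar F C k ω ≤ C * N := fun k ω =>
    (hle k ω).trans (mul_le_mul_of_nonneg_left (hNle k) hC)
  have hε : Summable (fun k : ℕ => 250 * C * (9 / 10 : ℝ) ^ k) :=
    (summable_geometric_of_lt_one (by norm_num) (by norm_num)).mul_left _
  have hε0 : ∀ k : ℕ, 0 ≤ 250 * C * (9 / 10 : ℝ) ^ k := fun k => by positivity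
  have hsup : ∀ k ω, (chainVar F C k (p k ω) + chainVar F C k (q k ω)) / 2 -
      250 * C * (9 / 10 : ℝ) ^ k ≤ chainVar F C (k + 1) ω := by
    intro k ω
    have h1 : chainVar F C k (p k ω) = chainVar F C k ω := by
      unfold chainVar
      rw [hF.dep _ _ _ (fun i hi => hp k ω i hi)]
    have h2 : chainVar F C k (q k ω) =
        chainVar F C k (fun i => ω (i + (chainLen k + gapLen k))) := by
      unfold chainVar
      rw [hF.dep _ _ _ (fun i hi => hq k ω i hi)]
    rw [h1, h2]
    exact chain_step hF k ω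
  obtain ⟨b, hb0, hbM, hb⟩ := dyadic_tail μ hpq hx h0 hM hε hε0 hsup
  have hNpos : 0 < N := by linarith
  refine ⟨b / N - C, ?_, ?_, ?_⟩
  · rw [sub_nonpos, div_le_iff₀ hNpos]
    exact hbM
  · have : 0 ≤ b / N := by positivity
    linarith
  intro ε hεpos
  have h1 := hb (ε / 2) (by positivity)
  have h2 : Tendsto (fun k => b * |(chainLen k : ℝ) / 2 ^ k / N - 1|) atTop (nhds 0) := by
    have h3 : Tendsto (fun k => (chainLen k : ℝ) / 2 ^ k / N - 1) atTop (nhds (N / N - 1)) :=
      (hN.div_const N).sub_const 1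
    rw [div_self hNpos.ne', sub_self] at h3
    have h4 := (h3.abs).const_mul b
    simpa using h4
  obtain ⟨K, hK⟩ := eventually_atTop.1 (h2.eventually (gt_mem_nhds (show 0 < ε / 2 by positivity)))
  rw [← summable_nat_add_iff K] at h1 ⊢
  refine Summable.of_nonneg_of_le (fun k => measureReal_nonneg) (fun k => ?_) h1
  refine measureReal_mono ?_ (measure_ne_top _ _)
  intro ω hω
  have h3 : ε * chainLen (k + K) ≤ |F (chainLen (k + K)) ω - (b / N - C) * chainLen (k + K)| := hω
  show ε / 2 ≤ |chainVar F C (k + K) ω - b|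
  have h4 := hK (k + K) (Nat.le_add_left _ _)
  set n : ℝ := (chainLen (k + K) : ℝ) with hn
  set P : ℝ := (2 : ℝ) ^ (k + K) with hP
  have hPpos : 0 < P := by positivity
  have hnP : P ≤ n := chainLen_ge_real _
  have h5 : F (chainLen (k + K)) ω - (b / N - C) * n =
      P * ((chainVar F C (k + K) ω - b) - b * (n / P / N - 1)) := by
    unfold chainVar
    rw [← hn, ← hP]
    field_simp
    ring
  rw [h5, abs_mul, abs_of_pos hPpos] at h3
  have h6 : |(chainVar F C (k + K) ω - b) - b * (n / P / N - 1)| ≤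
      |chainVar F C (k + K) ω - b| + b * |n / P / N - 1| := by
    refine (abs_sub _ _).trans ?_
    rw [abs_mul, abs_of_nonneg hb0]
  have h7 : ε * P ≤ P * (|chainVar F C (k + K) ω - b| + b * |n / P / N - 1|) := by
    calc ε * P ≤ ε * n := mul_le_mul_of_nonneg_left hnP hεpos.le
      _ ≤ _ := h3
      _ ≤ _ := mul_le_mul_of_nonneg_left h6 hPpos.le
  have h8 : ε ≤ |chainVar F C (k + K) ω - b| + b * |n / P / N - 1| := by
    by_contra hcon
    push Not at hcon
    have := mul_lt_mul_of_pos_left hcon hPpos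
    linarith
  linarith

theorem multi_block (hF : NearSuper F C) (l : ℕ) {A : ℝ} (hA : 1 ≤ A) (ω : ℕ → α) (i : ℕ)
    (hm : ((i * (chainLen l + gapLen l) + chainLen l : ℕ) : ℝ) ≤ A * 2 ^ l) :
    ∑ j ∈ Finset.range (i + 1),
        F (chainLen l) (fun t => ω (t + j * (chainLen l + gapLen l))) -
      i * (C * (5 * A ^ 2 * (9 / 5) ^ l)) ≤
    F (i * (chainLen l + gapLen l) + chainLen l) ω := by
  induction i with
  | zero =>
    simp
  | succ i ih =>
    set n := chainLen l with hn
    set r := gapLen l with hr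
    set L := i * (n + r) + n with hL
    have hlen : (i + 1) * (n + r) + n = L + r + n := by rw [hL]; ring
    have hshift : (i + 1) * (n + r) = L + r := by rw [hL]; ring
    rw [hlen] at hm ⊢
    have hL1 : (L : ℝ) + n ≤ A * 2 ^ l := by
      push_cast at hm
      have : (0 : ℝ) ≤ r := Nat.cast_nonneg _
      linarith
    have hLA : ((L : ℕ) : ℝ) ≤ A * 2 ^ l := by
      have : (0 : ℝ) ≤ n := Nat.cast_nonneg _
      linarith
    have ih' := ih hLA
    have h1 := hF.sup L r n ω (by
      have := chainLen_pos l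
      omega) (gapLen_pos l) (chainLen_pos l)
    have h2 := err_bound l hA (S := (L : ℝ) + n) (P := (L : ℝ) * n) (by positivity) hL1 (by
      have h3 : (4 : ℝ) ^ l = 2 ^ l * 2 ^ l := by rw [← mul_pow]; norm_num
      have hL0 : (0 : ℝ) ≤ L := Nat.cast_nonneg _
      have hn0 : (0 : ℝ) ≤ n := Nat.cast_nonneg _
      have hnA : (n : ℝ) ≤ A * 2 ^ l := by linarith
      calc (L : ℝ) * n ≤ (A * 2 ^ l) * (A * 2 ^ l) := mul_le_mul hLA hnA hn0 (by positivity)
        _ = A ^ 2 * 4 ^ l := by rw [h3]; ring)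
    have h3 := mul_le_mul_of_nonneg_left h2 hF.nonneg
    rw [Finset.sum_range_succ, hshift]
    push_cast
    linarith

/-- The lower tail of a nearly superadditive functional. -/
theorem lower_tail_all (hF : NearSuper F C) {f : ℝ} (hf : f ≤ 0)
    (hchain : ∀ ε : ℝ, 0 < ε → Summable (fun k => (Measure.infinitePi (fun _ : ℕ => ν)).real
      {ω | ε * chainLen k ≤ |F (chainLen k) ω - f * chainLen k|})) {ε : ℝ} (hε : 0 < ε) :
    ∃ t : ℕ → ℝ, Summable t ∧ ∀ k m : ℕ, 2 ^ k ≤ m → m < 2 ^ (k + 1) →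
      (Measure.infinitePi (fun _ : ℕ => ν)).real {ω | F m ω ≤ (f - ε) * m} ≤ t k := by
  set μ := Measure.infinitePi (fun _ : ℕ => ν) with hμ
  have hC := hF.nonneg
  -- choose the scale separation
  obtain ⟨σ, hσ2, hσ⟩ : ∃ σ : ℕ, 2 ≤ σ ∧ C * (12 / 2 ^ σ) ≤ ε / 4 := by
    have h1 : Tendsto (fun σ : ℕ => C * (12 * (1 / 2 : ℝ) ^ σ)) atTop (nhds (C * (12 * 0))) :=
      ((tendsto_pow_atTop_nhds_zero_of_lt_one (by norm_num) (by norm_num)).const_mul 12).const_mul C
    simp only [mul_zero] at h1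
    obtain ⟨K, hK⟩ := eventually_atTop.1 (h1.eventually (gt_mem_nhds (show 0 < ε / 4 by positivity)))
    refine ⟨max K 2, le_max_right _ _, ?_⟩
    have := (hK (max K 2) (le_max_left _ _)).le
    have h2 : (12 : ℝ) * (1 / 2) ^ (max K 2) = 12 / 2 ^ (max K 2) := by
      rw [one_div, inv_pow]; rfl
    rwa [h2] at this
  set A : ℝ := 2 ^ (2 * σ + 1) with hA
  have hA1 : 1 ≤ A := one_le_pow₀ (by norm_num)
  obtain ⟨l0, hl0⟩ : ∃ l0 : ℕ, ∀ l ≥ l0, A * (C * (5 * A ^ 2 * (9 / 5) ^ l)) ≤ ε / 4 * 2 ^ l := by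
    have h1 : Tendsto (fun l : ℕ => A * (C * (5 * A ^ 2 * (9 / 10 : ℝ) ^ l))) atTop
        (nhds (A * (C * (5 * A ^ 2 * 0)))) :=
      (((tendsto_pow_atTop_nhds_zero_of_lt_one (by norm_num) (by norm_num)).const_mul _).const_mul
        C).const_mul A
    simp only [mul_zero] at h1
    obtain ⟨K, hK⟩ := eventually_atTop.1 (h1.eventually (gt_mem_nhds (show 0 < ε / 4 by positivity)))
    refine ⟨K, fun l hl => ?_⟩
    have h2 := (hK l hl).le
    have h3 : (9 / 5 : ℝ) ^ l = (9 / 10) ^ l * 2 ^ l := by rw [← mul_pow]; norm_num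
    have h4 : (0 : ℝ) < 2 ^ l := by positivity
    rw [h3]
    calc A * (C * (5 * A ^ 2 * ((9 / 10) ^ l * 2 ^ l)))
        = A * (C * (5 * A ^ 2 * (9 / 10) ^ l)) * 2 ^ l := by ring
      _ ≤ _ := mul_le_mul_of_nonneg_right h2 h4.le
  have hsum := hchain (ε / 4) (by positivity)
  set T : ℕ → ℝ := fun l => μ.real
    {ω | ε / 4 * chainLen l ≤ |F (chainLen l) ω - f * chainLen l|} with hT
  refine ⟨fun k => if k < 2 * σ + l0 then 1 else A * T (k - 2 * σ), ?_, ?_⟩
  · rw [← summable_nat_add_iff (2 * σ + l0)]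
    have h1 : (fun k => if k + (2 * σ + l0) < 2 * σ + l0 then (1 : ℝ)
        else A * T (k + (2 * σ + l0) - 2 * σ)) = fun k => A * T (k + l0) := by
      ext k
      rw [if_neg (by omega)]
      congr 2
      omega
    rw [h1]
    exact ((summable_nat_add_iff l0).2 hsum).mul_left A
  · intro k m hkm hmk
    dsimp only
    by_cases hk : k < 2 * σ + l0
    · rw [if_pos hk]
      exact measureReal_le_one
    · rw [if_neg hk]
      push Not at hk
      obtain ⟨l, rfl⟩ : ∃ l, k = 2 * σ + l := ⟨k - 2 * σ, by omega⟩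
      have hl : l0 ≤ l := by omega
      have hsub : 2 * σ + l - 2 * σ = l := by omega
      rw [hsub]
      set n := chainLen l with hn
      set r := gapLen l with hr
      have hP : (0 : ℝ) < 2 ^ l := by positivity
      have hmA : (m : ℝ) ≤ A * 2 ^ l := by
        have h1 : (m : ℝ) < 2 ^ (2 * σ + l + 1) := by exact_mod_cast hmk
        have h2 : (2 : ℝ) ^ (2 * σ + l + 1) = A * 2 ^ l := by rw [hA, ← pow_add]; congr 1; ring
        linarith
      have hmge : (2 : ℝ) ^ (2 * σ) * 2 ^ l ≤ m := by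
        rw [← pow_add]; exact_mod_cast hkm
      have hn5 : (n : ℝ) ≤ 5 * 2 ^ l := chainLen_le l
      have hr2 : (r : ℝ) ≤ 2 * 2 ^ l := by
        refine (gapLen_le l).trans ?_
        have : ((3 : ℝ) / 2) ^ l ≤ 2 ^ l := pow_le_pow_left₀ (by norm_num) (by norm_num) l
        linarith
      have hnm : n ≤ m := by
        have h1 : (16 : ℝ) ≤ 2 ^ (2 * σ) := by
          calc (16 : ℝ) = 2 ^ 4 := by norm_num
            _ ≤ 2 ^ (2 * σ) := pow_le_pow_right₀ (by norm_num) (by omega)
        have h2 : (n : ℝ) ≤ m := by nlinarith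
        exact_mod_cast h2
      -- number of blocks
      have hBpos : 0 < n + r := by have := chainLen_pos l; omega
      set i := (m - n) / (n + r) with hi
      have hi1 : i * (n + r) + n ≤ m := by
        have := Nat.div_mul_le_self (m - n) (n + r)
        rw [← hi] at this
        omega
      have hi2 : m < i * (n + r) + n + (n + r) := by
        have := Nat.lt_div_mul_add hBpos (a := m - n)
        rw [← hi] at this
        omega
      have hi1R : ((i * (n + r) + n : ℕ) : ℝ) ≤ m := by exact_mod_cast hi1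
      have hi2R : (m : ℝ) < ((i * (n + r) + n : ℕ) : ℝ) + (n + r) := by exact_mod_cast hi2
      have hiA : ((i : ℝ) + 1) ≤ A := by
        have hnl : (2 : ℝ) ^ l ≤ n := chainLen_ge_real l
        have h1 : ((i : ℝ) + 1) * 2 ^ l ≤ m := by
          push_cast at hi1R
          have h2 : (0 : ℝ) ≤ i := Nat.cast_nonneg _
          have h3 : (0 : ℝ) ≤ r := Nat.cast_nonneg _
          nlinarith [mul_le_mul_of_nonneg_left hnl h2, mul_nonneg h2 h3]
        have h4 : ((i : ℝ) + 1) * 2 ^ l ≤ A * 2 ^ l := h1.trans hmA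
        exact le_of_mul_le_mul_right h4 hP
      -- the good event
      have hkey : {ω | F m ω ≤ (f - ε) * m} ⊆ ⋃ j ∈ Finset.range (i + 1),
          (fun ω : ℕ → α => fun t => ω (t + j * (n + r))) ⁻¹'
            {ω | ε / 4 * n ≤ |F n ω - f * n|} := by
        intro ω hω
        by_contra hcon
        simp only [Set.mem_iUnion, not_exists, Finset.mem_range] at hcon
        have hω' : F m ω ≤ (f - ε) * m := hω
        have hgood : ∀ j ∈ Finset.range (i + 1),
            (f - ε / 4) * n ≤ F n (fun t => ω (t + j * (n + r))) := by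
          intro j hj
          have h1 := hcon j (Finset.mem_range.1 hj)
          have h2 : ¬ (ε / 4 * n ≤ |F n (fun t => ω (t + j * (n + r))) - f * n|) := h1
          push Not at h2
          have h3 := (abs_lt.1 h2).1
          linarith
        have h1 := multi_block hF l hA1 ω i (hi1R.trans hmA)
        have h2 : ((i : ℝ) + 1) * ((f - ε / 4) * n) ≤ ∑ j ∈ Finset.range (i + 1),
            F n (fun t => ω (t + j * (n + r))) := by
          have := Finset.card_nsmul_le_sum (Finset.range (i + 1))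
            (fun j => F n (fun t => ω (t + j * (n + r)))) ((f - ε / 4) * n) hgood
          rw [Finset.card_range, nsmul_eq_mul] at this
          push_cast at this
          exact this
        have h3 := hF.app (i * (n + r) + n) (m - (i * (n + r) + n)) ω
        have h4 : i * (n + r) + n + (m - (i * (n + r) + n)) = m := by omega
        rw [h4] at h3
        have hrem : ((m - (i * (n + r) + n) : ℕ) : ℝ) ≤ 7 * 2 ^ l := by
          rw [Nat.cast_sub hi1]
          linarith
        have hrem0 : (0 : ℝ) ≤ ((m - (i * (n + r) + n) : ℕ) : ℝ) := Nat.cast_nonneg _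
        have hS : (2 : ℝ) ^ (2 * σ) = (2 ^ σ) ^ 2 := by rw [← pow_mul, mul_comm]
        have hs1 : (1 : ℝ) ≤ 2 ^ σ := one_le_pow₀ (by norm_num)
        have hm0 : (0 : ℝ) ≤ m := Nat.cast_nonneg _
        have hlm : (2 : ℝ) ^ l ≤ m / (2 ^ σ) ^ 2 := by
          rw [le_div_iff₀ (by positivity), ← hS, mul_comm]
          exact hmge
        have hsqrt : √(((m - (i * (n + r) + n) : ℕ) : ℝ) * ((i * (n + r) + n : ℕ) : ℝ)) ≤
            3 * m / 2 ^ σ := by
          apply Real.sqrt_le_iff.2
          refine ⟨by positivity, ?_⟩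
          calc ((m - (i * (n + r) + n) : ℕ) : ℝ) * ((i * (n + r) + n : ℕ) : ℝ)
              ≤ (7 * 2 ^ l) * m := mul_le_mul hrem hi1R (Nat.cast_nonneg _) (by positivity)
            _ ≤ (7 * (m / (2 ^ σ) ^ 2)) * m := by
                apply mul_le_mul_of_nonneg_right _ hm0
                linarith
            _ ≤ (3 * m / 2 ^ σ) ^ 2 := by
                have : (3 * (m : ℝ) / 2 ^ σ) ^ 2 = (9 * (m / (2 ^ σ) ^ 2)) * m := by
                  field_simp
                  ring
                rw [this]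
                apply mul_le_mul_of_nonneg_right _ hm0
                have : (0 : ℝ) ≤ m / (2 ^ σ) ^ 2 := by positivity
                linarith
        have hlin : ((m - (i * (n + r) + n) : ℕ) : ℝ) ≤ 9 * m / 2 ^ σ := by
          refine hrem.trans ?_
          have h5 : (m : ℝ) / (2 ^ σ) ^ 2 ≤ m / 2 ^ σ := by
            apply div_le_div_of_nonneg_left hm0 (by positivity)
            nlinarith
          have h6 : (0 : ℝ) ≤ (m : ℝ) / 2 ^ σ := by positivity
          have h7 : 9 * (m : ℝ) / 2 ^ σ = 9 * (m / 2 ^ σ) := by ring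
          rw [h7]
          linarith
        have h5 : C * (((m - (i * (n + r) + n) : ℕ) : ℝ) +
            √(((m - (i * (n + r) + n) : ℕ) : ℝ) * ((i * (n + r) + n : ℕ) : ℝ))) ≤ ε / 4 * m := by
          calc _ ≤ C * (9 * m / 2 ^ σ + 3 * m / 2 ^ σ) :=
                mul_le_mul_of_nonneg_left (add_le_add hlin hsqrt) hC
            _ = (C * (12 / 2 ^ σ)) * m := by ring
            _ ≤ _ := mul_le_mul_of_nonneg_right hσ hm0
        have h6 : (i : ℝ) * (C * (5 * A ^ 2 * (9 / 5) ^ l)) ≤ ε / 4 * m := by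
          have h7 : (0 : ℝ) ≤ C * (5 * A ^ 2 * (9 / 5) ^ l) := by positivity
          calc (i : ℝ) * (C * (5 * A ^ 2 * (9 / 5) ^ l))
              ≤ A * (C * (5 * A ^ 2 * (9 / 5) ^ l)) :=
                mul_le_mul_of_nonneg_right (by linarith) h7
            _ ≤ ε / 4 * 2 ^ l := hl0 l hl
            _ ≤ ε / 4 * m := by
                apply mul_le_mul_of_nonneg_left _ (by positivity)
                have h8 : (1 : ℝ) ≤ 2 ^ (2 * σ) := one_le_pow₀ (by norm_num)
                nlinarith
        have h7 : (f - ε / 4) * m ≤ ((i : ℝ) + 1) * ((f - ε / 4) * n) := by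
          have h8 : ((i : ℝ) + 1) * n ≤ m := by
            push_cast at hi1R
            have h9 : (0 : ℝ) ≤ (i : ℝ) * r := by positivity
            nlinarith
          nlinarith
        have hmpos : (0 : ℝ) < m := by
          have h8 : (0 : ℝ) < 2 ^ (2 * σ) * 2 ^ l := by positivity
          linarith
        have hh := mul_pos hε hmpos
        push_cast at h1 h3 h5
        nlinarith
      have hshift : ∀ j, μ.real ((fun ω : ℕ → α => fun t => ω (t + j * (n + r))) ⁻¹'
          {ω | ε / 4 * n ≤ |F n ω - f * n|}) = T l := by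
        intro j
        have h1 := measurePreserving_comp ν (fun t : ℕ => t + j * (n + r))
          (fun a b hab => by simpa using hab)
        have hms : MeasurableSet {ω : ℕ → α | ε / 4 * n ≤ |F n ω - f * n|} :=
          measurableSet_le measurable_const ((hF.meas n).sub_const _).abs
        exact h1.measureReal_preimage hms.nullMeasurableSet
      calc μ.real {ω | F m ω ≤ (f - ε) * m}
          ≤ μ.real (⋃ j ∈ Finset.range (i + 1),
            (fun ω : ℕ → α => fun t => ω (t + j * (n + r))) ⁻¹'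
            {ω | ε / 4 * n ≤ |F n ω - f * n|}) := measureReal_mono hkey (measure_ne_top _ _)
        _ ≤ ∑ j ∈ Finset.range (i + 1), μ.real
            ((fun ω : ℕ → α => fun t => ω (t + j * (n + r))) ⁻¹'
            {ω | ε / 4 * n ≤ |F n ω - f * n|}) := measureReal_biUnion_finset_le _ _
        _ = ((i : ℝ) + 1) * T l := by
            simp_rw [hshift]
            rw [Finset.sum_const, Finset.card_range, nsmul_eq_mul]
            push_cast
            ring
        _ ≤ A * T l := mul_le_mul_of_nonneg_right hiA measureReal_nonneg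

end Pool.Agent.Lib.MP_5acba2_pr
end

section
/-!
Two-sided tail bounds for nearly superadditive functionals.
-/
set_option autoImplicit false
set_option linter.unusedSectionVars false

namespace Pool.Agent.Lib.MP_5acba2_pr

open MeasureTheory Set Function Filter

variable {α : Type*} [MeasurableSpace α]
variable (ν : Measure α) [IsProbabilityMeasure ν] {F : ℕ → (ℕ → α) → ℝ} {C : ℝ}

/-- The upper tail of a nearly superadditive functional. -/
theorem upper_tail_all (hF : NearSuper F C) {f : ℝ} (hf : f ≤ 0)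
    (hchain : ∀ ε : ℝ, 0 < ε → Summable (fun k => (Measure.infinitePi (fun _ : ℕ => ν)).real
      {ω | ε * chainLen k ≤ |F (chainLen k) ω - f * chainLen k|})) {ε : ℝ} (hε : 0 < ε) :
    ∃ t : ℕ → ℝ, Summable t ∧ ∀ k m : ℕ, 2 ^ k ≤ m → m < 2 ^ (k + 1) →
      (Measure.infinitePi (fun _ : ℕ => ν)).real {ω | (f + ε) * m ≤ F m ω} ≤ t k := by
  set μ := Measure.infinitePi (fun _ : ℕ => ν) with hμ
  have hC := hF.nonneg
  obtain ⟨t, ht, htl⟩ := lower_tail_all ν hF hf hchain (ε := ε / 160) (by positivity)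
  obtain ⟨k1, hk1⟩ : ∃ k1 : ℕ, ∀ k ≥ k1, t k ≤ 1 / 2 := by
    obtain ⟨K, hK⟩ := eventually_atTop.1
      ((ht.tendsto_atTop_zero).eventually (gt_mem_nhds (show (0 : ℝ) < 1 / 2 by norm_num)))
    exact ⟨K, fun k hk => (hK k hk).le⟩
  obtain ⟨k2, hk2⟩ : ∃ k2 : ℕ, ∀ l ≥ k2, C * (5 * 5 ^ 2 * (9 / 5 : ℝ) ^ l) ≤ ε / 160 * 2 ^ l := by
    have h1 : Tendsto (fun l : ℕ => C * (5 * 5 ^ 2 * (9 / 10 : ℝ) ^ l)) atTop
        (nhds (C * (5 * 5 ^ 2 * 0))) :=
      ((tendsto_pow_atTop_nhds_zero_of_lt_one (by norm_num) (by norm_num)).const_mul _).const_mul C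
    simp only [mul_zero] at h1
    obtain ⟨K, hK⟩ := eventually_atTop.1
      (h1.eventually (gt_mem_nhds (show 0 < ε / 160 by positivity)))
    refine ⟨K, fun l hl => ?_⟩
    have h2 := (hK l hl).le
    have h3 : (9 / 5 : ℝ) ^ l = (9 / 10) ^ l * 2 ^ l := by rw [← mul_pow]; norm_num
    have h4 : (0 : ℝ) < 2 ^ l := by positivity
    rw [h3]
    calc C * (5 * 5 ^ 2 * ((9 / 10) ^ l * 2 ^ l))
        = C * (5 * 5 ^ 2 * (9 / 10) ^ l) * 2 ^ l := by ring
      _ ≤ _ := mul_le_mul_of_nonneg_right h2 h4.le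
  obtain ⟨k3, hk3⟩ : ∃ k3 : ℕ, ∀ k ≥ k3, 7 * (3 / 2 : ℝ) ^ k ≤ 2 * 2 ^ k := by
    have h1 : Tendsto (fun l : ℕ => 7 * (3 / 4 : ℝ) ^ l) atTop (nhds (7 * 0)) :=
      (tendsto_pow_atTop_nhds_zero_of_lt_one (by norm_num) (by norm_num)).const_mul _
    simp only [mul_zero] at h1
    obtain ⟨K, hK⟩ := eventually_atTop.1 (h1.eventually (gt_mem_nhds (show (0 : ℝ) < 2 by norm_num)))
    refine ⟨K, fun l hl => ?_⟩
    have h2 := (hK l hl).le
    have h3 : (3 / 2 : ℝ) ^ l = (3 / 4) ^ l * 2 ^ l := by rw [← mul_pow]; norm_num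
    have h4 : (0 : ℝ) < 2 ^ l := by positivity
    rw [h3]
    nlinarith
  set k0 := max k1 (max k2 k3) with hk0
  have hsum := hchain (ε / 80) (by positivity)
  set T : ℕ → ℝ := fun l => μ.real
    {ω | ε / 80 * chainLen l ≤ |F (chainLen l) ω - f * chainLen l|} with hT
  refine ⟨fun k => if k < k0 then 1 else 2 * T (k + 3), ?_, ?_⟩
  · rw [← summable_nat_add_iff k0]
    have h1 : (fun k => if k + k0 < k0 then (1 : ℝ) else 2 * T (k + k0 + 3)) =
        fun k => 2 * T (k + (k0 + 3)) := by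
      ext k
      rw [if_neg (by omega)]
      congr 2
    rw [h1]
    exact ((summable_nat_add_iff (k0 + 3)).2 hsum).mul_left 2
  · intro k m hkm hmk
    dsimp only
    by_cases hk : k < k0
    · rw [if_pos hk]
      exact measureReal_le_one
    · rw [if_neg hk]
      push Not at hk
      have hkk1 : k1 ≤ k := le_trans (le_max_left _ _) hk
      have hkk2 : k2 ≤ k := le_trans (le_trans (le_max_left _ _) (le_max_right _ _)) hk
      have hkk3 : k3 ≤ k := le_trans (le_trans (le_max_right _ _) (le_max_right _ _)) hk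
      set N := chainLen (k + 3) with hN
      set r := gapLen (k + 3) with hr
      have hP : (0 : ℝ) < 2 ^ k := by positivity
      have hN5 : (N : ℝ) ≤ 40 * 2 ^ k := by
        have := chainLen_le (k + 3)
        rw [pow_add] at this
        linarith
      have hN8 : (8 : ℝ) * 2 ^ k ≤ N := by
        have := chainLen_ge_real (k + 3)
        rw [pow_add] at this
        linarith
      have hm1 : (2 : ℝ) ^ k ≤ m := by exact_mod_cast hkm
      have hm2 : (m : ℝ) < 2 * 2 ^ k := by
        have : (m : ℝ) < 2 ^ (k + 1) := by exact_mod_cast hmk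
        rw [pow_succ] at this
        linarith
      have hr2 : (r : ℝ) ≤ 2 * 2 ^ k := by
        refine (gapLen_le (k + 3)).trans ?_
        have h1 := hk3 k hkk3
        rw [pow_add]
        linarith
      have hmr : m + r < N := by
        have : (m : ℝ) + r < N := by linarith
        exact_mod_cast this
      obtain ⟨n, hn⟩ : ∃ n, N = m + r + n := ⟨N - (m + r), by omega⟩
      have hnR : (N : ℝ) = m + r + n := by exact_mod_cast hn
      have hn4 : (4 : ℝ) * 2 ^ k ≤ n := by linarith
      have hn40 : (n : ℝ) ≤ 40 * 2 ^ k := by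
        have : (0 : ℝ) ≤ r := Nat.cast_nonneg _
        linarith
      -- the rest has the right size
      have hlog : ∃ j, k ≤ j ∧ 2 ^ j ≤ n ∧ n < 2 ^ (j + 1) := by
        have hn0 : n ≠ 0 := by
          intro h0
          rw [h0] at hn4
          simp only [Nat.cast_zero] at hn4
          linarith
        refine ⟨Nat.log 2 n, ?_, Nat.pow_log_le_self 2 hn0, Nat.lt_pow_succ_log_self (by norm_num) n⟩
        apply Nat.le_log_of_pow_le (by norm_num)
        have : (2 : ℝ) ^ k ≤ n := by linarith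
        exact_mod_cast this
      obtain ⟨j, hkj, hj1, hj2⟩ := hlog
      have hPn : μ.real {ω | F n ω ≤ (f - ε / 160) * n} ≤ 1 / 2 :=
        (htl j n hj1 hj2).trans (hk1 j (hkk1.trans hkj))
      -- windows
      obtain ⟨p, q, hpq, hp, hq⟩ := exists_window_pair ν m (m + r) n (Nat.le_add_right _ _)
      have hAm : MeasurableSet {ω : ℕ → α | (f + ε) * m ≤ F m ω} :=
        measurableSet_le measurable_const (hF.meas m)
      have hBm : MeasurableSet {ω : ℕ → α | F n ω ≤ (f - ε / 160) * n} :=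
        measurableSet_le (hF.meas n) measurable_const
      have hsub : {ω | (p ω, q ω) ∈ {ω : ℕ → α | (f + ε) * m ≤ F m ω} ×ˢ
          {ω : ℕ → α | F n ω ≤ (f - ε / 160) * n}ᶜ} ⊆
          {ω | ε / 80 * N ≤ |F N ω - f * N|} := by
        rintro ω ⟨h1, h2⟩
        have h1' : (f + ε) * m ≤ F m (p ω) := h1
        have h2' : ¬ F n (q ω) ≤ (f - ε / 160) * n := h2
        push Not at h2'
        rw [hF.dep m _ _ (fun i hi => hp ω i hi)] at h1'
        rw [hF.dep n _ (fun i => ω (i + (m + r))) (fun i hi => hq ω i hi)] at h2'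
        have h3 := hF.sup m r n ω (by
          have : (0 : ℝ) < m := by linarith
          exact_mod_cast this) (gapLen_pos _) (by
          have : (0 : ℝ) < n := by linarith
          exact_mod_cast this)
        rw [← hn] at h3
        have hP3 : (2 : ℝ) ^ (k + 3) = 8 * 2 ^ k := by rw [pow_add]; ring
        have hmn0 : (0 : ℝ) ≤ (m : ℝ) * n := by positivity
        have h4 := err_bound (k + 3) (A := 5) (S := (m : ℝ) + n) (P := (m : ℝ) * n)
          (by norm_num) (by positivity) (by
            rw [hP3]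
            have : (0 : ℝ) ≤ r := Nat.cast_nonneg _
            linarith) (by
            have h5 : (4 : ℝ) ^ (k + 3) = 2 ^ (k + 3) * 2 ^ (k + 3) := by
              rw [← mul_pow]; norm_num
            rw [h5, hP3]
            have hm0 : (0 : ℝ) ≤ m := Nat.cast_nonneg _
            have hn0 : (0 : ℝ) ≤ n := Nat.cast_nonneg _
            calc (m : ℝ) * n ≤ (2 * 2 ^ k) * (40 * 2 ^ k) :=
                  mul_le_mul hm2.le hn40 hn0 (by positivity)
              _ ≤ 5 ^ 2 * (8 * 2 ^ k * (8 * 2 ^ k)) := by nlinarith [mul_pos hP hP])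
        have h5 := mul_le_mul_of_nonneg_left h4 hC
        have h6 := hk2 (k + 3) (hkk2.trans (Nat.le_add_right _ _))
        have h7 : ε / 160 * 2 ^ (k + 3) ≤ ε / 160 * N := by
          rw [hP3]
          exact mul_le_mul_of_nonneg_left hN8 (by positivity)
        show ε / 80 * N ≤ |F N ω - f * N|
        refine le_trans ?_ (le_abs_self _)
        have hr0 : (0 : ℝ) ≤ r := Nat.cast_nonneg _
        have hfr : f * r ≤ 0 := mul_nonpos_of_nonpos_of_nonneg hf hr0
        have hεm : ε * (N / 40) ≤ ε * m := by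
          apply mul_le_mul_of_nonneg_left _ hε.le
          linarith
        have hεn : ε / 160 * n ≤ ε / 160 * N := by
          apply mul_le_mul_of_nonneg_left _ (by positivity)
          have hm0 : (0 : ℝ) ≤ m := Nat.cast_nonneg _
          linarith
        have hfN : f * N = f * m + f * r + f * n := by rw [hnR]; ring
        linarith
      have hprod : μ.real {ω | (p ω, q ω) ∈ {ω : ℕ → α | (f + ε) * m ≤ F m ω} ×ˢ
          {ω : ℕ → α | F n ω ≤ (f - ε / 160) * n}ᶜ} =
          μ.real {ω : ℕ → α | (f + ε) * m ≤ F m ω} *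
          μ.real ({ω : ℕ → α | F n ω ≤ (f - ε / 160) * n}ᶜ) := by
        have h1 := hpq.measureReal_preimage (hAm.prod hBm.compl).nullMeasurableSet
        rw [← measureReal_prod_prod]
        exact h1
      have hcompl : 1 / 2 ≤ μ.real ({ω : ℕ → α | F n ω ≤ (f - ε / 160) * n}ᶜ) := by
        rw [probReal_compl_eq_one_sub hBm]
        linarith
      have hle : μ.real {ω | (p ω, q ω) ∈ {ω : ℕ → α | (f + ε) * m ≤ F m ω} ×ˢ
          {ω : ℕ → α | F n ω ≤ (f - ε / 160) * n}ᶜ} ≤ T (k + 3) :=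
        measureReal_mono hsub (measure_ne_top _ _)
      rw [hprod] at hle
      have h0 : 0 ≤ μ.real {ω : ℕ → α | (f + ε) * m ≤ F m ω} := measureReal_nonneg
      nlinarith

/-- Two-sided tail bounds. -/
theorem tail_all (hF : NearSuper F C) : ∃ f : ℝ, f ≤ 0 ∧ -C ≤ f ∧ ∀ ε : ℝ, 0 < ε →
    ∃ t : ℕ → ℝ, Summable t ∧ ∀ k m : ℕ, 2 ^ k ≤ m → m < 2 ^ (k + 1) →
      (Measure.infinitePi (fun _ : ℕ => ν)).real {ω | ε * m ≤ |F m ω - f * m|} ≤ t k := by
  obtain ⟨f, hf0, hfC, hchain⟩ := chain_tail ν hF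
  refine ⟨f, hf0, hfC, fun ε hε => ?_⟩
  obtain ⟨t1, ht1, h1⟩ := lower_tail_all ν hF hf0 hchain hε
  obtain ⟨t2, ht2, h2⟩ := upper_tail_all ν hF hf0 hchain hε
  refine ⟨fun k => t1 k + t2 k, ht1.add ht2, fun k m hkm hmk => ?_⟩
  refine (measureReal_mono (?_ : _ ⊆ {ω | F m ω ≤ (f - ε) * m} ∪ {ω | (f + ε) * m ≤ F m ω})
    (measure_ne_top _ _)).trans
    ((measureReal_union_le _ _).trans (add_le_add (h1 k m hkm hmk) (h2 k m hkm hmk)))
  intro ω hω
  have h3 : ε * m ≤ |F m ω - f * m| := hω
  rcases le_abs.1 h3 with h | h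
  · right
    show (f + ε) * m ≤ F m ω
    linarith
  · left
    show F m ω ≤ (f - ε) * m
    linarith

end Pool.Agent.Lib.MP_5acba2_pr
end

section
/-!
Almost sure convergence from tail bounds at all scales.
-/
set_option autoImplicit false
set_option linter.unusedSectionVars false

namespace Pool.Agent.Lib.MP_5acba2_pr

open MeasureTheory Set Function Filter

/-- Interpolation between the scales `a * 2 ^ k`. -/
theorem tendsto_of_scales {G : ℕ → ℝ} {f C : ℝ} (hC : 0 ≤ C)
    (happ : ∀ m r : ℕ, G m - C * (r + √(r * m)) ≤ G (m + r))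
    (hscale : ∀ a : ℕ, 1 ≤ a → ∀ ε : ℝ, 0 < ε → ∀ᶠ k : ℕ in atTop,
      |G (a * 2 ^ k) - f * ((a * 2 ^ k : ℕ) : ℝ)| < ε * ((a * 2 ^ k : ℕ) : ℝ)) :
    Tendsto (fun n : ℕ => G n / n) atTop (nhds f) := by
  rw [Metric.tendsto_atTop]
  intro ε hε
  -- the scale parameter
  obtain ⟨σ, hσ⟩ : ∃ σ : ℕ, (|f| + 1 + 2 * C) / 2 ^ σ < ε / 2 := by
    have h1 : Tendsto (fun σ : ℕ => (|f| + 1 + 2 * C) * (1 / 2 : ℝ) ^ σ) atTop
        (nhds ((|f| + 1 + 2 * C) * 0)) :=
      (tendsto_pow_atTop_nhds_zero_of_lt_one (by norm_num) (by norm_num)).const_mul _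
    rw [mul_zero] at h1
    obtain ⟨K, hK⟩ := eventually_atTop.1 (h1.eventually (gt_mem_nhds (show 0 < ε / 2 by positivity)))
    refine ⟨K, ?_⟩
    have := hK K le_rfl
    rwa [one_div, inv_pow, ← div_eq_mul_inv] at this
  set ε' : ℝ := min (ε / 4) 1 with hε'
  have hε'pos : 0 < ε' := lt_min (by positivity) one_pos
  have hε'1 : ε' ≤ 1 := min_le_right _ _
  have hε'4 : ε' ≤ ε / 4 := min_le_left _ _
  have hall : ∀ᶠ k : ℕ in atTop, ∀ a ∈ Finset.Icc 1 (2 ^ (2 * σ + 1)),
      |G (a * 2 ^ k) - f * ((a * 2 ^ k : ℕ) : ℝ)| < ε' * ((a * 2 ^ k : ℕ) : ℝ) := by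
    rw [Filter.eventually_all_finset]
    intro a ha
    exact hscale a (Finset.mem_Icc.1 ha).1 ε' hε'pos
  obtain ⟨K, hK⟩ := eventually_atTop.1 hall
  refine ⟨2 ^ (K + 2 * σ), fun n hn => ?_⟩
  have hn0 : n ≠ 0 := by
    have : 0 < 2 ^ (K + 2 * σ) := by positivity
    omega
  set L := Nat.log 2 n with hL
  have hL1 : 2 ^ L ≤ n := Nat.pow_log_le_self 2 hn0
  have hL2 : n < 2 ^ (L + 1) := Nat.lt_pow_succ_log_self (by norm_num) n
  have hL3 : K + 2 * σ ≤ L := Nat.le_log_of_pow_le (by norm_num) hn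
  obtain ⟨k, hk⟩ : ∃ k, L = k + 2 * σ := ⟨L - 2 * σ, by omega⟩
  have hkK : K ≤ k := by omega
  rw [hk] at hL1 hL2
  have hPpos : 0 < 2 ^ k := by positivity
  set a := n / 2 ^ k with ha
  have ha1 : 2 ^ (2 * σ) ≤ a := by
    rw [ha, Nat.le_div_iff_mul_le hPpos, ← pow_add, add_comm]
    exact hL1
  have ha2 : a < 2 ^ (2 * σ + 1) := by
    rw [ha, Nat.div_lt_iff_lt_mul hPpos, ← pow_add]
    have : 2 * σ + 1 + k = k + 2 * σ + 1 := by ring
    rw [this]
    exact hL2
  have hm1 : a * 2 ^ k ≤ n := Nat.div_mul_le_self n _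
  have hm2 : n < (a + 1) * 2 ^ k := by
    have := Nat.lt_div_mul_add hPpos (a := n)
    rw [← ha] at this
    rw [add_mul, one_mul]
    exact this
  have hpow1 : 1 ≤ 2 ^ (2 * σ) := Nat.one_le_two_pow
  have hlow := hK k hkK a (Finset.mem_Icc.2 ⟨hpow1.trans ha1, ha2.le⟩)
  have hup := hK k hkK (a + 1) (Finset.mem_Icc.2 ⟨by omega, by omega⟩)
  -- real versions
  have hnpos : (0 : ℝ) < n := by positivity
  have hP : (0 : ℝ) < 2 ^ k := by positivity
  have hS1 : (1 : ℝ) ≤ 2 ^ σ := one_le_pow₀ (by norm_num)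
  have hPn : (2 : ℝ) ^ k ≤ n / (2 ^ σ) ^ 2 := by
    rw [le_div_iff₀ (by positivity), ← pow_mul, ← pow_add]
    have : ((2 ^ (k + 2 * σ) : ℕ) : ℝ) ≤ n := by exact_mod_cast hL1
    push_cast at this
    rw [mul_comm σ 2]
    exact this
  have hPn2 : (2 : ℝ) ^ k ≤ n / 2 ^ σ := by
    refine hPn.trans ?_
    apply div_le_div_of_nonneg_left hnpos.le (by positivity)
    nlinarith
  have hcost : ∀ r M : ℕ, (r : ℝ) ≤ 2 ^ k → (M : ℝ) ≤ n →
      C * (r + √(r * M)) ≤ 2 * C * (n / 2 ^ σ) := by
    intro r M hr hM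
    have hs : √((r : ℝ) * M) ≤ n / 2 ^ σ := by
      apply Real.sqrt_le_iff.2
      refine ⟨by positivity, ?_⟩
      calc (r : ℝ) * M ≤ (n / (2 ^ σ) ^ 2) * n :=
            mul_le_mul (hr.trans hPn) hM (Nat.cast_nonneg _) (by positivity)
        _ = (n / 2 ^ σ) ^ 2 := by field_simp
    have hr' : (r : ℝ) ≤ n / 2 ^ σ := hr.trans hPn2
    have := mul_le_mul_of_nonneg_left (add_le_add hr' hs) hC
    linarith
  have hm1R : ((a * 2 ^ k : ℕ) : ℝ) ≤ n := by exact_mod_cast hm1
  have hm2R : (n : ℝ) < (((a + 1) * 2 ^ k : ℕ) : ℝ) := by exact_mod_cast hm2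
  have hdiff : (((a + 1) * 2 ^ k : ℕ) : ℝ) = ((a * 2 ^ k : ℕ) : ℝ) + 2 ^ k := by
    push_cast; ring
  -- lower bound for G n
  have h1 := happ (a * 2 ^ k) (n - a * 2 ^ k)
  have h1' : a * 2 ^ k + (n - a * 2 ^ k) = n := by omega
  rw [h1'] at h1
  have h2 := hcost (n - a * 2 ^ k) (a * 2 ^ k) (by rw [Nat.cast_sub hm1]; linarith) hm1R
  -- upper bound for G n
  have h3 := happ n ((a + 1) * 2 ^ k - n)
  have h3' : n + ((a + 1) * 2 ^ k - n) = (a + 1) * 2 ^ k := by omega
  rw [h3'] at h3
  have h4 := hcost ((a + 1) * 2 ^ k - n) n (by rw [Nat.cast_sub hm2.le]; linarith) le_rfl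
  have hlow1 := (abs_lt.1 hlow).1
  have hup2 := (abs_lt.1 hup).2
  have hf1 : |f * ((a * 2 ^ k : ℕ) : ℝ) - f * n| ≤ |f| * (n / 2 ^ σ) := by
    rw [← mul_sub, abs_mul]
    apply mul_le_mul_of_nonneg_left _ (abs_nonneg _)
    rw [abs_le]
    constructor <;> linarith
  have hf2 : |f * (((a + 1) * 2 ^ k : ℕ) : ℝ) - f * n| ≤ |f| * (n / 2 ^ σ) := by
    rw [← mul_sub, abs_mul]
    apply mul_le_mul_of_nonneg_left _ (abs_nonneg _)
    rw [abs_le]
    constructor <;> linarith
  have hf1' := (abs_le.1 hf1).1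
  have hf2' := (abs_le.1 hf2).2
  have hε'a : ε' * ((a * 2 ^ k : ℕ) : ℝ) ≤ ε / 4 * n :=
    mul_le_mul hε'4 hm1R (Nat.cast_nonneg _) (by positivity)
  have hε'b : ε' * (((a + 1) * 2 ^ k : ℕ) : ℝ) ≤ ε / 4 * n + n / 2 ^ σ := by
    rw [hdiff, mul_add]
    have : ε' * 2 ^ k ≤ n / 2 ^ σ := by
      calc ε' * 2 ^ k ≤ 1 * 2 ^ k := mul_le_mul_of_nonneg_right hε'1 hP.le
        _ ≤ _ := by rw [one_mul]; exact hPn2
    linarith
  have hfin : (|f| + 1 + 2 * C) * (n / 2 ^ σ) < ε / 2 * n := by
    have : (|f| + 1 + 2 * C) * (n / 2 ^ σ) = (|f| + 1 + 2 * C) / 2 ^ σ * n := by ring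
    rw [this]
    exact mul_lt_mul_of_pos_right hσ hnpos
  have hnσ : 0 ≤ (n : ℝ) / 2 ^ σ := by positivity
  rw [Real.dist_eq]
  have hgoal : |G n - f * n| < ε * n := by
    rw [abs_lt]
    constructor
    · nlinarith
    · nlinarith
  have : G n / n - f = (G n - f * n) / n := by field_simp
  rw [this, abs_div, abs_of_pos hnpos, div_lt_iff₀ hnpos]
  exact hgoal

variable {α : Type*} [MeasurableSpace α]

/-- Almost sure convergence from tail bounds. -/
theorem ae_tendsto_of_tails {μ : Measure (ℕ → α)} [IsProbabilityMeasure μ]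
    {G : ℕ → (ℕ → α) → ℝ} {f C : ℝ} (hC : 0 ≤ C)
    (happ : ∀ (m r : ℕ) (ω : ℕ → α), G m ω - C * (r + √(r * m)) ≤ G (m + r) ω)
    (htail : ∀ ε : ℝ, 0 < ε → ∃ t : ℕ → ℝ, Summable t ∧ ∀ k m : ℕ, 2 ^ k ≤ m → m < 2 ^ (k + 1) →
      μ.real {ω | ε * m ≤ |G m ω - f * m|} ≤ t k) :
    ∀ᵐ ω ∂μ, Tendsto (fun n : ℕ => G n ω / n) atTop (nhds f) := by
  have h1 : ∀ (a j : ℕ), 1 ≤ a → ∀ᵐ ω ∂μ, ∀ᶠ k : ℕ in atTop,
      |G (a * 2 ^ k) ω - f * ((a * 2 ^ k : ℕ) : ℝ)| < (1 / ((j : ℝ) + 1)) * ((a * 2 ^ k : ℕ) : ℝ) := by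
    intro a j ha
    obtain ⟨t, ht, htl⟩ := htail (1 / ((j : ℝ) + 1)) (by positivity)
    set l := Nat.log 2 a with hl
    have hl1 : 2 ^ l ≤ a := Nat.pow_log_le_self 2 (by omega)
    have hl2 : a < 2 ^ (l + 1) := Nat.lt_pow_succ_log_self (by norm_num) a
    set S : ℕ → Set (ℕ → α) := fun k => {ω | (1 / ((j : ℝ) + 1)) * ((a * 2 ^ k : ℕ) : ℝ) ≤
      |G (a * 2 ^ k) ω - f * ((a * 2 ^ k : ℕ) : ℝ)|} with hS
    have hbd : ∀ k, μ.real (S k) ≤ t (k + l) := by
      intro k
      apply htl
      · rw [pow_add, mul_comm]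
        exact Nat.mul_le_mul_right _ hl1
      · have : k + l + 1 = (l + 1) + k := by ring
        rw [this, pow_add]
        exact Nat.mul_lt_mul_of_pos_right hl2 (by positivity)
    have hsum : ∑' k, μ (S k) ≠ ⊤ := by
      have hs : Summable (fun k => t (k + l)) := (summable_nat_add_iff l).2 ht
      have h2 : ∀ k, μ (S k) ≤ ENNReal.ofReal (t (k + l)) := by
        intro k
        rw [← ofReal_measureReal]
        exact ENNReal.ofReal_le_ofReal (hbd k)
      exact ne_top_of_le_ne_top hs.tsum_ofReal_ne_top (ENNReal.tsum_le_tsum h2)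
    filter_upwards [ae_eventually_notMem hsum] with ω hω
    filter_upwards [hω] with k hk
    have hk' : ¬ ((1 / ((j : ℝ) + 1)) * ((a * 2 ^ k : ℕ) : ℝ) ≤
      |G (a * 2 ^ k) ω - f * ((a * 2 ^ k : ℕ) : ℝ)|) := hk
    exact not_le.1 hk'
  have h2 : ∀ᵐ ω ∂μ, ∀ (a j : ℕ), 1 ≤ a → ∀ᶠ k : ℕ in atTop,
      |G (a * 2 ^ k) ω - f * ((a * 2 ^ k : ℕ) : ℝ)| < (1 / ((j : ℝ) + 1)) * ((a * 2 ^ k : ℕ) : ℝ) := by
    rw [ae_all_iff]
    intro a
    rw [ae_all_iff]
    intro j
    by_cases ha : 1 ≤ a
    · filter_upwards [h1 a j ha] with ω hω _ using hω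
    · exact Eventually.of_forall fun ω h => absurd h ha
  filter_upwards [h2] with ω hω
  apply tendsto_of_scales hC (fun m r => happ m r ω)
  intro a ha ε hε
  obtain ⟨j, hj⟩ := exists_nat_one_div_lt hε
  filter_upwards [hω a j ha] with k hk
  refine hk.trans_le ?_
  exact mul_le_mul_of_nonneg_right hj.le (Nat.cast_nonneg _)

end Pool.Agent.Lib.MP_5acba2_pr
end

section
/-!
Near superadditivity of the free energy of families of bridges.
-/
set_option autoImplicit false
set_option linter.unusedSectionVars false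

namespace Pool.Agent.Lib.MP_5acba2_pr

open Finset Function MeasureTheory

variable {S : Type*} [Fintype S] [DecidableEq S]

theorem ZS_congr {b : ℝ} {ℓ : S → ℕ} {ω ω' : ((_ : S) × ℕ) → ℝ}
    (h : ∀ p ∈ lets ℓ, ω p = ω' p) : ZS b ℓ ω = ZS b ℓ ω' := by
  unfold ZS
  congr 1
  apply Finset.sum_congr rfl
  intro x _
  rw [En_congr h (fun _ _ => rfl)]

theorem measurable_En' {Ω V ι : Type*} [DecidableEq V] [DecidableEq ι] [MeasurableSpace Ω]
    {u : Ω → ι → ℝ} (hu : ∀ i, Measurable (fun w => u w i)) (J : Finset ι) (x : ι → V) :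
    Measurable (fun w => En J (u w) x) := by
  unfold En Cr
  apply Finset.measurable_sum
  intro i _
  apply Finset.measurable_sum
  intro j _
  by_cases h : x i = x j
  · simp only [h, if_true]
    exact (hu i).mul (hu j)
  · simp only [h, if_false]
    exact measurable_const

theorem measurable_ZS {Ω : Type*} [MeasurableSpace Ω] {u : Ω → ((_ : S) × ℕ) → ℝ}
    (hu : ∀ i, Measurable (fun w => u w i)) (b : ℝ) (ℓ : S → ℕ) :
    Measurable (fun w => ZS b ℓ (u w)) := by
  unfold ZS
  apply Measurable.const_mul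
  apply Finset.measurable_sum
  intro x _
  exact Real.measurable_exp.comp ((measurable_En' hu _ _).const_mul b).neg

variable {α : Type*}

/-- The word read by the strands from a sequence of cells. -/
def cellWord (c : α → ℝ) (A : S → ℕ) (ω : ℕ → ((_ : S) × ℕ → α)) (p : (_ : S) × ℕ) : ℝ :=
  c (ω (p.2 / (2 * A p.1)) ⟨p.1, p.2 % (2 * A p.1)⟩)

/-- The free energy of families of bridges. -/
noncomputable def FS (b : ℝ) (c : α → ℝ) (A : S → ℕ) (n : ℕ) (ω : ℕ → ((_ : S) × ℕ → α)) : ℝ :=
  Real.log (ZS b (fun s => 2 * A s * n) (cellWord c A ω))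

theorem FS_super {b : ℝ} {c : α → ℝ} {A : S → ℕ} (hA : ∀ s, 1 ≤ A s) {m n : ℕ} (hm : 1 ≤ m)
    (hn : 1 ≤ n) (ω : ℕ → ((_ : S) × ℕ → α)) :
    FS b c A m ω + FS b c A n (fun i => ω (i + m)) - Fintype.card S * Real.log 2 ≤
      FS b c A (m + n) ω := by
  have h1 := ZS_stack (b := b) (ℓ := fun s => 2 * A s * m) (ℓ' := fun s => 2 * A s * n)
    (fun s => Nat.mul_pos (by have := hA s; omega) hm)
    (fun s => Nat.mul_pos (by have := hA s; omega) hn) (cellWord c A ω)
  have h2 : (fun s => 2 * A s * m) + (fun s => 2 * A s * n) = fun s => 2 * A s * (m + n) := by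
    funext s; simp only [Pi.add_apply]; ring
  have h3 : (fun p : (_ : S) × ℕ => cellWord c A ω ⟨p.1, p.2 + 2 * A p.1 * m⟩) =
      cellWord c A (fun i => ω (i + m)) := by
    funext p
    unfold cellWord
    dsimp only
    have hp : 0 < 2 * A p.1 := by have := hA p.1; omega
    rw [Nat.add_mul_div_left _ _ hp, Nat.add_mul_mod_self_left]
  rw [h2, h3] at h1
  have p1 := ZS_pos (b := b) (brs_nonempty hA hm) (cellWord c A ω)
  have p2 := ZS_pos (b := b) (brs_nonempty hA hn) (cellWord c A (fun i => ω (i + m)))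
  have h4 := Real.log_le_log (by positivity) h1
  rw [Real.log_mul (by positivity) (by positivity), Real.log_mul (by positivity) (by positivity),
    Real.log_inv, Real.log_pow] at h4
  unfold FS
  linarith

theorem FS_zero (b : ℝ) (c : α → ℝ) (A : S → ℕ) (ω : ℕ → ((_ : S) × ℕ → α)) :
    FS b c A 0 ω = 0 := by
  have h1 : brs (fun s : S => 2 * A s * 0) = {fun _ _ => 0} := by
    ext x
    rw [mem_brs, Finset.mem_singleton]
    constructor
    · rintro ⟨h, _⟩
      funext s
      funext i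
      have h2 := mem_paths1.1 (h s)
      induction i with
      | zero => exact h2.1
      | succ i ih => rw [h2.2.2 i (by simp), ih]
    · rintro rfl
      refine ⟨fun s => ?_, fun s s' i hi => by simp at hi⟩
      rw [mem_paths1]
      exact ⟨rfl, fun i hi => by simp at hi, fun i _ => rfl⟩
  have h2 : lets (fun s : S => 2 * A s * 0) = ∅ := by
    ext p
    simp [mem_lets]
  unfold FS ZS
  rw [h1, h2]
  simp [En, Cr]

theorem En_le_card_sq {V ι : Type*} [DecidableEq V] [DecidableEq ι] {J : Finset ι} {ω : ι → ℝ}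
    (hω : ∀ i, |ω i| ≤ 1) (x : ι → V) : En J ω x ≤ (J.card : ℝ) * J.card :=
  En_le_mult hω (fun _ => Finset.card_le_card (Finset.filter_subset _ _))

theorem FS_one_ge {b : ℝ} (hb : 0 ≤ b) {c : α → ℝ} (hc : ∀ a, |c a| ≤ 1) {A : S → ℕ}
    (hA : ∀ s, 1 ≤ A s) : ∃ C, 0 ≤ C ∧ ∀ ω : ℕ → ((_ : S) × ℕ → α), -C ≤ FS b c A 1 ω := by
  set ℓ : S → ℕ := fun s => 2 * A s * 1 with hℓ
  set B : ℝ := b * ((lets ℓ).card * (lets ℓ).card) with hB
  set κ : ℝ := (∏ s, ((2 : ℝ) ^ (ℓ s - 1))⁻¹) * Real.exp (-B) with hκ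
  have hκpos : 0 < κ := mul_pos (norm_pos ℓ) (Real.exp_pos _)
  have hge : ∀ ω : ℕ → ((_ : S) × ℕ → α), κ ≤ ZS b ℓ (cellWord c A ω) := by
    intro ω
    obtain ⟨x, hx⟩ := brs_nonempty hA le_rfl
    have h2 : Real.exp (-B) ≤
        Real.exp (-(b * En (lets ℓ) (cellWord c A ω) (fun p => x p.1 p.2))) := by
      apply Real.exp_le_exp.2
      have h3 := mul_le_mul_of_nonneg_left (En_le_card_sq (J := lets ℓ)
        (ω := cellWord c A ω) (fun p => hc _) (fun p => x p.1 p.2)) hb
      linarith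
    have h4 : Real.exp (-(b * En (lets ℓ) (cellWord c A ω) (fun p => x p.1 p.2))) ≤
        ∑ x ∈ brs ℓ, Real.exp (-(b * En (lets ℓ) (cellWord c A ω) (fun p => x p.1 p.2))) :=
      Finset.single_le_sum (s := brs ℓ)
        (f := fun x : S → ℕ → ℤ =>
          Real.exp (-(b * En (lets ℓ) (cellWord c A ω) (fun p => x p.1 p.2))))
        (fun _ _ => Real.exp_nonneg _) hx
    exact mul_le_mul_of_nonneg_left (h2.trans h4) (norm_pos ℓ).le
  refine ⟨|Real.log κ|, abs_nonneg _, fun ω => ?_⟩
  have h1 := Real.log_le_log hκpos (hge ω)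
  have h2 := neg_abs_le (Real.log κ)
  unfold FS
  linarith

theorem nearSuper_FS [MeasurableSpace α] {b : ℝ} (hb : 0 ≤ b) {c : α → ℝ} (hcm : Measurable c)
    (hc : ∀ a, |c a| ≤ 1) {A : S → ℕ} (hA : ∀ s, 1 ≤ A s) :
    ∃ C, NearSuper (FS b c A) C := by
  obtain ⟨C1, hC1, h1⟩ := FS_one_ge hb hc hA (α := α)
  set K : ℝ := Fintype.card S * Real.log 2 with hK
  have hK0 : 0 ≤ K := mul_nonneg (Nat.cast_nonneg _) (Real.log_nonneg (by norm_num))
  set C : ℝ := C1 + K with hC
  have hC0 : 0 ≤ C := by positivity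
  have hlow : ∀ n, ∀ ω : ℕ → ((_ : S) × ℕ → α), -(C * n) ≤ FS b c A n ω := by
    intro n
    induction n with
    | zero => intro ω; rw [FS_zero]; simp
    | succ n ih =>
      intro ω
      rcases Nat.eq_zero_or_pos n with hn | hn
      · subst hn
        have := h1 ω
        push_cast
        linarith
      · have h2 := FS_super (b := b) (c := c) hA hn le_rfl ω
        have h3 := ih ω
        have h4 := h1 (fun i => ω (i + n))
        push_cast
        rw [← hK] at h2
        rw [mul_add, mul_one]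
        linarith
  have hle : ∀ n, ∀ ω : ℕ → ((_ : S) × ℕ → α), FS b c A n ω ≤ 0 := by
    intro n ω
    exact Real.log_nonpos (ZS_nonneg _ _ _) (ZS_le_one hb _ _)
  refine ⟨3 * C, by positivity, ?_, ?_, hle, ?_, ?_, ?_⟩
  · intro n ω ω' h
    unfold FS
    rw [ZS_congr (ω := cellWord c A ω) (ω' := cellWord c A ω')]
    intro p hp
    rw [mem_lets] at hp
    unfold cellWord
    rw [h]
    rw [mul_comm (2 * A p.1) n] at hp
    exact Nat.div_lt_of_lt_mul (by rwa [mul_comm] at hp)
  · intro n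
    refine Real.measurable_log.comp (measurable_ZS (fun p => ?_) b _)
    exact hcm.comp ((measurable_pi_apply _).comp (measurable_pi_apply _))
  · intro n ω
    have := hlow n ω
    have h2 : (0 : ℝ) ≤ C * n := by positivity
    linarith
  · intro m r ω
    rcases Nat.eq_zero_or_pos r with hr | hr
    · subst hr; simp
    rcases Nat.eq_zero_or_pos m with hm | hm
    · subst hm
      rw [FS_zero, zero_add]
      have := hlow r ω
      simp only [Nat.cast_zero, mul_zero, Real.sqrt_zero, add_zero, zero_sub]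
      have h2 : (0 : ℝ) ≤ C * r := by positivity
      linarith
    · have h2 := FS_super (b := b) (c := c) hA hm hr ω
      have h3 := hlow r (fun i => ω (i + m))
      have h4 : (1 : ℝ) ≤ r := by exact_mod_cast hr
      have h5 : (0 : ℝ) ≤ √((r : ℝ) * m) := Real.sqrt_nonneg _
      rw [← hK] at h2
      have h6 : K ≤ C * r := by nlinarith
      have h7 : 0 ≤ C * √((r : ℝ) * m) := by positivity
      have h8 : (0 : ℝ) ≤ C * r := by positivity
      nlinarith
  · intro m r n ω hm hr hn
    have h2 := FS_super (b := b) (c := c) hA hm hr ω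
    have h3 := FS_super (b := b) (c := c) hA (m := m + r) (by omega) hn ω
    have h4 := hlow r (fun i => ω (i + m))
    have h5 : (1 : ℝ) ≤ r := by exact_mod_cast hr
    rw [← hK] at h2 h3
    have h6 : K ≤ C * r := by nlinarith
    have h7 : 0 ≤ C * (√((r : ℝ) * (m + n)) + m * n / (r : ℝ) ^ 2) := by positivity
    have h8 : (0 : ℝ) ≤ C * r := by positivity
    have h9 : 3 * C * ((r : ℝ) + √(r * (m + n)) + m * n / (r : ℝ) ^ 2) =
      3 * (C * r) + 3 * (C * (√((r : ℝ) * (m + n)) + m * n / (r : ℝ) ^ 2)) := by ring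
    rw [h9]
    linarith

end Pool.Agent.Lib.MP_5acba2_pr
end

section
/-!
Almost sure behaviour along geometric scales of the free energy of families of bridges whose
letters are read off an iid sequence along arbitrary injections.
-/
set_option autoImplicit false
set_option linter.unusedSectionVars false

namespace Pool.Agent.Lib.MP_5acba2_pr

open Finset Function MeasureTheory Filter

theorem exists_injective_extension {κ : Type*} [Encodable κ] (J : Finset κ) (e : κ → ℕ)
    (he : Set.InjOn e (J : Set κ)) : ∃ e' : κ → ℕ, Injective e' ∧ ∀ j ∈ J, e' j = e j := by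
  classical
  refine ⟨fun j => if j ∈ J then e j else J.sup e + 1 + Encodable.encode j, ?_, ?_⟩
  · intro i j h
    dsimp only at h
    by_cases hi : i ∈ J <;> by_cases hj : j ∈ J
    · rw [if_pos hi, if_pos hj] at h
      exact he hi hj h
    · rw [if_pos hi, if_neg hj] at h
      have := Finset.le_sup (f := e) hi
      omega
    · rw [if_neg hi, if_pos hj] at h
      have := Finset.le_sup (f := e) hj
      omega
    · rw [if_neg hi, if_neg hj] at h
      exact Encodable.encode_injective (by omega)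
  · intro j hj
    dsimp only
    rw [if_pos hj]

variable {S : Type*} [Fintype S] [DecidableEq S] [Encodable S]
variable {α : Type*} [MeasurableSpace α]

/-- The free energy along an injection. -/
noncomputable def FE (b : ℝ) (c : α → ℝ) (ℓ : S → ℕ) (e : ((_ : S) × ℕ) → ℕ) (ω : ℕ → α) : ℝ :=
  Real.log (ZS b ℓ (fun p => c (ω (e p))))

theorem exists_preserving (ν : Measure α) [IsProbabilityMeasure ν] (b : ℝ) (c : α → ℝ)
    {A : S → ℕ} (hA : ∀ s, 1 ≤ A s) (n : ℕ) {e : ((_ : S) × ℕ) → ℕ}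
    (he : Set.InjOn e (lets (fun s => 2 * A s * n) : Set ((_ : S) × ℕ))) :
    ∃ Φ : (ℕ → α) → (ℕ → ((_ : S) × ℕ → α)),
      MeasurePreserving Φ (Measure.infinitePi (fun _ : ℕ => ν))
        (Measure.infinitePi (fun _ : ℕ => Measure.infinitePi (fun _ : (_ : S) × ℕ => ν))) ∧
      ∀ ω, FS b c A n (Φ ω) = FE b c (fun s => 2 * A s * n) e ω := by
  classical
  set J : Finset (ℕ × ((_ : S) × ℕ)) := range n ×ˢ lets (fun s => 2 * A s) with hJ
  set E : ℕ × ((_ : S) × ℕ) → (_ : S) × ℕ := fun q => ⟨q.2.1, 2 * A q.2.1 * q.1 + q.2.2⟩ with hE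
  have hEJ : ∀ q ∈ J, E q ∈ lets (fun s => 2 * A s * n) := by
    rintro ⟨k, s, j⟩ hq
    rw [hJ, Finset.mem_product, Finset.mem_range, mem_lets] at hq
    rw [mem_lets]
    dsimp only [hE] at hq ⊢
    obtain ⟨h1, h2⟩ := hq
    calc 2 * A s * k + j < 2 * A s * k + 2 * A s := by omega
      _ = 2 * A s * (k + 1) := by ring
      _ ≤ 2 * A s * n := Nat.mul_le_mul_left _ h1
  have hEinj : Set.InjOn E (J : Set (ℕ × ((_ : S) × ℕ))) := by
    rintro ⟨k, s, j⟩ hq ⟨k', s', j'⟩ hq' h
    rw [hJ, Finset.mem_coe, Finset.mem_product, Finset.mem_range, mem_lets] at hq hq'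
    simp only [hE, Sigma.mk.injEq] at h
    obtain ⟨h1, h2⟩ := h
    subst h1
    rw [heq_eq_eq] at h2
    dsimp only at hq hq'
    have hpos : 0 < 2 * A s := by have := hA s; omega
    have e1 : (2 * A s * k + j) / (2 * A s) = k := by
      rw [Nat.mul_add_div hpos, Nat.div_eq_of_lt hq.2, add_zero]
    have e2 : (2 * A s * k' + j') / (2 * A s) = k' := by
      rw [Nat.mul_add_div hpos, Nat.div_eq_of_lt hq'.2, add_zero]
    have hk : k = k' := by rw [← e1, ← e2, h2]
    subst hk
    have hj : j = j' := by omega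
    subst hj
    rfl
  obtain ⟨e', he'inj, he'⟩ := exists_injective_extension J (fun q => e (E q))
    (fun q hq q' hq' h => hEinj hq hq' (he (hEJ q hq) (hEJ q' hq') h))
  refine ⟨fun ω k p => ω (e' (k, p)), ?_, ?_⟩
  · have h1 := measurePreserving_comp ν e' he'inj
    have h2 : MeasurePreserving (MeasurableEquiv.curry ℕ ((_ : S) × ℕ) α)
        (Measure.infinitePi (fun _ : ℕ × ((_ : S) × ℕ) => ν))
        (Measure.infinitePi (fun _ : ℕ => Measure.infinitePi (fun _ : (_ : S) × ℕ => ν))) :=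
      ⟨(MeasurableEquiv.curry ℕ ((_ : S) × ℕ) α).measurable,
        Measure.infinitePi_map_curry (fun (_ : ℕ) (_ : (_ : S) × ℕ) => ν)⟩
    exact h2.comp h1
  · intro ω
    unfold FS FE
    congr 1
    apply ZS_congr
    intro p hp
    rw [mem_lets] at hp
    unfold cellWord
    have hpos : 0 < 2 * A p.1 := by have := hA p.1; omega
    have hmem : (p.2 / (2 * A p.1), (⟨p.1, p.2 % (2 * A p.1)⟩ : (_ : S) × ℕ)) ∈ J := by
      rw [hJ, Finset.mem_product, Finset.mem_range, mem_lets]
      exact ⟨Nat.div_lt_of_lt_mul hp, Nat.mod_lt _ hpos⟩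
    dsimp only
    rw [he' _ hmem]
    simp only [hE]
    rw [Nat.div_add_mod]

/-- Summable tails along dyadic blocks. -/
def HasRate {β : Type*} [MeasurableSpace β] (ν : Measure β) (F : ℕ → (ℕ → β) → ℝ) (f : ℝ) :
    Prop :=
  ∀ ε : ℝ, 0 < ε → ∃ t : ℕ → ℝ, Summable t ∧ ∀ k m : ℕ, 2 ^ k ≤ m → m < 2 ^ (k + 1) →
    (Measure.infinitePi (fun _ : ℕ => ν)).real {ω | ε * m ≤ |F m ω - f * m|} ≤ t k

theorem exists_rate (ν : Measure α) [IsProbabilityMeasure ν] {b : ℝ} (hb : 0 ≤ b) {c : α → ℝ}
    (hcm : Measurable c) (hc : ∀ a, |c a| ≤ 1) {A : S → ℕ} (hA : ∀ s, 1 ≤ A s) :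
    ∃ f : ℝ, f ≤ 0 ∧ HasRate (Measure.infinitePi (fun _ : (_ : S) × ℕ => ν)) (FS b c A) f := by
  obtain ⟨C, hC⟩ := nearSuper_FS hb hcm hc hA
  obtain ⟨f, hf, _, h⟩ := tail_all (Measure.infinitePi (fun _ : (_ : S) × ℕ => ν)) hC
  exact ⟨f, hf, h⟩

theorem ae_scale (ν : Measure α) [IsProbabilityMeasure ν] {b : ℝ} (hb : 0 ≤ b) {c : α → ℝ}
    (hcm : Measurable c) (hc : ∀ a, |c a| ≤ 1) {A : S → ℕ} (hA : ∀ s, 1 ≤ A s) {f : ℝ}
    (hf : HasRate (Measure.infinitePi (fun _ : (_ : S) × ℕ => ν)) (FS b c A) f)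
    {m : ℕ → ℕ} (hm0 : 1 ≤ m 0) (hm : ∀ k, 2 * m k ≤ m (k + 1))
    {e : ℕ → ((_ : S) × ℕ) → ℕ}
    (he : ∀ k, Set.InjOn (e k) (lets (fun s => 2 * A s * m k) : Set ((_ : S) × ℕ)))
    {ε : ℝ} (hε : 0 < ε) :
    ∀ᵐ ω ∂(Measure.infinitePi (fun _ : ℕ => ν)), ∀ᶠ k in atTop,
      |FE b c (fun s => 2 * A s * m k) (e k) ω - f * m k| < ε * m k := by
  set μ := Measure.infinitePi (fun _ : ℕ => ν) with hμ
  obtain ⟨C, hC⟩ := nearSuper_FS hb hcm hc hA
  obtain ⟨t, ht, htl⟩ := hf ε hε
  have hmpos : ∀ k, 1 ≤ m k := by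
    intro k
    induction k with
    | zero => exact hm0
    | succ k ih => have := hm k; omega
  have hlog : StrictMono (fun k => Nat.log 2 (m k)) := by
    apply strictMono_nat_of_lt_succ
    intro k
    have h1 : Nat.log 2 (2 * m k) ≤ Nat.log 2 (m (k + 1)) := Nat.log_mono_right (hm k)
    have h2 : Nat.log 2 (2 * m k) = Nat.log 2 (m k) + 1 := by
      rw [mul_comm]
      exact Nat.log_mul_base (by norm_num) (by have := hmpos k; omega)
    omega
  set B : ℕ → Set (ℕ → α) := fun k =>
    {ω | ε * m k ≤ |FE b c (fun s => 2 * A s * m k) (e k) ω - f * m k|} with hB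
  have hbd : ∀ k, μ.real (B k) ≤ t (Nat.log 2 (m k)) := by
    intro k
    obtain ⟨Φ, hΦ, hΦF⟩ := exists_preserving ν b c hA (m k) (he k)
    have h1 : B k = Φ ⁻¹' {ω | ε * m k ≤ |FS b c A (m k) ω - f * m k|} := by
      ext ω
      simp only [hB, Set.mem_preimage, Set.mem_ofPred_eq, hΦF]
    have h2 : MeasurableSet {ω | ε * m k ≤ |FS b c A (m k) ω - f * m k|} :=
      measurableSet_le measurable_const ((hC.meas _).sub_const _).abs
    have h3 : μ.real (B k) = (Measure.infinitePi (fun _ : ℕ =>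
        Measure.infinitePi (fun _ : (_ : S) × ℕ => ν))).real
          {ω | ε * m k ≤ |FS b c A (m k) ω - f * m k|} := by
      rw [h1, Measure.real, Measure.real, hΦ.measure_preimage h2.nullMeasurableSet]
    rw [h3]
    have hne : m k ≠ 0 := by have := hmpos k; omega
    exact htl _ _ (Nat.pow_log_le_self 2 hne) (Nat.lt_pow_succ_log_self (by norm_num) _)
  have hsum : ∑' k, μ (B k) ≠ ⊤ := by
    have hs : Summable (fun k => t (Nat.log 2 (m k))) := ht.comp_injective hlog.injective
    have h2 : ∀ k, μ (B k) ≤ ENNReal.ofReal (t (Nat.log 2 (m k))) := by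
      intro k
      rw [← ofReal_measureReal]
      exact ENNReal.ofReal_le_ofReal (hbd k)
    exact ne_top_of_le_ne_top hs.tsum_ofReal_ne_top (ENNReal.tsum_le_tsum h2)
  filter_upwards [ae_eventually_notMem hsum] with ω hω
  filter_upwards [hω] with k hk
  have hk' : ¬ (ε * m k ≤ |FE b c (fun s => 2 * A s * m k) (e k) ω - f * m k|) := hk
  exact not_le.1 hk'

end Pool.Agent.Lib.MP_5acba2_pr
end
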