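import Mathlib
import Pool.Agent.Lib.MP_5acba2_pr.Chain
import Pool.Agent.Lib.MP_5acba2_pr.Defs
import Pool.Agent.Lib.MP_5acba2_pr.ScaleLaw

section
/-!
Joining two paths through a gap, in the presence of a large family of gap paths.
-/
set_option autoImplicit false
set_option linter.unusedSectionVars false

namespace Pool.Agent.Lib.MP_5acba2_pr

open Finset Function

variable {V σ ι : Type*} [AddCommGroup V] [DecidableEq V] [Fintype σ] (st : σ → V)

/-- A family of gap paths with `r` letters. -/
structure GapFam (r : ℕ) (Zs : Finset ι) (g : ι → ℕ → V) : Prop where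
  zero : ∀ z, g z 0 = 0
  step : ∀ z ∈ Zs, ∀ t ≤ r, ∃ a, g z (t + 1) = g z t + st a
  inj : Set.InjOn (fun z => g z (r + 1)) (Zs : Set ι)
  mult : ∀ z ∈ Zs, ∀ v, ((Ico 1 (r + 1)).filter (fun t => g z t = v)).card ≤ 2

/-- The combined path. -/
def comb (m r : ℕ) (g : ℕ → V) (x y : ℕ → V) (i : ℕ) : V :=
  if i < m then x i else if i < m + r then x (m - 1) + g (i - m + 1)
    else x (m - 1) + g (r + 1) + y (i - (m + r))

variable {st}

theorem comb_mem {m r n : ℕ} {Zs : Finset ι} {g : ι → ℕ → V} (hg : GapFam st r Zs g)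
    {z : ι} (hz : z ∈ Zs) (hm : 1 ≤ m) (hr : 1 ≤ r) (hn : 1 ≤ n) {x y : ℕ → V}
    (hx : x ∈ paths st m) (hy : y ∈ paths st n) :
    comb m r (g z) x y ∈ paths st (m + r + n) := by
  rw [mem_paths_iff] at hx hy ⊢
  obtain ⟨hx0, hx1, hx2⟩ := hx
  obtain ⟨hy0, hy1, hy2⟩ := hy
  refine ⟨?_, ?_, ?_⟩
  · unfold comb
    rw [if_pos (by omega), hx0]
  · intro i hi
    rcases Nat.lt_or_ge (i + 1) m with h1 | h1
    · obtain ⟨a, ha⟩ := hx1 i h1
      refine ⟨a, ?_⟩
      unfold comb
      rw [if_pos h1, if_pos (by omega), ha]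
    · rcases Nat.lt_or_ge i m with h2 | h2
      · -- i = m - 1
        have him : i = m - 1 := by omega
        obtain ⟨a, ha⟩ := hg.step z hz 0 (Nat.zero_le _)
        simp only [hg.zero, zero_add] at ha
        refine ⟨a, ?_⟩
        unfold comb
        rw [if_neg (by omega), if_pos (by omega), if_pos h2]
        have : i + 1 - m + 1 = 1 := by omega
        rw [this, ha, him]
      · rcases Nat.lt_or_ge i (m + r) with h3 | h3
        · obtain ⟨a, ha⟩ := hg.step z hz (i - m + 1) (by omega)
          refine ⟨a, ?_⟩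
          rcases Nat.lt_or_ge (i + 1) (m + r) with h4 | h4
          · unfold comb
            rw [if_neg (by omega), if_pos h4, if_neg (by omega), if_pos h3]
            have : i + 1 - m + 1 = i - m + 1 + 1 := by omega
            rw [this, ha, add_assoc]
          · unfold comb
            rw [if_neg (by omega), if_neg (by omega), if_neg (by omega), if_pos h3]
            have h5 : i + 1 - (m + r) = 0 := by omega
            have h6 : i - m + 1 = r := by omega
            rw [h6] at ha
            rw [h5, h6, hy0, add_zero, ha, add_assoc]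
        · obtain ⟨a, ha⟩ := hy1 (i - (m + r)) (by omega)
          refine ⟨a, ?_⟩
          unfold comb
          rw [if_neg (by omega), if_neg (by omega), if_neg (by omega), if_neg (by omega)]
          have : i + 1 - (m + r) = i - (m + r) + 1 := by omega
          rw [this, ha, ← add_assoc]
  · intro i hi
    unfold comb
    rw [if_neg (by omega), if_neg (by omega), if_neg (by omega), if_neg (by omega)]
    have : i + 1 - (m + r) = i - (m + r) + 1 := by omega
    rw [this, hy2 (i - (m + r)) (by omega)]

theorem comb_inj {m r n : ℕ} {g g' : ℕ → V} {x y x' y' : ℕ → V}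
    (hx : x ∈ paths st m) (hy : y ∈ paths st n) (hx' : x' ∈ paths st m) (hy' : y' ∈ paths st n)
    (h : comb m r g x y = comb m r g' x' y') : x = x' ∧ y = y' := by
  rw [mem_paths_iff] at hx hy hx' hy'
  have h1 : ∀ i, i < m → x i = x' i := by
    intro i hi
    have := congrFun h i
    unfold comb at this
    rwa [if_pos hi, if_pos hi] at this
  have hxx : x = x' := by
    ext i
    induction i with
    | zero => rw [hx.1, hx'.1]
    | succ i ih =>
      by_cases hi : i + 1 < m
      · exact h1 _ hi
      · rw [hx.2.2 i (by omega), hx'.2.2 i (by omega), ih]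
  refine ⟨hxx, ?_⟩
  have h2 : ∀ i, x (m - 1) + g (r + 1) + y i = x' (m - 1) + g' (r + 1) + y' i := by
    intro i
    have := congrFun h (i + (m + r))
    unfold comb at this
    rw [if_neg (by omega), if_neg (by omega), if_neg (by omega), if_neg (by omega)] at this
    simpa using this
  have h3 := h2 0
  rw [hy.1, hy'.1, add_zero, add_zero] at h3
  ext i
  have h4 := h2 i
  rw [h3] at h4
  exact add_left_cancel h4

/-- Pigeonhole: some gap path gives few intersections. -/
theorem exists_gap {r m n : ℕ} {Zs : Finset ι} {g : ι → ℕ → V} (hg : GapFam st r Zs g)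
    (hne : Zs.Nonempty) (x y : ℕ → V) : ∃ z ∈ Zs,
    (((range m ×ˢ range n).filter (fun p => x p.1 = x (m - 1) + g z (r + 1) + y p.2)).card : ℝ) ≤
      m * n / Zs.card := by
  classical
  have hsum : ∑ z ∈ Zs, ((range m ×ˢ range n).filter
      (fun p => x p.1 = x (m - 1) + g z (r + 1) + y p.2)).card ≤ m * n := by
    simp_rw [Finset.card_filter]
    rw [Finset.sum_comm]
    calc ∑ p ∈ range m ×ˢ range n, ∑ z ∈ Zs,
          (if x p.1 = x (m - 1) + g z (r + 1) + y p.2 then 1 else 0)
        ≤ ∑ _p ∈ range m ×ˢ range n, 1 := by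
          apply Finset.sum_le_sum
          intro p _
          rw [← Finset.card_filter, Finset.card_le_one]
          intro z hz z' hz'
          rw [Finset.mem_filter] at hz hz'
          apply hg.inj hz.1 hz'.1
          have h1 := hz.2.symm.trans hz'.2
          exact add_left_cancel (add_right_cancel h1)
      _ = m * n := by simp
  by_contra hcon
  push Not at hcon
  have hcard : (0 : ℝ) < Zs.card := by exact_mod_cast hne.card_pos
  have h1 : ∑ _z ∈ Zs, ((m : ℝ) * n / Zs.card) < ∑ z ∈ Zs,
      (((range m ×ˢ range n).filter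
        (fun p => x p.1 = x (m - 1) + g z (r + 1) + y p.2)).card : ℝ) :=
    Finset.sum_lt_sum_of_nonempty hne hcon
  rw [Finset.sum_const, nsmul_eq_mul, mul_div_cancel₀ _ hcard.ne'] at h1
  have h2 : (∑ z ∈ Zs, (((range m ×ˢ range n).filter
        (fun p => x p.1 = x (m - 1) + g z (r + 1) + y p.2)).card : ℝ)) ≤ m * n := by
    exact_mod_cast hsum
  linarith

theorem En_comb {r m n : ℕ} {Zs : Finset ι} {g : ι → ℕ → V} (hg : GapFam st r Zs g)
    {z : ι} (hz : z ∈ Zs) {x y : ℕ → V} {ω : ℕ → ℝ} (hω : ∀ i, |ω i| ≤ 1) :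
    En (range (m + r + n)) ω (comb m r (g z) x y) ≤
      En (range m) ω x + En (range n) (fun i => ω (i + (m + r))) y + 2 * r +
      2 * √(En (range m) ω x * (2 * r)) +
      2 * √(En (range n) (fun i => ω (i + (m + r))) y * (2 * r)) +
      2 * ((range m ×ˢ range n).filter
        (fun p => x p.1 = x (m - 1) + g z (r + 1) + y p.2)).card := by
  classical
  set w := comb m r (g z) x y with hw
  set J1 := range m
  set J2 := Ico m (m + r)
  set J3 := Ico (m + r) (m + r + n)
  have hsplit : range (m + r + n) = (J1 ∪ J2) ∪ J3 := by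
    ext i; simp only [J1, J2, J3, mem_range, mem_union, mem_Ico]; omega
  have hd12 : Disjoint J1 J2 := by
    rw [Finset.disjoint_left]
    intro i hi hi'
    simp only [J1, J2, mem_range, mem_Ico] at hi hi'
    omega
  have hd123 : Disjoint (J1 ∪ J2) J3 := by
    rw [Finset.disjoint_left]
    intro i hi hi'
    simp only [J1, J2, J3, mem_range, mem_union, mem_Ico] at hi hi'
    omega
  have hE1 : En J1 ω w = En (range m) ω x := by
    apply En_congr (fun _ _ => rfl)
    intro i hi
    simp only [hw, comb]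
    rw [if_pos (mem_range.1 hi)]
  have himg : J3 = (range n).image (fun i => i + (m + r)) := by
    ext i
    simp only [J3, mem_Ico, mem_image, mem_range]
    constructor
    · intro h
      exact ⟨i - (m + r), by omega, by omega⟩
    · rintro ⟨j, hj, rfl⟩
      omega
  have hwshift : ∀ i, w (i + (m + r)) = x (m - 1) + g z (r + 1) + y i := by
    intro i
    simp only [hw, comb]
    rw [if_neg (by omega), if_neg (by omega)]
    simp
  have hE3 : En J3 ω w = En (range n) (fun i => ω (i + (m + r))) y := by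
    rw [himg, En_image (fun a _ b _ h => by simpa using h)]
    simp_rw [hwshift]
    exact En_comp (range n) _ y (φ := fun v => x (m - 1) + g z (r + 1) + v)
      (fun a b h => add_left_cancel h)
  have hE2 : En J2 ω w ≤ 2 * r := by
    have := En_le_mult (J := J2) hω (x := w) (D := 2) (by
      intro v
      have hle := hg.mult z hz (v - x (m - 1))
      refine le_trans ?_ hle
      apply Finset.card_le_card_of_injOn (fun i => i - m + 1)
      · intro i hi
        simp only [J2, Finset.coe_filter, mem_Ico, Set.mem_ofPred_eq] at hi ⊢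
        refine ⟨by omega, ?_⟩
        have h1 := hi.2
        simp only [hw, comb] at h1
        rw [if_neg (by omega), if_pos (by omega)] at h1
        rw [← h1, add_sub_cancel_left]
      · intro i hi j hj h
        simp only [J2, Finset.coe_filter, mem_Ico, Set.mem_ofPred_eq] at hi hj
        dsimp only at h
        omega)
    simpa [J2] using this
  have hC12 : Cr J1 J2 ω w ≤ √(En (range m) ω x * (2 * r)) := by
    refine ((le_abs_self _).trans (Cr_le_sqrt J1 J2 ω w)).trans ?_
    rw [hE1]
    exact Real.sqrt_le_sqrt (mul_le_mul_of_nonneg_left hE2 (En_nonneg _ _ _))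
  have hC23 : Cr J2 J3 ω w ≤ √(En (range n) (fun i => ω (i + (m + r))) y * (2 * r)) := by
    refine ((le_abs_self _).trans (Cr_le_sqrt J2 J3 ω w)).trans ?_
    rw [hE3, mul_comm]
    exact Real.sqrt_le_sqrt (mul_le_mul_of_nonneg_left hE2 (En_nonneg _ _ _))
  have hC13 : Cr J1 J3 ω w ≤ ((range m ×ˢ range n).filter
        (fun p => x p.1 = x (m - 1) + g z (r + 1) + y p.2)).card := by
    refine ((le_abs_self _).trans (Cr_abs_le_card hω w)).trans ?_
    norm_cast
    apply Finset.card_le_card_of_injOn (fun p => (p.1, p.2 - (m + r)))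
    · rintro ⟨i, j⟩ hp
      simp only [J1, J3, Finset.coe_filter, mem_product, mem_range, mem_Ico,
        Set.mem_ofPred_eq] at hp ⊢
      refine ⟨⟨hp.1.1, by omega⟩, ?_⟩
      have h1 := hp.2
      have h2 := hwshift (j - (m + r))
      have h3 : j - (m + r) + (m + r) = j := by omega
      rw [h3] at h2
      rw [h2] at h1
      rw [← h1]
      simp only [hw, comb]
      rw [if_pos hp.1.1]
    · rintro ⟨i, j⟩ hp ⟨i', j'⟩ hp' h
      simp only [J1, J3, Finset.coe_filter, mem_product, mem_range, mem_Ico,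
        Set.mem_ofPred_eq] at hp hp'
      simp only [Prod.mk.injEq] at h ⊢
      omega
  rw [hsplit, En_union hd123, En_union hd12, Cr_union_left hd12, hE1, hE3]
  linarith

variable [Nonempty σ]

theorem Zf_two_block (hst : Injective st) (e : σ) (hv : Injective (fun k : ℕ => k • st e))
    {b : ℝ} (hb : 0 ≤ b) {m r n : ℕ} (hm : 1 ≤ m) (hr : 1 ≤ r) (hn : 1 ≤ n)
    {Zs : Finset ι} {g : ι → ℕ → V} (hg : GapFam st r Zs g) (hne : Zs.Nonempty)
    {ω : ℕ → ℝ} (hω : ∀ i, |ω i| ≤ 1) {T : ℝ} :
    ((Fintype.card σ : ℝ) ^ (r + 1))⁻¹ *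
      Real.exp (-(2 * b * r + 4 * √(T * (2 * b * r)) + 2 * b * (m * n / Zs.card))) *
      (Zt st b m ω T * Zt st b n (fun i => ω (i + (m + r))) T) ≤ Zf st b (m + r + n) ω := by
  classical
  set E := 2 * b * r + 4 * √(T * (2 * b * r)) + 2 * b * (m * n / Zs.card) with hE
  have hc : ∀ k : ℕ, (0 : ℝ) < (Fintype.card σ : ℝ) ^ k := fun k => pow_pos card_pos' _
  choose z hzmem hz using fun (x y : ℕ → V) => exists_gap (m := m) (n := n) hg hne x y
  set P1 := (paths st m).filter (fun x => b * En (range m) ω x ≤ T) with hP1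
  set P2 := (paths st n).filter (fun x => b * En (range n) (fun i => ω (i + (m + r))) x ≤ T)
    with hP2
  have hmain : Real.exp (-E) * ((∑ x ∈ P1, Real.exp (-(b * En (range m) ω x))) *
      (∑ y ∈ P2, Real.exp (-(b * En (range n) (fun i => ω (i + (m + r))) y)))) ≤
      ∑ x ∈ paths st (m + r + n), Real.exp (-(b * En (range (m + r + n)) ω x)) := by
    rw [Finset.sum_mul_sum, ← Finset.sum_product', Finset.mul_sum]
    apply sum_le_sum_of_inj (φ := fun p : (ℕ → V) × (ℕ → V) =>
      comb m r (g (z p.1 p.2)) p.1 p.2)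
    · rintro ⟨x, y⟩ hp
      rw [Finset.mem_product] at hp
      exact comb_mem hg (hzmem x y) hm hr hn (Finset.mem_filter.1 hp.1).1
        (Finset.mem_filter.1 hp.2).1
    · rintro ⟨x, y⟩ hp ⟨x', y'⟩ hp' h
      rw [Finset.mem_coe, Finset.mem_product] at hp hp'
      have := comb_inj (st := st) (n := n) (Finset.mem_filter.1 hp.1).1
        (Finset.mem_filter.1 hp.2).1
        (Finset.mem_filter.1 hp'.1).1 (Finset.mem_filter.1 hp'.2).1 h
      exact Prod.ext this.1 this.2
    · intro x _
      exact Real.exp_nonneg _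
    · rintro ⟨x, y⟩ hp
      rw [Finset.mem_product] at hp
      have hxT := (Finset.mem_filter.1 hp.1).2
      have hyT := (Finset.mem_filter.1 hp.2).2
      dsimp only at hxT hyT ⊢
      rw [← Real.exp_add, ← Real.exp_add]
      apply Real.exp_le_exp.2
      have h1 := mul_le_mul_of_nonneg_left (En_comb (m := m) (n := n) hg (hzmem x y) (x := x)
        (y := y) hω) hb
      have h2 : ∀ A : ℝ, 0 ≤ A → b * A ≤ T → b * √(A * (2 * r)) ≤ √(T * (2 * b * r)) := by
        intro A hA hAT
        apply Real.le_sqrt_of_sq_le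
        rw [mul_pow, Real.sq_sqrt (by positivity)]
        calc b ^ 2 * (A * (2 * r)) = (b * A) * (2 * b * r) := by ring
          _ ≤ T * (2 * b * r) := mul_le_mul_of_nonneg_right hAT (by positivity)
      have h3 := h2 _ (En_nonneg (range m) ω x) hxT
      have h4 := h2 _ (En_nonneg (range n) (fun i => ω (i + (m + r))) y) hyT
      have h5 := mul_le_mul_of_nonneg_left (hz x y) (by positivity : (0 : ℝ) ≤ 2 * b)
      linarith
  unfold Zt Zf
  have hexp : m + r + n - 1 = (m - 1) + (n - 1) + (r + 1) := by omega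
  rw [hexp, pow_add _ (m - 1 + (n - 1)) (r + 1), pow_add _ (m - 1) (n - 1), mul_inv, mul_inv]
  calc _ = ((((Fintype.card σ : ℝ) ^ (m - 1))⁻¹ * ((Fintype.card σ : ℝ) ^ (n - 1))⁻¹) *
        ((Fintype.card σ : ℝ) ^ (r + 1))⁻¹) *
        (Real.exp (-E) * ((∑ x ∈ P1, Real.exp (-(b * En (range m) ω x))) *
      (∑ y ∈ P2, Real.exp (-(b * En (range n) (fun i => ω (i + (m + r))) y))))) := by ring
    _ ≤ _ := mul_le_mul_of_nonneg_left hmain
        (mul_nonneg (mul_nonneg (inv_nonneg.2 (hc _).le) (inv_nonneg.2 (hc _).le))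
          (inv_nonneg.2 (hc _).le))

/-- The near-superadditivity inequality. -/
theorem log_Zf_two_block (hst : Injective st) (e : σ) (hv : Injective (fun k : ℕ => k • st e))
    {b : ℝ} (hb : 0 ≤ b) {m r n : ℕ} (hm : 1 ≤ m) (hr : 1 ≤ r) (hn : 1 ≤ n)
    {Zs : Finset ι} {g : ι → ℕ → V} (hg : GapFam st r Zs g)
    (hcard : (r : ℝ) ^ 2 / 8 ≤ Zs.card)
    {ω : ℕ → ℝ} (hω : ∀ i, |ω i| ≤ 1) {L K : ℝ}
    (hL : L = Real.log (Fintype.card σ)) (hK : K = 1 + L + b) :
    Real.log (Zf st b m ω) + Real.log (Zf st b n (fun i => ω (i + (m + r)))) -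
      (2 * L + 2 + 18 * b + 4 * √(2 * K * b)) *
        (r + √(r * (m + n)) + m * n / (r : ℝ) ^ 2) ≤
      Real.log (Zf st b (m + r + n) ω) := by
  have hr1 : (1 : ℝ) ≤ r := by exact_mod_cast hr
  have hm1 : (1 : ℝ) ≤ m := by exact_mod_cast hm
  have hn1 : (1 : ℝ) ≤ n := by exact_mod_cast hn
  have hZs : (0 : ℝ) < Zs.card := lt_of_lt_of_le (by positivity) hcard
  have hne : Zs.Nonempty := by
    rw [← Finset.card_pos]
    exact_mod_cast hZs
  have hL0 : 0 ≤ L := by
    rw [hL]
    apply Real.log_nonneg
    exact_mod_cast Fintype.card_pos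
  have hK1 : 1 ≤ K := by rw [hK]; linarith
  set ω' : ℕ → ℝ := fun i => ω (i + (m + r)) with hω'
  have hω'1 : ∀ i, |ω' i| ≤ 1 := fun i => hω _
  set T : ℝ := K * (m + n) with hT
  have hlog2 : Real.log 2 ≤ 1 := by
    have := Real.log_two_lt_d9
    linarith
  have h1 := Zf_two_block hst e hv hb hm hr hn hg hne hω (T := T)
  have h2 := half_Zf_le_Zt st hst e hv hb (N := m) hω (T := T) (by
    rw [hT, hK, ← hL]
    nlinarith)
  have h3 := half_Zf_le_Zt st hst e hv hb (N := n) hω'1 (T := T) (by
    rw [hT, hK, ← hL]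
    nlinarith)
  have hc : (0 : ℝ) < (Fintype.card σ : ℝ) ^ (r + 1) := pow_pos card_pos' _
  have hZm := Zf_pos st b m ω
  have hZn := Zf_pos st b n ω'
  have h4 : ((Fintype.card σ : ℝ) ^ (r + 1))⁻¹ *
      Real.exp (-(2 * b * r + 4 * √(T * (2 * b * r)) + 2 * b * (m * n / Zs.card))) *
      ((Zf st b m ω / 2) * (Zf st b n ω' / 2)) ≤ Zf st b (m + r + n) ω := by
    refine le_trans (mul_le_mul_of_nonneg_left ?_
      (mul_nonneg (inv_nonneg.2 hc.le) (Real.exp_nonneg _))) h1
    exact mul_le_mul h2 h3 (by positivity) (le_trans (by positivity) h2)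
  have h5 := Real.log_le_log (by positivity) h4
  rw [Real.log_mul (by positivity) (by positivity), Real.log_mul (by positivity) (by positivity),
    Real.log_inv, Real.log_pow, Real.log_exp, Real.log_mul (by positivity) (by positivity),
    Real.log_div hZm.ne' (by norm_num), Real.log_div hZn.ne' (by norm_num), ← hL] at h5
  have h6 : √(T * (2 * b * r)) = √(2 * K * b) * √(r * (m + n)) := by
    rw [← Real.sqrt_mul (by positivity), hT]
    congr 1
    ring
  rw [h6] at h5
  have h7 : (m : ℝ) * n / Zs.card ≤ 8 * (m * n / (r : ℝ) ^ 2) := by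
    rw [← mul_div_assoc, div_le_div_iff₀ hZs (by positivity)]
    have h8 : (r : ℝ) ^ 2 ≤ 8 * Zs.card := by linarith
    have h9 : (0 : ℝ) ≤ (m : ℝ) * n := by positivity
    nlinarith [mul_le_mul_of_nonneg_left h8 h9]
  have h8 : 2 * b * (m * n / Zs.card) ≤ 16 * b * (m * n / (r : ℝ) ^ 2) := by
    have := mul_le_mul_of_nonneg_left h7 (by positivity : (0 : ℝ) ≤ 2 * b)
    linarith
  set X : ℝ := √((r : ℝ) * (m + n)) with hX
  set Y : ℝ := (m : ℝ) * n / (r : ℝ) ^ 2 with hY
  set S : ℝ := √(2 * K * b) with hS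
  have hX0 : 0 ≤ X := Real.sqrt_nonneg _
  have hY0 : 0 ≤ Y := by positivity
  have hS0 : 0 ≤ S := Real.sqrt_nonneg _
  push_cast at h5
  have h9 : 0 ≤ S * r := by positivity
  have h10 : 0 ≤ S * Y := by positivity
  have h11 : 0 ≤ (2 * L + 2 + 18 * b) * X := by positivity
  have h12 : 0 ≤ (2 * L + 2) * Y := by positivity
  have h13 : 0 ≤ b * Y := by positivity
  have h14 : 0 ≤ b * r := by positivity
  have h15 : 0 ≤ L * (r - 1) := mul_nonneg hL0 (by linarith)
  nlinarith

end Pool.Agent.Lib.MP_5acba2_pr
end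

section
/-!
The family of gap paths in dimension at least two.
-/
set_option autoImplicit false
set_option linter.unusedSectionVars false

namespace Pool.Agent.Lib.MP_5acba2_pr

open Finset Function

theorem unitStep_injective {d : ℕ} : Injective (unitStep (d := d)) := by
  rintro ⟨i, a⟩ ⟨j, b⟩ h
  unfold unitStep at h
  dsimp only at h
  have hij : i = j := by
    by_contra hne
    have := congrFun h i
    rw [Pi.single_eq_same, Pi.single_eq_of_ne hne] at this
    cases a <;> simp at this
  subst hij
  have := congrFun h i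
  rw [Pi.single_eq_same, Pi.single_eq_same] at this
  cases a <;> cases b <;> simp_all

theorem smul_unitStep_injective {d : ℕ} (a : Fin d × Bool) :
    Injective (fun k : ℕ => k • unitStep a) := by
  intro k l h
  have := congrFun h a.1
  simp only [Pi.smul_apply, unitStep, Pi.single_eq_same, nsmul_eq_mul] at this
  cases h2 : a.2
  · simp only [h2, Bool.false_eq_true, if_false, mul_neg, mul_one, neg_inj, Nat.cast_inj] at this
    exact this
  · simp only [h2, if_true, mul_one, Nat.cast_inj] at this
    exact this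

variable {d : ℕ}

/-- The tent function. -/
def tent (u s : ℕ) : ℤ := min (s : ℤ) (2 * u - s)

/-- Gap paths: `a` steps to the right, then up and down again. -/
def gapPath (i0 i1 : Fin d) (r : ℕ) (z : ℕ × ℕ) (t : ℕ) : Fin d → ℤ := fun i =>
  if i = i0 then ((min t z.1 : ℕ) : ℤ) else
    if i = i1 then tent (r + 1 - z.1 - z.2) (t - z.1) else 0

theorem gapFam (i0 i1 : Fin d) (h01 : i0 ≠ i1) (r : ℕ) :
    GapFam (unitStep (d := d)) r (range (r / 2 + 1) ×ˢ range (r / 4 + 1))
      (gapPath i0 i1 r) := by
  refine ⟨?_, ?_, ?_, ?_⟩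
  · intro z
    ext i
    simp [gapPath, tent]
  · rintro ⟨a, v⟩ hz t ht
    rw [mem_product, mem_range, mem_range] at hz
    dsimp only at hz
    rcases Nat.lt_or_ge t a with h | h
    · refine ⟨(i0, true), ?_⟩
      ext i
      simp only [gapPath, unitStep, Pi.add_apply]
      by_cases hi : i = i0
      · subst hi
        simp only [if_true, Pi.single_eq_same]
        have h1 : min (t + 1) a = t + 1 := by omega
        have h2 : min t a = t := by omega
        rw [h1, h2]
        push_cast
        ring
      · rw [if_neg hi, if_neg hi, Pi.single_eq_of_ne hi]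
        have h1 : t + 1 - a = 0 := by omega
        have h2 : t - a = 0 := by omega
        rw [h1, h2, add_zero]
    · have hu : ∀ i : Fin d, i = i0 → min (t + 1) a = min t a := by intro i _; omega
      rcases Nat.lt_or_ge (t - a) (r + 1 - a - v) with h3 | h3
      · refine ⟨(i1, true), ?_⟩
        ext i
        simp only [gapPath, unitStep, Pi.add_apply]
        by_cases hi : i = i0
        · subst hi
          rw [if_pos rfl, if_pos rfl, Pi.single_eq_of_ne h01, hu i rfl, add_zero]
        · rw [if_neg hi, if_neg hi]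
          by_cases hi1 : i = i1
          · subst hi1
            rw [if_pos rfl, if_pos rfl, Pi.single_eq_same]
            simp only [tent, if_true]
            omega
          · rw [if_neg hi1, if_neg hi1, Pi.single_eq_of_ne hi1, add_zero]
      · refine ⟨(i1, false), ?_⟩
        ext i
        simp only [gapPath, unitStep, Pi.add_apply]
        by_cases hi : i = i0
        · subst hi
          rw [if_pos rfl, if_pos rfl, Pi.single_eq_of_ne h01, hu i rfl, add_zero]
        · rw [if_neg hi, if_neg hi]
          by_cases hi1 : i = i1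
          · subst hi1
            rw [if_pos rfl, if_pos rfl, Pi.single_eq_same]
            simp only [tent, Bool.false_eq_true, if_false]
            omega
          · rw [if_neg hi1, if_neg hi1, Pi.single_eq_of_ne hi1, add_zero]
  · rintro ⟨a, v⟩ hz ⟨a', v'⟩ hz' h
    rw [Finset.mem_coe, mem_product, mem_range, mem_range] at hz hz'
    dsimp only at hz hz' h
    have h0 := congrFun h i0
    have h1 := congrFun h i1
    simp only [gapPath, if_true] at h0
    simp only [gapPath, if_neg h01.symm, if_true, tent] at h1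
    simp only [Prod.mk.injEq]
    have ha : min (r + 1) a = min (r + 1) a' := by exact_mod_cast h0
    omega
  · rintro ⟨a, v⟩ hz w
    rw [mem_product, mem_range, mem_range] at hz
    dsimp only at hz
    set u := r + 1 - a - v with hu
    have hsub : (Ico 1 (r + 1)).filter (fun t => gapPath i0 i1 r (a, v) t = w) ⊆
        {(w i1).toNat + (w i0).toNat, (2 * (u : ℤ) - w i1).toNat + (w i0).toNat} := by
      intro t ht
      rw [mem_filter, mem_Ico] at ht
      have h0 := congrFun ht.2 i0
      have h1 := congrFun ht.2 i1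
      simp only [gapPath, if_true] at h0
      simp only [gapPath, if_neg h01.symm, if_true, tent, ← hu] at h1
      rw [mem_insert, mem_singleton, ← h0, ← h1]
      omega
    exact (Finset.card_le_card hsub).trans Finset.card_le_two

theorem card_gapFam (r : ℕ) :
    (r : ℝ) ^ 2 / 8 ≤ ((range (r / 2 + 1) ×ˢ range (r / 4 + 1)).card : ℝ) := by
  rw [card_product, card_range, card_range]
  have h1 : r ≤ 2 * (r / 2 + 1) := by omega
  have h2 : r ≤ 4 * (r / 4 + 1) := by omega
  have h1' : (r : ℝ) ≤ 2 * ((r / 2 + 1 : ℕ) : ℝ) := by exact_mod_cast h1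
  have h2' : (r : ℝ) ≤ 4 * ((r / 4 + 1 : ℕ) : ℝ) := by exact_mod_cast h2
  have h0 : (0 : ℝ) ≤ r := Nat.cast_nonneg _
  have h3 := mul_le_mul h1' h2' h0 (by positivity)
  push_cast at h3 ⊢
  nlinarith

end Pool.Agent.Lib.MP_5acba2_pr
end

section
/-!
Near superadditivity of the free energy in dimension at least two.
-/
set_option autoImplicit false
set_option linter.unusedSectionVars false

namespace Pool.Agent.Lib.MP_5acba2_pr

open Finset Function MeasureTheory

section general

variable {V σ : Type*} [AddCommGroup V] [DecidableEq V] [Fintype σ] (st : σ → V)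

theorem Zf_congr {b : ℝ} {N : ℕ} {ω ω' : ℕ → ℝ} (h : ∀ i < N, ω i = ω' i) :
    Zf st b N ω = Zf st b N ω' := by
  unfold Zf
  congr 1
  apply Finset.sum_congr rfl
  intro x _
  rw [En_congr (fun i hi => h i (mem_range.1 hi)) (fun _ _ => rfl)]

theorem measurable_En {α : Type*} [MeasurableSpace α] {c : α → ℝ} (hc : Measurable c)
    (J : Finset ℕ) (x : ℕ → V) :
    Measurable (fun ω : ℕ → α => En J (fun i => c (ω i)) x) := by
  unfold En Cr
  apply Finset.measurable_sum
  intro i _
  apply Finset.measurable_sum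
  intro j _
  by_cases h : x i = x j
  · simp only [h, if_true]
    exact (hc.comp (measurable_pi_apply i)).mul (hc.comp (measurable_pi_apply j))
  · simp only [h, if_false]
    exact measurable_const

theorem measurable_Zf {α : Type*} [MeasurableSpace α] {c : α → ℝ} (hc : Measurable c)
    (b : ℝ) (N : ℕ) : Measurable (fun ω : ℕ → α => Zf st b N (fun i => c (ω i))) := by
  unfold Zf
  apply Measurable.const_mul
  apply Finset.measurable_sum
  intro x _
  exact Real.measurable_exp.comp ((measurable_En hc _ x).const_mul b).neg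

end general

/-- The free energy of `N` letters. -/
noncomputable def Fr {V σ α : Type*} [AddCommGroup V] [DecidableEq V] [Fintype σ] (st : σ → V)
    (b : ℝ) (c : α → ℝ) (N : ℕ) (ω : ℕ → α) : ℝ := Real.log (Zf st b N (fun i => c (ω i)))

theorem nearSuper_highDim {d : ℕ} (hd : 2 ≤ d) {b : ℝ} (hb : 0 ≤ b) {α : Type*}
    [MeasurableSpace α] {c : α → ℝ} (hc : Measurable c) (hc1 : ∀ a, |c a| ≤ 1) :
    ∃ C, NearSuper (Fr (unitStep (d := d)) b c) C := by
  have : Nonempty (Fin d × Bool) := ⟨(⟨0, by omega⟩, true)⟩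
  set L := Real.log (Fintype.card (Fin d × Bool)) with hL
  set K := 1 + L + b with hK
  have hL0 : 0 ≤ L := by
    rw [hL]
    apply Real.log_nonneg
    exact_mod_cast Fintype.card_pos
  set e : Fin d × Bool := (⟨0, by omega⟩, true) with he
  have hst := unitStep_injective (d := d)
  have hv := smul_unitStep_injective e
  set C := (2 * L + 2 + 18 * b + 4 * √(2 * K * b)) with hC
  have hK0 : 0 ≤ K := by positivity
  have hroot : √(K * b) ≤ √(2 * K * b) := by
    apply Real.sqrt_le_sqrt
    have : 0 ≤ K * b := by positivity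
    linarith
  have hC1 : L + 1 + b + 2 * √(K * b) ≤ C := by
    rw [hC]
    have := Real.sqrt_nonneg (2 * K * b)
    linarith
  have hC0 : 0 ≤ C := by positivity
  refine ⟨C, hC0, ?_, ?_, ?_, ?_, ?_, ?_⟩
  · intro n ω ω' h
    unfold Fr
    rw [Zf_congr unitStep (ω := fun i => c (ω i)) (ω' := fun i => c (ω' i))
      (fun i hi => by rw [h i hi])]
  · intro n
    exact Real.measurable_log.comp (measurable_Zf _ hc b n)
  · intro n ω
    exact Real.log_nonpos (Zf_pos _ b n _).le (Zf_le_one _ hst hb n _)
  · intro n ω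
    have h1 := Zf_ge unitStep e hv hb (fun i => hc1 (ω i)) (N := n)
    have h2 := (Real.le_log_iff_exp_le (Zf_pos _ b n _)).2 h1
    have h3 : (Real.log (Fintype.card (Fin d × Bool)) + b) * n ≤ C * n := by
      apply mul_le_mul_of_nonneg_right _ (Nat.cast_nonneg _)
      rw [← hL, hC]
      have := Real.sqrt_nonneg (2 * K * b)
      linarith
    unfold Fr
    linarith
  · intro m r ω
    have h1 := log_Zf_append unitStep hst e hv hb m r (fun i => hc1 (ω i)) hL hK
    have h2 : (L + 1 + b + 2 * √(K * b)) * ((r : ℝ) + √(r * m)) ≤ C * (r + √(r * m)) :=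
      mul_le_mul_of_nonneg_right hC1 (by positivity)
    unfold Fr
    linarith
  · intro m r n ω hm hr hn
    exact log_Zf_two_block hst e hv hb hm hr hn
      (gapFam (⟨0, by omega⟩ : Fin d) ⟨1, by omega⟩ (by
        intro h
        exact absurd (congrArg Fin.val h) (by norm_num)) r) (card_gapFam r)
      (fun i => hc1 (ω i)) hL hK

end Pool.Agent.Lib.MP_5acba2_pr
end

section
/-!
From the normalised free energy of letters to the partition function of the charged polymer.
-/
set_option autoImplicit false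
set_option linter.unusedSectionVars false

namespace Pool.Agent.Lib.MP_5acba2_pr

open Finset Function MeasureTheory Filter ProbabilityTheory

theorem sum_sum_symm (g : ℕ → ℕ → ℝ) (hg : ∀ i j, g i j = g j i) (N : ℕ) :
    ∑ i ∈ range N, ∑ j ∈ range N, g i j =
      2 * (∑ j ∈ range N, ∑ i ∈ range j, g i j) + ∑ i ∈ range N, g i i := by
  induction N with
  | zero => simp
  | succ N ih =>
    have h1 : ∑ i ∈ range (N + 1), ∑ j ∈ range (N + 1), g i j =
        (∑ i ∈ range N, ∑ j ∈ range N, g i j) + (∑ i ∈ range N, g i N) +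
          (∑ j ∈ range N, g N j) + g N N := by
      rw [Finset.sum_range_succ, Finset.sum_range_succ]
      simp_rw [Finset.sum_range_succ]
      rw [Finset.sum_add_distrib]
      ring
    have h2 : ∑ j ∈ range N, g N j = ∑ i ∈ range N, g i N :=
      Finset.sum_congr rfl fun i _ => hg _ _
    rw [h1, ih, h2, Finset.sum_range_succ, Finset.sum_range_succ]
    ring

theorem walk_eq_pos {d n : ℕ} (s : Fin n → Fin d × Bool) (i : ℕ) :
    walk s i = pos unitStep s i := rfl

theorem En_eq_interaction {d n : ℕ} {ω : ℕ → ℝ} (hω : ∀ i, ω i * ω i = 1)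
    (s : Fin n → Fin d × Bool) :
    En (range (n + 1)) ω (pos unitStep s) = 2 * interaction ω s + (n + 1 : ℕ) := by
  unfold En Cr interaction
  rw [sum_sum_symm (fun i j => if pos unitStep s i = pos unitStep s j then ω i * ω j else 0)]
  · congr 1
    simp [hω]
  · intro i j
    by_cases h : pos unitStep s i = pos unitStep s j
    · rw [if_pos h, if_pos h.symm, mul_comm]
    · rw [if_neg h, if_neg (fun h' => h h'.symm)]

theorem Zf_eq_partitionFunction {d : ℕ} (β : ℝ) {ω : ℕ → ℝ} (hω : ∀ i, ω i * ω i = 1) (n : ℕ) :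
    Zf (unitStep (d := d)) (β / 2) (n + 1) ω =
      Real.exp (-(β / 2 * (n + 1 : ℕ))) * partitionFunction d β ω n := by
  unfold Zf partitionFunction
  rw [sum_paths unitStep unitStep_injective]
  have h1 : (Fintype.card (Fin d × Bool) : ℝ) = ((2 * d : ℕ) : ℝ) := by
    rw [Fintype.card_prod, Fintype.card_fin, Fintype.card_bool, mul_comm]
  rw [h1, mul_left_comm]
  congr 1
  rw [Finset.mul_sum]
  apply Finset.sum_congr rfl
  intro s _
  have h2 := En_eq_interaction (n := n) hω s
  have h3 : En (range (n + 1)) ω (pos unitStep (k := n + 1 - 1) s) =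
      2 * interaction ω s + (n + 1 : ℕ) := h2
  rw [h3, ← Real.exp_add]
  congr 1
  ring

/-- The charge law on `Bool`. -/
noncomputable def coin (p : ℝ) : Measure Bool :=
  ENNReal.ofReal p • Measure.dirac true + ENNReal.ofReal (1 - p) • Measure.dirac false

theorem isProb_coin {p : ℝ} (h0 : 0 ≤ p) (h1 : p ≤ 1) : IsProbabilityMeasure (coin p) := by
  refine ⟨?_⟩
  unfold coin
  simp only [Measure.coe_add, Measure.coe_smul, Pi.add_apply, Pi.smul_apply, measure_univ,
    smul_eq_mul, mul_one]
  rw [← ENNReal.ofReal_add h0 (by linarith)]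
  simp

/-- The charge. -/
def chg (a : Bool) : ℝ := if a then 1 else -1

theorem measurable_chg : Measurable chg := measurable_of_countable _

theorem abs_chg (a : Bool) : |chg a| ≤ 1 := by
  cases a <;> simp [chg]

theorem chg_mul_self (a : Bool) : chg a * chg a = 1 := by
  cases a <;> simp [chg]

theorem tendsto_of_Fr {d : ℕ} {β f : ℝ} {ω : ℕ → Bool} (hd : 1 ≤ d)
    (h : Tendsto (fun N : ℕ => Fr (unitStep (d := d)) (β / 2) chg N ω / N) atTop (nhds f)) :
    Tendsto (fun n : ℕ => Real.log (partitionFunction d β (fun i => chg (ω i)) n) / n) atTop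
      (nhds (f + β / 2)) := by
  have : Nonempty (Fin d × Bool) := ⟨(⟨0, by omega⟩, true)⟩
  have h1 : Tendsto (fun n : ℕ => Fr (unitStep (d := d)) (β / 2) chg (n + 1) ω / ((n + 1 : ℕ) : ℝ))
      atTop (nhds f) := (tendsto_add_atTop_iff_nat 1).2 h
  have h2 : Tendsto (fun n : ℕ => (((n + 1 : ℕ) : ℝ)) / n) atTop (nhds 1) := by
    have h3 : Tendsto (fun n : ℕ => 1 + 1 / (n : ℝ)) atTop (nhds (1 + 0)) :=
      tendsto_const_nhds.add (tendsto_const_div_atTop_nhds_zero_nat 1)
    rw [add_zero] at h3
    refine h3.congr' ?_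
    filter_upwards [eventually_ge_atTop 1] with n hn
    have : (n : ℝ) ≠ 0 := by positivity
    push_cast
    field_simp
  have h4 := (h1.mul h2).add (h2.const_mul (β / 2))
  rw [mul_one, mul_one] at h4
  refine h4.congr' ?_
  filter_upwards [eventually_ge_atTop 1] with n hn
  have hn0 : (n : ℝ) ≠ 0 := by positivity
  have hn1 : ((n + 1 : ℕ) : ℝ) ≠ 0 := by positivity
  have hZ := Zf_eq_partitionFunction (d := d) β (fun i => chg_mul_self (ω i)) n
  have hZpos := Zf_pos (unitStep (d := d)) (β / 2) (n + 1) (fun i => chg (ω i))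
  have hPpos : 0 < partitionFunction d β (fun i => chg (ω i)) n := by
    rw [hZ] at hZpos
    exact (mul_pos_iff_of_pos_left (Real.exp_pos _)).1 hZpos
  have h5 : Fr (unitStep (d := d)) (β / 2) chg (n + 1) ω =
      -(β / 2 * (n + 1 : ℕ)) + Real.log (partitionFunction d β (fun i => chg (ω i)) n) := by
    unfold Fr
    rw [hZ, Real.log_mul (Real.exp_pos _).ne' hPpos.ne', Real.log_exp]
  rw [h5]
  field_simp
  ring

theorem map_eq_coin {p : ℝ} (hp0 : 0 < p) {Ω : Type*} [MeasurableSpace Ω]
    {P : Measure Ω} [IsProbabilityMeasure P] {X : Ω → ℝ} (hX : Measurable X)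
    (h1 : P {ω | X ω = 1} = ENNReal.ofReal p) :
    P.map (fun ω => decide (X ω = 1)) = coin p := by
  classical
  have hS : MeasurableSet {ω | X ω = 1} := hX (measurableSet_singleton 1)
  have hm : Measurable (fun ω => decide (X ω = 1)) := by
    apply measurable_to_bool
    have : (fun ω => decide (X ω = 1)) ⁻¹' {true} = {ω | X ω = 1} := by
      ext ω; simp
    rw [this]
    exact hS
  apply Measure.ext_of_singleton
  intro a
  rw [Measure.map_apply hm (measurableSet_singleton a)]
  cases a
  · have : (fun ω => decide (X ω = 1)) ⁻¹' {false} = {ω | X ω = 1}ᶜ := by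
      ext ω; simp
    rw [this, prob_compl_eq_one_sub hS, h1]
    unfold coin
    simp only [Measure.coe_add, Measure.coe_smul, Pi.add_apply, Pi.smul_apply, smul_eq_mul,
      Measure.dirac_apply, Set.indicator]
    simp
    rw [ENNReal.ofReal_sub _ hp0.le]
    simp
  · have : (fun ω => decide (X ω = 1)) ⁻¹' {true} = {ω | X ω = 1} := by
      ext ω; simp
    rw [this, h1]
    unfold coin
    simp only [Measure.coe_add, Measure.coe_smul, Pi.add_apply, Pi.smul_apply, smul_eq_mul,
      Measure.dirac_apply, Set.indicator]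
    simp

/-- Transfer of the almost sure limit to a general family of iid charges. -/
theorem transfer {d : ℕ} (hd : 1 ≤ d) {β p : ℝ} (hp0 : 0 < p) (hp1 : p < 1) {f : ℝ}
    (h : ∀ᵐ ω ∂(Measure.infinitePi (fun _ : ℕ => coin p)),
      Tendsto (fun N : ℕ => Fr (unitStep (d := d)) (β / 2) chg N ω / N) atTop (nhds f))
    {Ω : Type*} [MeasurableSpace Ω]
    {P : Measure Ω} [IsProbabilityMeasure P] {X : ℕ → Ω → ℝ} (hX : ∀ i, Measurable (X i))
    (hind : iIndepFun X P) (h1 : ∀ i, P {ω | X i ω = 1} = ENNReal.ofReal p)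
    (h2 : ∀ i, P {ω | X i ω = -1} = ENNReal.ofReal (1 - p)) :
    ∀ᵐ ω ∂P, Tendsto (fun n : ℕ => Real.log (partitionFunction d β (fun i => X i ω) n) / n) atTop
      (nhds (f + β / 2)) := by
  classical
  have hcoin := isProb_coin hp0.le hp1.le
  set Y : ℕ → Ω → Bool := fun i ω => decide (X i ω = 1) with hY
  have hφ : Measurable (fun x : ℝ => decide (x = 1)) := by
    apply measurable_to_bool
    have : (fun x : ℝ => decide (x = 1)) ⁻¹' {true} = {1} := by
      ext x; simp
    rw [this]
    exact measurableSet_singleton 1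
  have hYm : ∀ i, Measurable (Y i) := fun i => hφ.comp (hX i)
  have hYind : iIndepFun Y P := hind.comp (fun _ x => decide (x = 1)) (fun _ => hφ)
  have hlaw : P.map (fun ω i => Y i ω) = Measure.infinitePi (fun _ : ℕ => coin p) := by
    rw [(iIndepFun_iff_map_fun_eq_infinitePi_map hYm).1 hYind]
    congr 1
    ext1 i
    exact map_eq_coin hp0 (hX i) (h1 i)
  have hXY : ∀ᵐ ω ∂P, ∀ i, X i ω = chg (Y i ω) := by
    rw [ae_all_iff]
    intro i
    have hS1 : MeasurableSet {ω | X i ω = 1} := (hX i) (measurableSet_singleton 1)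
    have hS2 : MeasurableSet {ω | X i ω = -1} := (hX i) (measurableSet_singleton (-1))
    have hU : P ({ω | X i ω = 1} ∪ {ω | X i ω = -1}) = 1 := by
      rw [measure_union _ hS2, h1, h2, ← ENNReal.ofReal_add hp0.le (by linarith)]
      · simp
      · rw [Set.disjoint_left]
        intro ω ha hb
        have ha' : X i ω = 1 := ha
        have hb' : X i ω = -1 := hb
        rw [ha'] at hb'
        norm_num at hb'
    have hU' : ∀ᵐ ω ∂P, ω ∈ ({ω | X i ω = 1} ∪ {ω | X i ω = -1}) :=
      (mem_ae_iff_prob_eq_one (hS1.union hS2)).2 hU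
    filter_upwards [hU'] with ω hω
    rcases hω with h | h
    · have h' : X i ω = 1 := h
      simp [hY, chg, h']
    · have h' : X i ω = -1 := h
      simp only [hY, chg, h']
      norm_num
  have hYm' : Measurable (fun ω i => Y i ω) := measurable_pi_iff.2 hYm
  rw [← hlaw] at h
  have h3 := ae_of_ae_map hYm'.aemeasurable h
  filter_upwards [h3, hXY] with ω hω1 hω2
  have h4 := tendsto_of_Fr hd hω1
  have h5 : (fun i => X i ω) = fun i => chg (Y i ω) := funext hω2
  rw [h5]
  exact h4

end Pool.Agent.Lib.MP_5acba2_pr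
end

section
/-!
The almost sure limit in dimension at least two.
-/
set_option autoImplicit false
set_option linter.unusedSectionVars false

namespace Pool.Agent.Lib.MP_5acba2_pr

open Finset Function MeasureTheory Filter ProbabilityTheory

theorem ae_tendsto_of_nearSuper {α : Type*} [MeasurableSpace α] (ν : Measure α)
    [IsProbabilityMeasure ν] {F : ℕ → (ℕ → α) → ℝ} {C : ℝ} (hF : NearSuper F C) :
    ∃ f : ℝ, ∀ᵐ ω ∂(Measure.infinitePi (fun _ : ℕ => ν)),
      Tendsto (fun n : ℕ => F n ω / n) atTop (nhds f) := by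
  obtain ⟨f, _, _, hf⟩ := tail_all ν hF
  exact ⟨f, ae_tendsto_of_tails hF.nonneg hF.app hf⟩

theorem highDim_limit {d : ℕ} (hd : 2 ≤ d) {b : ℝ} (hb : 0 ≤ b) {p : ℝ} (hp0 : 0 < p)
    (hp1 : p < 1) : ∃ f : ℝ, ∀ᵐ ω ∂(Measure.infinitePi (fun _ : ℕ => coin p)),
      Tendsto (fun N : ℕ => Fr (unitStep (d := d)) b chg N ω / N) atTop (nhds f) := by
  have := isProb_coin hp0.le hp1.le
  obtain ⟨C, hC⟩ := nearSuper_highDim hd hb measurable_chg abs_chg
  exact ae_tendsto_of_nearSuper (coin p) hC

end Pool.Agent.Lib.MP_5acba2_pr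
end
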