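import Mathlib
import Pool.Agent.Lib.MP_5acba2_pr.Chain

section
/-!
A path confined to a box extends to a bridge.
-/
set_option autoImplicit false
set_option linter.unusedSectionVars false

namespace Pool.Agent.Lib.MP_5acba2_pr

open Finset Function

/-- The bridge. -/
def brPath (m H : ℕ) (v : ℕ → ℤ) (_ : Unit) (t : ℕ) : ℤ :=
  if t < H then t else if t < H + m then v (t - H) + H else
    v (m - 1) + ((min t (m + 2 * H - 1) : ℕ) : ℤ) - m + 1

/-- The letters read by the bridge. -/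
def brEmb (m H : ℕ) (x : (_ : Unit) × ℕ) : ℕ :=
  if x.2 < H then m + x.2 else if x.2 < H + m then x.2 - H else x.2

/-- The positions of the letters. -/
def brX (m H : ℕ) (v : ℕ → ℤ) (k : ℕ) : ℤ :=
  if k < m then v k + H else if k < m + H then (k : ℤ) - m else v (m - 1) + k - m + 1

/-- The length. -/
def lenBr (m H : ℕ) (_ : Unit) : ℕ := m + 2 * H

/-- The setting. -/
structure BoxCtx (m H : ℕ) (v : ℕ → ℤ) : Prop where
  hm : 1 ≤ m
  hH : 1 ≤ H
  path : v ∈ paths st1 m
  last : 0 ≤ v (m - 1)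
  ge : ∀ t, -(H : ℤ) ≤ v t
  le : ∀ t, v t ≤ v (m - 1) + H

section char

variable {m H : ℕ} {v : ℕ → ℤ}

theorem bp1 {t : ℕ} (h : t < H) : brPath m H v () t = t := by
  simp only [brPath, h, if_true]

theorem bp2 {t : ℕ} (h1 : H ≤ t) (h2 : t < H + m) : brPath m H v () t = v (t - H) + H := by
  have e1 : ¬ t < H := by omega
  simp only [brPath, e1, h2, if_true, if_false]

theorem bp3 {t : ℕ} (h1 : H + m ≤ t) (h2 : t ≤ m + 2 * H - 1) :
    brPath m H v () t = v (m - 1) + t - m + 1 := by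
  have e1 : ¬ t < H := by omega
  have e2 : ¬ t < H + m := by omega
  simp only [brPath, e1, e2, if_false, min_eq_left h2]

theorem bp4 {t : ℕ} (h0 : 1 ≤ H) (h1 : m + 2 * H - 1 ≤ t) :
    brPath m H v () t = v (m - 1) + 2 * H := by
  have e1 : ¬ t < H := by omega
  have e2 : ¬ t < H + m := by omega
  simp only [brPath, e1, e2, if_false, min_eq_right h1]
  omega

theorem be_cases (s : Unit) (t : ℕ) : (t < H ∧ brEmb m H ⟨s, t⟩ = m + t) ∨
    (H ≤ t ∧ t < H + m ∧ brEmb m H ⟨s, t⟩ = t - H) ∨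
    (H + m ≤ t ∧ brEmb m H ⟨s, t⟩ = t) := by
  rcases Nat.lt_or_ge t H with h | h
  · left; exact ⟨h, by simp only [brEmb, h, if_true]⟩
  · have e1 : ¬ t < H := by omega
    rcases Nat.lt_or_ge t (H + m) with h1 | h1
    · right; left; exact ⟨h, h1, by simp only [brEmb, e1, h1, if_true, if_false]⟩
    · have e2 : ¬ t < H + m := by omega
      right; right; exact ⟨h1, by simp only [brEmb, e1, e2, if_false]⟩

theorem bx1 {k : ℕ} (h : k < m) : brX m H v k = v k + H := by
  simp only [brX, h, if_true]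

theorem bx2 {k : ℕ} (h1 : m ≤ k) (h2 : k < m + H) : brX m H v k = (k : ℤ) - m := by
  have e1 : ¬ k < m := by omega
  simp only [brX, e1, h2, if_true, if_false]

theorem bx3 {k : ℕ} (h1 : m + H ≤ k) : brX m H v k = v (m - 1) + k - m + 1 := by
  have e1 : ¬ k < m := by omega
  have e2 : ¬ k < m + H := by omega
  simp only [brX, e1, e2, if_false]

end char

theorem brEmb_injOn {m H : ℕ} :
    Set.InjOn (brEmb m H) (lets (lenBr m H) : Set ((_ : Unit) × ℕ)) := by
  rintro ⟨s, t⟩ h1 ⟨s', t'⟩ h2 h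
  rw [Finset.mem_coe, mem_lets] at h1 h2
  simp only [lenBr] at h1 h2
  have h3 := be_cases (m := m) (H := H) s t
  have h4 := be_cases (m := m) (H := H) s' t'
  rw [h] at h3
  have : t = t' := by omega
  rw [this]

theorem brEmb_image {m H : ℕ} :
    (lets (lenBr m H)).image (brEmb m H) = range (m + 2 * H) := by
  apply Finset.eq_of_subset_of_card_le
  · intro k hk
    obtain ⟨⟨s, t⟩, h1, rfl⟩ := Finset.mem_image.1 hk
    rw [mem_lets] at h1
    simp only [lenBr] at h1
    rw [Finset.mem_range]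
    have h3 := be_cases (m := m) (H := H) s t
    omega
  · rw [Finset.card_image_of_injOn brEmb_injOn, card_lets, Finset.card_range]
    simp [lenBr]

namespace BoxCtx

variable {m H : ℕ} {v : ℕ → ℤ} (h : BoxCtx m H v)

include h

theorem mem : brPath m H v ∈ brs (lenBr m H) := by
  have hm := h.hm
  have hH := h.hH
  have h1 := mem_paths1.1 h.path
  have h2 := h.last
  rw [mem_brs]
  constructor
  · rintro ⟨⟩
    rw [mem_paths1]
    simp only [lenBr]
    refine ⟨by rw [bp1 (by omega)]; rfl, ?_, ?_⟩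
    · intro t ht
      rcases Nat.lt_or_ge (t + 1) H with h3 | h3
      · rw [bp1 h3, bp1 (by omega)]
        left; push_cast; ring
      · rcases Nat.lt_or_ge t H with h4 | h4
        · rw [bp2 h3 (by omega), bp1 h4]
          have e1 : t + 1 - H = 0 := by omega
          rw [e1, h1.1]
          left; omega
        · rcases Nat.lt_or_ge (t + 1) (H + m) with h5 | h5
          · rw [bp2 h3 h5, bp2 h4 (by omega)]
            have e1 : t + 1 - H = (t - H) + 1 := by omega
            rw [e1]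
            rcases h1.2.1 (t - H) (by omega) with h6 | h6
            · left; rw [h6]; ring
            · right; rw [h6]; ring
          · rcases Nat.lt_or_ge t (H + m) with h6 | h6
            · rw [bp3 h5 (by omega), bp2 h4 h6]
              have e1 : t - H = m - 1 := by omega
              rw [e1]
              left; push_cast; omega
            · rw [bp3 h5 (by omega), bp3 h6 (by omega)]
              left; push_cast; ring
    · intro t ht
      rw [bp4 hH (by omega), bp4 hH (by omega)]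
  · rintro ⟨⟩ ⟨⟩ i hi
    simp only [lenBr] at hi ⊢
    rw [bp4 hH le_rfl]
    rcases Nat.lt_or_ge i H with h3 | h3
    · rw [bp1 h3]
      omega
    · rcases Nat.lt_or_ge i (H + m) with h4 | h4
      · rw [bp2 h3 h4]
        have h5 := h.ge (i - H)
        have h6 := h.le (i - H)
        omega
      · rw [bp3 h4 (by omega)]
        omega

omit h in
theorem inj {v' : ℕ → ℤ} (hv : v ∈ paths st1 m) (hv' : v' ∈ paths st1 m)
    (heq : brPath m H v = brPath m H v') : v = v' := by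
  apply paths_ext hv hv'
  intro i hi
  have h2 := congrFun (congrFun heq ()) (i + H)
  rw [bp2 (by omega) (by omega), bp2 (by omega) (by omega), Nat.add_sub_cancel] at h2
  omega

theorem energy {ω : ℕ → ℝ} (hω : ∀ i, |ω i| ≤ 1) :
    En (lets (lenBr m H)) (fun x => ω (brEmb m H x)) (fun x => brPath m H v x.1 x.2) ≤
    En (range m) ω v + 2 * √(En (range m) ω v * (4 * H)) + 4 * H := by
  have hm := h.hm
  have hH := h.hH
  have h2 := h.last
  have e1 : En (lets (lenBr m H)) (fun x => ω (brEmb m H x)) (fun x => brPath m H v x.1 x.2) =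
      En (lets (lenBr m H)) (fun x => ω (brEmb m H x)) (fun x => brX m H v (brEmb m H x)) := by
    apply En_congr (fun _ _ => rfl)
    rintro ⟨⟨⟩, t⟩ ht
    rw [mem_lets] at ht
    simp only [lenBr] at ht
    dsimp only
    rcases be_cases (m := m) (H := H) () t with ⟨h3, h4⟩ | ⟨h3, h5, h4⟩ | ⟨h3, h4⟩
    · rw [h4, bp1 h3, bx2 (by omega) (by omega)]
      push_cast; ring
    · rw [h4, bp2 h3 h5, bx1 (by omega)]
    · rw [h4, bp3 h3 (by omega), bx3 (by omega)]
  rw [e1, ← En_image brEmb_injOn, brEmb_image]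
  have hsplit : range (m + 2 * H) = range m ∪ Ico m (m + 2 * H) := by
    ext i; simp only [mem_range, mem_union, mem_Ico]; omega
  have hdis : Disjoint (range m) (Ico m (m + 2 * H)) := by
    rw [Finset.disjoint_left]
    intro i hi hi'
    rw [mem_range] at hi
    rw [mem_Ico] at hi'
    omega
  have e2 : En (range m) ω (brX m H v) = En (range m) ω v := by
    apply En_congr_iff (fun _ _ => rfl)
    intro i hi j hj
    rw [Finset.mem_range] at hi hj
    rw [bx1 hi, bx1 hj]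
    constructor
    · intro h1; omega
    · intro h1; omega
  have hmult : ∀ z, ((Ico m (m + 2 * H)).filter (fun i => brX m H v i = z)).card ≤ 2 := by
    intro z
    have hsub : (Ico m (m + 2 * H)).filter (fun i => brX m H v i = z) ⊆
        {(z + m).toNat, (z + m - 1 - v (m - 1)).toNat} := by
      intro i hi
      rw [Finset.mem_filter, Finset.mem_Ico] at hi
      obtain ⟨hi1, hi2⟩ := hi
      simp only [Finset.mem_insert, Finset.mem_singleton]
      rcases Nat.lt_or_ge i (m + H) with h3 | h3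
      · rw [bx2 hi1.1 h3] at hi2
        left; omega
      · rw [bx3 h3] at hi2
        right; omega
    exact (Finset.card_le_card hsub).trans Finset.card_le_two
  have e3 : En (Ico m (m + 2 * H)) ω (brX m H v) ≤ 4 * H := by
    refine (En_le_mult hω hmult).trans ?_
    rw [Nat.card_Ico]
    have : m + 2 * H - m = 2 * H := by omega
    rw [this]
    push_cast
    linarith
  rw [hsplit]
  refine (En_union_le hdis ω _).trans ?_
  rw [e2]
  have h4 : √(En (range m) ω v * En (Ico m (m + 2 * H)) ω (brX m H v)) ≤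
      √(En (range m) ω v * (4 * H)) :=
    Real.sqrt_le_sqrt (mul_le_mul_of_nonneg_left e3 (En_nonneg _ _ _))
  linarith

end BoxCtx

theorem neg_mem_paths {m : ℕ} {v : ℕ → ℤ} (hv : v ∈ paths st1 m) :
    (fun t => - v t) ∈ paths st1 m := by
  rw [mem_paths1] at hv ⊢
  obtain ⟨h0, h1, h2⟩ := hv
  refine ⟨by simp [h0], ?_, ?_⟩
  · intro i hi
    rcases h1 i hi with h | h
    · right; rw [h]; ring
    · left; rw [h]; ring
  · intro i hi
    rw [h2 i hi]

theorem En_neg (J : Finset ℕ) (ω : ℕ → ℝ) (v : ℕ → ℤ) :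
    En J ω (fun t => - v t) = En J ω v := by
  apply En_congr_iff (fun _ _ => rfl)
  intro i _ j _
  exact neg_inj

theorem box_bound {m H : ℕ} (hm : 1 ≤ m) (hH : 1 ≤ H) {b : ℝ} (hb : 0 ≤ b)
    {ω : ℕ → ℝ} (hω : ∀ i, |ω i| ≤ 1) {T B : ℝ} (hB0 : 0 ≤ B)
    {Q : ℤ → ℤ → Prop} (hQ : ∀ y z, Q y z → min 0 y - H ≤ z ∧ z ≤ max 0 y + H)
    (hB : ZS b (lenBr m H) (fun x => ω (brEmb m H x)) ≤ B) :
    Zm b Q m ω T ≤ 2 * ((2 ^ (2 * H) *
      Real.exp (2 * √(T * (b * (4 * H))) + b * (4 * H))) * B) := by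
  classical
  set P := midSet b Q m ω T with hP
  have hmem : ∀ v ∈ P, v ∈ paths st1 m ∧ b * En (range m) ω v ≤ T ∧
      ∀ t, Q (v (m - 1)) (v t) := by
    intro v hv
    rw [hP, midSet, Finset.mem_filter] at hv
    exact hv
  set nv : (ℕ → ℤ) → (ℕ → ℤ) := fun v => if 0 ≤ v (m - 1) then v else fun t => - v t with hnv
  have hctx : ∀ v ∈ P, BoxCtx m H (nv v) ∧ En (range m) ω (nv v) = En (range m) ω v := by
    intro v hv
    obtain ⟨h1, h2, h3⟩ := hmem v hv
    by_cases h4 : 0 ≤ v (m - 1)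
    · have e1 : nv v = v := by simp only [hnv, h4, if_true]
      rw [e1]
      refine ⟨⟨hm, hH, h1, h4, ?_, ?_⟩, rfl⟩
      · intro t
        have := (hQ _ _ (h3 t)).1
        omega
      · intro t
        have := (hQ _ _ (h3 t)).2
        omega
    · have e1 : nv v = fun t => - v t := by simp only [hnv, h4, if_false]
      rw [e1]
      refine ⟨⟨hm, hH, neg_mem_paths h1, by omega, ?_, ?_⟩, En_neg _ _ _⟩
      · intro t
        have := (hQ _ _ (h3 t)).2
        omega
      · intro t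
        have := (hQ _ _ (h3 t)).1
        omega
  have hmain := sum_le_of_code (P := P) (w := wt b m ω) (φ := fun v => decide (0 ≤ v (m - 1)))
    (ψ := fun v => brPath m H (nv v)) (C := (2 : ℝ)) ?_
    (Qs := fun _ => brs (lenBr m H))
    (v := fun _ x => (∏ s, ((2 : ℝ) ^ (lenBr m H s - 1))⁻¹) *
      Real.exp (-(b * En (lets (lenBr m H))
        (fun y => ω (brEmb m H y)) (fun y => x y.1 y.2))))
    (κ := 2 ^ (2 * H) * Real.exp (2 * √(T * (b * (4 * H))) + b * (4 * H))) (B := B)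
    (by positivity) hB0
    (fun k x _ => mul_nonneg (norm_pos _).le (Real.exp_nonneg _)) ?_ ?_ ?_ ?_
  · exact hmain
  · have h1 := Finset.card_le_univ (P.image (fun v => decide (0 ≤ v (m - 1))))
    rw [Fintype.card_bool] at h1
    exact_mod_cast h1
  · intro v hv
    exact (hctx v hv).1.mem
  · intro v hv v' hv' h1 h2
    have h3 := BoxCtx.inj (hctx v hv).1.path (hctx v' hv').1.path h2
    have h4 : (0 ≤ v (m - 1)) ↔ (0 ≤ v' (m - 1)) := decide_eq_decide.1 h1
    simp only [hnv] at h3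
    by_cases h5 : 0 ≤ v (m - 1)
    · rw [if_pos h5, if_pos (h4.1 h5)] at h3
      exact h3
    · rw [if_neg h5, if_neg (fun h6 => h5 (h4.2 h6))] at h3
      funext t
      have := congrFun h3 t
      omega
  · intro v hv
    obtain ⟨hc, he⟩ := hctx v hv
    have h2 := (hmem v hv).2.1
    have h3 := hc.energy hω
    rw [he] at h3
    have h4 := b_mul_bound hb (En_nonneg (range m) ω v) (by positivity) h2 h3
    have hpow : ((2 : ℝ) ^ (m - 1))⁻¹ ≤
        2 ^ (2 * H) * ∏ s, ((2 : ℝ) ^ (lenBr m H s - 1))⁻¹ := by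
      simp only [Finset.univ_unique, PUnit.default_eq_unit, Finset.prod_singleton, lenBr]
      rw [inv_le_iff_one_le_mul₀ (by positivity)]
      have h7 : (2 : ℝ) ^ (m + 2 * H - 1) = 2 ^ (2 * H) * 2 ^ (m - 1) := by
        rw [← pow_add]; congr 1; omega
      have h8 : 2 ^ (2 * H) * ((2 : ℝ) ^ (m + 2 * H - 1))⁻¹ * 2 ^ (m - 1) =
        (2 ^ (2 * H) * 2 ^ (m - 1)) / (2 : ℝ) ^ (m + 2 * H - 1) := by
        rw [div_eq_mul_inv]; ring
      rw [h8, h7, div_self (by positivity)]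
    have hexp : Real.exp (-(b * En (range m) ω v)) ≤
        Real.exp (2 * √(T * (b * (4 * H))) + b * (4 * H)) *
        Real.exp (-(b * En (lets (lenBr m H))
          (fun y => ω (brEmb m H y)) (fun y => brPath m H (nv v) y.1 y.2))) := by
      rw [← Real.exp_add]
      apply Real.exp_le_exp.2
      linarith
    unfold wt
    calc ((2 : ℝ) ^ (m - 1))⁻¹ * Real.exp (-(b * En (range m) ω v)) ≤
        (2 ^ (2 * H) * ∏ s, ((2 : ℝ) ^ (lenBr m H s - 1))⁻¹) *
        (Real.exp (2 * √(T * (b * (4 * H))) + b * (4 * H)) *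
        Real.exp (-(b * En (lets (lenBr m H))
          (fun y => ω (brEmb m H y)) (fun y => brPath m H (nv v) y.1 y.2)))) :=
          mul_le_mul hpow hexp (Real.exp_nonneg _)
            (mul_nonneg (by positivity) (norm_pos _).le)
      _ = _ := by ring
  · intro v hv
    unfold ZS at hB
    rw [Finset.mul_sum] at hB
    exact hB

end Pool.Agent.Lib.MP_5acba2_pr
end

section
/-!
The deterministic upper bound in dimension one.
-/
set_option autoImplicit false
set_option linter.unusedSectionVars false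

namespace Pool.Agent.Lib.MP_5acba2_pr

open Finset Function

theorem Zm_neg (b : ℝ) (Q : ℤ → ℤ → Prop) (m : ℕ) (ω : ℕ → ℝ) (T : ℝ) :
    Zm b Q m ω T ≤ Zm b (fun y z => Q (-y) (-z)) m ω T := by
  classical
  unfold Zm
  apply sum_le_sum_of_inj (φ := fun v : ℕ → ℤ => fun t => - v t)
  · intro v hv
    rw [midSet, Finset.mem_filter] at hv ⊢
    refine ⟨neg_mem_paths hv.1, ?_, ?_⟩
    · rw [En_neg]; exact hv.2.1
    · intro t
      rw [neg_neg, neg_neg]
      exact hv.2.2 t
  · intro v _ v' _ h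
    funext t
    have := congrFun h t
    exact neg_inj.1 this
  · intro v _
    exact (wt_pos _ _ _ _).le
  · intro v _
    unfold wt
    rw [En_neg]

theorem Zl_nonneg (b : ℝ) (m : ℕ) (ω : ℕ → ℝ) (T : ℝ) : 0 ≤ Zl b m ω T :=
  Finset.sum_nonneg fun _ _ => (wt_pos _ _ _ _).le

theorem Zm_nonneg (b : ℝ) (Q : ℤ → ℤ → Prop) (m : ℕ) (ω : ℕ → ℝ) (T : ℝ) : 0 ≤ Zm b Q m ω T :=
  Finset.sum_nonneg fun _ _ => (wt_pos _ _ _ _).le

/-- The cost of a cut. -/
noncomputable def cutM (b : ℝ) (N ρ K η : ℕ) (T : ℝ) : ℝ :=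
  (((N * η + 2 * (ρ * η)) * (N * η + 1) ^ K : ℕ) : ℝ) *
    (2 ^ ((K + 1) * η) * Real.exp (2 * cutErr b T K η))

/-- The cost of a loop. -/
noncomputable def loopM (b : ℝ) (N η : ℕ) (T : ℝ) : ℝ :=
  (N + 1) * (2 ^ (4 * η) * Real.exp (2 * √(T * (b * (20 * η))) + b * (20 * η)))

/-- The cost of a box. -/
noncomputable def boxM (b : ℝ) (H : ℕ) (T : ℝ) : ℝ :=
  2 * (2 ^ (2 * H) * Real.exp (2 * √(T * (b * (4 * H))) + b * (4 * H)))

theorem cutM_nonneg (b : ℝ) (N ρ K η : ℕ) (T : ℝ) : 0 ≤ cutM b N ρ K η T := by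
  unfold cutM; positivity

theorem loopM_nonneg (b : ℝ) (N η : ℕ) (T : ℝ) : 0 ≤ loopM b N η T := by
  unfold loopM; positivity

theorem boxM_nonneg (b : ℝ) (H : ℕ) (T : ℝ) : 0 ≤ boxM b H T := by
  unfold boxM; positivity

theorem cutM_mono (b : ℝ) {N N' ρ K η : ℕ} (h : N' ≤ N) (T : ℝ) :
    cutM b N' ρ K η T ≤ cutM b N ρ K η T := by
  unfold cutM
  apply mul_le_mul_of_nonneg_right _ (by positivity)
  have h1 : N' * η ≤ N * η := Nat.mul_le_mul_right _ h
  exact_mod_cast Nat.mul_le_mul (Nat.add_le_add_right h1 _)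
    (Nat.pow_le_pow_left (Nat.add_le_add_right h1 _) _)

/-- Bound for one loop. -/
theorem loop_final {η N ℓ : ℕ} (heven : η % 2 = 0) (hη : 2 ≤ η) (hℓ : ℓ ≤ N) {b : ℝ}
    (hb : 0 ≤ b) {ω : ℕ → ℝ} (hω : ∀ i, |ω i| ≤ 1) {T f D : ℝ} (hf : f ≤ 0)
    (hB : ∀ a, 1 ≤ a → a ≤ ℓ + 1 → ZS b (lenPair η (a * η) ((ℓ + 1 - a) * η))
      (fun x => ω (pairEmb η (a * η) ((ℓ + 1 - a) * η) x)) ≤
        Real.exp (f * ((ℓ + 1 : ℕ) * η) + D)) :
    Zl b ((ℓ + 1) * η) ω T ≤ loopM b N η T * Real.exp (f * (ℓ * η) + D) := by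
  have h1 := loop_bound heven hη (ℓ := ℓ + 1) (by omega) hb hω (T := T)
    (Real.exp_nonneg _) hB
  refine h1.trans ?_
  unfold loopM
  rw [mul_assoc ((N : ℝ) + 1)]
  have h2 : Real.exp (f * ((ℓ + 1 : ℕ) * η) + D) ≤ Real.exp (f * (ℓ * η) + D) := by
    apply Real.exp_le_exp.2
    push_cast
    have : f * η ≤ 0 := mul_nonpos_of_nonpos_of_nonneg hf (Nat.cast_nonneg _)
    nlinarith
  have h3 : ((ℓ + 1 : ℕ) : ℝ) ≤ N + 1 := by exact_mod_cast Nat.add_le_add_right hℓ 1
  apply mul_le_mul h3 _ (by positivity) (by positivity)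
  exact mul_le_mul_of_nonneg_left h2 (by positivity)

theorem upper_det {η N ρ K : ℕ} (heven : η % 2 = 0) (hη : 2 ≤ η) (hN : 1 ≤ N) (hρ : 1 ≤ ρ)
    (hK : N ≤ K * ρ) {b : ℝ} (hb : 0 ≤ b) {ω : ℕ → ℝ} (hω : ∀ i, |ω i| ≤ 1) {T f D : ℝ}
    (hf : f ≤ 0)
    (G1 : ∀ A ⊆ range N, ∀ a, 1 ≤ a → a ≤ A.card + 1 →
      ZS b (lenPair η (a * η) ((A.card + 1 - a) * η))
        (fun x => ω (emb η (en N A) (pairEmb η (a * η) ((A.card + 1 - a) * η) x))) ≤
        Real.exp (f * ((A.card + 1 : ℕ) * η) + D))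
    (G2 : ∀ A' ⊆ range N, ∀ A ⊆ range A'.card, ∀ a, 1 ≤ a → a ≤ A.card + 1 →
      ZS b (lenPair η (a * η) ((A.card + 1 - a) * η))
        (fun x => ω (emb η (en N A') (emb η (en A'.card A)
          (pairEmb η (a * η) ((A.card + 1 - a) * η) x)))) ≤
        Real.exp (f * ((A.card + 1 : ℕ) * η) + D))
    (G3 : ∀ A' ⊆ range N, ∀ A ⊆ range A'.card, 1 ≤ A.card →
      ZS b (lenBr (A.card * η) (2 * (ρ * η) + η))
        (fun x => ω (emb η (en N A') (emb η (en A'.card A)
          (brEmb (A.card * η) (2 * (ρ * η) + η) x)))) ≤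
        Real.exp (f * (A.card * η) + D)) :
    Zm b (fun _ _ => True) (N * η) ω T ≤
      cutM b N ρ K η T * (loopM b N η (T + cutErr b T K η) *
        (cutM b N ρ K η (T + cutErr b T K η) *
          (loopM b N η (T + cutErr b T K η + cutErr b (T + cutErr b T K η) K η) *
            boxM b (2 * (ρ * η) + η)
              (T + cutErr b T K η + cutErr b (T + cutErr b T K η) K η)))) *
        Real.exp (f * (N * η) + 3 * D) := by
  set T1 := T + cutErr b T K η with hT1
  set T2 := T1 + cutErr b T1 K η with hT2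
  set J := ρ * η with hJ
  have hJ1 : 1 ≤ J := Nat.mul_pos hρ (by omega)
  set LM := loopM b N η T1 with hLM
  set LM2 := loopM b N η T2 with hLM2
  set CM := cutM b N ρ K η T1 with hCM
  set BM := boxM b (2 * J + η) T2 with hBM
  have hLM0 : 0 ≤ LM := loopM_nonneg _ _ _ _
  have hLM20 : 0 ≤ LM2 := loopM_nonneg _ _ _ _
  have hCM0 : 0 ≤ CM := cutM_nonneg _ _ _ _ _ _
  have hBM0 : 0 ≤ BM := boxM_nonneg _ _ _
  have hη0 : (0 : ℝ) ≤ η := Nat.cast_nonneg _
  -- the upper part of the first cut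
  have hup : ∀ A' ⊆ range N, 1 ≤ A'.card →
      Zm b (fun y z => True ∧ min 0 y - (2 * J + η) ≤ z) (A'.card * η)
        (fun t => ω (emb η (en N A') t)) T1 ≤
      CM * (LM2 * BM * Real.exp (f * (A'.card * η) + 2 * D)) := by
    intro A' hA' hA'1
    have hA'N : A'.card ≤ N := by
      have := Finset.card_le_card hA'
      rwa [Finset.card_range] at this
    refine (Zm_neg _ _ _ _ _).trans ?_
    have h1 := cut_bound (η := η) (N := A'.card) (J := J) (K := K) heven hη hA'1 hJ1 (by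
      rw [hJ, ← mul_assoc]
      exact Nat.mul_le_mul_right _ (hA'N.trans hK)) hb
      (ω := fun t => ω (emb η (en N A') t)) (fun i => hω _) (T := T1)
      (Q := fun y z => True ∧ min 0 (-y) - (2 * J + η) ≤ -z) (by
        intro y z hz
        exact ⟨trivial, by omega⟩)
      (B := LM2 * BM * Real.exp (f * (A'.card * η) + 2 * D)) (by positivity) ?_
    · refine h1.trans ?_
      rw [← mul_assoc]
      apply mul_le_mul_of_nonneg_right _ (by positivity)
      exact cutM_mono b hA'N T1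
    · intro A A2 hA hA2 hA21 hAA2
      have h2 : Zl b ((A.card + 1) * η) (fun t => ω (emb η (en N A') (emb η (en A'.card A) t)))
          T2 ≤ LM2 * Real.exp (f * (A.card * η) + D) := by
        apply loop_final heven hη _ hb (fun i => hω _) hf
        · exact G2 A' hA' A hA
        · have := Finset.card_le_card hA
          rw [Finset.card_range] at this
          omega
      have h3 : Zm b (fun y z => (True ∧ min 0 (-y) - (2 * J + η) ≤ -z) ∧
          min 0 y - (2 * J + η) ≤ z) (A2.card * η)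
          (fun t => ω (emb η (en N A') (emb η (en A'.card A2) t))) T2 ≤
          BM * Real.exp (f * (A2.card * η) + D) := by
        have h4 := box_bound (m := A2.card * η) (H := 2 * J + η)
          (Nat.mul_pos hA21 (by omega)) (by omega) hb
          (ω := fun t => ω (emb η (en N A') (emb η (en A'.card A2) t))) (fun i => hω _) (T := T2)
          (B := Real.exp (f * (A2.card * η) + D)) (Real.exp_nonneg _)
          (Q := fun y z => (True ∧ min 0 (-y) - (2 * J + η) ≤ -z) ∧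
          min 0 y - (2 * J + η) ≤ z) (by
            rintro y z ⟨⟨_, h5⟩, h6⟩
            push_cast
            constructor <;> omega) (G3 A' hA' A2 hA2 hA21)
        refine h4.trans (le_of_eq ?_)
        rw [hBM]
        unfold boxM
        push_cast
        ring
      refine (mul_le_mul h2 h3 (Zm_nonneg _ _ _ _ _) (by positivity)).trans ?_
      have h5 : Real.exp (f * (A.card * η) + D) * Real.exp (f * (A2.card * η) + D) ≤
          Real.exp (f * (A'.card * η) + 2 * D) := by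
        rw [← Real.exp_add]
        apply Real.exp_le_exp.2
        have h6 : (A'.card : ℝ) ≤ A.card + A2.card := by exact_mod_cast hAA2
        have h7 : f * ((A.card : ℝ) + A2.card) ≤ f * A'.card :=
          mul_le_mul_of_nonpos_left h6 hf
        nlinarith
      calc LM2 * Real.exp (f * (A.card * η) + D) * (BM * Real.exp (f * (A2.card * η) + D))
          = LM2 * BM * (Real.exp (f * (A.card * η) + D) *
              Real.exp (f * (A2.card * η) + D)) := by ring
        _ ≤ _ := mul_le_mul_of_nonneg_left h5 (by positivity)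
  have h1 := cut_bound (η := η) (N := N) (J := J) (K := K) heven hη hN hJ1 (by
      rw [hJ, ← mul_assoc]
      exact Nat.mul_le_mul_right _ hK) hb hω (T := T)
      (Q := fun _ _ => True) (fun _ _ _ => trivial)
      (B := LM * (CM * (LM2 * BM)) * Real.exp (f * (N * η) + 3 * D)) (by positivity) ?_
  · refine h1.trans (le_of_eq ?_)
    unfold cutM
    ring
  · intro A A' hA hA' hA'1 hAA'
    have h2 : Zl b ((A.card + 1) * η) (fun t => ω (emb η (en N A) t)) T1 ≤
        LM * Real.exp (f * (A.card * η) + D) := by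
      apply loop_final heven hη _ hb (fun i => hω _) hf
      · exact G1 A hA
      · have := Finset.card_le_card hA
        rwa [Finset.card_range] at this
    have h3 := hup A' hA' hA'1
    refine (mul_le_mul h2 h3 (Zm_nonneg _ _ _ _ _) (by positivity)).trans ?_
    have h5 : Real.exp (f * (A.card * η) + D) * Real.exp (f * (A'.card * η) + 2 * D) ≤
        Real.exp (f * (N * η) + 3 * D) := by
      rw [← Real.exp_add]
      apply Real.exp_le_exp.2
      have h6 : (N : ℝ) ≤ A.card + A'.card := by exact_mod_cast hAA'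
      have h7 : f * ((A.card : ℝ) + A'.card) ≤ f * N := mul_le_mul_of_nonpos_left h6 hf
      nlinarith
    calc LM * Real.exp (f * (A.card * η) + D) *
          (CM * (LM2 * BM * Real.exp (f * (A'.card * η) + 2 * D)))
        = LM * (CM * (LM2 * BM)) * (Real.exp (f * (A.card * η) + D) *
            Real.exp (f * (A'.card * η) + 2 * D)) := by ring
      _ ≤ _ := mul_le_mul_of_nonneg_left h5 (by positivity)

end Pool.Agent.Lib.MP_5acba2_pr
end

section
/-!
The deterministic upper bound in dimension one, logarithmic form.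
-/
set_option autoImplicit false
set_option linter.unusedSectionVars false

namespace Pool.Agent.Lib.MP_5acba2_pr

open Finset Function

/-- All the patterns satisfy the upper bound. -/
structure Good (b : ℝ) (N ρ η : ℕ) (ω : ℕ → ℝ) (f D : ℝ) : Prop where
  g1 : ∀ A ⊆ range N, ∀ a, 1 ≤ a → a ≤ A.card + 1 →
      ZS b (lenPair η (a * η) ((A.card + 1 - a) * η))
        (fun x => ω (emb η (en N A) (pairEmb η (a * η) ((A.card + 1 - a) * η) x))) ≤
        Real.exp (f * ((A.card + 1 : ℕ) * η) + D)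
  g2 : ∀ A' ⊆ range N, ∀ A ⊆ range A'.card, ∀ a, 1 ≤ a → a ≤ A.card + 1 →
      ZS b (lenPair η (a * η) ((A.card + 1 - a) * η))
        (fun x => ω (emb η (en N A') (emb η (en A'.card A)
          (pairEmb η (a * η) ((A.card + 1 - a) * η) x)))) ≤
        Real.exp (f * ((A.card + 1 : ℕ) * η) + D)
  g3 : ∀ A' ⊆ range N, ∀ A ⊆ range A'.card, 1 ≤ A.card →
      ZS b (lenBr (A.card * η) (2 * (ρ * η) + η))
        (fun x => ω (emb η (en N A') (emb η (en A'.card A)
          (brEmb (A.card * η) (2 * (ρ * η) + η) x)))) ≤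
        Real.exp (f * (A.card * η) + D)

theorem Zt_eq_Zm (b : ℝ) (N : ℕ) (ω : ℕ → ℝ) (T : ℝ) :
    Zt st1 b N ω T = Zm b (fun _ _ => True) N ω T := by
  classical
  unfold Zt Zm wt midSet
  rw [← Finset.mul_sum]
  simp

theorem err_le {T I τ X n : ℝ} (hn : 0 ≤ n) (hT : T ≤ τ * n) (hI0 : 0 ≤ I)
    (hI : I ≤ X * n) (hτ : 0 ≤ τ) : 2 * √(T * I) + I ≤ (2 * √(τ * X) + X) * n := by
  have h1 : √(T * I) ≤ √(τ * X) * n := by
    calc √(T * I) ≤ √((τ * n) * (X * n)) := by
          apply Real.sqrt_le_sqrt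
          calc T * I ≤ (τ * n) * I := mul_le_mul_of_nonneg_right hT hI0
            _ ≤ (τ * n) * (X * n) := mul_le_mul_of_nonneg_left hI (mul_nonneg hτ hn)
      _ = √(τ * X * n ^ 2) := by congr 1; ring
      _ = √(τ * X) * n := by
          rw [Real.sqrt_mul' _ (sq_nonneg n), Real.sqrt_sq hn]
  linarith

theorem log_le_two_sqrt {x : ℝ} (hx : 0 < x) : Real.log x ≤ 2 * √x := by
  have h1 : Real.log x = 2 * Real.log (√x) := by
    rw [Real.log_sqrt hx.le]; ring
  have h2 := Real.log_le_sub_one_of_pos (Real.sqrt_pos.2 hx)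
  rw [h1]
  linarith

/-- The logarithms of the costs. -/
theorem log_costs {b : ℝ} (hb : 0 ≤ b) {N ρ K η : ℕ} (hN : 1 ≤ N) (hρ : 1 ≤ ρ) (hK : 1 ≤ K)
    (hη : 1 ≤ η) {T τ X : ℝ} (hT : T ≤ τ * (N * η)) (hτ : 0 ≤ τ)
    (hX : 20 * b * (K ^ 2 + ρ) ≤ X * N) :
    cutErr b T K η ≤ (2 * √(τ * X) + X) * (N * η) ∧
    Real.log (cutM b N ρ K η T) ≤ (K + 1) * (2 * √((N + 2 * ρ + 1) * η)) + (K + 1) * η +
      2 * ((2 * √(τ * X) + X) * (N * η)) ∧
    Real.log (loopM b N η T) ≤ N + 4 * η + (2 * √(τ * X) + X) * (N * η) ∧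
    Real.log (boxM b (2 * (ρ * η) + η) T) ≤ 1 + 2 * (2 * (ρ * η) + η) +
      (2 * √(τ * X) + X) * (N * η) := by
  have hN' : (1 : ℝ) ≤ N := by exact_mod_cast hN
  have hρ' : (1 : ℝ) ≤ ρ := by exact_mod_cast hρ
  have hK' : (1 : ℝ) ≤ K := by exact_mod_cast hK
  have hη' : (1 : ℝ) ≤ η := by exact_mod_cast hη
  have hlog2 : Real.log 2 ≤ 1 := by
    have := Real.log_two_lt_d9
    linarith
  have hlog20 : 0 ≤ Real.log 2 := Real.log_nonneg (by norm_num)
  set n : ℝ := N * η with hn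
  have hn0 : 0 ≤ n := by positivity
  have hXn : 20 * b * (K ^ 2 + ρ) * η ≤ X * n := by
    rw [hn, ← mul_assoc]
    exact mul_le_mul_of_nonneg_right hX (by linarith)
  have hbη : 0 ≤ b * η := by positivity
  have hI1 : b * ((4 * K + 2 : ℕ) * ((K + 1) * η : ℕ)) ≤ X * n := by
    refine le_trans ?_ hXn
    push_cast
    have h1 : (4 * (K : ℝ) + 2) * (K + 1) ≤ 20 * (K ^ 2 + ρ) := by nlinarith
    calc b * ((4 * (K : ℝ) + 2) * ((K + 1) * η)) = (b * η) * ((4 * (K : ℝ) + 2) * (K + 1)) := by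
          ring
      _ ≤ (b * η) * (20 * (K ^ 2 + ρ)) := mul_le_mul_of_nonneg_left h1 hbη
      _ = _ := by ring
  have hI2 : b * (20 * η) ≤ X * n := by
    refine le_trans ?_ hXn
    have h1 : (20 : ℝ) ≤ 20 * (K ^ 2 + ρ) := by nlinarith
    calc b * (20 * (η : ℝ)) = (b * η) * 20 := by ring
      _ ≤ (b * η) * (20 * (K ^ 2 + ρ)) := mul_le_mul_of_nonneg_left h1 hbη
      _ = _ := by ring
  have hI3 : b * (4 * ((2 * (ρ * η) + η : ℕ) : ℝ)) ≤ X * n := by
    refine le_trans ?_ hXn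
    push_cast
    have h1 : (4 : ℝ) * (2 * ρ + 1) ≤ 20 * (K ^ 2 + ρ) := by nlinarith
    calc b * (4 * (2 * ((ρ : ℝ) * η) + η)) = (b * η) * (4 * (2 * ρ + 1)) := by ring
      _ ≤ (b * η) * (20 * (K ^ 2 + ρ)) := mul_le_mul_of_nonneg_left h1 hbη
      _ = _ := by ring
  have hc : cutErr b T K η ≤ (2 * √(τ * X) + X) * n := by
    unfold cutErr
    exact err_le hn0 hT (by positivity) hI1 hτ
  refine ⟨hc, ?_, ?_, ?_⟩
  · unfold cutM
    have hpos1 : (0 : ℝ) < (((N * η + 2 * (ρ * η)) * (N * η + 1) ^ K : ℕ) : ℝ) := by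
      have : 0 < (N * η + 2 * (ρ * η)) * (N * η + 1) ^ K := by
        have : 0 < N * η := Nat.mul_pos hN hη
        positivity
      exact_mod_cast this
    rw [Real.log_mul hpos1.ne' (by positivity), Real.log_mul (by positivity) (by positivity),
      Real.log_exp, Real.log_pow]
    have h1 : Real.log (((N * η + 2 * (ρ * η)) * (N * η + 1) ^ K : ℕ) : ℝ) ≤
        (K + 1) * (2 * √((N + 2 * ρ + 1) * η)) := by
      have h2 : (((N * η + 2 * (ρ * η)) * (N * η + 1) ^ K : ℕ) : ℝ) ≤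
          (((N : ℝ) + 2 * ρ + 1) * η) ^ (K + 1) := by
        push_cast
        rw [pow_succ, mul_comm]
        apply mul_le_mul
        · apply pow_le_pow_left₀ (by positivity)
          nlinarith
        · nlinarith
        · positivity
        · positivity
      have h3 := Real.log_le_log hpos1 h2
      rw [Real.log_pow] at h3
      have h4 := log_le_two_sqrt (x := ((N : ℝ) + 2 * ρ + 1) * η) (by positivity)
      have h5 : ((K + 1 : ℕ) : ℝ) * Real.log (((N : ℝ) + 2 * ρ + 1) * η) ≤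
          ((K + 1 : ℕ) : ℝ) * (2 * √(((N : ℝ) + 2 * ρ + 1) * η)) :=
        mul_le_mul_of_nonneg_left h4 (by positivity)
      push_cast at h3 h5 ⊢
      linarith
    have h6 : (((K + 1) * η : ℕ) : ℝ) * Real.log 2 ≤ (K + 1) * η := by
      push_cast
      have : (0 : ℝ) ≤ ((K : ℝ) + 1) * η := by positivity
      nlinarith
    linarith
  · unfold loopM
    rw [Real.log_mul (by positivity) (by positivity), Real.log_mul (by positivity) (by positivity),
      Real.log_exp, Real.log_pow]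
    have h1 : Real.log ((N : ℝ) + 1) ≤ N := by
      have := Real.log_le_sub_one_of_pos (x := (N : ℝ) + 1) (by positivity)
      linarith
    have h2 : ((4 * η : ℕ) : ℝ) * Real.log 2 ≤ 4 * η := by
      push_cast
      nlinarith
    have h3 := err_le hn0 hT (by positivity : 0 ≤ b * (20 * (η : ℝ))) hI2 hτ
    linarith
  · unfold boxM
    rw [Real.log_mul (by positivity) (by positivity), Real.log_mul (by positivity) (by positivity),
      Real.log_exp, Real.log_pow]
    have h2 : ((2 * (2 * (ρ * η) + η) : ℕ) : ℝ) * Real.log 2 ≤ 2 * (2 * (ρ * η) + η) := by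
      push_cast
      have : (0 : ℝ) ≤ 2 * (2 * ((ρ : ℝ) * η) + η) := by positivity
      nlinarith
    have h3 := err_le hn0 hT (by positivity : 0 ≤ b * (4 * ((2 * (ρ * η) + η : ℕ) : ℝ))) hI3 hτ
    linarith

theorem log_upper {b : ℝ} (hb : 0 ≤ b) {N ρ K η : ℕ} (hN : 1 ≤ N) (hρ : 1 ≤ ρ) (hK : 1 ≤ K)
    (hKN : N ≤ K * ρ) (heven : η % 2 = 0) (hη : 2 ≤ η) {X : ℝ}
    (hX : 20 * b * (K ^ 2 + ρ) ≤ X * N)
    (he : 2 * √((1 + Real.log 2 + b + 2) * X) + X ≤ 1)
    {ω : ℕ → ℝ} (hω : ∀ i, |ω i| ≤ 1) {f D : ℝ} (hf : f ≤ 0) (hG : Good b N ρ η ω f D) :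
    Real.log (Zf st1 b (N * η) ω) ≤ f * (N * η) + 3 * D +
      (2 + 2 * N + 4 * (K + 1) * √((N + 2 * ρ + 1) * η) + (2 * K + 4 * ρ + 12) * η +
        7 * ((2 * √((1 + Real.log 2 + b + 2) * X) + X) * (N * η))) := by
  have hN' : (1 : ℝ) ≤ N := by exact_mod_cast hN
  have hη' : (1 : ℝ) ≤ η := by exact_mod_cast (show 1 ≤ η by omega)
  have hlog2 : Real.log 2 ≤ 1 := by
    have := Real.log_two_lt_d9
    linarith
  have hlog20 : 0 ≤ Real.log 2 := Real.log_nonneg (by norm_num)
  set κ : ℝ := 1 + Real.log 2 + b with hκ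
  have hκ0 : 0 ≤ κ := by positivity
  set τ : ℝ := κ + 2 with hτ
  have hτ0 : 0 ≤ τ := by positivity
  set e : ℝ := 2 * √(τ * X) + X with hedef
  set n : ℝ := N * η with hn
  have hn1 : 1 ≤ n := by
    rw [hn]; nlinarith
  have hn0 : 0 ≤ n := by linarith
  have hen : e * n ≤ n := by nlinarith
  set T0 : ℝ := κ * n with hT0
  set T1 : ℝ := T0 + cutErr b T0 K η with hT1
  set T2 : ℝ := T1 + cutErr b T1 K η with hT2
  obtain ⟨c0, c1, _, _⟩ := log_costs hb hN hρ hK (show 1 ≤ η by omega) (T := T0) (τ := τ) (X := X)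
    (by rw [hT0, hτ]; nlinarith) hτ0 hX
  have hT1le : T1 ≤ (κ + 1) * n := by
    rw [hT1, hT0]
    nlinarith
  obtain ⟨d0, d1, d2, _⟩ := log_costs hb hN hρ hK (show 1 ≤ η by omega) (T := T1) (τ := τ)
    (X := X) (by rw [← hn, hτ]; nlinarith) hτ0 hX
  have hT2le : T2 ≤ (κ + 2) * n := by
    rw [hT2]
    nlinarith
  obtain ⟨_, _, g2, g3⟩ := log_costs hb hN hρ hK (show 1 ≤ η by omega) (T := T2) (τ := τ)
    (X := X) (by rw [← hn, hτ]; exact hT2le) hτ0 hX
  have h1 := upper_det heven hη hN hρ hKN hb hω (T := T0) (D := D) hf hG.g1 hG.g2 hG.g3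
  rw [← hT1, ← hT2] at h1
  have hv : Injective (fun k : ℕ => k • st1 true) := by
    intro k l h
    simpa [st1] using h
  have h2 := half_Zf_le_Zt st1 st1_injective true hv hb (N := N * η) hω (T := T0) (by
    rw [Fintype.card_bool, hT0, hκ, hn]
    push_cast
    nlinarith)
  rw [Zt_eq_Zm] at h2
  have hpos := Zf_pos st1 b (N * η) ω
  have hnn : 0 < N * η := Nat.mul_pos hN (by omega)
  have p1 : ∀ T, 0 < cutM b N ρ K η T := by
    intro T
    unfold cutM
    have : (0 : ℝ) < (((N * η + 2 * (ρ * η)) * (N * η + 1) ^ K : ℕ) : ℝ) := by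
      exact_mod_cast (by positivity : 0 < (N * η + 2 * (ρ * η)) * (N * η + 1) ^ K)
    positivity
  have p2 : ∀ T, 0 < loopM b N η T := by
    intro T; unfold loopM; positivity
  have p3 : ∀ T, 0 < boxM b (2 * (ρ * η) + η) T := by
    intro T; unfold boxM; positivity
  have h3 := Real.log_le_log (by positivity) (h2.trans h1)
  rw [Real.log_div hpos.ne' (by norm_num),
    Real.log_mul (mul_pos (p1 _) (mul_pos (p2 _) (mul_pos (p1 _)
      (mul_pos (p2 _) (p3 _))))).ne' (Real.exp_pos _).ne',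
    Real.log_mul (p1 _).ne' (mul_pos (p2 _) (mul_pos (p1 _) (mul_pos (p2 _) (p3 _)))).ne',
    Real.log_mul (p2 _).ne' (mul_pos (p1 _) (mul_pos (p2 _) (p3 _))).ne',
    Real.log_mul (p1 _).ne' (mul_pos (p2 _) (p3 _)).ne',
    Real.log_mul (p2 _).ne' (p3 _).ne', Real.log_exp] at h3
  linarith

/-- The deterministic upper bound. -/
theorem upper_log {b : ℝ} (hb : 0 ≤ b) {ε : ℝ} (hε : 0 < ε) : ∃ s η0 : ℕ, ∀ η : ℕ, η0 ≤ η →
    η % 2 = 0 → ∀ ω : ℕ → ℝ, (∀ i, |ω i| ≤ 1) → ∀ f D : ℝ, f ≤ 0 →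
    Good b (2 ^ (4 * s)) (2 ^ (3 * s)) η ω f D →
    Real.log (Zf st1 b (2 ^ (4 * s) * η) ω) ≤
      (f + ε) * ((2 ^ (4 * s) * η : ℕ) : ℝ) + 3 * D := by
  have hlog20 : 0 ≤ Real.log 2 := Real.log_nonneg (by norm_num)
  set τ : ℝ := 1 + Real.log 2 + b + 2 with hτ
  have hlim1 : Filter.Tendsto (fun s : ℕ => 40 * b * (1 / 2 : ℝ) ^ s) Filter.atTop (nhds 0) := by
    have := (tendsto_pow_atTop_nhds_zero_of_lt_one (by norm_num : (0 : ℝ) ≤ 1 / 2)
      (by norm_num)).const_mul (40 * b)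
    simpa using this
  have hlim2 : Filter.Tendsto (fun s : ℕ => 2 * √(τ * (40 * b * (1 / 2 : ℝ) ^ s)) +
      40 * b * (1 / 2 : ℝ) ^ s) Filter.atTop (nhds 0) := by
    have h1 := ((Real.continuous_sqrt.tendsto (τ * 0)).comp (hlim1.const_mul τ)).const_mul 2
    have h2 := h1.add hlim1
    simpa using h2
  have hlim3 : Filter.Tendsto (fun s : ℕ => 18 * (1 / 2 : ℝ) ^ s) Filter.atTop (nhds 0) := by
    have := (tendsto_pow_atTop_nhds_zero_of_lt_one (by norm_num : (0 : ℝ) ≤ 1 / 2)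
      (by norm_num)).const_mul 18
    simpa using this
  obtain ⟨s, hs1, hs2⟩ := ((hlim2.eventually (gt_mem_nhds
    (show (0 : ℝ) < min 1 (ε / 28) by positivity))).and
    (hlim3.eventually (gt_mem_nhds (show (0 : ℝ) < ε / 4 by positivity)))).exists
  set K : ℕ := 2 ^ s with hK
  set ρ : ℕ := 2 ^ (3 * s) with hρ
  set N : ℕ := 2 ^ (4 * s) with hN
  have hK1 : 1 ≤ K := Nat.one_le_two_pow
  have hρ1 : 1 ≤ ρ := Nat.one_le_two_pow
  have hN1 : 1 ≤ N := Nat.one_le_two_pow
  have hKN : N = K * ρ := by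
    rw [hN, hK, hρ, ← pow_add]; congr 1; ring
  have hρK : ρ = K ^ 3 := by
    rw [hρ, hK, ← pow_mul]; congr 1; ring
  have hKr : (1 : ℝ) ≤ K := by exact_mod_cast hK1
  have hKinv : (1 / 2 : ℝ) ^ s * K = 1 := by
    rw [hK]; push_cast; rw [← mul_pow]; norm_num
  set X : ℝ := 40 * b * (1 / 2 : ℝ) ^ s with hX
  have hNr : (N : ℝ) = K * ρ := by exact_mod_cast hKN
  have hρr : (ρ : ℝ) = K ^ 3 := by exact_mod_cast hρK
  have hXN : 20 * b * ((K : ℝ) ^ 2 + ρ) ≤ X * N := by
    have h1 : X * N = 40 * b * ρ := by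
      rw [hX, hNr]
      calc 40 * b * (1 / 2 : ℝ) ^ s * (K * ρ) = 40 * b * ((1 / 2 : ℝ) ^ s * K) * ρ := by ring
        _ = 40 * b * ρ := by rw [hKinv, mul_one]
    rw [h1]
    have h2 : (K : ℝ) ^ 2 ≤ ρ := by
      rw [hρr]
      exact pow_le_pow_right₀ hKr (by norm_num)
    nlinarith [mul_le_mul_of_nonneg_left h2 hb]
  have he1 : 2 * √(τ * X) + X ≤ 1 := (hs1.le).trans (min_le_left _ _)
  have he2 : 2 * √(τ * X) + X ≤ ε / 28 := (hs1.le).trans (min_le_right _ _)
  set c' : ℝ := 4 * (K + 1) * √((N : ℝ) + 2 * ρ + 1) with hc'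
  have hc'0 : 0 ≤ c' := by positivity
  have hNpos : (0 : ℝ) < N := by exact_mod_cast hN1
  obtain ⟨η1, hη1⟩ := exists_nat_ge (((2 + 2 * N + c') / (ε / 2 * N)) ^ 2)
  refine ⟨s, max 2 η1, ?_⟩
  intro η hη heven ω hω f D hf hG
  have hη2 : 2 ≤ η := (le_max_left _ _).trans hη
  have hη3 : η1 ≤ η := (le_max_right _ _).trans hη
  have hη4 : (1 : ℝ) ≤ η := by exact_mod_cast (show 1 ≤ η by omega)
  have hη5 : (η1 : ℝ) ≤ η := by exact_mod_cast hη3
  have h1 := log_upper hb hN1 hρ1 hK1 hKN.le heven hη2 hXN he1 hω hf hG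
  have h2 : 2 + 2 * N + 4 * (K + 1) * √(((N : ℝ) + 2 * ρ + 1) * η) ≤ ε / 2 * (N * η) := by
    rw [Real.sqrt_mul (by positivity), ← mul_assoc, ← hc']
    have hs : 1 ≤ √(η : ℝ) := Real.one_le_sqrt.2 hη4
    have hge : (2 + 2 * N + c') / (ε / 2 * N) ≤ √(η : ℝ) := by
      apply Real.le_sqrt_of_sq_le
      linarith
    rw [div_le_iff₀ (by positivity)] at hge
    have hsq : √(η : ℝ) * √(η : ℝ) = η := Real.mul_self_sqrt (by positivity)
    have h3 : (2 + 2 * N + c') * √(η : ℝ) ≤ √(η : ℝ) * (ε / 2 * N) * √(η : ℝ) :=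
      mul_le_mul_of_nonneg_right hge (by positivity)
    have h4 : √(η : ℝ) * (ε / 2 * N) * √(η : ℝ) = ε / 2 * (N * η) := by
      calc √(η : ℝ) * (ε / 2 * N) * √(η : ℝ) = (√(η : ℝ) * √(η : ℝ)) * (ε / 2 * N) := by ring
        _ = _ := by rw [hsq]; ring
    rw [h4] at h3
    have h5 : 2 + 2 * (N : ℝ) ≤ (2 + 2 * N) * √(η : ℝ) :=
      le_mul_of_one_le_right (by positivity) hs
    nlinarith
  have h3 : (2 * (K : ℝ) + 4 * ρ + 12) * η ≤ ε / 4 * (N * η) := by
    have h4 : 2 * (K : ℝ) + 4 * ρ + 12 ≤ 18 * ρ := by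
      have h5 : (K : ℝ) ≤ ρ := by
        rw [hρr]
        calc (K : ℝ) = K ^ 1 := (pow_one _).symm
          _ ≤ K ^ 3 := pow_le_pow_right₀ hKr (by norm_num)
      have h6 : (1 : ℝ) ≤ ρ := by exact_mod_cast hρ1
      linarith
    have h5 : 18 * (ρ : ℝ) ≤ ε / 4 * N := by
      have h6 := mul_le_mul_of_nonneg_right hs2.le (by positivity : (0 : ℝ) ≤ (N : ℝ))
      have h7 : 18 * (1 / 2 : ℝ) ^ s * N = 18 * ρ := by
        rw [hNr]
        calc 18 * (1 / 2 : ℝ) ^ s * (K * ρ) = 18 * ((1 / 2 : ℝ) ^ s * K) * ρ := by ring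
          _ = 18 * ρ := by rw [hKinv, mul_one]
      linarith
    calc (2 * (K : ℝ) + 4 * ρ + 12) * η ≤ (ε / 4 * N) * η :=
          mul_le_mul_of_nonneg_right (h4.trans h5) (by linarith)
      _ = _ := by ring
  have h4 : 7 * ((2 * √(τ * X) + X) * (N * η)) ≤ ε / 4 * (N * η) := by
    have h5 : (2 * √(τ * X) + X) * (N * η) ≤ ε / 28 * (N * η) :=
      mul_le_mul_of_nonneg_right he2 (by positivity)
    linarith
  change Real.log (Zf st1 b (N * η) ω) ≤ (f + ε) * ((N * η : ℕ) : ℝ) + 3 * D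
  rw [← hτ] at h1
  push_cast
  linarith

end Pool.Agent.Lib.MP_5acba2_pr
end
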