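import Mathlib
import Pool.Agent.Lib.MP_5acba2_pr.Chain
import Pool.Agent.Lib.MP_5acba2_pr.UpperLog
import Pool.Agent.Lib.MP_5acba2_pr.ScaleLaw
import Pool.Agent.Lib.MP_5acba2_pr.HighLimit

section
/-!
Lower bounds for the partition function by families of bridges.
-/
set_option autoImplicit false
set_option linter.unusedSectionVars false

namespace Pool.Agent.Lib.MP_5acba2_pr

open Finset Function

/-- Lengths. -/
def lenTF (p q : ℕ) (s : Bool) : ℕ := if s then p else q

/-- Letters. -/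
def foldEmb (p q : ℕ) (x : (_ : Bool) × ℕ) : ℕ := if x.1 then x.2 else p + q - x.2

/-- Up along the first strand, down along the second. -/
def foldPath (p q : ℕ) (x : Bool → ℕ → ℤ) (t : ℕ) : ℤ :=
  if t < p then x true t else if t = p then x true (p - 1) + 1 else
    x false (p + q - t)

theorem fp1 {p q : ℕ} {x : Bool → ℕ → ℤ} {t : ℕ} (h : t < p) :
    foldPath p q x t = x true t := by
  simp only [foldPath, h, if_true]

theorem fp2 {p q : ℕ} {x : Bool → ℕ → ℤ} : foldPath p q x p = x true (p - 1) + 1 := by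
  simp only [foldPath, lt_irrefl, if_true, if_false]

theorem fp3 {p q : ℕ} {x : Bool → ℕ → ℤ} {t : ℕ} (h : p < t) :
    foldPath p q x t = x false (p + q - t) := by
  have e1 : ¬ t < p := by omega
  have e2 : t ≠ p := by omega
  simp only [foldPath, e1, e2, if_false]

theorem foldEmb_injOn {p q : ℕ} :
    Set.InjOn (foldEmb p q) (lets (lenTF p q) : Set ((_ : Bool) × ℕ)) := by
  rintro ⟨s, t⟩ h1 ⟨s', t'⟩ h2 h
  rw [Finset.mem_coe, mem_lets] at h1 h2
  unfold lenTF at h1 h2
  unfold foldEmb at h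
  cases s <;> cases s' <;> simp only [if_true, if_false, Bool.false_eq_true] at h1 h2 h
  · have : t = t' := by omega
    rw [this]
  · exfalso; omega
  · exfalso; omega
  · rw [h]

theorem foldEmb_image {p q : ℕ} :
    (lets (lenTF p q)).image (foldEmb p q) = (range (p + q + 1)).erase p := by
  apply Finset.eq_of_subset_of_card_le
  · intro k hk
    obtain ⟨⟨s, t⟩, h1, rfl⟩ := Finset.mem_image.1 hk
    rw [mem_lets] at h1
    unfold lenTF at h1
    rw [Finset.mem_erase, Finset.mem_range]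
    unfold foldEmb
    cases s <;> simp only [if_true, if_false, Bool.false_eq_true] at h1 ⊢ <;> omega
  · rw [Finset.card_image_of_injOn foldEmb_injOn, card_lets,
      Finset.card_erase_of_mem (Finset.mem_range.2 (by omega)), Finset.card_range]
    simp only [Fintype.univ_bool, Finset.mem_singleton, Bool.true_eq_false, not_false_eq_true,
      Finset.sum_insert, Finset.sum_singleton, lenTF, if_true, Bool.false_eq_true, if_false]
    omega

theorem foldPath_mem {p q : ℕ} (hp : 1 ≤ p) (hq : 1 ≤ q) {x : Bool → ℕ → ℤ}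
    (hx : x ∈ brs (lenTF p q)) : foldPath p q x ∈ paths st1 (p + q + 1) := by
  rw [mem_brs] at hx
  obtain ⟨hx1, hx2⟩ := hx
  have h1 := mem_paths1.1 (hx1 true)
  have h2 := mem_paths1.1 (hx1 false)
  simp only [lenTF, if_true, Bool.false_eq_true, if_false] at h1 h2
  have hR : x true (p - 1) = x false (q - 1) := by
    have h3 := hx2 true false (p - 1) (by simp [lenTF]; omega)
    have h4 := hx2 false true (q - 1) (by simp [lenTF]; omega)
    simp only [lenTF, if_true, Bool.false_eq_true, if_false] at h3 h4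
    omega
  rw [mem_paths1]
  refine ⟨?_, ?_, ?_⟩
  · rw [fp1 (by omega), h1.1]
  · intro t ht
    rcases Nat.lt_or_ge (t + 1) p with h3 | h3
    · rw [fp1 h3, fp1 (by omega)]
      exact h1.2.1 t h3
    · rcases Nat.lt_or_ge t p with h4 | h4
      · have h5 : t + 1 = p := by omega
        have h6 : t = p - 1 := by omega
        rw [h5, fp2, fp1 h4, h6]
        left; rfl
      · rcases Nat.eq_or_lt_of_le h4 with h5 | h5
        · rw [← h5, fp3 (by omega), fp2, hR]
          right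
          have e1 : p + q - (p + 1) = q - 1 := by omega
          rw [e1]; ring
        · rw [fp3 (by omega), fp3 h5]
          have e1 : p + q - t = (p + q - (t + 1)) + 1 := by omega
          rw [e1]
          rcases h2.2.1 (p + q - (t + 1)) (by omega) with h6 | h6
          · right; rw [h6]; ring
          · left; rw [h6]; ring
  · intro t ht
    rw [fp3 (by omega), fp3 (by omega)]
    have e1 : p + q - (t + 1) = p + q - t := by omega
    rw [e1]

theorem foldPath_inj {p q : ℕ} {x y : Bool → ℕ → ℤ}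
    (hx : x ∈ brs (lenTF p q)) (hy : y ∈ brs (lenTF p q))
    (h : foldPath p q x = foldPath p q y) : x = y := by
  rw [mem_brs] at hx hy
  funext s
  apply paths_ext (hx.1 s) (hy.1 s)
  intro i hi
  unfold lenTF at hi
  cases s
  · simp only [Bool.false_eq_true, if_false] at hi
    have h1 := congrFun h (p + q - i)
    rw [fp3 (by omega), fp3 (by omega)] at h1
    have e1 : p + q - (p + q - i) = i := by omega
    rwa [e1] at h1
  · simp only [if_true] at hi
    have h1 := congrFun h i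
    rwa [fp1 hi, fp1 hi] at h1

theorem foldPath_energy {p q : ℕ} (hp : 1 ≤ p) {x : Bool → ℕ → ℤ}
    (hx : x ∈ brs (lenTF p q)) {ω : ℕ → ℝ} (hω : ∀ i, |ω i| ≤ 1) :
    En (range (p + q + 1)) ω (foldPath p q x) ≤
      En (lets (lenTF p q)) (fun y => ω (foldEmb p q y)) (fun y => x y.1 y.2) + 1 := by
  rw [mem_brs] at hx
  obtain ⟨hx1, hx2⟩ := hx
  have e1 : En (lets (lenTF p q)) (fun y => ω (foldEmb p q y)) (fun y => x y.1 y.2) =
      En (lets (lenTF p q)) (fun y => ω (foldEmb p q y))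
        (fun y => foldPath p q x (foldEmb p q y)) := by
    apply En_congr (fun _ _ => rfl)
    rintro ⟨s, t⟩ ht
    rw [mem_lets] at ht
    unfold lenTF at ht
    unfold foldEmb
    cases s
    · simp only [Bool.false_eq_true, if_false] at ht ⊢
      rw [fp3 (by omega)]
      have e1 : p + q - (p + q - t) = t := by omega
      rw [e1]
    · simp only [if_true] at ht ⊢
      rw [fp1 ht]
  rw [e1, ← En_image foldEmb_injOn, foldEmb_image]
  have hsplit : range (p + q + 1) = (range (p + q + 1)).erase p ∪ {p} := by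
    ext i; simp only [mem_range, mem_union, mem_erase, mem_singleton]; omega
  have hdis : Disjoint ((range (p + q + 1)).erase p) {p} := by
    rw [Finset.disjoint_singleton_right]
    exact Finset.notMem_erase _ _
  have h3 : En (range (p + q + 1)) ω (foldPath p q x) =
      En ((range (p + q + 1)).erase p ∪ {p}) ω (foldPath p q x) := by rw [← hsplit]
  rw [h3, En_union hdis, Cr_eq_zero]
  · have h4 : En {p} ω (foldPath p q x) ≤ 1 := by
      have h5 := En_le_mult (J := {p}) hω (x := foldPath p q x) (D := 1) (fun z => by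
        refine (Finset.card_le_card (Finset.filter_subset _ _)).trans ?_
        simp)
      simpa using h5
    linarith
  · intro i hi j hj hij
    rw [Finset.mem_singleton] at hj
    subst hj
    rw [Finset.mem_erase, Finset.mem_range] at hi
    rw [fp2] at hij
    rcases Nat.lt_or_ge i j with h6 | h6
    · rw [fp1 h6] at hij
      have h7 := (hx2 true true i (by simp [lenTF]; omega)).2
      simp only [lenTF, if_true] at h7
      omega
    · rw [fp3 (by omega)] at hij
      have h7 := (hx2 false true (j + q - i) (by simp [lenTF]; omega)).2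
      simp only [lenTF, if_true] at h7
      omega

/-- Lower bound through pairs. -/
theorem Zf_ge_pair {b : ℝ} (hb : 0 ≤ b) {p q : ℕ} (hp : 1 ≤ p) (hq : 1 ≤ q) {ω : ℕ → ℝ}
    (hω : ∀ i, |ω i| ≤ 1) :
    (4 : ℝ)⁻¹ * Real.exp (-b) * ZS b (lenTF p q) (fun y => ω (foldEmb p q y)) ≤
      Zf st1 b (p + q + 1) ω := by
  unfold ZS Zf
  rw [Fintype.prod_bool, Fintype.card_bool]
  simp only [lenTF, if_true, Bool.false_eq_true, if_false]
  have hmain : Real.exp (-b) * ∑ x ∈ brs (lenTF p q), Real.exp (-(b * En (lets (lenTF p q))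
      (fun y => ω (foldEmb p q y)) (fun y => x y.1 y.2))) ≤
      ∑ x ∈ paths st1 (p + q + 1), Real.exp (-(b * En (range (p + q + 1)) ω x)) := by
    rw [Finset.mul_sum]
    apply sum_le_sum_of_inj (φ := foldPath p q)
    · intro x hx; exact foldPath_mem hp hq hx
    · intro x hx y hy h; exact foldPath_inj hx hy h
    · intro x _; exact Real.exp_nonneg _
    · intro x hx
      rw [← Real.exp_add]
      apply Real.exp_le_exp.2
      have := mul_le_mul_of_nonneg_left (foldPath_energy hp hx hω) hb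
      linarith
  have hnorm : ((2 : ℕ) : ℝ) ^ (p + q + 1 - 1) = 4 * (2 ^ (p - 1) * 2 ^ (q - 1)) := by
    have e1 : p + q + 1 - 1 = 2 + ((p - 1) + (q - 1)) := by omega
    rw [e1, pow_add, pow_add]
    norm_num
  rw [hnorm, mul_inv, mul_inv]
  calc (4 : ℝ)⁻¹ * Real.exp (-b) * ((((2 : ℝ) ^ (p - 1))⁻¹ * ((2 : ℝ) ^ (q - 1))⁻¹) *
        ∑ x ∈ brs (lenTF p q), Real.exp (-(b * En (lets (lenTF p q))
          (fun y => ω (foldEmb p q y)) (fun y => x y.1 y.2))))
      = ((4 : ℝ)⁻¹ * (((2 : ℝ) ^ (p - 1))⁻¹ * ((2 : ℝ) ^ (q - 1))⁻¹)) *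
        (Real.exp (-b) * ∑ x ∈ brs (lenTF p q), Real.exp (-(b * En (lets (lenTF p q))
          (fun y => ω (foldEmb p q y)) (fun y => x y.1 y.2)))) := by ring
    _ ≤ _ := mul_le_mul_of_nonneg_left hmain (by positivity)

/-- Lower bound through bridges. -/
theorem Zf_ge_bridge {b : ℝ} {L : ℕ} {ω : ℕ → ℝ} :
    ZS b (fun _ : Unit => L) (fun y => ω y.2) ≤ Zf st1 b L ω := by
  unfold ZS Zf
  rw [Fintype.card_bool]
  simp only [Finset.univ_unique, PUnit.default_eq_unit, Finset.prod_singleton]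
  apply mul_le_mul_of_nonneg_left _ (by positivity)
  apply sum_le_sum_of_inj (φ := fun x : Unit → ℕ → ℤ => x ())
  · intro x hx
    exact (mem_brs.1 hx).1 ()
  · intro x _ y _ h
    funext s
    cases s
    exact h
  · intro x _; exact Real.exp_nonneg _
  · intro x hx
    apply le_of_eq
    congr 3
    have hinj : Set.InjOn (fun y : (_ : Unit) × ℕ => y.2)
        (lets (fun _ : Unit => L) : Set ((_ : Unit) × ℕ)) := by
      rintro ⟨⟨⟩, t⟩ _ ⟨⟨⟩, t'⟩ _ h
      dsimp only at h
      rw [h]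
    have himg : (lets (fun _ : Unit => L)).image (fun y : (_ : Unit) × ℕ => y.2) = range L := by
      ext k
      rw [Finset.mem_image, Finset.mem_range]
      constructor
      · rintro ⟨y, hy, rfl⟩
        exact mem_lets.1 hy
      · intro hk
        exact ⟨⟨(), k⟩, mem_lets.2 hk, rfl⟩
    rw [← himg, En_image hinj]

end Pool.Agent.Lib.MP_5acba2_pr
end

section
/-!
The almost sure limit in dimension one.
-/
set_option autoImplicit false
set_option linter.unusedSectionVars false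

namespace Pool.Agent.Lib.MP_5acba2_pr

open Finset Function MeasureTheory Filter

variable {α : Type*} [MeasurableSpace α]

section pattern

variable {S : Type*} [Fintype S] [DecidableEq S] [Encodable S]

/-- One pattern, almost surely eventually. -/
theorem pattern_ae (ν : Measure α) [IsProbabilityMeasure ν] {b : ℝ} (hb : 0 ≤ b) {c : α → ℝ}
    (hcm : Measurable c) (hc : ∀ a, |c a| ≤ 1) {A : S → ℕ} (hA : ∀ s, 1 ≤ A s) {φ f X : ℝ}
    (hφ : HasRate (Measure.infinitePi (fun _ : (_ : S) × ℕ => ν)) (FS b c A) φ)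
    (hφX : φ ≤ f * X) {m : ℕ → ℕ} (hm0 : 1 ≤ m 0) (hm : ∀ k, 2 * m k ≤ m (k + 1))
    {e : ℕ → ((_ : S) × ℕ) → ℕ}
    (he : ∀ k, Set.InjOn (e k) (lets (fun s => 2 * A s * m k) : Set ((_ : S) × ℕ)))
    {δ : ℝ} (hδ : 0 < δ) :
    ∀ᵐ ω ∂(Measure.infinitePi (fun _ : ℕ => ν)), ∀ᶠ k in atTop,
      ZS b (fun s => 2 * A s * m k) (fun x => c (ω (e k x))) ≤
        Real.exp (f * (X * m k) + δ * m k) := by
  have hmpos : ∀ k, 1 ≤ m k := by
    intro k
    induction k with
    | zero => exact hm0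
    | succ k ih => have := hm k; omega
  filter_upwards [ae_scale ν hb hcm hc hA hφ hm0 hm he hδ] with ω hω
  filter_upwards [hω] with k hk
  have h1 := (abs_lt.1 hk).2
  unfold FE at h1
  have hpos := ZS_pos (b := b) (brs_nonempty hA (hmpos k)) (fun x => c (ω (e k x)))
  rw [← Real.log_le_iff_le_exp hpos]
  have h2 : φ * m k ≤ f * X * m k := mul_le_mul_of_nonneg_right hφX (Nat.cast_nonneg _)
  linarith

/-- Lower bound, almost surely eventually. -/
theorem lower_ae (ν : Measure α) [IsProbabilityMeasure ν] {b : ℝ} (hb : 0 ≤ b) {c : α → ℝ}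
    (hcm : Measurable c) (hc : ∀ a, |c a| ≤ 1) {A : S → ℕ} (hA : ∀ s, 1 ≤ A s) {φ : ℝ}
    (hφ0 : φ ≤ 0)
    (hφ : HasRate (Measure.infinitePi (fun _ : (_ : S) × ℕ => ν)) (FS b c A) φ)
    {D j : ℕ} (hD : 1 ≤ D) {κ : ℝ} (hκ : 0 < κ) {e : ℕ → ((_ : S) × ℕ) → ℕ}
    (he : ∀ m, Set.InjOn (e m) (lets (fun s => 2 * A s * m) : Set ((_ : S) × ℕ)))
    (hlow : ∀ m, 1 ≤ m → ∀ ω : ℕ → α,
      κ * ZS b (fun s => 2 * A s * m) (fun x => c (ω (e m x))) ≤
        Zf st1 b (D * m + j) (fun i => c (ω i)))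
    {a : ℕ} (ha : 1 ≤ a) {ε : ℝ} (hε : 0 < ε) :
    ∀ᵐ ω ∂(Measure.infinitePi (fun _ : ℕ => ν)), ∀ᶠ k in atTop,
      (φ / D - ε) * ((a * 2 ^ k : ℕ) : ℝ) ≤ Fr st1 b c (a * 2 ^ k) ω := by
  -- the subsequence
  set m : ℕ → ℕ := fun k => (a * 2 ^ k - j) / D with hmdef
  have hm1 : ∀ k, D * m k + j ≤ a * 2 ^ k ∨ a * 2 ^ k < j := by
    intro k
    rcases Nat.lt_or_ge (a * 2 ^ k) j with h | h
    · exact Or.inr h
    · left
      have := Nat.div_mul_le_self (a * 2 ^ k - j) D
      have h2 : D * m k = (a * 2 ^ k - j) / D * D := by rw [hmdef, mul_comm]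
      omega
  have hDpos : 0 < D := hD
  have hm2 : ∀ k, a * 2 ^ k < D * m k + j + D := by
    intro k
    have h1 := Nat.lt_div_mul_add (a := a * 2 ^ k - j) hDpos
    have h2 : D * m k = (a * 2 ^ k - j) / D * D := by rw [hmdef, mul_comm]
    omega
  have hdouble : ∀ k, 2 * m k ≤ m (k + 1) := by
    intro k
    rw [hmdef]
    dsimp only
    rw [Nat.le_div_iff_mul_le hDpos]
    have h1 := Nat.div_mul_le_self (a * 2 ^ k - j) D
    have h2 : a * 2 ^ (k + 1) = 2 * (a * 2 ^ k) := by rw [pow_succ]; ring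
    rw [h2]
    calc 2 * ((a * 2 ^ k - j) / D) * D = 2 * ((a * 2 ^ k - j) / D * D) := by ring
      _ ≤ 2 * (a * 2 ^ k - j) := Nat.mul_le_mul_left _ h1
      _ ≤ 2 * (a * 2 ^ k) - j := by omega
  set k0 : ℕ := j + D with hk0
  have hgrow : ∀ k, k < a * 2 ^ k := by
    intro k
    calc k < 2 ^ k := Nat.lt_two_pow_self
      _ ≤ a * 2 ^ k := Nat.le_mul_of_pos_left _ ha
  have hmk0 : 1 ≤ m (0 + k0) := by
    rw [zero_add, hmdef]
    dsimp only
    rw [Nat.le_div_iff_mul_le hDpos, one_mul]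
    have := hgrow k0
    omega
  have hstep : ∀ k, 2 * m (k + k0) ≤ m (k + 1 + k0) := by
    intro k
    have := hdouble (k + k0)
    have e1 : k + 1 + k0 = k + k0 + 1 := by ring
    rw [e1]; exact this
  have hae := ae_scale ν hb hcm hc hA hφ (m := fun k => m (k + k0)) hmk0 hstep
    (e := fun k => e (m (k + k0))) (fun k => he _) (ε := ε / 2) (by positivity)
  set L : ℝ := Real.log 2 with hL
  have hL0 : 0 ≤ L := Real.log_nonneg (by norm_num)
  set C : ℝ := L + 1 + b + 2 * √((1 + L + b) * b) with hC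
  have hC0 : 0 ≤ C := by positivity
  have hv : Injective (fun k : ℕ => k • st1 true) := by
    intro k l h
    simpa [st1] using h
  set Bd : ℝ := |Real.log κ| + C * D with hBd
  have hBd0 : 0 ≤ Bd := by positivity
  -- growth
  obtain ⟨M, hM⟩ := exists_nat_ge (((Bd + C * √(D : ℝ)) / (ε / 2)) ^ 2)
  filter_upwards [hae] with ω hω
  have hω' : ∀ᶠ k in atTop, |FE b c (fun s => 2 * A s * m k) (e (m k)) ω - φ * m k| <
      ε / 2 * m k := by
    rw [← eventually_map (m := fun k => k + k0) (f := atTop)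
      (P := fun k => |FE b c (fun s => 2 * A s * m k) (e (m k)) ω - φ * m k| <
      ε / 2 * m k)] at hω
    rwa [Filter.map_add_atTop_eq_nat] at hω
  filter_upwards [hω', eventually_ge_atTop (max (k0 + 1) M)] with k hk hkM
  have hkk0 : k0 + 1 ≤ k := (le_max_left _ _).trans hkM
  have hkM' : M ≤ k := (le_max_right _ _).trans hkM
  have h1 : D * m k + j ≤ a * 2 ^ k := by
    rcases hm1 k with h | h
    · exact h
    · have := hgrow k
      omega
  have hmk : 1 ≤ m k := by
    rw [hmdef]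
    dsimp only
    rw [Nat.le_div_iff_mul_le hDpos, one_mul]
    have := hgrow k
    omega
  obtain ⟨r, hr⟩ : ∃ r, a * 2 ^ k = D * m k + j + r := ⟨a * 2 ^ k - (D * m k + j), by omega⟩
  have hrD : r ≤ D := by
    have := hm2 k
    omega
  have h2 := log_Zf_append st1 st1_injective true hv hb (D * m k + j) r
    (ω := fun i => c (ω i)) (fun i => hc _) (L := L) (K := 1 + L + b)
    (by rw [Fintype.card_bool, hL]; norm_num) rfl
  rw [← hr, ← hC] at h2
  have h3 := hlow (m k) hmk ω
  have hpos := ZS_pos (b := b) (brs_nonempty hA hmk) (fun x => c (ω (e (m k) x)))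
  have h4 := Real.log_le_log (by positivity) h3
  rw [Real.log_mul hκ.ne' hpos.ne'] at h4
  have h5 := (abs_lt.1 hk).1
  unfold FE at h5
  have h6 := neg_abs_le (Real.log κ)
  set n : ℝ := ((a * 2 ^ k : ℕ) : ℝ) with hn
  have hDr : (1 : ℝ) ≤ D := by exact_mod_cast hD
  have hmn : (D : ℝ) * m k ≤ n := by
    rw [hn]
    exact_mod_cast (by omega : D * m k ≤ a * 2 ^ k)
  have hmn' : (m k : ℝ) ≤ n := by
    have : (0 : ℝ) ≤ m k := Nat.cast_nonneg _
    nlinarith
  have hrD' : (r : ℝ) ≤ D := by exact_mod_cast hrD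
  have hn0 : 0 ≤ n := Nat.cast_nonneg _
  have hDmj : ((D * m k + j : ℕ) : ℝ) ≤ n := by
    rw [hn]; exact_mod_cast h1
  have h7 : (r : ℝ) + √(r * ((D * m k + j : ℕ) : ℝ)) ≤ D + √(D : ℝ) * √n := by
    have h8 : √(r * ((D * m k + j : ℕ) : ℝ)) ≤ √(D : ℝ) * √n := by
      rw [← Real.sqrt_mul (by positivity)]
      apply Real.sqrt_le_sqrt
      exact mul_le_mul hrD' hDmj (Nat.cast_nonneg _) (by positivity)
    linarith
  have h9 : C * ((r : ℝ) + √(r * ((D * m k + j : ℕ) : ℝ))) ≤ C * (D + √(D : ℝ) * √n) :=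
    mul_le_mul_of_nonneg_left h7 hC0
  -- `φ m ≥ φ / D * n`
  have h10 : φ / D * n ≤ φ * m k := by
    rw [div_mul_eq_mul_div, div_le_iff₀ (by positivity)]
    have := mul_le_mul_of_nonpos_left hmn hφ0
    linarith
  have h11 : Bd + C * √(D : ℝ) * √n ≤ ε / 2 * n := by
    have hMn : (M : ℝ) ≤ n := by
      rw [hn]
      exact_mod_cast hkM'.trans (hgrow k).le
    have hn1 : 1 ≤ n := by
      rw [hn]
      exact_mod_cast Nat.mul_pos ha (by positivity)
    have hs : 1 ≤ √n := Real.one_le_sqrt.2 hn1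
    have hge : (Bd + C * √(D : ℝ)) / (ε / 2) ≤ √n := by
      apply Real.le_sqrt_of_sq_le
      linarith
    rw [div_le_iff₀ (by positivity)] at hge
    have hsq : √n * √n = n := Real.mul_self_sqrt hn0
    have h12 : (Bd + C * √(D : ℝ)) * √n ≤ √n * (ε / 2) * √n :=
      mul_le_mul_of_nonneg_right hge (by positivity)
    have h13 : √n * (ε / 2) * √n = ε / 2 * n := by
      calc √n * (ε / 2) * √n = (√n * √n) * (ε / 2) := by ring
        _ = _ := by rw [hsq]; ring
    rw [h13] at h12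
    have h14 : Bd ≤ Bd * √n := le_mul_of_one_le_right hBd0 hs
    nlinarith
  have h15 : ε / 2 * (m k : ℝ) ≤ ε / 2 * n := mul_le_mul_of_nonneg_left hmn' (by positivity)
  unfold Fr
  have h16 : C * (D + √(D : ℝ) * √n) = C * D + C * √(D : ℝ) * √n := by ring
  rw [h16] at h9
  linarith

end pattern

end Pool.Agent.Lib.MP_5acba2_pr
end

section
/-!
The almost sure upper bound in dimension one, and the limit.
-/
set_option autoImplicit false
set_option linter.unusedSectionVars false

namespace Pool.Agent.Lib.MP_5acba2_pr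

open Finset Function MeasureTheory Filter

theorem ae_imp' {Ω : Type*} [MeasurableSpace Ω] {μ : Measure Ω} {p : Prop} {P : Ω → Prop}
    (h : p → ∀ᵐ ω ∂μ, P ω) : ∀ᵐ ω ∂μ, p → P ω := by
  by_cases hp : p
  · filter_upwards [h hp] with ω hω _ using hω
  · exact Eventually.of_forall fun ω h' => absurd h' hp

theorem eventually_subsets {N : ℕ} {P : Finset ℕ → ℕ → Prop}
    (h : ∀ A ⊆ range N, ∀ᶠ k in atTop, P A k) : ∀ᶠ k in atTop, ∀ A ⊆ range N, P A k := by
  have h1 : ∀ᶠ k in atTop, ∀ A ∈ (range N).powerset, P A k :=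
    (Filter.eventually_all_finset _).2 fun A hA => h A (Finset.mem_powerset.1 hA)
  filter_upwards [h1] with k hk A hA using hk A (Finset.mem_powerset.2 hA)

theorem eventually_Icc {M : ℕ} {P : ℕ → ℕ → Prop}
    (h : ∀ a, 1 ≤ a → a ≤ M → ∀ᶠ k in atTop, P a k) :
    ∀ᶠ k in atTop, ∀ a, 1 ≤ a → a ≤ M → P a k := by
  have h1 : ∀ᶠ k in atTop, ∀ a ∈ Finset.Icc 1 M, P a k :=
    (Filter.eventually_all_finset _).2 fun a ha => h a (Finset.mem_Icc.1 ha).1
      (Finset.mem_Icc.1 ha).2
  filter_upwards [h1] with k hk a ha1 ha2 using hk a (Finset.mem_Icc.2 ⟨ha1, ha2⟩)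

theorem lenPair_eq (m a q : ℕ) :
    lenPair (2 * m) (a * (2 * m)) (q * (2 * m)) =
      fun s => 2 * lenTF (a + 2) (q + 2) s * m := by
  funext s
  cases s
  · simp only [lenPair, lenTF, Bool.false_eq_true, if_false]; ring
  · simp only [lenPair, lenTF, if_true]; ring

theorem lenBr_eq (m M ρ : ℕ) :
    lenBr (M * (2 * m)) (2 * (ρ * (2 * m)) + 2 * m) =
      fun _ => 2 * (M + 4 * ρ + 2) * m := by
  funext s
  simp only [lenBr]
  ring

variable {α : Type*} [MeasurableSpace α]

theorem good_ae (ν : Measure α) [IsProbabilityMeasure ν] {b : ℝ} (hb : 0 ≤ b) {c : α → ℝ}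
    (hcm : Measurable c) (hc : ∀ a, |c a| ≤ 1) {f : ℝ} (hf : f ≤ 0)
    (hB : ∀ A : Bool → ℕ, (∀ s, 1 ≤ A s) → ∃ φ : ℝ,
      HasRate (Measure.infinitePi (fun _ : (_ : Bool) × ℕ => ν)) (FS b c A) φ ∧
        φ ≤ f * (2 * (A true + A false)))
    (hU : ∀ A : Unit → ℕ, (∀ s, 1 ≤ A s) → ∃ φ : ℝ,
      HasRate (Measure.infinitePi (fun _ : (_ : Unit) × ℕ => ν)) (FS b c A) φ ∧
        φ ≤ f * (2 * A ()))
    {N ρ : ℕ} {m : ℕ → ℕ} (hm0 : 1 ≤ m 0) (hm : ∀ k, 2 * m k ≤ m (k + 1))
    {δ : ℝ} (hδ : 0 < δ) :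
    ∀ᵐ ω ∂(Measure.infinitePi (fun _ : ℕ => ν)), ∀ᶠ k in atTop,
      Good b N ρ (2 * m k) (fun i => c (ω i)) f (δ * m k) := by
  have hmpos : ∀ k, 1 ≤ m k := by
    intro k
    induction k with
    | zero => exact hm0
    | succ k ih => have := hm k; omega
  -- a pair pattern read along an injection
  have hpair : ∀ (M a : ℕ), 1 ≤ a → a ≤ M + 1 → ∀ g : ℕ → ℕ → ℕ, (∀ k, Injective (g k)) →
      ∀ᵐ ω ∂(Measure.infinitePi (fun _ : ℕ => ν)), ∀ᶠ k in atTop,
      ZS b (lenPair (2 * m k) (a * (2 * m k)) ((M + 1 - a) * (2 * m k)))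
        (fun x => c (ω (g k (pairEmb (2 * m k) (a * (2 * m k)) ((M + 1 - a) * (2 * m k)) x)))) ≤
        Real.exp (f * ((M + 1 : ℕ) * ((2 * m k : ℕ) : ℝ)) + δ * m k) := by
    intro M a ha1 haM g hg
    set A2 : Bool → ℕ := lenTF (a + 2) (M + 1 - a + 2) with hA2
    have hA2pos : ∀ s, 1 ≤ A2 s := by
      intro s
      cases s <;> simp [hA2, lenTF]
    obtain ⟨φ, hφ, hφf⟩ := hB A2 hA2pos
    have h1 := pattern_ae ν hb hcm hc hA2pos hφ hφf hm0 hm
      (e := fun k x => g k (pairEmb (2 * m k) (a * (2 * m k)) ((M + 1 - a) * (2 * m k)) x))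
      (fun k => by
        have e1 := lenPair_eq (m k) a (M + 1 - a)
        rw [← hA2] at e1
        rw [← e1]
        intro x hx y hy hxy
        exact pairEmb_injOn (by have := hmpos k; omega) hx hy (hg k hxy)) hδ
    filter_upwards [h1] with ω hω
    filter_upwards [hω] with k hk
    rw [lenPair_eq, ← hA2]
    refine hk.trans (Real.exp_le_exp.2 ?_)
    have h2 : (A2 true : ℝ) + A2 false = M + 5 := by
      simp only [hA2, lenTF, if_true, Bool.false_eq_true, if_false]
      have h3 : ((M + 1 - a : ℕ) : ℝ) = M + 1 - a := by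
        rw [Nat.cast_sub haM]; push_cast; ring
      push_cast
      rw [h3]
      ring
    rw [h2]
    push_cast
    have h4 : f * m k ≤ 0 := mul_nonpos_of_nonpos_of_nonneg hf (Nat.cast_nonneg _)
    nlinarith
  have h1 : ∀ᵐ ω ∂(Measure.infinitePi (fun _ : ℕ => ν)), ∀ A : Finset ℕ, A ⊆ range N →
      ∀ a, 1 ≤ a → a ≤ A.card + 1 → ∀ᶠ k in atTop,
      ZS b (lenPair (2 * m k) (a * (2 * m k)) ((A.card + 1 - a) * (2 * m k)))
        (fun x => c (ω (emb (2 * m k) (en N A)
          (pairEmb (2 * m k) (a * (2 * m k)) ((A.card + 1 - a) * (2 * m k)) x)))) ≤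
        Real.exp (f * ((A.card + 1 : ℕ) * ((2 * m k : ℕ) : ℝ)) + δ * m k) := by
    rw [ae_all_iff]; intro A
    apply ae_imp'; intro _
    rw [ae_all_iff]; intro a
    apply ae_imp'; intro ha1
    apply ae_imp'; intro ha2
    exact hpair A.card a ha1 ha2 (fun k => emb (2 * m k) (en N A)) (fun k =>
      emb_injective (by have := hmpos k; omega) (en_strictMono N A).injective)
  have h2 : ∀ᵐ ω ∂(Measure.infinitePi (fun _ : ℕ => ν)), ∀ A' : Finset ℕ, A' ⊆ range N →
      ∀ A : Finset ℕ, A ⊆ range A'.card →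
      ∀ a, 1 ≤ a → a ≤ A.card + 1 → ∀ᶠ k in atTop,
      ZS b (lenPair (2 * m k) (a * (2 * m k)) ((A.card + 1 - a) * (2 * m k)))
        (fun x => c (ω (emb (2 * m k) (en N A') (emb (2 * m k) (en A'.card A)
          (pairEmb (2 * m k) (a * (2 * m k)) ((A.card + 1 - a) * (2 * m k)) x))))) ≤
        Real.exp (f * ((A.card + 1 : ℕ) * ((2 * m k : ℕ) : ℝ)) + δ * m k) := by
    rw [ae_all_iff]; intro A'
    apply ae_imp'; intro _
    rw [ae_all_iff]; intro A
    apply ae_imp'; intro _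
    rw [ae_all_iff]; intro a
    apply ae_imp'; intro ha1
    apply ae_imp'; intro ha2
    exact hpair A.card a ha1 ha2
      (fun k t => emb (2 * m k) (en N A') (emb (2 * m k) (en A'.card A) t)) (fun k =>
      (emb_injective (by have := hmpos k; omega) (en_strictMono N A').injective).comp
        (emb_injective (by have := hmpos k; omega) (en_strictMono A'.card A).injective))
  have h3 : ∀ᵐ ω ∂(Measure.infinitePi (fun _ : ℕ => ν)), ∀ A' : Finset ℕ, A' ⊆ range N →
      ∀ A : Finset ℕ, A ⊆ range A'.card → ∀ᶠ k in atTop,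
      ZS b (lenBr (A.card * (2 * m k)) (2 * (ρ * (2 * m k)) + 2 * m k))
        (fun x => c (ω (emb (2 * m k) (en N A') (emb (2 * m k) (en A'.card A)
          (brEmb (A.card * (2 * m k)) (2 * (ρ * (2 * m k)) + 2 * m k) x))))) ≤
        Real.exp (f * (A.card * ((2 * m k : ℕ) : ℝ)) + δ * m k) := by
    rw [ae_all_iff]; intro A'
    apply ae_imp'; intro _
    rw [ae_all_iff]; intro A
    apply ae_imp'; intro _
    set A2 : Unit → ℕ := fun _ => A.card + 4 * ρ + 2 with hA2
    have hA2pos : ∀ s, 1 ≤ A2 s := by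
      intro s
      simp only [hA2]
      omega
    obtain ⟨φ, hφ, hφf⟩ := hU A2 hA2pos
    have h1 := pattern_ae ν hb hcm hc hA2pos hφ hφf hm0 hm
      (e := fun k x => emb (2 * m k) (en N A') (emb (2 * m k) (en A'.card A)
          (brEmb (A.card * (2 * m k)) (2 * (ρ * (2 * m k)) + 2 * m k) x)))
      (fun k => by
        have e1 := lenBr_eq (m k) A.card ρ
        have e2 : (fun s => 2 * A2 s * m k) = fun _ => 2 * (A.card + 4 * ρ + 2) * m k := rfl
        rw [e2, ← e1]
        intro x hx y hy hxy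
        exact brEmb_injOn hx hy
          ((emb_injective (by have := hmpos k; omega) (en_strictMono A'.card A).injective)
          ((emb_injective (by have := hmpos k; omega) (en_strictMono N A').injective) hxy))) hδ
    filter_upwards [h1] with ω hω
    filter_upwards [hω] with k hk
    rw [lenBr_eq]
    refine hk.trans (Real.exp_le_exp.2 ?_)
    simp only [hA2]
    push_cast
    have h4 : f * m k ≤ 0 := mul_nonpos_of_nonpos_of_nonneg hf (Nat.cast_nonneg _)
    have h5 : (0 : ℝ) ≤ ρ := Nat.cast_nonneg _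
    have h6 : f * m k * (8 * ρ + 4) ≤ 0 :=
      mul_nonpos_of_nonpos_of_nonneg h4 (by positivity)
    nlinarith
  filter_upwards [h1, h2, h3] with ω w1 w2 w3
  have v1 := eventually_subsets fun A hA => eventually_Icc (w1 A hA)
  have v2 := eventually_subsets (N := N) fun A' hA' =>
    eventually_subsets fun A hA => eventually_Icc (w2 A' hA' A hA)
  have v3 := eventually_subsets (N := N) fun A' hA' => eventually_subsets fun A hA => w3 A' hA' A hA
  filter_upwards [v1, v2, v3] with k u1 u2 u3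
  exact ⟨u1, u2, fun A' hA' A hA _ => u3 A' hA' A hA⟩

theorem upper_ae (ν : Measure α) [IsProbabilityMeasure ν] {b : ℝ} (hb : 0 ≤ b) {c : α → ℝ}
    (hcm : Measurable c) (hc : ∀ a, |c a| ≤ 1) {f : ℝ} (hf : f ≤ 0)
    (hB : ∀ A : Bool → ℕ, (∀ s, 1 ≤ A s) → ∃ φ : ℝ,
      HasRate (Measure.infinitePi (fun _ : (_ : Bool) × ℕ => ν)) (FS b c A) φ ∧
        φ ≤ f * (2 * (A true + A false)))
    (hU : ∀ A : Unit → ℕ, (∀ s, 1 ≤ A s) → ∃ φ : ℝ,
      HasRate (Measure.infinitePi (fun _ : (_ : Unit) × ℕ => ν)) (FS b c A) φ ∧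
        φ ≤ f * (2 * A ()))
    {a : ℕ} (ha : 1 ≤ a) {ε : ℝ} (hε : 0 < ε) :
    ∀ᵐ ω ∂(Measure.infinitePi (fun _ : ℕ => ν)), ∀ᶠ k in atTop,
      Fr st1 b c (a * 2 ^ k) ω ≤ (f + ε) * ((a * 2 ^ k : ℕ) : ℝ) := by
  obtain ⟨s, η0, hup⟩ := upper_log hb (ε := ε / 2) (by positivity)
  have hG := good_ae ν hb hcm hc hf hB hU (N := 2 ^ (4 * s)) (ρ := 2 ^ (3 * s))
    (m := fun k => a * 2 ^ k) (by simpa using ha) (fun k => by
      rw [pow_succ]
      apply le_of_eq
      ring) (δ := ε / 6) (by positivity)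
  filter_upwards [hG] with ω hω
  have hshift : ∀ᶠ k in atTop, Fr st1 b c (a * 2 ^ (k + (4 * s + 1))) ω ≤
      (f + ε) * ((a * 2 ^ (k + (4 * s + 1)) : ℕ) : ℝ) := by
    filter_upwards [hω, eventually_ge_atTop η0] with k hk hkη
    have hgrow : k < a * 2 ^ k := by
      calc k < 2 ^ k := Nat.lt_two_pow_self
        _ ≤ a * 2 ^ k := Nat.le_mul_of_pos_left _ ha
    have h1 := hup (2 * (a * 2 ^ k)) (by omega) (by omega) (fun i => c (ω i)) (fun i => hc _) f
      (ε / 6 * ((a * 2 ^ k : ℕ) : ℝ)) hf hk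
    have e1 : 2 ^ (4 * s) * (2 * (a * 2 ^ k)) = a * 2 ^ (k + (4 * s + 1)) := by
      rw [pow_add, pow_add]; ring
    rw [e1] at h1
    unfold Fr
    refine h1.trans ?_
    have h2 : ((a * 2 ^ k : ℕ) : ℝ) ≤ ((a * 2 ^ (k + (4 * s + 1)) : ℕ) : ℝ) := by
      exact_mod_cast Nat.mul_le_mul_left a (Nat.pow_le_pow_right (by norm_num) (by omega))
    have h3 := mul_le_mul_of_nonneg_left h2 (by positivity : (0 : ℝ) ≤ ε / 2)
    linarith
  have h4 := (eventually_map (m := fun k => k + (4 * s + 1)) (f := atTop)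
    (P := fun k => Fr st1 b c (a * 2 ^ k) ω ≤ (f + ε) * ((a * 2 ^ k : ℕ) : ℝ))).2 hshift
  rwa [Filter.map_add_atTop_eq_nat] at h4

/-- The almost sure limit in dimension one. -/
theorem dimOne_limit (ν : Measure α) [IsProbabilityMeasure ν] {b : ℝ} (hb : 0 ≤ b) {c : α → ℝ}
    (hcm : Measurable c) (hc : ∀ a, |c a| ≤ 1) :
    ∃ f : ℝ, ∀ᵐ ω ∂(Measure.infinitePi (fun _ : ℕ => ν)),
      Tendsto (fun N : ℕ => Fr st1 b c N ω / N) atTop (nhds f) := by
  have hexB : ∀ A : Bool → ℕ, ∃ φ : ℝ, (∀ s, 1 ≤ A s) → (φ ≤ 0 ∧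
      HasRate (Measure.infinitePi (fun _ : (_ : Bool) × ℕ => ν)) (FS b c A) φ) := by
    intro A
    by_cases hA : ∀ s, 1 ≤ A s
    · obtain ⟨φ, h1, h2⟩ := exists_rate ν hb hcm hc hA
      exact ⟨φ, fun _ => ⟨h1, h2⟩⟩
    · exact ⟨0, fun h => absurd h hA⟩
  have hexU : ∀ A : Unit → ℕ, ∃ φ : ℝ, (∀ s, 1 ≤ A s) → (φ ≤ 0 ∧
      HasRate (Measure.infinitePi (fun _ : (_ : Unit) × ℕ => ν)) (FS b c A) φ) := by
    intro A
    by_cases hA : ∀ s, 1 ≤ A s
    · obtain ⟨φ, h1, h2⟩ := exists_rate ν hb hcm hc hA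
      exact ⟨φ, fun _ => ⟨h1, h2⟩⟩
    · exact ⟨0, fun h => absurd h hA⟩
  choose φB hφB using hexB
  choose φU hφU using hexU
  set R : Set ℝ := {x | (∃ A : Bool → ℕ, (∀ s, 1 ≤ A s) ∧
      x = φB A / ((2 * (A true + A false) : ℕ) : ℝ)) ∨
    (∃ A : Unit → ℕ, (∀ s, 1 ≤ A s) ∧ x = φU A / ((2 * A () : ℕ) : ℝ))} with hR
  have hRbdd : BddAbove R := by
    refine ⟨0, ?_⟩
    rintro x (⟨A, hA, rfl⟩ | ⟨A, hA, rfl⟩)
    · exact div_nonpos_of_nonpos_of_nonneg (hφB A hA).1 (Nat.cast_nonneg _)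
    · exact div_nonpos_of_nonpos_of_nonneg (hφU A hA).1 (Nat.cast_nonneg _)
  have hRne : R.Nonempty := ⟨_, Or.inr ⟨fun _ => 1, fun _ => le_rfl, rfl⟩⟩
  set f := sSup R with hfdef
  have hf0 : f ≤ 0 := by
    apply csSup_le hRne
    rintro x (⟨A, hA, rfl⟩ | ⟨A, hA, rfl⟩)
    · exact div_nonpos_of_nonpos_of_nonneg (hφB A hA).1 (Nat.cast_nonneg _)
    · exact div_nonpos_of_nonpos_of_nonneg (hφU A hA).1 (Nat.cast_nonneg _)
  have hBle : ∀ A : Bool → ℕ, (∀ s, 1 ≤ A s) → ∃ φ : ℝ,
      HasRate (Measure.infinitePi (fun _ : (_ : Bool) × ℕ => ν)) (FS b c A) φ ∧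
        φ ≤ f * (2 * (A true + A false)) := by
    intro A hA
    refine ⟨φB A, (hφB A hA).2, ?_⟩
    have h1 : φB A / ((2 * (A true + A false) : ℕ) : ℝ) ≤ f := le_csSup hRbdd
      (Or.inl ⟨A, hA, rfl⟩)
    have h2 : (0 : ℝ) < ((2 * (A true + A false) : ℕ) : ℝ) := by
      have := hA true
      exact_mod_cast (by omega : 0 < 2 * (A true + A false))
    rw [div_le_iff₀ h2] at h1
    push_cast at h1
    exact h1
  have hUle : ∀ A : Unit → ℕ, (∀ s, 1 ≤ A s) → ∃ φ : ℝ,
      HasRate (Measure.infinitePi (fun _ : (_ : Unit) × ℕ => ν)) (FS b c A) φ ∧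
        φ ≤ f * (2 * A ()) := by
    intro A hA
    refine ⟨φU A, (hφU A hA).2, ?_⟩
    have h1 : φU A / ((2 * A () : ℕ) : ℝ) ≤ f := le_csSup hRbdd (Or.inr ⟨A, hA, rfl⟩)
    have h2 : (0 : ℝ) < ((2 * A () : ℕ) : ℝ) := by
      have := hA ()
      exact_mod_cast (by omega : 0 < 2 * A ())
    rw [div_le_iff₀ h2] at h1
    push_cast at h1
    exact h1
  have hlower : ∀ (a : ℕ), 1 ≤ a → ∀ ε : ℝ, 0 < ε →
      ∀ᵐ ω ∂(Measure.infinitePi (fun _ : ℕ => ν)), ∀ᶠ k in atTop,
      (f - ε) * ((a * 2 ^ k : ℕ) : ℝ) ≤ Fr st1 b c (a * 2 ^ k) ω := by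
    intro a ha ε hε
    obtain ⟨x, hxR, hx⟩ := exists_lt_of_lt_csSup hRne (show f - ε / 2 < sSup R by
      rw [← hfdef]; linarith)
    have key : ∀ᵐ ω ∂(Measure.infinitePi (fun _ : ℕ => ν)), ∀ᶠ k in atTop,
        (x - ε / 2) * ((a * 2 ^ k : ℕ) : ℝ) ≤ Fr st1 b c (a * 2 ^ k) ω := by
      rcases hxR with ⟨A, hA, rfl⟩ | ⟨A, hA, rfl⟩
      · have hAt := hA true
        have hAf := hA false
        have hlen : ∀ m, (fun s => 2 * A s * m) = lenTF (2 * A true * m) (2 * A false * m) := by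
          intro m
          funext s
          cases s <;> simp [lenTF]
        exact lower_ae ν hb hcm hc hA (hφB A hA).1 (hφB A hA).2
          (D := 2 * (A true + A false)) (j := 1) (by omega)
          (κ := (4 : ℝ)⁻¹ * Real.exp (-b)) (by positivity)
          (e := fun m => foldEmb (2 * A true * m) (2 * A false * m))
          (fun m => by rw [hlen]; exact foldEmb_injOn) (fun m hm ω => by
            rw [hlen]
            have h1 := Zf_ge_pair hb (p := 2 * A true * m) (q := 2 * A false * m)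
              (Nat.mul_pos (by omega) hm) (Nat.mul_pos (by omega) hm)
              (ω := fun i => c (ω i)) (fun i => hc _)
            have e1 : 2 * (A true + A false) * m + 1 =
              2 * A true * m + 2 * A false * m + 1 := by ring
            rw [e1]
            exact h1) ha (by positivity)
      · have hA1 := hA ()
        exact lower_ae ν hb hcm hc hA (hφU A hA).1 (hφU A hA).2
          (D := 2 * A ()) (j := 0) (by omega) (κ := 1) one_pos
          (e := fun m x => x.2)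
          (fun m => by
            rintro ⟨⟨⟩, t⟩ _ ⟨⟨⟩, t'⟩ _ h
            dsimp only at h
            rw [h]) (fun m hm ω => by
            rw [one_mul, add_zero]
            exact Zf_ge_bridge (ω := fun i => c (ω i))) ha (by positivity)
    filter_upwards [key] with ω hω
    filter_upwards [hω] with k hk
    refine le_trans ?_ hk
    apply mul_le_mul_of_nonneg_right _ (Nat.cast_nonneg _)
    linarith
  refine ⟨f, ?_⟩
  have hall : ∀ᵐ ω ∂(Measure.infinitePi (fun _ : ℕ => ν)), ∀ a : ℕ, 1 ≤ a → ∀ j : ℕ,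
      ∀ᶠ k : ℕ in atTop, |Fr st1 b c (a * 2 ^ k) ω - f * ((a * 2 ^ k : ℕ) : ℝ)| ≤
        (1 / ((j : ℝ) + 1)) * ((a * 2 ^ k : ℕ) : ℝ) := by
    rw [ae_all_iff]; intro a
    apply ae_imp'; intro ha
    rw [ae_all_iff]; intro j
    filter_upwards [upper_ae ν hb hcm hc hf0 hBle hUle ha (ε := 1 / ((j : ℝ) + 1)) (by positivity),
      hlower a ha (1 / ((j : ℝ) + 1)) (by positivity)] with ω h1 h2
    filter_upwards [h1, h2] with k h3 h4
    rw [abs_le]
    constructor <;> linarith
  set C : ℝ := Real.log 2 + 1 + b + 2 * √((1 + Real.log 2 + b) * b) with hC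
  have hC0 : 0 ≤ C := by
    have : 0 ≤ Real.log 2 := Real.log_nonneg (by norm_num)
    positivity
  have hv : Injective (fun k : ℕ => k • st1 true) := by
    intro k l h
    simpa [st1] using h
  filter_upwards [hall] with ω hω
  apply tendsto_of_scales (G := fun N => Fr st1 b c N ω) hC0
  · intro m r
    exact log_Zf_append st1 st1_injective true hv hb m r (ω := fun i => c (ω i)) (fun i => hc _)
      (by rw [Fintype.card_bool]; norm_num) rfl
  · intro a ha ε hε
    obtain ⟨j, hj⟩ := exists_nat_one_div_lt hε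
    filter_upwards [hω a ha j] with k hk
    refine hk.trans_lt ?_
    apply mul_lt_mul_of_pos_right hj
    exact_mod_cast Nat.mul_pos ha (by positivity)

end Pool.Agent.Lib.MP_5acba2_pr
end

section
/-!
The almost sure limit in all dimensions.
-/
set_option autoImplicit false
set_option linter.unusedSectionVars false

namespace Pool.Agent.Lib.MP_5acba2_pr

open Finset Function MeasureTheory Filter

theorem pos_fin_one {k : ℕ} (s : Fin k → Fin 1 × Bool) (i : ℕ) :
    pos unitStep s i 0 = pos st1 (fun j => (s j).2) i := by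
  unfold pos
  rw [Finset.sum_apply]
  apply Finset.sum_congr rfl
  intro j _
  have h0 : (s j).1 = 0 := Subsingleton.elim _ _
  by_cases h : j.val < i
  · rw [if_pos h, if_pos h]
    unfold unitStep st1
    rw [h0, Pi.single_eq_same]
  · rw [if_neg h, if_neg h]
    rfl

theorem Zf_fin_one (b : ℝ) (N : ℕ) (ω : ℕ → ℝ) :
    Zf (unitStep (d := 1)) b N ω = Zf st1 b N ω := by
  unfold Zf
  rw [sum_paths unitStep unitStep_injective, sum_paths st1 st1_injective]
  have h1 : Fintype.card (Fin 1 × Bool) = 2 := by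
    rw [Fintype.card_prod, Fintype.card_fin, Fintype.card_bool]
  rw [h1, Fintype.card_bool]
  congr 1
  have hφ : Injective (fun v : Fin 1 → ℤ => v 0) := by
    intro v w h
    funext i
    have : i = 0 := Subsingleton.elim _ _
    rw [this]
    exact h
  let e : (Fin (N - 1) → Fin 1 × Bool) ≃ (Fin (N - 1) → Bool) :=
    { toFun := fun s j => (s j).2
      invFun := fun s j => (0, s j)
      left_inv := fun s => by
        funext j
        exact Prod.ext (Subsingleton.elim _ _) rfl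
      right_inv := fun s => rfl }
  apply Fintype.sum_equiv e
  intro s
  have h2 := En_comp (range N) ω (pos unitStep s) hφ
  rw [← h2]
  have h3 : (fun i => pos unitStep s i 0) = pos st1 (e s) := by
    funext i
    exact pos_fin_one s i
  rw [h3]

/-- The almost sure limit in all dimensions, for the normalised free energy of letters. -/
theorem all_limit {d : ℕ} (hd : 1 ≤ d) {b : ℝ} (hb : 0 ≤ b) {p : ℝ} (hp0 : 0 < p)
    (hp1 : p < 1) : ∃ f : ℝ, ∀ᵐ ω ∂(Measure.infinitePi (fun _ : ℕ => coin p)),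
      Tendsto (fun N : ℕ => Fr (unitStep (d := d)) b chg N ω / N) atTop (nhds f) := by
  rcases Nat.lt_or_ge d 2 with h | h
  · have hd1 : d = 1 := by omega
    subst hd1
    have := isProb_coin hp0.le hp1.le
    obtain ⟨f, hf⟩ := dimOne_limit (coin p) hb measurable_chg abs_chg
    refine ⟨f, ?_⟩
    filter_upwards [hf] with ω hω
    have h1 : (fun N : ℕ => Fr (unitStep (d := 1)) b chg N ω / N) =
        fun N : ℕ => Fr st1 b chg N ω / N := by
      funext N
      unfold Fr
      rw [Zf_fin_one]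
    rw [h1]
    exact hω
  · exact highDim_limit h hb hp0 hp1

end Pool.Agent.Lib.MP_5acba2_pr
end
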